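import Mathlib
import Pool.Agent.Helper14.BooneMachine

/-! Stacks as rational numbers. -/

set_option autoImplicit false

namespace Pool.Agent.Helper56.QV

open Pool.Agent.Helper14.Boone

section

variable {Γ : Type} {g : ℕ} (e : Γ ≃ Fin g)

/-- Digit of a letter. -/
def dg (a : Γ) : ℕ := (e a : ℕ) + 1

/-- Digit of an optional letter. -/
def dgo : Option Γ → ℕ
  | none => 0
  | some a => dg e a

theorem dgo_injective : Function.Injective (dgo e) := by
  intro a b h
  cases a with
  | none =>
    cases b with
    | none => rfl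
    | some b => simp [dgo, dg] at h
  | some a =>
    cases b with
    | none => simp [dgo, dg] at h
    | some b =>
      simp only [dgo, dg] at h
      have h1 : (e a : ℕ) = e b := by omega
      rw [e.injective (Fin.ext h1)]

theorem dgo_le (a : Option Γ) : dgo e a ≤ g := by
  cases a with
  | none => simp [dgo]
  | some a => simp only [dgo, dg]; have := (e a).2; omega

/-- The rational number coding a stack. -/
def rho : List Γ → ℚ
  | [] => 0
  | a :: s => ((dg e a : ℚ) + rho s) / (g + 2)

theorem gpos : (0 : ℚ) < (g : ℚ) + 2 := by positivity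

theorem rho_cons (a : Γ) (s : List Γ) :
    ((g : ℚ) + 2) * rho e (a :: s) = (dg e a : ℚ) + rho e s := by
  rw [rho, mul_div_cancel₀ _ (gpos (g := g)).ne']

theorem rho_nonneg (s : List Γ) : 0 ≤ rho e s := by
  induction s with
  | nil => simp [rho]
  | cons a s ih => rw [rho]; positivity

theorem rho_le (s : List Γ) : ((g : ℚ) + 1) * rho e s ≤ g := by
  induction s with
  | nil => simp [rho]
  | cons a s ih =>
    have h1 := rho_cons e a s
    have h2 : (dg e a : ℚ) ≤ g := by exact_mod_cast dgo_le e (some a)
    have hg := gpos (g := g)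
    have h3 : ((g : ℚ) + 2) * (((g : ℚ) + 1) * rho e (a :: s)) ≤ ((g : ℚ) + 2) * g := by
      calc ((g : ℚ) + 2) * (((g : ℚ) + 1) * rho e (a :: s))
          = ((g : ℚ) + 1) * (((g : ℚ) + 2) * rho e (a :: s)) := by ring
        _ = ((g : ℚ) + 1) * (dg e a : ℚ) + ((g : ℚ) + 1) * rho e s := by rw [h1]; ring
        _ ≤ ((g : ℚ) + 1) * g + g := by
            have : (0 : ℚ) ≤ (g : ℚ) + 1 := by positivity
            nlinarith
        _ = ((g : ℚ) + 2) * g := by ring
    exact le_of_mul_le_mul_left h3 hg

theorem rho_tail (s : List Γ) :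
    ((g : ℚ) + 2) * rho e s - dgo e s.head? = rho e s.tail := by
  cases s with
  | nil => simp [rho, dgo]
  | cons a s => rw [rho_cons]; simp [dgo]

/-- The guards determine the top letter. -/
theorem guard_unique (s : List Γ) (d : Option Γ)
    (h1 : 0 ≤ ((g : ℚ) + 2) * rho e s - dgo e d)
    (h2 : 0 ≤ (g : ℚ) - ((g : ℚ) + 1) * (((g : ℚ) + 2) * rho e s - dgo e d)) :
    d = s.head? := by
  have h3 := rho_tail e s
  have h4 := rho_nonneg e s.tail
  have h5 := rho_le e s.tail
  have hg1 : (0 : ℚ) < (g : ℚ) + 1 := by positivity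
  apply dgo_injective e
  have h6 : (dgo e d : ℚ) < dgo e s.head? + 1 := by nlinarith
  have h7 : (dgo e s.head? : ℚ) < dgo e d + 1 := by nlinarith
  have h6' : dgo e d < dgo e s.head? + 1 := by exact_mod_cast h6
  have h7' : dgo e s.head? < dgo e d + 1 := by exact_mod_cast h7
  omega

theorem guard_ok (s : List Γ) :
    0 ≤ ((g : ℚ) + 2) * rho e s - dgo e s.head? ∧
      0 ≤ (g : ℚ) - ((g : ℚ) + 1) * (((g : ℚ) + 2) * rho e s - dgo e s.head?) := by
  rw [rho_tail]
  exact ⟨rho_nonneg e _, by linarith [rho_le e s.tail]⟩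

/-- Exponents of the code of a stack: `rho s = num s / (g + 2) ^ s.length`. -/
def num : List Γ → ℕ
  | [] => 0
  | a :: s => dg e a * (g + 2) ^ s.length + num s

theorem rho_eq_num (s : List Γ) : ((g : ℚ) + 2) ^ s.length * rho e s = num e s := by
  induction s with
  | nil => simp [rho, num]
  | cons a s ih =>
    rw [List.length_cons, pow_succ, mul_assoc, rho_cons, mul_add, ih, num]
    push_cast
    ring

end

end Pool.Agent.Helper56.QV
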