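import Mathlib

/-!
Lattice-ordered groups, terms, identities and quasi-identities in the language
`(·, ⁻¹, 1, ∧, ∨)`, and the lattice-ordered group `Aut(Ω)` of a chain `Ω`.
-/

set_option autoImplicit false

namespace Pool.Agent.Helper56.QV

universe u v

/-- A lattice-ordered group: a group with a lattice order such that `a ≤ b` implies
`c a d ≤ c b d`. -/
class LGroup (G : Type u) extends Group G, Lattice G where
  mul_le_mul_mul : ∀ a b c d : G, a ≤ b → c * a * d ≤ c * b * d

instance LGroup.toMulLeftMono (G : Type u) [LGroup G] : MulLeftMono G :=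
  ⟨fun c a b h => by simpa using LGroup.mul_le_mul_mul a b c 1 h⟩

instance LGroup.toMulRightMono (G : Type u) [LGroup G] : MulRightMono G :=
  ⟨fun c a b h => by simpa [Function.swap] using LGroup.mul_le_mul_mul a b 1 c h⟩

/-- Terms of the language of lattice-ordered groups, with variables indexed by `ℕ`. -/
inductive Tm : Type
  | var (n : ℕ) : Tm
  | one : Tm
  | mul (s t : Tm) : Tm
  | inv (t : Tm) : Tm
  | inf (s t : Tm) : Tm
  | sup (s t : Tm) : Tm

/-- Value of a term. -/
def Tm.eval {G : Type u} [LGroup G] (x : ℕ → G) : Tm → G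
  | .var n => x n
  | .one => 1
  | .mul s t => s.eval x * t.eval x
  | .inv t => (t.eval x)⁻¹
  | .inf s t => s.eval x ⊓ t.eval x
  | .sup s t => s.eval x ⊔ t.eval x

/-- A quasi-identity: finitely many premises and one conclusion, all of them equations. -/
structure QId : Type where
  prem : List (Tm × Tm)
  concl : Tm × Tm

/-- The quasi-identity `φ` is true in `G`. -/
def QId.Holds (φ : QId) (G : Type u) [LGroup G] : Prop :=
  ∀ x : ℕ → G, (∀ e ∈ φ.prem, e.1.eval x = e.2.eval x) → φ.concl.1.eval x = φ.concl.2.eval x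

/-- The identity `e.1 = e.2` is true in `G`. -/
def IdHolds (e : Tm × Tm) (G : Type u) [LGroup G] : Prop :=
  ∀ x : ℕ → G, e.1.eval x = e.2.eval x

/-- Gödel number of a term. -/
def Tm.code : Tm → ℕ
  | .var n => Nat.pair 0 n
  | .one => Nat.pair 1 0
  | .mul s t => Nat.pair 2 (Nat.pair s.code t.code)
  | .inv t => Nat.pair 3 t.code
  | .inf s t => Nat.pair 4 (Nat.pair s.code t.code)
  | .sup s t => Nat.pair 5 (Nat.pair s.code t.code)

/-- Gödel number of an equation. -/
def eqCode (e : Tm × Tm) : ℕ := Nat.pair e.1.code e.2.code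

/-- Gödel number of a quasi-identity. -/
def QId.code (φ : QId) : ℕ :=
  Nat.pair (Encodable.encode (φ.prem.map eqCode)) (eqCode φ.concl)

section Aut

variable {Ω : Type u} [LinearOrder Ω]

/-- Pointwise maximum of two automorphisms of a chain. -/
def oiSup (f g : Ω ≃o Ω) : Ω ≃o Ω where
  toFun x := max (f x) (g x)
  invFun x := min (f.symm x) (g.symm x)
  left_inv x := by
    rcases le_total (f x) (g x) with h | h
    · simp only [max_eq_right h]
      rw [g.symm_apply_apply, min_eq_right]
      exact (f.le_symm_apply).2 h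
    · simp only [max_eq_left h]
      rw [f.symm_apply_apply, min_eq_left]
      exact (g.le_symm_apply).2 h
  right_inv x := by
    rcases le_total (f.symm x) (g.symm x) with h | h
    · simp only [min_eq_left h]
      rw [f.apply_symm_apply, max_eq_left]
      exact (g.le_symm_apply).1 h
    · simp only [min_eq_right h]
      rw [g.apply_symm_apply, max_eq_right]
      exact (f.le_symm_apply).1 h
  map_rel_iff' := by
    intro a b
    constructor
    · intro h
      by_contra hab
      push Not at hab
      have h1 : f b < f a := f.lt_iff_lt.2 hab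
      have h2 : g b < g a := g.lt_iff_lt.2 hab
      exact absurd h (not_le.2 (max_lt_max h1 h2))
    · intro h
      exact max_le_max (f.le_iff_le.2 h) (g.le_iff_le.2 h)

/-- Pointwise minimum of two automorphisms of a chain. -/
def oiInf (f g : Ω ≃o Ω) : Ω ≃o Ω where
  toFun x := min (f x) (g x)
  invFun x := max (f.symm x) (g.symm x)
  left_inv x := by
    rcases le_total (f x) (g x) with h | h
    · simp only [min_eq_left h]
      rw [f.symm_apply_apply, max_eq_left]
      exact (g.symm_apply_le).2 h
    · simp only [min_eq_right h]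
      rw [g.symm_apply_apply, max_eq_right]
      exact (f.symm_apply_le).2 h
  right_inv x := by
    rcases le_total (f.symm x) (g.symm x) with h | h
    · simp only [max_eq_right h]
      rw [g.apply_symm_apply, min_eq_right]
      exact (f.symm_apply_le).1 h
    · simp only [max_eq_left h]
      rw [f.apply_symm_apply, min_eq_left]
      exact (g.symm_apply_le).1 h
  map_rel_iff' := by
    intro a b
    constructor
    · intro h
      by_contra hab
      push Not at hab
      have h1 : f b < f a := f.lt_iff_lt.2 hab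
      have h2 : g b < g a := g.lt_iff_lt.2 hab
      exact absurd h (not_le.2 (min_lt_min h1 h2))
    · intro h
      exact min_le_min (f.le_iff_le.2 h) (g.le_iff_le.2 h)

/-- The lattice-ordered group `Aut(Ω)` of all automorphisms of a chain, with composition as
product and the pointwise order. -/
instance autLGroup : LGroup (Ω ≃o Ω) where
  le f g := ∀ x, f x ≤ g x
  le_refl f x := le_rfl
  le_trans f g h hfg hgh x := (hfg x).trans (hgh x)
  le_antisymm f g hfg hgf := by
    apply OrderIso.ext
    funext x
    exact le_antisymm (hfg x) (hgf x)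
  sup := oiSup
  le_sup_left f g x := le_max_left _ _
  le_sup_right f g x := le_max_right _ _
  sup_le f g h hf hg x := max_le (hf x) (hg x)
  inf := oiInf
  inf_le_left f g x := min_le_left _ _
  inf_le_right f g x := min_le_right _ _
  le_inf f g h hf hg x := le_min (hf x) (hg x)
  mul_le_mul_mul a b c d h x := c.le_iff_le.2 (h (d x))

/-- The convexified orbit of `x` under `g`. -/
def bump (g : Ω ≃o Ω) (x : Ω) : Set Ω := {z | ∃ m n : ℤ, (g ^ m) x ≤ z ∧ z ≤ (g ^ n) x}

end Aut

/-- There is a nontrivial automorphism with iterated square roots. -/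
def HasDyadic (Ω : Type u) [LinearOrder Ω] : Prop :=
  ∃ t : ℕ → (Ω ≃o Ω), t 0 ≠ 1 ∧ ∀ n, t (n + 1) * t (n + 1) = t n

/-- Every bounded interval of `Ω` is countable, or it does not contain a copy of `ℚ`. -/
def LocCS (Ω : Type u) [LinearOrder Ω] : Prop :=
  ∀ a b : Ω, (Set.Icc a b).Countable ∨ IsEmpty (ℚ ↪o Set.Icc a b)

/-- At every point, only finitely many bumps lie between two nontrivial bumps. -/
def LocFin (Ω : Type u) [LinearOrder Ω] : Prop :=
  ∀ (ω : Ω) (g h : Ω ≃o Ω), g ω ≠ ω →
    {C : Set Ω | (∃ k : Ω ≃o Ω, C = bump k ω) ∧ bump g ω ⊆ C ∧ C ⊆ bump h ω}.Finite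

/-- The wreath product `G Wr ℤ`: pairs `(f, s)` of a function `f : ℤ → G` and an integer `s`. -/
@[ext] structure Wr (G : Type u) : Type u where
  f : ℤ → G
  s : ℤ

namespace Wr

variable {G : Type u} [LGroup G]

instance : Group (Wr G) where
  mul a b := ⟨fun k => a.f (k + b.s) * b.f k, a.s + b.s⟩
  one := ⟨fun _ => 1, 0⟩
  inv a := ⟨fun k => (a.f (k - a.s))⁻¹, -a.s⟩
  mul_assoc a b c := by
    apply Wr.ext
    · funext k
      change a.f (k + c.s + b.s) * b.f (k + c.s) * c.f k =
        a.f (k + (b.s + c.s)) * (b.f (k + c.s) * c.f k)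
      rw [mul_assoc]
      congr 2
      ring
    · change a.s + b.s + c.s = a.s + (b.s + c.s)
      ring
  one_mul a := by
    apply Wr.ext
    · funext k
      change 1 * a.f k = a.f k
      rw [one_mul]
    · change 0 + a.s = a.s
      ring
  mul_one a := by
    apply Wr.ext
    · funext k
      change a.f (k + 0) * 1 = a.f k
      rw [mul_one, add_zero]
    · change a.s + 0 = a.s
      ring
  inv_mul_cancel a := by
    apply Wr.ext
    · funext k
      change (a.f (k + a.s - a.s))⁻¹ * a.f k = 1
      rw [add_sub_cancel_right, inv_mul_cancel]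
    · change -a.s + a.s = 0
      ring

instance : PartialOrder (Wr G) where
  le a b := a.s < b.s ∨ a.s = b.s ∧ ∀ k, a.f k ≤ b.f k
  le_refl a := Or.inr ⟨rfl, fun _ => le_rfl⟩
  le_trans a b c h1 h2 := by
    rcases h1 with h1 | ⟨h1, h1'⟩ <;> rcases h2 with h2 | ⟨h2, h2'⟩
    · exact Or.inl (h1.trans h2)
    · exact Or.inl (h2 ▸ h1)
    · exact Or.inl (h1 ▸ h2)
    · exact Or.inr ⟨h1.trans h2, fun k => (h1' k).trans (h2' k)⟩
  le_antisymm a b h1 h2 := by
    rcases h1 with h1 | ⟨h1, h1'⟩ <;> rcases h2 with h2 | ⟨h2, h2'⟩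
    · exact absurd h1 (not_lt.2 h2.le)
    · exact absurd h2 h1.ne'
    · exact absurd h1 h2.ne'
    · exact Wr.ext (funext fun k => le_antisymm (h1' k) (h2' k)) h1

instance : Lattice (Wr G) where
  sup a b := if a.s < b.s then b else if b.s < a.s then a else ⟨fun k => a.f k ⊔ b.f k, a.s⟩
  inf a b := if a.s < b.s then a else if b.s < a.s then b else ⟨fun k => a.f k ⊓ b.f k, a.s⟩
  le_sup_left a b := by
    by_cases h1 : a.s < b.s
    · rw [if_pos h1]
      exact Or.inl h1
    · rw [if_neg h1]
      by_cases h2 : b.s < a.s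
      · rw [if_pos h2]
      · rw [if_neg h2]
        exact Or.inr ⟨rfl, fun k => le_sup_left⟩
  le_sup_right a b := by
    by_cases h1 : a.s < b.s
    · rw [if_pos h1]
    · rw [if_neg h1]
      by_cases h2 : b.s < a.s
      · rw [if_pos h2]
        exact Or.inl h2
      · rw [if_neg h2]
        exact Or.inr ⟨le_antisymm (not_lt.1 h1) (not_lt.1 h2), fun k => le_sup_right⟩
  sup_le a b c h1 h2 := by
    by_cases h3 : a.s < b.s
    · rw [if_pos h3]
      exact h2
    · rw [if_neg h3]
      by_cases h4 : b.s < a.s
      · rw [if_pos h4]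
        exact h1
      · rw [if_neg h4]
        have h5 : a.s = b.s := le_antisymm (not_lt.1 h4) (not_lt.1 h3)
        rcases h1 with h1 | ⟨h1, h1'⟩
        · exact Or.inl h1
        · rcases h2 with h2 | ⟨h2, h2'⟩
          · exact Or.inl (h5 ▸ h2)
          · exact Or.inr ⟨h1, fun k => sup_le (h1' k) (h2' k)⟩
  inf_le_left a b := by
    by_cases h1 : a.s < b.s
    · rw [if_pos h1]
    · rw [if_neg h1]
      by_cases h2 : b.s < a.s
      · rw [if_pos h2]
        exact Or.inl h2
      · rw [if_neg h2]
        exact Or.inr ⟨rfl, fun k => inf_le_left⟩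
  inf_le_right a b := by
    by_cases h1 : a.s < b.s
    · rw [if_pos h1]
      exact Or.inl h1
    · rw [if_neg h1]
      by_cases h2 : b.s < a.s
      · rw [if_pos h2]
      · rw [if_neg h2]
        exact Or.inr ⟨le_antisymm (not_lt.1 h2) (not_lt.1 h1), fun k => inf_le_right⟩
  le_inf a b c h1 h2 := by
    by_cases h3 : b.s < c.s
    · rw [if_pos h3]
      exact h1
    · rw [if_neg h3]
      by_cases h4 : c.s < b.s
      · rw [if_pos h4]
        exact h2
      · rw [if_neg h4]
        have h5 : b.s = c.s := le_antisymm (not_lt.1 h4) (not_lt.1 h3)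
        rcases h1 with h1 | ⟨h1, h1'⟩
        · exact Or.inl h1
        · rcases h2 with h2 | ⟨h2, h2'⟩
          · exact Or.inl (h5 ▸ h2)
          · exact Or.inr ⟨h1, fun k => le_inf (h1' k) (h2' k)⟩

/-- `G Wr ℤ` is a lattice-ordered group: the product of `(f, s)` and `(g, t)` is
`(k ↦ f (k + t) g(k), s + t)`, and `(f, s) ≤ (g, t)` if `s < t`, or `s = t` and
`f k ≤ g k` for all `k`. -/
instance instLGroup : LGroup (Wr G) where
  toGroup := inferInstance
  toLattice := inferInstance
  mul_le_mul_mul a b c d h := by
    rcases h with h | ⟨h, h'⟩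
    · left
      change c.s + a.s + d.s < c.s + b.s + d.s
      omega
    · right
      refine ⟨?_, fun k => ?_⟩
      · change c.s + a.s + d.s = c.s + b.s + d.s
        omega
      · change c.f (k + d.s + a.s) * a.f (k + d.s) * d.f k ≤
          c.f (k + d.s + b.s) * b.f (k + d.s) * d.f k
        rw [h]
        exact LGroup.mul_le_mul_mul _ _ _ _ (h' _)

end Wr

/-- The one-element lattice-ordered group. -/
instance trivialLGroup : LGroup Unit where
  toGroup := inferInstance
  toLattice := inferInstance
  mul_le_mul_mul _ _ _ _ _ := le_rfl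

/-- The wreath powers of the integers: `WrPow 0` is trivial and
`WrPow (n + 1) = WrPow n Wr ℤ`. -/
def WrPow : ℕ → Type
  | 0 => Unit
  | n + 1 => Wr (WrPow n)

/-- The wreath powers of the integers are lattice-ordered groups. -/
instance instWrPow : (n : ℕ) → LGroup (WrPow n)
  | 0 => trivialLGroup
  | n + 1 => @Wr.instLGroup (WrPow n) (instWrPow n)

/-- `G` belongs to the quasi-variety generated by `K`: every quasi-identity that is true in `K`
is true in `G`. -/
def InQV (K : Type u) [LGroup K] (G : Type v) [LGroup G] : Prop :=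
  ∀ φ : QId, φ.Holds K → φ.Holds G

end Pool.Agent.Helper56.QV
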