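import Mathlib
import Pool.Agent.Helper56.QV.Defs
import Pool.Agent.Helper56.QV.Code

/-! The system of equations attached to a stack machine. -/

set_option autoImplicit false

namespace Pool.Agent.Helper56.QV

open Pool.Agent.Helper14.Boone

universe u

/-- Powers of terms. -/
def Tm.pw (t : Tm) : ℕ → Tm
  | 0 => .one
  | n + 1 => .mul (t.pw n) t

theorem Tm.eval_pw {G : Type u} [LGroup G] (x : ℕ → G) (t : Tm) (n : ℕ) :
    (t.pw n).eval x = (t.eval x) ^ n := by
  induction n with
  | zero => simp [Tm.pw, Tm.eval]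
  | succ n ih => simp [Tm.pw, Tm.eval, ih, pow_succ]

/-- `s ∧ |w|`. -/
def Tm.act (s w : Tm) : Tm := .inf s (.sup w (.inv w))

/-- Join of a list together with `1`. -/
def Tm.big (l : List Tm) : Tm := l.foldr Tm.sup Tm.one

/-- Variables of the system. -/
inductive Vr (C K Γ : Type) : Type
  | b | c | st | tt
  | reg (o : K)
  | ind (q : C) (d : K → Option Γ)

section

variable {C K Γ : Type} {g : ℕ} (e : Γ ≃ Fin g) (ix : Vr C K Γ → ℕ)

/-- Conjugation by `b`. -/
def cj (t : Tm) : Tm := .mul (.mul (.inv (.var (ix .b))) t) (.var (ix .b))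

/-- The tail term of a register. -/
def wG1 (o : K) (d : Option Γ) : Tm :=
  .mul (Tm.pw (.var (ix (.reg o))) (g + 2)) (.inv (Tm.pw (.var (ix .c)) (dgo e d)))

/-- The upper guard of a register. -/
def wG2 (o : K) (d : Option Γ) : Tm :=
  .mul (Tm.pw (.var (ix .c)) g) (.inv (Tm.pw (wG1 e ix o d) (g + 1)))

/-- The update of a register. -/
def wU (o : K) (d : Option Γ) : Op Γ → Tm
  | .id => .mul (cj ix (.var (ix (.reg o)))) (.inv (.var (ix (.reg o))))
  | .pop => .mul (cj ix (.var (ix (.reg o)))) (.inv (wG1 e ix o d))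
  | .push a => .mul (Tm.pw (cj ix (.var (ix (.reg o)))) (g + 2))
      (.inv (.mul (.var (ix (.reg o))) (Tm.pw (.var (ix .c)) (dg e a))))

/-- Conditions saying that `s` is a component of `c`. -/
def comp2 (s : Tm) : List Tm :=
  [.inf s .one, .inf s (.mul (.var (ix .c)) (.inv s))]

variable [Fintype C] [Fintype K] [Fintype Γ] [DecidableEq K] [DecidableEq C]

/-- All rules. -/
noncomputable def allP (C K Γ : Type) [Fintype C] [Fintype K] [Fintype Γ] [DecidableEq K] :
    List (C × (K → Option Γ)) := (Finset.univ : Finset (C × (K → Option Γ))).toList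

/-- Join of the rule indicators with control `q`. -/
noncomputable def sel (q : C) : Tm :=
  Tm.big ((Finset.univ : Finset (K → Option Γ)).toList.map fun d => .var (ix (.ind q d)))

/-- Conditions attached to a rule and a stack. -/
def rule1 (M : SM C K Γ) (p : C × (K → Option Γ)) (o : K) : List Tm :=
  [Tm.act (.var (ix (.ind p.1 p.2))) (.inf (wG1 e ix o (p.2 o)) .one),
   Tm.act (.var (ix (.ind p.1 p.2))) (.inf (wG2 e ix o (p.2 o)) .one),
   Tm.act (.var (ix (.ind p.1 p.2))) (wU e ix o (p.2 o) ((M.nxt p.1 p.2).2 o))]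

/-- Conditions attached to a rule. -/
noncomputable def rule2 (M : SM C K Γ) (h : C) (p : C × (K → Option Γ)) : List Tm :=
  [Tm.act (.var (ix (.ind p.1 p.2)))
      (.mul (.var (ix .tt)) (.inv (Tm.pw (cj ix (.var (ix .tt))) 2))),
    if (M.nxt p.1 p.2).1 = h then .one else
      .sup (.mul (.var (ix (.ind p.1 p.2))) (.inv (cj ix (sel ix (M.nxt p.1 p.2).1)))) .one]

/-- The part of the system that does not depend on the input. -/
noncomputable def fixed (M : SM C K Γ) (q₀ h : C) : List Tm :=
  [.inf (.var (ix .c)) .one, .mul (cj ix (.var (ix .c))) (.inv (.var (ix .c))),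
    Tm.act (.var (ix .st)) (.mul (.var (ix .tt)) (.inv (.var (ix .c)))),
    .sup (.mul (.var (ix .st)) (.inv (sel ix q₀))) .one] ++
  comp2 ix (.var (ix .st)) ++
  (allP C K Γ).flatMap (fun p => comp2 ix (.var (ix (.ind p.1 p.2)))) ++
  (Finset.univ : Finset K).toList.map (fun o =>
    .mul (.mul (.var (ix (.reg o))) (.var (ix .c)))
      (.mul (.inv (.var (ix (.reg o)))) (.inv (.var (ix .c))))) ++
  (allP C K Γ).flatMap (fun p => (Finset.univ : Finset K).toList.flatMap (rule1 e ix M p)) ++
  (allP C K Γ).flatMap (rule2 ix M h)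

/-- The condition fixing the initial content of a stack. -/
def start1 (s : List Γ) (o : K) : Tm :=
  Tm.act (.var (ix .st)) (.mul (Tm.pw (.var (ix (.reg o))) ((g + 2) ^ s.length))
    (.inv (Tm.pw (.var (ix .c)) (num e s))))

/-- The conditions depending on the input. -/
noncomputable def start (S : K → List Γ) : List Tm :=
  (Finset.univ : Finset K).toList.map fun o => start1 e ix (S o) o

/-- The quasi-identity of a machine and an initial configuration. -/
noncomputable def qid (M : SM C K Γ) (q₀ h : C) (S : K → List Γ) : QId where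
  prem := (start e ix S ++ fixed e ix M q₀ h).map fun t => (t, .one)
  concl := (.var (ix .st), .one)

omit [DecidableEq C] in
theorem mem_allP (p : C × (K → Option Γ)) : p ∈ allP C K Γ := by simp [allP]

end

end Pool.Agent.Helper56.QV
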