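import Mathlib
import Pool.Agent.Helper56.QV.Sys

/-! Semantic form of the system. -/

set_option autoImplicit false

namespace Pool.Agent.Helper56.QV

open Pool.Agent.Helper14.Boone

universe u

section

variable {C K Γ : Type} {g : ℕ} (e : Γ ≃ Fin g) {G : Type u} [LGroup G]

def actG (s w : G) : G := s ⊓ (w ⊔ w⁻¹)

def cjG (X : Vr C K Γ → G) (t : G) : G := (X .b)⁻¹ * t * X .b

def G1 (X : Vr C K Γ → G) (o : K) (d : Option Γ) : G :=
  X (.reg o) ^ (g + 2) * (X .c ^ dgo e d)⁻¹

def G2 (X : Vr C K Γ → G) (o : K) (d : Option Γ) : G :=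
  X .c ^ g * (G1 e X o d ^ (g + 1))⁻¹

def GU (X : Vr C K Γ → G) (o : K) (d : Option Γ) : Op Γ → G
  | .id => cjG X (X (.reg o)) * (X (.reg o))⁻¹
  | .pop => cjG X (X (.reg o)) * (G1 e X o d)⁻¹
  | .push a => cjG X (X (.reg o)) ^ (g + 2) * (X (.reg o) * X .c ^ dg e a)⁻¹

def bigG (l : List G) : G := l.foldr (· ⊔ ·) 1

variable [Fintype C] [Fintype K] [Fintype Γ] [DecidableEq K] [DecidableEq C]

noncomputable def selG (X : Vr C K Γ → G) (q : C) : G :=
  bigG ((Finset.univ : Finset (K → Option Γ)).toList.map fun d => X (.ind q d))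

/-- The relations of the system. -/
structure Sem (M : SM C K Γ) (q₀ h : C) (S : K → List Γ) (X : Vr C K Γ → G) : Prop where
  c1 : X .c ⊓ 1 = 1
  cb : cjG X (X .c) * (X .c)⁻¹ = 1
  tc : actG (X .st) (X .tt * (X .c)⁻¹) = 1
  s0 : (X .st * (selG X q₀)⁻¹) ⊔ 1 = 1
  st1 : X .st ⊓ 1 = 1
  st2 : X .st ⊓ (X .c * (X .st)⁻¹) = 1
  in1 : ∀ p : C × (K → Option Γ), X (.ind p.1 p.2) ⊓ 1 = 1
  in2 : ∀ p : C × (K → Option Γ), X (.ind p.1 p.2) ⊓ (X .c * (X (.ind p.1 p.2))⁻¹) = 1
  cm : ∀ o : K, X (.reg o) * X .c * ((X (.reg o))⁻¹ * (X .c)⁻¹) = 1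
  g1 : ∀ (p : C × (K → Option Γ)) (o : K), actG (X (.ind p.1 p.2)) (G1 e X o (p.2 o) ⊓ 1) = 1
  g2 : ∀ (p : C × (K → Option Γ)) (o : K), actG (X (.ind p.1 p.2)) (G2 e X o (p.2 o) ⊓ 1) = 1
  up : ∀ (p : C × (K → Option Γ)) (o : K),
    actG (X (.ind p.1 p.2)) (GU e X o (p.2 o) ((M.nxt p.1 p.2).2 o)) = 1
  tm : ∀ p : C × (K → Option Γ),
    actG (X (.ind p.1 p.2)) (X .tt * (cjG X (X .tt) ^ 2)⁻¹) = 1
  nx : ∀ p : C × (K → Option Γ), (M.nxt p.1 p.2).1 ≠ h →
    (X (.ind p.1 p.2) * (cjG X (selG X (M.nxt p.1 p.2).1))⁻¹) ⊔ 1 = 1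
  ini : ∀ o : K, actG (X .st)
    (X (.reg o) ^ ((g + 2) ^ (S o).length) * (X .c ^ num e (S o))⁻¹) = 1

omit [Fintype C] [DecidableEq C] in
theorem eval_sel (ix : Vr C K Γ → ℕ) (x : ℕ → G) (q : C) :
    (sel ix q).eval x = selG (fun v => x (ix v)) q := by
  unfold sel selG bigG Tm.big
  induction (Finset.univ : Finset (K → Option Γ)).toList with
  | nil => rfl
  | cons a l ih =>
    simp only [List.map_cons, List.foldr_cons, Tm.eval]
    rw [ih]

theorem sem_iff (ix : Vr C K Γ → ℕ) (M : SM C K Γ) (q₀ h : C) (S : K → List Γ) (x : ℕ → G) :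
    (∀ t ∈ start e ix S ++ fixed e ix M q₀ h, t.eval x = 1) ↔
      Sem e M q₀ h S (fun v => x (ix v)) := by
  constructor
  · intro H
    have H1 : ∀ t ∈ start e ix S, t.eval x = 1 := fun t ht => H t (List.mem_append_left _ ht)
    have H2 : ∀ t ∈ fixed e ix M q₀ h, t.eval x = 1 := fun t ht => H t (List.mem_append_right _ ht)
    have H3 : ∀ p o, ∀ t ∈ rule1 e ix M p o, t.eval x = 1 := by
      intro p o t ht
      refine H2 t ?_
      simp only [fixed, List.mem_append, List.mem_flatMap]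
      exact Or.inl (Or.inr ⟨p, mem_allP p, o, by simp, ht⟩)
    have H4 : ∀ p, ∀ t ∈ rule2 ix M h p, t.eval x = 1 := by
      intro p t ht
      refine H2 t ?_
      simp only [fixed, List.mem_append, List.mem_flatMap]
      exact Or.inr ⟨p, mem_allP p, ht⟩
    have H5 : ∀ p : C × (K → Option Γ), ∀ t ∈ comp2 ix (.var (ix (.ind p.1 p.2))),
        t.eval x = 1 := by
      intro p t ht
      refine H2 t ?_
      simp only [fixed, List.mem_append, List.mem_flatMap]
      exact Or.inl (Or.inl (Or.inl (Or.inr ⟨p, mem_allP p, ht⟩)))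
    refine ⟨?_, ?_, ?_, ?_, ?_, ?_, ?_, ?_, ?_, ?_, ?_, ?_, ?_, ?_, ?_⟩
    · exact H2 (.inf (.var (ix .c)) .one) (by simp [fixed])
    · exact H2 (.mul (cj ix (.var (ix .c))) (.inv (.var (ix .c)))) (by simp [fixed])
    · exact H2 (Tm.act (.var (ix .st)) (.mul (.var (ix .tt)) (.inv (.var (ix .c)))))
        (by simp [fixed])
    · have := H2 (.sup (.mul (.var (ix .st)) (.inv (sel ix q₀))) .one) (by simp [fixed])
      simpa only [Tm.eval, eval_sel, actG, cjG, G1, G2, GU] using this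
    · exact H2 (.inf (.var (ix .st)) .one) (by simp [fixed, comp2])
    · exact H2 (.inf (.var (ix .st)) (.mul (.var (ix .c)) (.inv (.var (ix .st)))))
        (by simp [fixed, comp2])
    · intro p; exact H5 p (.inf (.var (ix (.ind p.1 p.2))) .one) (by simp [comp2])
    · intro p
      exact H5 p (.inf (.var (ix (.ind p.1 p.2))) (.mul (.var (ix .c))
        (.inv (.var (ix (.ind p.1 p.2)))))) (by simp [comp2])
    · intro o
      refine H2 (.mul (.mul (.var (ix (.reg o))) (.var (ix .c)))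
        (.mul (.inv (.var (ix (.reg o)))) (.inv (.var (ix .c))))) ?_
      simp only [fixed, List.mem_append, List.mem_map]
      exact Or.inl (Or.inl (Or.inr ⟨o, by simp, rfl⟩))
    · intro p o
      have := H3 p o (Tm.act (.var (ix (.ind p.1 p.2))) (.inf (wG1 e ix o (p.2 o)) .one))
        (by simp [rule1])
      simpa only [Tm.act, Tm.eval, wG1, Tm.eval_pw, actG, cjG, G1, G2, GU] using this
    · intro p o
      have := H3 p o (Tm.act (.var (ix (.ind p.1 p.2))) (.inf (wG2 e ix o (p.2 o)) .one))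
        (by simp [rule1])
      simpa only [Tm.act, Tm.eval, wG1, wG2, Tm.eval_pw, actG, cjG, G1, G2, GU] using this
    · intro p o
      have := H3 p o (Tm.act (.var (ix (.ind p.1 p.2)))
        (wU e ix o (p.2 o) ((M.nxt p.1 p.2).2 o))) (by simp [rule1])
      cases hop : (M.nxt p.1 p.2).2 o <;>
        simpa only [hop, Tm.act, Tm.eval, wU, cj, wG1, Tm.eval_pw, actG, cjG, G1, G2, GU] using this
    · intro p
      have := H4 p _ (List.mem_cons_self)
      simpa only [Tm.act, Tm.eval, cj, Tm.eval_pw, actG, cjG, G1, G2, GU] using this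
    · intro p hp
      have := H4 p _ (List.mem_cons_of_mem _ List.mem_cons_self)
      rw [if_neg hp] at this
      simpa only [Tm.act, Tm.eval, cj, Tm.eval_pw, eval_sel, actG, cjG, G1, G2, GU] using this
    · intro o
      have := H1 (start1 e ix (S o) o) (by simp only [start, List.mem_map]; exact ⟨o, by simp, rfl⟩)
      simpa only [start1, Tm.act, Tm.eval, Tm.eval_pw, actG, cjG, G1, G2, GU] using this
  · intro H t ht
    simp only [start, fixed, List.mem_append, List.mem_flatMap, List.mem_map, List.mem_cons,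
      List.not_mem_nil, or_false, comp2, rule1, rule2] at ht
    rcases ht with ⟨o, _, rfl⟩ | ((((((rfl | rfl | rfl | rfl) | (rfl | rfl)) |
      ⟨p, _, (rfl | rfl)⟩) | ⟨o, _, rfl⟩) | ⟨p, _, o, _, (rfl | rfl | rfl)⟩) |
      ⟨p, _, (rfl | rfl)⟩)
    · have := H.ini o
      simpa only [start1, Tm.act, Tm.eval, Tm.eval_pw, actG, cjG, G1, G2, GU] using this
    · exact H.c1
    · exact H.cb
    · exact H.tc
    · have := H.s0
      simpa only [Tm.eval, eval_sel, actG, cjG, G1, G2, GU] using this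
    · exact H.st1
    · exact H.st2
    · exact H.in1 p
    · exact H.in2 p
    · exact H.cm o
    · have := H.g1 p o
      simpa only [Tm.act, Tm.eval, wG1, Tm.eval_pw, actG, cjG, G1, G2, GU] using this
    · have := H.g2 p o
      simpa only [Tm.act, Tm.eval, wG1, wG2, Tm.eval_pw, actG, cjG, G1, G2, GU] using this
    · have := H.up p o
      cases hop : (M.nxt p.1 p.2).2 o <;> rw [hop] at this <;>
        simpa only [Tm.act, Tm.eval, wU, cj, wG1, Tm.eval_pw, actG, cjG, G1, G2, GU] using this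
    · have := H.tm p
      simpa only [Tm.act, Tm.eval, cj, Tm.eval_pw, actG, cjG, G1, G2, GU] using this
    · by_cases hp : (M.nxt p.1 p.2).1 = h
      · rw [if_pos hp]; rfl
      · rw [if_neg hp]
        have := H.nx p hp
        simpa only [Tm.act, Tm.eval, cj, Tm.eval_pw, eval_sel, actG, cjG, G1, G2, GU] using this

end

end Pool.Agent.Helper56.QV
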