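import Mathlib
import Pool.Agent.Helper56.QV.Defs

/-! Bumps (convexified orbits) of automorphisms of chains and pasting. -/

set_option autoImplicit false

namespace Pool.Agent.Helper56.QV

universe u

variable {Ω : Type u} [LinearOrder Ω]

theorem zp_add (g : Ω ≃o Ω) (m n : ℤ) (x : Ω) : (g ^ (m + n)) x = (g ^ m) ((g ^ n) x) := by
  rw [zpow_add]; rfl

theorem zp_one_add (g : Ω ≃o Ω) (n : ℤ) (x : Ω) : (g ^ (1 + n)) x = g ((g ^ n) x) := by
  rw [zp_add, zpow_one]

theorem zp_neg_zp (g : Ω ≃o Ω) (n : ℤ) (x : Ω) : (g ^ (-n)) ((g ^ n) x) = x := by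
  rw [← zp_add, neg_add_cancel, zpow_zero]; rfl

theorem zp_zp_neg (g : Ω ≃o Ω) (n : ℤ) (x : Ω) : (g ^ n) ((g ^ (-n)) x) = x := by
  rw [← zp_add, add_neg_cancel, zpow_zero]; rfl

theorem mul_app (g h : Ω ≃o Ω) (x : Ω) : (g * h) x = g (h x) := rfl

theorem one_app (x : Ω) : (1 : Ω ≃o Ω) x = x := rfl

theorem inv_app_self (g : Ω ≃o Ω) (x : Ω) : g⁻¹ (g x) = x := g.symm_apply_apply x

theorem app_inv_self (g : Ω ≃o Ω) (x : Ω) : g (g⁻¹ x) = x := g.apply_symm_apply x

theorem zp_conj (g b : Ω ≃o Ω) (n : ℤ) (x : Ω) :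
    ((b * g * b⁻¹) ^ n) (b x) = b ((g ^ n) x) := by
  rw [conj_zpow]
  simp [mul_app, inv_app_self]

theorem mem_bump {g : Ω ≃o Ω} {x z : Ω} :
    z ∈ bump g x ↔ ∃ m n : ℤ, (g ^ m) x ≤ z ∧ z ≤ (g ^ n) x := Iff.rfl

theorem zp_mem_bump (g : Ω ≃o Ω) (x : Ω) (n : ℤ) : (g ^ n) x ∈ bump g x :=
  ⟨n, n, le_rfl, le_rfl⟩

theorem self_mem_bump (g : Ω ≃o Ω) (x : Ω) : x ∈ bump g x := by
  simpa using zp_mem_bump g x 0

theorem bump_inv (g : Ω ≃o Ω) (x : Ω) : bump g⁻¹ x = bump g x := by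
  ext z
  simp only [mem_bump]
  constructor
  · rintro ⟨m, n, h1, h2⟩
    exact ⟨-m, -n, by simpa [inv_zpow, zpow_neg] using h1, by simpa [inv_zpow, zpow_neg] using h2⟩
  · rintro ⟨m, n, h1, h2⟩
    exact ⟨-m, -n, by simpa [inv_zpow, zpow_neg] using h1, by simpa [inv_zpow, zpow_neg] using h2⟩

theorem bump_conv {g : Ω ≃o Ω} {x a c z : Ω} (ha : a ∈ bump g x) (hc : c ∈ bump g x)
    (h1 : a ≤ z) (h2 : z ≤ c) : z ∈ bump g x := by
  obtain ⟨m, _, h3, _⟩ := ha
  obtain ⟨_, n, _, h4⟩ := hc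
  exact ⟨m, n, h3.trans h1, h2.trans h4⟩

theorem app_mem_bump {g : Ω ≃o Ω} {x z : Ω} (k : ℤ) (hz : z ∈ bump g x) :
    (g ^ k) z ∈ bump g x := by
  obtain ⟨m, n, h1, h2⟩ := hz
  refine ⟨k + m, k + n, ?_, ?_⟩
  · rw [zp_add]; exact (g ^ k).le_iff_le.2 h1
  · rw [zp_add]; exact (g ^ k).le_iff_le.2 h2

theorem app_mem_bump_iff {g : Ω ≃o Ω} {x z : Ω} (k : ℤ) :
    (g ^ k) z ∈ bump g x ↔ z ∈ bump g x := by
  refine ⟨fun h => ?_, app_mem_bump k⟩
  have := app_mem_bump (-k) h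
  rwa [zp_neg_zp] at this

theorem app_mem_bump_iff' {g : Ω ≃o Ω} {x z : Ω} : g z ∈ bump g x ↔ z ∈ bump g x := by
  simpa using app_mem_bump_iff (g := g) (x := x) (z := z) 1

/-- For a positive element powers increase. -/
theorem zp_strictMono {g : Ω ≃o Ω} {x : Ω} (h : x < g x) : StrictMono fun n : ℤ => (g ^ n) x := by
  refine strictMono_int_of_lt_succ fun n => ?_
  rw [add_comm, zpow_add, zpow_one]
  change (g ^ n) x < g ((g ^ n) x)
  have h2 : g ((g ^ n) x) = (g ^ n) (g x) := by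
    rw [← mul_app, ← mul_app]
    congr 1
    rw [← zpow_one_add, ← zpow_add_one, add_comm]
  rw [h2]
  exact (g ^ n).lt_iff_lt.2 h

theorem lt_of_mem_bump {g : Ω ≃o Ω} {x z : Ω} (h : x < g x) (hz : z ∈ bump g x) : z < g z := by
  obtain ⟨m, n, h1, h2⟩ := hz
  -- if `g z ≤ z` then all forward iterates of `z` are `≤ z`
  by_contra hc
  push Not at hc
  have key : ∀ k : ℕ, (g ^ (k : ℤ)) z ≤ z := by
    intro k
    induction k with
    | zero => simp
    | succ k ih =>
      push_cast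
      rw [zp_add, zpow_one]
      exact ((g ^ (k : ℤ)).le_iff_le.2 hc).trans ih
  have h3 := zp_strictMono h
  have h4 : (g ^ (n + 1)) x ≤ z := by
    rcases le_total m (n + 1) with h5 | h5
    · obtain ⟨k, hk⟩ := Int.eq_ofNat_of_zero_le (sub_nonneg.2 h5)
      have h6 : n + 1 = (k : ℤ) + m := by omega
      rw [h6, zp_add]
      exact ((g ^ (k : ℤ)).le_iff_le.2 h1).trans (key k)
    · exact (h3.monotone h5).trans h1
  have h7 : (g ^ n) x < (g ^ (n + 1)) x := h3 (by omega)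
  exact absurd (h2.trans_lt h7) (not_lt.2 h4)

theorem gt_of_mem_bump {g : Ω ≃o Ω} {x z : Ω} (h : g x < x) (hz : z ∈ bump g x) : g z < z := by
  rw [← bump_inv] at hz
  have h1 : x < g⁻¹ x := by
    have := (g⁻¹).lt_iff_lt.2 h
    rwa [inv_app_self] at this
  have h2 := lt_of_mem_bump h1 hz
  have h3 := g.lt_iff_lt.2 h2
  rwa [app_inv_self] at h3

theorem ne_of_mem_bump {g : Ω ≃o Ω} {x z : Ω} (h : g x ≠ x) (hz : z ∈ bump g x) : g z ≠ z := by
  rcases lt_or_gt_of_ne h with h | h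
  · exact (gt_of_mem_bump h hz).ne
  · exact (lt_of_mem_bump h hz).ne'

theorem bump_eq_of_mem {g : Ω ≃o Ω} {x z : Ω} (hz : z ∈ bump g x) : bump g z = bump g x := by
  -- it suffices that `x ∈ bump g z`
  have key : ∀ {a c : Ω}, c ∈ bump g a → bump g c ⊆ bump g a := by
    intro a c hc w hw
    obtain ⟨m, n, h1, h2⟩ := hw
    exact bump_conv (app_mem_bump m hc) (app_mem_bump n hc) h1 h2
  refine Set.Subset.antisymm (key hz) ?_
  obtain ⟨m, n, h1, h2⟩ := hz
  refine key ⟨-n, -m, ?_, ?_⟩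
  · have := (g ^ (-n)).le_iff_le.2 h2
    rwa [zp_neg_zp] at this
  · have := (g ^ (-m)).le_iff_le.2 h1
    rwa [zp_neg_zp] at this

/-- Two points of one bump: a large power moves the first above the second. -/
theorem exists_zp_lt {g : Ω ≃o Ω} {x a c : Ω} (h : x < g x) (ha : a ∈ bump g x)
    (hc : c ∈ bump g x) : ∃ n : ℕ, c < (g ^ (n : ℤ)) a := by
  rw [← bump_eq_of_mem ha] at hc
  obtain ⟨m, n, h1, h2⟩ := hc
  have h3 : a < g a := lt_of_mem_bump h ha
  have h4 := zp_strictMono h3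
  refine ⟨(n + 1).toNat, h2.trans_lt (h4 ?_)⟩
  omega

theorem exists_lt_zp {g : Ω ≃o Ω} {x a c : Ω} (h : x < g x) (ha : a ∈ bump g x)
    (hc : c ∈ bump g x) : ∃ n : ℕ, (g ^ (-(n : ℤ))) a < c := by
  obtain ⟨n, hn⟩ := exists_zp_lt h hc ha
  refine ⟨n, ?_⟩
  have := (g ^ (-(n : ℤ))).lt_iff_lt.2 hn
  rwa [zp_neg_zp] at this

theorem bump_conj (g b : Ω ≃o Ω) (x z : Ω) : b z ∈ bump (b * g * b⁻¹) (b x) ↔ z ∈ bump g x := by
  simp only [mem_bump, zp_conj, b.le_iff_le]

/-- Pasting an automorphism that fixes a convex set with the identity outside. -/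
noncomputable def paste (J : Set Ω) (hJ : J.OrdConnected) (g : Ω ≃o Ω)
    (hg : ∀ z, g z ∈ J ↔ z ∈ J) : Ω ≃o Ω := by
  classical
  exact
  { toFun := fun z => if z ∈ J then g z else z
    invFun := fun z => if z ∈ J then g⁻¹ z else z
    left_inv := by
      intro z
      by_cases h : z ∈ J
      · have h2 : g z ∈ J := (hg z).2 h
        simp [h, h2, inv_app_self]
      · simp [h]
    right_inv := by
      intro z
      by_cases h : z ∈ J
      · have h2 : g⁻¹ z ∈ J := by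
          rw [← hg, app_inv_self]; exact h
        simp [h, h2, app_inv_self]
      · simp [h]
    map_rel_iff' := by
      have key : ∀ z w : Ω, z < w → (if z ∈ J then g z else z) < (if w ∈ J then g w else w) := by
        intro z w hzw
        by_cases h : z ∈ J <;> by_cases h' : w ∈ J
        · simp only [h, h', if_true]
          exact g.lt_iff_lt.2 hzw
        · simp only [h, h', if_true, if_false]
          by_contra hc
          push Not at hc
          exact h' (hJ.out h ((hg z).2 h) ⟨hzw.le, hc⟩)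
        · simp only [h, h', if_true, if_false]
          by_contra hc
          push Not at hc
          exact h (hJ.out ((hg w).2 h') h' ⟨hc, hzw.le⟩)
        · simpa only [h, h', if_false] using hzw
      intro z w
      constructor
      · intro h
        by_contra hc
        push Not at hc
        exact absurd h (not_le.2 (key w z hc))
      · intro h
        rcases h.eq_or_lt with h | h
        · subst h; exact le_rfl
        · exact (key z w h).le }

theorem paste_mem {J : Set Ω} {hJ : J.OrdConnected} {g : Ω ≃o Ω}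
    {hg : ∀ z, g z ∈ J ↔ z ∈ J} {z : Ω} (hz : z ∈ J) : paste J hJ g hg z = g z := by
  classical
  change (if z ∈ J then g z else z) = g z
  simp [hz]

theorem paste_not_mem {J : Set Ω} {hJ : J.OrdConnected} {g : Ω ≃o Ω}
    {hg : ∀ z, g z ∈ J ↔ z ∈ J} {z : Ω} (hz : z ∉ J) : paste J hJ g hg z = z := by
  classical
  change (if z ∈ J then g z else z) = z
  simp [hz]

theorem bump_ordConnected (g : Ω ≃o Ω) (x : Ω) : (bump g x).OrdConnected :=
  ⟨fun _ ha _ hc _ h => bump_conv ha hc h.1 h.2⟩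

/-- Restriction of `g` to its bump at `x`. -/
noncomputable def loc (g : Ω ≃o Ω) (x : Ω) : Ω ≃o Ω :=
  paste (bump g x) (bump_ordConnected g x) g (fun _ => app_mem_bump_iff')

theorem loc_mem {g : Ω ≃o Ω} {x z : Ω} (hz : z ∈ bump g x) : loc g x z = g z := paste_mem hz

theorem loc_not_mem {g : Ω ≃o Ω} {x z : Ω} (hz : z ∉ bump g x) : loc g x z = z :=
  paste_not_mem hz

theorem inv_mem_bump_iff {g : Ω ≃o Ω} {x z : Ω} : g⁻¹ z ∈ bump g x ↔ z ∈ bump g x := by
  have := app_mem_bump_iff (g := g) (x := x) (z := z) (-1)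
  rwa [zpow_neg_one] at this

theorem loc_inv_mem {g : Ω ≃o Ω} {x z : Ω} (hz : z ∈ bump g x) : (loc g x)⁻¹ z = g⁻¹ z := by
  have h : loc g x (g⁻¹ z) = z := by
    rw [loc_mem (inv_mem_bump_iff.2 hz), app_inv_self]
  calc (loc g x)⁻¹ z = (loc g x)⁻¹ (loc g x (g⁻¹ z)) := by rw [h]
    _ = g⁻¹ z := inv_app_self _ _

theorem loc_inv_not_mem {g : Ω ≃o Ω} {x z : Ω} (hz : z ∉ bump g x) : (loc g x)⁻¹ z = z := by
  have h : loc g x z = z := loc_not_mem hz
  calc (loc g x)⁻¹ z = (loc g x)⁻¹ (loc g x z) := by rw [h]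
    _ = z := inv_app_self _ _

theorem loc_zp_mem {g : Ω ≃o Ω} {x z : Ω} (hz : z ∈ bump g x) (n : ℤ) :
    ((loc g x) ^ n) z = (g ^ n) z := by
  induction n using Int.induction_on with
  | zero => simp
  | succ n ih =>
    rw [add_comm, zp_add, zp_add, ih, zpow_one, zpow_one]
    exact loc_mem (app_mem_bump _ hz)
  | pred n ih =>
    have h1 : (-(n : ℤ) - 1) = -1 + -(n : ℤ) := by ring
    rw [h1, zp_add, zp_add, ih, zpow_neg_one, zpow_neg_one]
    exact loc_inv_mem (app_mem_bump _ hz)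

theorem loc_zp_not_mem {g : Ω ≃o Ω} {x z : Ω} (hz : z ∉ bump g x) (n : ℤ) :
    ((loc g x) ^ n) z = z := by
  induction n using Int.induction_on with
  | zero => simp
  | succ n ih =>
    rw [add_comm, zp_add, ih, zpow_one]
    exact loc_not_mem hz
  | pred n ih =>
    have h1 : (-(n : ℤ) - 1) = -1 + -(n : ℤ) := by ring
    rw [h1, zp_add, ih, zpow_neg_one]
    exact loc_inv_not_mem hz

theorem bump_loc (g : Ω ≃o Ω) (x : Ω) : bump (loc g x) x = bump g x := by
  ext z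
  simp only [mem_bump, loc_zp_mem (self_mem_bump g x)]

end Pool.Agent.Helper56.QV
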