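import Mathlib
import Pool.Agent.Helper56.QV.Bump

/-! A chain whose automorphism group is not commutative has a bump that is moved off itself. -/

set_option autoImplicit false

namespace Pool.Agent.Helper56.QV

universe u

variable {Ω : Type u} [LinearOrder Ω]

/-- There is a bump that some automorphism moves above itself. -/
def HasConf (Ω : Type u) [LinearOrder Ω] : Prop :=
  ∃ (y b : Ω ≃o Ω) (x : Ω), x < y x ∧ ∀ z ∈ bump y x, ∀ w ∈ bump y x, z < b w

theorem conf_of_ne {y b : Ω ≃o Ω} {x : Ω} (hx : y x ≠ x)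
    (hb : ∀ z ∈ bump y x, ∀ w ∈ bump y x, z < b w) : HasConf Ω := by
  rcases lt_or_gt_of_ne hx with h | h
  · refine ⟨y⁻¹, b, x, ?_, ?_⟩
    · have := (y⁻¹).lt_iff_lt.2 h
      rwa [inv_app_self] at this
    · rwa [bump_inv]
  · exact ⟨y, b, x, h, hb⟩

theorem inv_lt_of_lt {g : Ω ≃o Ω} {x : Ω} (h : x < g x) : g⁻¹ x < x := by
  have := (g⁻¹).lt_iff_lt.2 h
  rwa [inv_app_self] at this

theorem lt_inv_of_lt {g : Ω ≃o Ω} {x : Ω} (h : g x < x) : x < g⁻¹ x := by
  have := (g⁻¹).lt_iff_lt.2 h
  rwa [inv_app_self] at this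

theorem overlap_aux {g k : Ω ≃o Ω} {z a a' : Ω} (hg : z < g z) (hk : z < k z)
    (ha : a ∈ bump g z) (ha2 : ∀ w ∈ bump k z, a < w) (ha' : a' ∈ bump k z)
    (ha2' : ∀ w ∈ bump g z, w < a') : HasConf Ω := by
  set g' := loc g z with hg'
  set k' := loc k z with hk'
  set l := g⁻¹ a with hl
  set r := k a' with hr
  have hlJ : l ∈ bump g z := inv_mem_bump_iff.2 ha
  have hrJ : r ∈ bump k z := app_mem_bump_iff'.2 ha'
  have hla : l < a := inv_lt_of_lt (lt_of_mem_bump hg ha)
  have har : a' < r := lt_of_mem_bump hk ha'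
  have hnk : ∀ w, w ≤ a → w ∉ bump k z := fun w hw hmem => absurd (ha2 w hmem) (not_lt.2 hw)
  have hng : ∀ w, a' ≤ w → w ∉ bump g z := fun w hw hmem => absurd (ha2' w hmem) (not_lt.2 hw)
  set h := g'⁻¹ * (k' * g' * k'⁻¹) with hh
  have hlow : ∀ w, w ≤ l → h w = w := by
    intro w hw
    have h1 : k'⁻¹ w = w := loc_inv_not_mem (hnk w (hw.trans hla.le))
    have h2 : g' w ≤ a := by
      have := g'.le_iff_le.2 hw
      rwa [hg', loc_mem hlJ, hl, app_inv_self] at this
    have h3 : k' (g' w) = g' w := loc_not_mem (hnk _ h2)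
    simp only [hh, mul_app]
    rw [h1, h3, inv_app_self]
  have hhigh : ∀ w, r ≤ w → h w = w := by
    intro w hw
    have h2 : a' ≤ k'⁻¹ w := by
      have := (k'⁻¹).le_iff_le.2 hw
      rwa [hk', loc_inv_mem hrJ, hr, inv_app_self] at this
    have h3 : g' (k'⁻¹ w) = k'⁻¹ w := loc_not_mem (hng _ h2)
    have h4 : g'⁻¹ w = w := loc_inv_not_mem (hng w (har.le.trans hw))
    simp only [hh, mul_app]
    rw [h3, app_inv_self, h4]
  have hex : ∃ w, h w ≠ w := by
    by_contra hc
    push Not at hc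
    have hcomm : ∀ v, k' (g' v) = g' (k' v) := by
      intro v
      have h1 := hc (k' v)
      simp only [hh, mul_app, inv_app_self] at h1
      have h2 := congrArg g' h1
      rwa [app_inv_self] at h2
    have hfix : ∀ n : ℕ, k' ((g ^ (n : ℤ)) a) = (g ^ (n : ℤ)) a := by
      intro n
      induction n with
      | zero => simpa using loc_not_mem (hnk a le_rfl)
      | succ n ih =>
        have h1 : (g ^ ((n : ℤ) + 1)) a = g' ((g ^ (n : ℤ)) a) := by
          rw [add_comm, zp_one_add, hg', loc_mem (app_mem_bump _ ha)]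
        push_cast
        rw [h1, hcomm, ih]
    obtain ⟨n, hn⟩ := exists_zp_lt hg ha (self_mem_bump g z)
    have h1 : (g ^ (n : ℤ)) a < a' := ha2' _ (app_mem_bump _ ha)
    have h2 : (g ^ (n : ℤ)) a ∈ bump k z := bump_conv (self_mem_bump k z) ha' hn.le h1.le
    have h3 := hfix n
    rw [hk', loc_mem h2] at h3
    exact absurd h3 (lt_of_mem_bump hk h2).ne'
  obtain ⟨w, hw⟩ := hex
  have hlw : l < w := by
    by_contra hc
    push Not at hc
    exact hw (hlow w hc)
  have hwr : w < r := by
    by_contra hc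
    push Not at hc
    exact hw (hhigh w hc)
  have hhl : ∀ n : ℤ, (h ^ n) l = l := by
    have h1 := hlow l le_rfl
    have h2 : h⁻¹ l = l := by
      calc h⁻¹ l = h⁻¹ (h l) := by rw [h1]
        _ = l := inv_app_self _ _
    intro n
    induction n using Int.induction_on with
    | zero => simp
    | succ n ih => rw [add_comm, zp_one_add, ih, h1]
    | pred n ih =>
      have h3 : (-(n : ℤ) - 1) = -1 + -(n : ℤ) := by ring
      rw [h3, zp_add, ih, zpow_neg_one, h2]
  have hhr : ∀ n : ℤ, (h ^ n) r = r := by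
    have h1 := hhigh r le_rfl
    have h2 : h⁻¹ r = r := by
      calc h⁻¹ r = h⁻¹ (h r) := by rw [h1]
        _ = r := inv_app_self _ _
    intro n
    induction n using Int.induction_on with
    | zero => simp
    | succ n ih => rw [add_comm, zp_one_add, ih, h1]
    | pred n ih =>
      have h3 : (-(n : ℤ) - 1) = -1 + -(n : ℤ) := by ring
      rw [h3, zp_add, ih, zpow_neg_one, h2]
  have hsub : ∀ u ∈ bump h w, l < u ∧ u < r := by
    rintro u ⟨m, n, h1, h2⟩
    constructor
    · have := (h ^ m).lt_iff_lt.2 hlw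
      rw [hhl] at this
      exact this.trans_le h1
    · have := (h ^ n).lt_iff_lt.2 hwr
      rw [hhr] at this
      exact h2.trans_lt this
  obtain ⟨p, hp⟩ := exists_lt_zp hk hrJ (self_mem_bump k z)
  obtain ⟨q, hq⟩ := exists_zp_lt hg hlJ (self_mem_bump g z)
  refine conf_of_ne (y := h) (b := k' ^ (p : ℤ) * g' ^ (q : ℤ)) (x := w) hw ?_
  intro u hu v hv
  have h1 : (k' ^ (-(p : ℤ))) u < z := by
    have h2 := (k' ^ (-(p : ℤ))).lt_iff_lt.2 (hsub u hu).2
    rw [hk'] at h2
    rw [loc_zp_mem hrJ] at h2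
    exact h2.trans hp
  have h2 : z < (g' ^ (q : ℤ)) v := by
    have h3 := (g' ^ (q : ℤ)).lt_iff_lt.2 (hsub v hv).1
    rw [hg'] at h3
    rw [loc_zp_mem hlJ] at h3
    exact hq.trans h3
  have h3 := (k' ^ (p : ℤ)).lt_iff_lt.2 (h1.trans h2)
  rw [zp_zp_neg] at h3
  exact h3

theorem overlap_conf {g k : Ω ≃o Ω} {z a a' : Ω} (hg : g z ≠ z) (hk : k z ≠ z)
    (ha : a ∈ bump g z) (hna : a ∉ bump k z) (ha' : a' ∈ bump k z) (hna' : a' ∉ bump g z) :
    HasConf Ω := by
  -- make both positive
  wlog hg1 : z < g z generalizing g with H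
  · refine H (g := g⁻¹) ?_ ?_ ?_ ?_
    · intro h
      have := congrArg g h
      rw [app_inv_self] at this
      exact hg this.symm
    · rwa [bump_inv]
    · rwa [bump_inv]
    · have h1 : g z < z := lt_of_le_of_ne (not_lt.1 hg1) hg
      exact lt_inv_of_lt h1
  wlog hk1 : z < k z generalizing k with H
  · refine H (k := k⁻¹) ?_ ?_ ?_ ?_
    · intro h
      have := congrArg k h
      rw [app_inv_self] at this
      exact hk this.symm
    · rwa [bump_inv]
    · rwa [bump_inv]
    · have h1 : k z < z := lt_of_le_of_ne (not_lt.1 hk1) hk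
      exact lt_inv_of_lt h1
  have hz1 := self_mem_bump g z
  have hz2 := self_mem_bump k z
  rcases lt_or_ge a z with haz | haz
  · -- `a` is below `bump k z`
    have h1 : ∀ w ∈ bump k z, a < w := by
      intro w hw
      by_contra hc
      push Not at hc
      exact hna (bump_conv hw hz2 hc haz.le)
    have h2 : ∀ w ∈ bump g z, w < a' := by
      intro w hw
      by_contra hc
      push Not at hc
      exact hna' (bump_conv ha hw (h1 a' ha').le hc)
    exact overlap_aux hg1 hk1 ha h1 ha' h2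
  · have haz' : z < a := lt_of_le_of_ne haz (fun h => hna (h ▸ hz2))
    have h1 : ∀ w ∈ bump k z, w < a := by
      intro w hw
      by_contra hc
      push Not at hc
      exact hna (bump_conv hz2 hw haz'.le hc)
    have h2 : ∀ w ∈ bump g z, a' < w := by
      intro w hw
      by_contra hc
      push Not at hc
      exact hna' (bump_conv hw ha hc (h1 a' ha').le)
    exact overlap_aux hk1 hg1 ha' h2 ha h1

end Pool.Agent.Helper56.QV
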