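import Mathlib
import Pool.Agent.Helper56.QV.Config

/-! Nested bumps; commutativity when there is no wreath configuration. -/

set_option autoImplicit false

namespace Pool.Agent.Helper56.QV

universe u

variable {Ω : Type u} [LinearOrder Ω]

theorem nested_low {g f : Ω ≃o Ω} {x p : Ω} (hg : x < g x) (hf : x < f x)
    (hsub : bump g x ⊆ bump f x) (hp : p ∈ bump f x) (hpJ : ∀ w ∈ bump g x, w < p)
    (hco : ∀ a ∈ bump f x, ∃ w ∈ bump g x, w ≤ a) : HasConf Ω := by
  set f' := loc f x with hf'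
  set g' := loc g x with hg'
  have hx1 : f⁻¹ x ∈ bump g x := by
    obtain ⟨w, hw, hwa⟩ := hco (f⁻¹ x) (inv_mem_bump_iff.2 (self_mem_bump f x))
    exact bump_conv hw (self_mem_bump g x) hwa (inv_lt_of_lt hf).le
  obtain ⟨m, hm⟩ := exists_zp_lt hg hx1 (self_mem_bump g x)
  set k := g' ^ (-(m : ℤ)) * f' with hk
  have hpn : ∀ u, p ≤ u → u ∉ bump g x := fun u hu hmem => absurd (hpJ u hmem) (not_lt.2 hu)
  have hkx1 : k (f⁻¹ x) < f⁻¹ x := by
    have h1 : f' (f⁻¹ x) = x := by
      rw [hf', loc_mem (hsub hx1), app_inv_self]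
    have h2 : k (f⁻¹ x) = (g ^ (-(m : ℤ))) x := by
      rw [hk, mul_app, h1, hg', loc_zp_mem (self_mem_bump g x)]
    rw [h2]
    have := (g ^ (-(m : ℤ))).lt_iff_lt.2 hm
    rwa [zp_neg_zp] at this
  have hkp : p < k p := by
    have h1 : p < f p := lt_of_mem_bump hf hp
    have h2 : k p = f p := by
      rw [hk, mul_app, hf', loc_mem hp, hg', loc_zp_not_mem (hpn _ h1.le)]
    rw [h2]
    exact h1
  have hex : ∃ n : ℕ, ∃ w ∈ bump g x, (f ^ (-(n : ℤ))) p ≤ w := by
    obtain ⟨n, hn⟩ := exists_lt_zp hf hp (self_mem_bump f x)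
    exact ⟨n, x, self_mem_bump g x, hn.le⟩
  classical
  have hspec := Nat.find_spec hex
  have hmin : ∀ j < Nat.find hex, (f ^ (-(j : ℤ))) p ∉ bump g x := by
    intro j hj hmem
    exact Nat.find_min hex hj ⟨_, hmem, le_rfl⟩
  set n := Nat.find hex with hn
  have hiter : ∀ j ≤ n, (k ^ (-(j : ℤ))) p = (f ^ (-(j : ℤ))) p := by
    intro j
    induction j with
    | zero => intro _; simp
    | succ j ih =>
      intro hj
      have h1 : (-((j + 1 : ℕ) : ℤ)) = -1 + -(j : ℤ) := by push_cast; ring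
      rw [h1, zp_add, zp_add, ih (by omega), zpow_neg_one, zpow_neg_one]
      have h2 := hmin j (by omega)
      rw [hk, mul_inv_rev, mul_app, ← zpow_neg, neg_neg, hg', loc_zp_not_mem h2, hf',
        loc_inv_mem (app_mem_bump _ hp)]
  set z := (f ^ (-(n : ℤ))) p with hz
  have hzJ : z ∈ bump g x := by
    obtain ⟨w, hw, hle⟩ := hspec
    obtain ⟨w', hw', hle'⟩ := hco z (app_mem_bump _ hp)
    exact bump_conv hw' hw hle' hle
  have hzK : z ∈ bump k p := by
    rw [hz, ← hiter n le_rfl]
    exact zp_mem_bump k p _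
  have hgz : bump g z = bump g x := bump_eq_of_mem hzJ
  have hkz : bump k z = bump k p := bump_eq_of_mem hzK
  refine overlap_conf (g := g) (k := k) (z := z) (a := f⁻¹ x) (a' := p) ?_ ?_ ?_ ?_ ?_ ?_
  · exact (lt_of_mem_bump hg hzJ).ne'
  · exact (lt_of_mem_bump hkp hzK).ne'
  · rwa [hgz]
  · rw [hkz]
    intro hmem
    exact absurd (lt_of_mem_bump hkp hmem) (not_lt.2 hkx1.le)
  · rw [hkz]; exact self_mem_bump k p
  · rw [hgz]; exact hpn p le_rfl

theorem nested_high {g f : Ω ≃o Ω} {x p : Ω} (hg : x < g x) (hf : x < f x)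
    (hsub : bump g x ⊆ bump f x) (hp : p ∈ bump f x) (hpJ : ∀ w ∈ bump g x, p < w)
    (hco : ∀ a ∈ bump f x, ∃ w ∈ bump g x, a ≤ w) : HasConf Ω := by
  set f' := loc f x with hf'
  set g' := loc g x with hg'
  have hx1 : f x ∈ bump g x := by
    obtain ⟨w, hw, hwa⟩ := hco (f x) (app_mem_bump_iff'.2 (self_mem_bump f x))
    exact bump_conv (self_mem_bump g x) hw hf.le hwa
  obtain ⟨m, hm⟩ := exists_zp_lt hg (self_mem_bump g x) hx1
  set k := g' ^ (m : ℤ) * f'⁻¹ with hk
  have hpn : ∀ u, u ≤ p → u ∉ bump g x := fun u hu hmem => absurd (hpJ u hmem) (not_lt.2 hu)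
  have hkx1 : f x < k (f x) := by
    have h1 : f'⁻¹ (f x) = x := by
      rw [hf', loc_inv_mem (hsub hx1), inv_app_self]
    have h2 : k (f x) = (g ^ (m : ℤ)) x := by
      rw [hk, mul_app, h1, hg', loc_zp_mem (self_mem_bump g x)]
    rw [h2]
    exact hm
  have hkp : k p < p := by
    have h1 : f⁻¹ p < p := inv_lt_of_lt (lt_of_mem_bump hf hp)
    have h2 : k p = f⁻¹ p := by
      rw [hk, mul_app, hf', loc_inv_mem hp, hg', loc_zp_not_mem (hpn _ h1.le)]
    rw [h2]
    exact h1
  have hex : ∃ n : ℕ, ∃ w ∈ bump g x, w ≤ (f ^ (n : ℤ)) p := by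
    obtain ⟨n, hn⟩ := exists_zp_lt hf hp (self_mem_bump f x)
    exact ⟨n, x, self_mem_bump g x, hn.le⟩
  classical
  have hspec := Nat.find_spec hex
  have hmin : ∀ j < Nat.find hex, (f ^ (j : ℤ)) p ∉ bump g x := by
    intro j hj hmem
    exact Nat.find_min hex hj ⟨_, hmem, le_rfl⟩
  set n := Nat.find hex with hn
  have hiter : ∀ j ≤ n, (k ^ (-(j : ℤ))) p = (f ^ (j : ℤ)) p := by
    intro j
    induction j with
    | zero => intro _; simp
    | succ j ih =>
      intro hj
      have h1 : (-((j + 1 : ℕ) : ℤ)) = -1 + -(j : ℤ) := by push_cast; ring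
      have h3 : ((j + 1 : ℕ) : ℤ) = 1 + (j : ℤ) := by push_cast; ring
      rw [h1, h3, zp_add, zp_add, ih (by omega), zpow_neg_one, zpow_one]
      have h2 := hmin j (by omega)
      rw [hk, mul_inv_rev, inv_inv, mul_app, ← zpow_neg, hg', loc_zp_not_mem h2, hf',
        loc_mem (app_mem_bump _ hp)]
  set z := (f ^ (n : ℤ)) p with hz
  have hzJ : z ∈ bump g x := by
    obtain ⟨w, hw, hle⟩ := hspec
    obtain ⟨w', hw', hle'⟩ := hco z (app_mem_bump _ hp)
    exact bump_conv hw hw' hle hle'
  have hzK : z ∈ bump k p := by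
    rw [hz, ← hiter n le_rfl]
    exact zp_mem_bump k p _
  have hgz : bump g z = bump g x := bump_eq_of_mem hzJ
  have hkz : bump k z = bump k p := bump_eq_of_mem hzK
  refine overlap_conf (g := g) (k := k) (z := z) (a := f x) (a' := p) ?_ ?_ ?_ ?_ ?_ ?_
  · exact (lt_of_mem_bump hg hzJ).ne'
  · exact (gt_of_mem_bump hkp hzK).ne
  · rwa [hgz]
  · rw [hkz]
    intro hmem
    exact absurd (gt_of_mem_bump hkp hmem) (not_lt.2 hkx1.le)
  · rw [hkz]; exact self_mem_bump k p
  · rw [hgz]; exact hpn p le_rfl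

theorem nested_conf {g f : Ω ≃o Ω} {x p : Ω} (hg : g x ≠ x) (hf : f x ≠ x)
    (hsub : bump g x ⊆ bump f x) (hp : p ∈ bump f x) (hpJ : p ∉ bump g x) : HasConf Ω := by
  wlog hg1 : x < g x generalizing g with H
  · refine H (g := g⁻¹) ?_ ?_ ?_ ?_
    · intro h
      have := congrArg g h
      rw [app_inv_self] at this
      exact hg this.symm
    · rwa [bump_inv]
    · rwa [bump_inv]
    · exact lt_inv_of_lt (lt_of_le_of_ne (not_lt.1 hg1) hg)
  wlog hf1 : x < f x generalizing f with H
  · refine H (f := f⁻¹) ?_ ?_ ?_ ?_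
    · intro h
      have := congrArg f h
      rw [app_inv_self] at this
      exact hf this.symm
    · rwa [bump_inv]
    · rwa [bump_inv]
    · exact lt_inv_of_lt (lt_of_le_of_ne (not_lt.1 hf1) hf)
  have hxg := self_mem_bump g x
  rcases lt_or_ge p x with hpx | hpx
  · have hpJ' : ∀ w ∈ bump g x, p < w := by
      intro w hw
      by_contra hc
      push Not at hc
      exact hpJ (bump_conv hw hxg hc hpx.le)
    by_cases hco : ∀ a ∈ bump f x, ∃ w ∈ bump g x, a ≤ w
    · exact nested_high hg1 hf1 hsub hp hpJ' hco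
    · push Not at hco
      obtain ⟨a, ha, haw⟩ := hco
      obtain ⟨n, hn⟩ := exists_zp_lt hf1 hp ha
      refine ⟨g, f ^ (n : ℤ), x, hg1, fun z hz w hw => ?_⟩
      exact (haw z hz).trans (hn.trans ((f ^ (n : ℤ)).lt_iff_lt.2 (hpJ' w hw)))
  · have hpx' : x < p := lt_of_le_of_ne hpx (fun h => hpJ (h ▸ hxg))
    have hpJ' : ∀ w ∈ bump g x, w < p := by
      intro w hw
      by_contra hc
      push Not at hc
      exact hpJ (bump_conv hxg hw hpx'.le hc)
    by_cases hco : ∀ a ∈ bump f x, ∃ w ∈ bump g x, w ≤ a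
    · exact nested_low hg1 hf1 hsub hp hpJ' hco
    · push Not at hco
      obtain ⟨a, ha, haw⟩ := hco
      obtain ⟨n, hn⟩ := exists_zp_lt hf1 ha hp
      refine ⟨g, f ^ (n : ℤ), x, hg1, fun z hz w hw => ?_⟩
      exact (hpJ' z hz).trans (hn.trans ((f ^ (n : ℤ)).lt_iff_lt.2 (haw w hw)))

/-- Without a configuration, bumps through one point agree. -/
theorem bump_eq_of_noConf (hN : ¬ HasConf Ω) {g f : Ω ≃o Ω} {x : Ω} (hg : g x ≠ x)
    (hf : f x ≠ x) : bump g x = bump f x := by
  by_contra hne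
  by_cases h1 : bump g x ⊆ bump f x
  · have h2 : ∃ p ∈ bump f x, p ∉ bump g x := by
      by_contra hc
      push Not at hc
      exact hne (Set.Subset.antisymm h1 hc)
    obtain ⟨p, hp, hp'⟩ := h2
    exact hN (nested_conf hg hf h1 hp hp')
  · obtain ⟨a, ha, ha'⟩ := Set.not_subset.1 h1
    by_cases h2 : bump f x ⊆ bump g x
    · exact hN (nested_conf hf hg h2 ha ha')
    · obtain ⟨p, hp, hp'⟩ := Set.not_subset.1 h2
      exact hN (overlap_conf hg hf ha ha' hp hp')

/-- Without a configuration, a bump is preserved by every automorphism. -/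
theorem mem_bump_of_noConf (hN : ¬ HasConf Ω) {f : Ω ≃o Ω} {x : Ω} (hf : f x ≠ x)
    (b : Ω ≃o Ω) {z : Ω} : b z ∈ bump f x ↔ z ∈ bump f x := by
  -- some point of the bump is mapped into the bump
  have hinter : ∃ w ∈ bump f x, b w ∈ bump f x := by
    by_contra hc
    push Not at hc
    have h1 := hc x (self_mem_bump f x)
    rcases lt_or_ge x (b x) with h | h
    · -- `b x` is above the bump, hence `b w` for all `w`
      refine hN (conf_of_ne (b := b) hf fun z hz w hw => ?_)
      have hbx : ∀ z ∈ bump f x, z < b x := by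
        intro z hz
        by_contra hle
        push Not at hle
        exact h1 (bump_conv (self_mem_bump f x) hz h.le hle)
      by_contra hle
      push Not at hle
      rcases le_total w x with hwx | hwx
      · -- b w ≤ z < b x, b w not in bump
        have hbw := hc w hw
        -- b w below the bump, impossible by convexity of the image
        have h2 : b w < x := by
          by_contra hle2
          push Not at hle2
          exact hbw (bump_conv (self_mem_bump f x) hz hle2 hle)
        -- x is between b w and b x, so b⁻¹ x is in the bump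
        have h3 : b⁻¹ x ∈ bump f x := by
          refine bump_conv hw (self_mem_bump f x) ?_ ?_
          · have := (b⁻¹).le_iff_le.2 h2.le
            rwa [inv_app_self] at this
          · have := (b⁻¹).le_iff_le.2 h.le
            rwa [inv_app_self] at this
        have h4 := hc _ h3
        rw [app_inv_self] at h4
        exact h4 (self_mem_bump f x)
      · exact absurd (hbx z hz) (not_lt.2 ((b.le_iff_le.2 hwx).trans hle))
    · -- `b x` is below the bump
      have h' : b x < x := lt_of_le_of_ne h (fun he => h1 (by rw [he]; exact self_mem_bump f x))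
      have hbx : ∀ z ∈ bump f x, b x < z := by
        intro z hz
        by_contra hle
        push Not at hle
        exact h1 (bump_conv hz (self_mem_bump f x) hle h'.le)
      refine hN (conf_of_ne (b := b⁻¹) hf fun z hz w hw => ?_)
      -- want z < b⁻¹ w, i.e. b z < w
      by_contra hle
      push Not at hle
      have hle' : w ≤ b z := by
        have := b.le_iff_le.2 hle
        rwa [app_inv_self] at this
      rcases le_total z x with hzx | hzx
      · exact absurd (hbx w hw) (not_lt.2 (hle'.trans (b.le_iff_le.2 hzx)))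
      · have hbz := hc z hz
        have h2 : x < b z := by
          by_contra hle2
          push Not at hle2
          exact hbz (bump_conv hw (self_mem_bump f x) hle' hle2)
        have h3 : b⁻¹ x ∈ bump f x := by
          refine bump_conv (self_mem_bump f x) hz ?_ ?_
          · have := (b⁻¹).le_iff_le.2 h'.le
            rwa [inv_app_self] at this
          · have := (b⁻¹).le_iff_le.2 h2.le
            rwa [inv_app_self] at this
        have h4 := hc _ h3
        rw [app_inv_self] at h4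
        exact h4 (self_mem_bump f x)
  obtain ⟨w, hw, hbw⟩ := hinter
  have h1 : f (b w) ≠ b w := ne_of_mem_bump hf hbw
  have h2 : (b * f * b⁻¹) (b w) ≠ b w := by
    simp only [mul_app, inv_app_self]
    intro h
    exact ne_of_mem_bump hf hw (b.injective h)
  have h3 := bump_eq_of_noConf hN h2 h1
  have h4 : bump (b * f * b⁻¹) (b w) = bump f x := h3.trans (bump_eq_of_mem hbw)
  have h5 : b z ∈ bump f x ↔ b z ∈ bump (b * f * b⁻¹) (b w) := by rw [h4]
  have h6 : z ∈ bump f w ↔ z ∈ bump f x := by rw [bump_eq_of_mem hw]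
  exact h5.trans ((bump_conj f b w z).trans h6)

/-- The key step of Hölder's theorem. -/
theorem comm_at_aux (hN : ¬ HasConf Ω) {f g : Ω ≃o Ω} {x : Ω} (hf : f x ≠ x)
    (hlt : g (f x) < f (g x)) : False := by
  set J := bump f x with hJ
  have hxJ : x ∈ J := self_mem_bump f x
  have hinv : ∀ (k : Ω ≃o Ω) (z : Ω), k z ∈ J ↔ z ∈ J := fun k z => mem_bump_of_noConf hN hf k
  have hJx : ∀ k : Ω ≃o Ω, k x ≠ x → bump k x = J := fun k hk => bump_eq_of_noConf hN hk hf
  -- an element positive at one point of `J` is positive on `J`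
  have hpos : ∀ (k : Ω ≃o Ω) (z w : Ω), z ∈ J → w ∈ J → z < k z → w < k w := by
    intro k z w hz hw hk
    have h1 : bump k z = bump f z := bump_eq_of_noConf hN hk.ne' (ne_of_mem_bump hf hz)
    have h2 : w ∈ bump k z := by
      rw [h1, bump_eq_of_mem hz]; exact hw
    exact lt_of_mem_bump hk h2
  -- comparison of two elements at one point of `J` gives comparison on `J`
  have hcmp : ∀ (k l : Ω ≃o Ω) (z w : Ω), z ∈ J → w ∈ J → k z < l z → k w < l w := by
    intro k l z w hz hw hkl
    have h1 : z < (k⁻¹ * l) z := by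
      have := (k⁻¹).lt_iff_lt.2 hkl
      rwa [inv_app_self] at this
    have h2 := hpos _ z w hz hw h1
    have h3 := k.lt_iff_lt.2 h2
    rwa [mul_app, app_inv_self] at h3
  have hcmp' : ∀ (k l : Ω ≃o Ω) (z w : Ω), z ∈ J → w ∈ J → k z ≤ l z → k w ≤ l w := by
    intro k l z w hz hw hkl
    by_contra hc
    push Not at hc
    exact absurd (hcmp l k w z hw hz hc) (not_lt.2 hkl)
  set k := (g * f)⁻¹ * (f * g) with hk
  have hkx : x < k x := by
    have := ((g * f)⁻¹).lt_iff_lt.2 hlt
    rw [← mul_app g f, inv_app_self] at this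
    exact this
  have hgfk : ∀ w, g (f (k w)) = f (g w) := by
    intro w
    rw [hk]
    change (g * f) (((g * f)⁻¹) ((f * g) w)) = _
    rw [app_inv_self]; rfl
  -- floor with respect to a positive element
  have hfloor : ∀ (e a : Ω ≃o Ω), x < e x → ∃ m : ℤ, (e ^ m) x ≤ a x ∧ a x < (e ^ (m + 1)) x := by
    intro e a he
    have h1 : bump e x = J := hJx e he.ne'
    have h2 : a x ∈ bump e x := by rw [h1]; exact (hinv a x).2 hxJ
    obtain ⟨p, q, hp, hq⟩ := h2
    have hmono := zp_strictMono he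
    have hbdd : ∃ b : ℤ, ∀ m : ℤ, (e ^ m) x ≤ a x → m ≤ b :=
      ⟨q, fun m hm => hmono.le_iff_le.1 (hm.trans hq)⟩
    obtain ⟨m, hm1, hm2⟩ := Int.exists_greatest_of_bdd hbdd ⟨p, hp⟩
    refine ⟨m, hm1, ?_⟩
    by_contra hc
    push Not at hc
    have := hm2 _ hc
    omega
  -- no positive `e` satisfies `e² ≤ k`
  have hno : ∀ e : Ω ≃o Ω, x < e x → ¬ e (e x) ≤ k x := by
    intro e he hek
    obtain ⟨m, hm1, hm2⟩ := hfloor e f he
    obtain ⟨n, hn1, hn2⟩ := hfloor e g he
    have hgx : g x ∈ J := (hinv g x).2 hxJ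
    have h1 : f (g x) < (e ^ (m + n + 2)) x := by
      have h2 : f (g x) < (e ^ (m + 1)) (g x) := hcmp f (e ^ (m + 1)) x (g x) hxJ hgx hm2
      have h3 : (e ^ (m + 1)) (g x) < (e ^ (m + 1)) ((e ^ (n + 1)) x) :=
        (e ^ (m + 1)).lt_iff_lt.2 hn2
      rw [← zp_add] at h3
      have h4 : m + 1 + (n + 1) = m + n + 2 := by ring
      rw [h4] at h3
      exact h2.trans h3
    have h5 : (e ^ (m + n + 2)) x ≤ g (f (k x)) := by
      have hkJ : k x ∈ J := (hinv k x).2 hxJ
      have hfk : f (k x) ∈ J := (hinv f _).2 hkJ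
      have h6 : (e ^ n) (f (k x)) ≤ g (f (k x)) := hcmp' (e ^ n) g x _ hxJ hfk hn1
      have h7 : (e ^ m) (k x) ≤ f (k x) := hcmp' (e ^ m) f x _ hxJ hkJ hm1
      have h8 : (e ^ (m + n)) (e (e x)) ≤ g (f (k x)) := by
        rw [add_comm, zp_add]
        refine le_trans ?_ h6
        refine (e ^ n).le_iff_le.2 (le_trans ?_ h7)
        exact (e ^ m).le_iff_le.2 hek
      have h9 : (e ^ (m + n)) (e (e x)) = (e ^ (m + n + 2)) x := by
        rw [zp_add e (m + n) 2]
        congr 1
      rwa [h9] at h8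
    rw [hgfk] at h5
    exact absurd h1 (not_lt.2 h5)
  -- hence `k` is minimal positive
  have hmin : ∀ e : Ω ≃o Ω, x < e x → k x ≤ e x := by
    intro e he
    by_contra hc
    push Not at hc
    have h1 : k x < e (e x) := not_le.1 (hno e he)
    -- e₂ = e⁻¹ k
    have h2 : x < (e⁻¹ * k) x := by
      have := (e⁻¹).lt_iff_lt.2 hc
      rwa [inv_app_self] at this
    have h3 : (e⁻¹ * k) x < e x := by
      have := (e⁻¹).lt_iff_lt.2 h1
      rwa [inv_app_self] at this
    have h4 : (e⁻¹ * k) ((e⁻¹ * k) x) < e ((e⁻¹ * k) x) :=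
      hcmp _ e x _ hxJ ((hinv _ x).2 hxJ) h3
    have h5 : e ((e⁻¹ * k) x) = k x := by
      rw [mul_app, app_inv_self]
    rw [h5] at h4
    exact hno _ h2 h4.le
  -- every element is a power of `k` on `J`
  have hpow : ∀ a : Ω ≃o Ω, ∃ m : ℤ, ∀ z ∈ J, a z = (k ^ m) z := by
    intro a
    obtain ⟨m, hm1, hm2⟩ := hfloor k a hkx
    have h1 : x ≤ (k ^ (-m)) (a x) := by
      have := (k ^ (-m)).le_iff_le.2 hm1
      rwa [zp_neg_zp] at this
    have h2 : (k ^ (-m)) (a x) < k x := by
      have := (k ^ (-m)).lt_iff_lt.2 hm2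
      rw [← zp_add] at this
      have h3 : -m + (m + 1) = 1 := by ring
      rwa [h3, zpow_one] at this
    have h3 : (k ^ (-m) * a) x = x := by
      rcases h1.eq_or_lt with h | h
      · exact h.symm
      · exact absurd (hmin (k ^ (-m) * a) h) (not_le.2 h2)
    refine ⟨m, fun z hz => ?_⟩
    have h4 : (k ^ (-m) * a) z = z := by
      rcases lt_trichotomy z ((k ^ (-m) * a) z) with h | h | h
      · exact absurd h3 (hpos _ z x hz hxJ h).ne'
      · exact h.symm
      · exfalso
        have h5 : z < (k ^ (-m) * a)⁻¹ z := lt_inv_of_lt h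
        have h6 := hpos _ z x hz hxJ h5
        have h7 : (k ^ (-m) * a)⁻¹ x = x := by
          calc (k ^ (-m) * a)⁻¹ x = (k ^ (-m) * a)⁻¹ ((k ^ (-m) * a) x) := by rw [h3]
            _ = x := inv_app_self _ _
        exact absurd h7 h6.ne'
    have h5 := congrArg (k ^ m) h4
    rw [mul_app, zp_zp_neg] at h5
    exact h5
  obtain ⟨m, hm⟩ := hpow f
  obtain ⟨n, hn⟩ := hpow g
  have h1 : f (g x) = (k ^ (m + n)) x := by
    rw [hn x hxJ, hm _ ((hinv _ x).2 hxJ), ← zp_add]
  have h2 : g (f x) = (k ^ (m + n)) x := by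
    rw [hm x hxJ, hn _ ((hinv _ x).2 hxJ), ← zp_add, add_comm]
  rw [h1, h2] at hlt
  exact lt_irrefl _ hlt

theorem comm_at_of_noConf (hN : ¬ HasConf Ω) {f g : Ω ≃o Ω} {x : Ω} (hf : f x ≠ x)
    (hg : g x ≠ x) : f (g x) = g (f x) := by
  rcases lt_trichotomy (f (g x)) (g (f x)) with h | h | h
  · exact (comm_at_aux hN hg h).elim
  · exact h
  · exact (comm_at_aux hN hf h).elim

/-- If `Aut(Ω)` is not commutative then there is a configuration. -/
theorem hasConf_of_not_comm (h : ∃ f g : Ω ≃o Ω, f * g ≠ g * f) : HasConf Ω := by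
  by_contra hN
  obtain ⟨f, g, hfg⟩ := h
  apply hfg
  have aux : ∀ (f g : Ω ≃o Ω) (x : Ω), f x ≠ x → g x = x → f (g x) = g (f x) := by
    intro f g x hf hg
    have h1 : f x ∈ bump f x := app_mem_bump_iff'.2 (self_mem_bump f x)
    have h2 : g (f x) = f x := by
      by_contra hc
      have h3 : f (f x) ≠ f x := ne_of_mem_bump hf h1
      have h4 := bump_eq_of_noConf hN hc h3
      have h5 : x ∈ bump g (f x) := by
        rw [h4, bump_eq_of_mem h1]; exact self_mem_bump f x
      exact ne_of_mem_bump hc h5 hg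
    rw [hg, h2]
  apply OrderIso.ext
  funext x
  change f (g x) = g (f x)
  by_cases hf : f x = x
  · by_cases hg : g x = x
    · rw [hf, hg, hf]
    · exact (aux g f x hg hf).symm
  · by_cases hg : g x = x
    · exact aux f g x hf hg
    · exact comm_at_of_noConf hN hf hg

end Pool.Agent.Helper56.QV
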