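import Mathlib
import Pool.Agent.Helper56.QV.Sys
import Pool.Agent.Helper56.QV.Config2

/-! A solution of the system gives a run of the machine. -/

set_option autoImplicit false

namespace Pool.Agent.Helper56.QV

open Pool.Agent.Helper14.Boone

universe u

variable {Ω : Type u} [LinearOrder Ω]

theorem inf_app (f g : Ω ≃o Ω) (x : Ω) : (f ⊓ g) x = min (f x) (g x) := rfl

theorem sup_app (f g : Ω ≃o Ω) (x : Ω) : (f ⊔ g) x = max (f x) (g x) := rfl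

theorem act_eq {s w : Ω ≃o Ω} (h : s ⊓ (w ⊔ w⁻¹) = 1) {z : Ω} (hz : z < s z) : w z = z := by
  have h1 := congrArg (fun f : Ω ≃o Ω => f z) h
  simp only [inf_app, sup_app, one_app] at h1
  have h2 : max (w z) (w⁻¹ z) = z := by
    rcases min_choice (s z) (max (w z) (w⁻¹ z)) with h3 | h3
    · rw [h3] at h1; exact absurd h1 hz.ne'
    · rw [h3] at h1; exact h1
  have h3 : w z ≤ z := (le_max_left _ _).trans h2.le
  have h4 : w⁻¹ z ≤ z := (le_max_right _ _).trans h2.le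
  have h5 := w.le_iff_le.2 h4
  rw [app_inv_self] at h5
  exact le_antisymm h3 h5

theorem comp_lt {s : Ω ≃o Ω} (h1 : s ⊓ 1 = 1) {x : Ω} (hx : s x ≠ x) : x < s x := by
  have h2 := congrArg (fun f : Ω ≃o Ω => f x) h1
  simp only [inf_app, one_app] at h2
  exact lt_of_le_of_ne (min_eq_right_iff.1 h2) (Ne.symm hx)

theorem comp_at {s c : Ω ≃o Ω} (h1 : s ⊓ 1 = 1) (h2 : s ⊓ (c * s⁻¹) = 1) {x : Ω}
    (hx : s x ≠ x) : c (s⁻¹ x) = x := by
  have h3 := comp_lt h1 hx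
  have h4 := congrArg (fun f : Ω ≃o Ω => f x) h2
  simp only [inf_app, one_app, mul_app] at h4
  rcases min_choice (s x) (c (s⁻¹ x)) with h5 | h5
  · rw [h5] at h4; exact absurd h4 hx
  · rw [h5] at h4; exact h4

theorem comp_zp {s c : Ω ≃o Ω} (h1 : s ⊓ 1 = 1) (h2 : s ⊓ (c * s⁻¹) = 1) {x : Ω}
    (hx : s x ≠ x) (n : ℤ) : (s ^ n) x = (c ^ n) x := by
  have hne : ∀ n : ℤ, s ((s ^ n) x) ≠ (s ^ n) x := fun n =>
    ne_of_mem_bump hx (zp_mem_bump s x n)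
  have hfor : ∀ u : Ω, s u ≠ u → s u = c u := by
    intro u hu
    have h3 : s (s u) ≠ s u := fun h => hu (s.injective h)
    have h4 := comp_at h1 h2 h3
    rw [inv_app_self] at h4
    exact h4.symm
  induction n using Int.induction_on with
  | zero => simp
  | succ n ih =>
    rw [add_comm, zp_one_add, zp_one_add, ← ih]
    exact hfor _ (hne _)
  | pred n ih =>
    have h3 : (-(n : ℤ) - 1) = -1 + -(n : ℤ) := by ring
    rw [h3, zp_add, zp_add, ← ih, zpow_neg_one, zpow_neg_one]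
    have h4 := comp_at h1 h2 (hne (-(n : ℤ)))
    have h5 := congrArg (fun u => c⁻¹ u) h4
    simp only [inv_app_self] at h5
    exact h5

theorem comp_bump {s c : Ω ≃o Ω} (h1 : s ⊓ 1 = 1) (h2 : s ⊓ (c * s⁻¹) = 1) {x : Ω}
    (hx : s x ≠ x) : bump s x = bump c x := by
  ext z
  simp only [mem_bump, comp_zp h1 h2 hx]

theorem comp_on {s c : Ω ≃o Ω} (h1 : s ⊓ 1 = 1) (h2 : s ⊓ (c * s⁻¹) = 1) {x : Ω}
    (hx : s x ≠ x) {z : Ω} (hz : z ∈ bump c x) : z < s z ∧ s z = c z := by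
  have h3 : s z ≠ z := ne_of_mem_bump hx (by rw [comp_bump h1 h2 hx]; exact hz)
  refine ⟨comp_lt h1 h3, ?_⟩
  have := comp_zp h1 h2 h3 1
  simpa using this

/-! ### Equality on an invariant set -/

theorem iter_eq {J : Set Ω} {g h : Ω ≃o Ω} (hgh : ∀ z ∈ J, g z = h z) (hJ : ∀ z ∈ J, h z ∈ J)
    (n : ℕ) : ∀ z ∈ J, (g ^ n) z = (h ^ n) z := by
  induction n with
  | zero => intro z _; simp
  | succ n ih =>
    intro z hz
    rw [pow_succ, pow_succ, mul_app, mul_app, hgh z hz]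
    exact ih _ (hJ z hz)

theorem iter_mem {J : Set Ω} {h : Ω ≃o Ω} (hJ : ∀ z ∈ J, h z ∈ J)
    (n : ℕ) : ∀ z ∈ J, (h ^ n) z ∈ J := by
  induction n with
  | zero => intro z hz; simpa using hz
  | succ n ih =>
    intro z hz
    rw [pow_succ, mul_app]
    exact ih _ (hJ z hz)

theorem inv_eq_on {J : Set Ω} {g h : Ω ≃o Ω} (hgh : ∀ z ∈ J, g z = h z)
    (hJ : ∀ z, g z ∈ J ↔ z ∈ J) : ∀ z ∈ J, g⁻¹ z = h⁻¹ z := by
  intro z hz
  have h1 : g⁻¹ z ∈ J := by rw [← hJ, app_inv_self]; exact hz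
  have h2 := hgh _ h1
  rw [app_inv_self] at h2
  have h3 := congrArg (fun u => h⁻¹ u) h2
  simp only [inv_app_self] at h3
  exact h3.symm

theorem iter_eq_z {J : Set Ω} {g h : Ω ≃o Ω} (hgh : ∀ z ∈ J, g z = h z)
    (hJ : ∀ z, g z ∈ J ↔ z ∈ J) (n : ℤ) : ∀ z ∈ J, (g ^ n) z = (h ^ n) z := by
  have hJh : ∀ z ∈ J, h z ∈ J := fun z hz => by rw [← hgh z hz]; exact (hJ z).2 hz
  have hJh' : ∀ z ∈ J, h⁻¹ z ∈ J := fun z hz => by
    rw [← inv_eq_on hgh hJ z hz, ← hJ, app_inv_self]; exact hz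
  intro z hz
  obtain ⟨k, rfl | rfl⟩ := n.eq_nat_or_neg
  · rw [zpow_natCast, zpow_natCast]
    exact iter_eq hgh hJh k z hz
  · rw [zpow_neg, zpow_neg, zpow_natCast, zpow_natCast, ← inv_pow, ← inv_pow]
    exact iter_eq (inv_eq_on hgh hJ) hJh' k z hz

/-- A root of an element preserving a convex set preserves it. -/
theorem inv_of_pow {J : Set Ω} (hJ : J.OrdConnected) {v w : Ω ≃o Ω} {q : ℕ} (hq : 0 < q)
    (hw : ∀ z, w z ∈ J ↔ z ∈ J) (h : ∀ z ∈ J, (v ^ q) z = w z) : ∀ z, v z ∈ J ↔ z ∈ J := by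
  have hup : ∀ z : Ω, z ≤ v z → ∀ n : ℕ, v z ≤ (v ^ (n + 1)) z := by
    intro z hz n
    induction n with
    | zero => simp
    | succ n ih =>
      refine ih.trans ?_
      rw [pow_succ v (n + 1), mul_app]
      exact (v ^ (n + 1)).le_iff_le.2 hz
  have hdn : ∀ z : Ω, v z ≤ z → ∀ n : ℕ, (v ^ (n + 1)) z ≤ v z := by
    intro z hz n
    induction n with
    | zero => simp
    | succ n ih =>
      refine le_trans ?_ ih
      rw [pow_succ v (n + 1), mul_app]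
      exact (v ^ (n + 1)).le_iff_le.2 hz
  obtain ⟨q, rfl⟩ : ∃ k, q = k + 1 := ⟨q - 1, by omega⟩
  have hfor : ∀ z ∈ J, v z ∈ J := by
    intro z hz
    have h1 : (v ^ (q + 1)) z ∈ J := by rw [h z hz]; exact (hw z).2 hz
    rcases le_total z (v z) with h2 | h2
    · exact hJ.out hz h1 ⟨h2, hup z h2 q⟩
    · exact hJ.out h1 hz ⟨hdn z h2 q, h2⟩
  intro z
  refine ⟨fun hz => ?_, hfor z⟩
  have h1 : w⁻¹ (v z) ∈ J := by rw [← hw, app_inv_self]; exact hz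
  have h2 := h _ h1
  rw [app_inv_self, pow_succ', mul_app] at h2
  have h3 := v.injective h2
  rw [← h3]
  exact iter_mem hfor q _ h1

theorem inv_mem_iff {J : Set Ω} {v : Ω ≃o Ω} (h : ∀ z, v z ∈ J ↔ z ∈ J) :
    ∀ z, v⁻¹ z ∈ J ↔ z ∈ J := by
  intro z
  rw [← h, app_inv_self]

theorem zp_mem_iff {J : Set Ω} {v : Ω ≃o Ω} (h : ∀ z, v z ∈ J ↔ z ∈ J) (n : ℤ) :
    ∀ z, (v ^ n) z ∈ J ↔ z ∈ J := by
  induction n using Int.induction_on with
  | zero => intro z; simp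
  | succ n ih => intro z; rw [add_comm, zp_one_add, h, ih]
  | pred n ih =>
    intro z
    have h3 : (-(n : ℤ) - 1) = -1 + -(n : ℤ) := by ring
    rw [h3, zp_add, zpow_neg_one, inv_mem_iff h, ih]

/-- On `J` the element `v` is the `r`-th power of `c`. -/
def Rt (J : Set Ω) (c v : Ω ≃o Ω) (r : ℚ) : Prop :=
  ∃ q : ℕ, 0 < q ∧ ∃ p : ℤ, (p : ℚ) = r * q ∧ ∀ z ∈ J, (v ^ q) z = (c ^ p) z

theorem Rt.aux {J : Set Ω} (hJ : J.OrdConnected) {c v : Ω ≃o Ω}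
    (hc : ∀ z, c z ∈ J ↔ z ∈ J) (hvc : Commute v c) {q : ℕ} (hq : 0 < q) {p : ℤ}
    (h : ∀ z ∈ J, (v ^ q) z = (c ^ p) z) (k m : ℤ) :
    (∀ z, (v ^ k * c ^ m) z ∈ J ↔ z ∈ J) ∧
      ∀ z ∈ J, ((v ^ k * c ^ m) ^ q) z = (c ^ (k * p + m * q)) z := by
  have hv : ∀ z, v z ∈ J ↔ z ∈ J := inv_of_pow hJ hq (zp_mem_iff hc p) h
  refine ⟨fun z => by rw [mul_app, zp_mem_iff hv, zp_mem_iff hc], fun z hz => ?_⟩
  have h1 : (v ^ k * c ^ m) ^ q = (v ^ q) ^ k * c ^ (m * q) := by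
    have h2 : Commute (v ^ k) (c ^ m) := (hvc.zpow_right m).zpow_left k
    rw [h2.mul_pow, ← zpow_natCast (v ^ k) q, ← zpow_mul, ← zpow_natCast (c ^ m) q, ← zpow_mul,
      ← zpow_natCast v q, ← zpow_mul, mul_comm k]
  have hvq : ∀ z, (v ^ q) z ∈ J ↔ z ∈ J := by
    intro z
    have := zp_mem_iff hv (q : ℤ) z
    rwa [zpow_natCast] at this
  rw [h1, mul_app, iter_eq_z h hvq k _ ((zp_mem_iff hc _ z).2 hz), ← zpow_mul, ← zp_add, mul_comm p]

theorem Rt.step {J : Set Ω} (hJ : J.OrdConnected) {c v w : Ω ≃o Ω} {r r' : ℚ}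
    (hc : ∀ z, c z ∈ J ↔ z ∈ J) (hvc : Commute v c) (hv : Rt J c v r) {N : ℕ} (hN : 0 < N)
    (k m : ℤ) (hw : ∀ z ∈ J, (w ^ N) z = (v ^ k * c ^ m) z) (hr : (N : ℚ) * r' = k * r + m) :
    Rt J c w r' := by
  obtain ⟨q, hq, p, hp, h⟩ := hv
  obtain ⟨h1, h2⟩ := Rt.aux hJ hc hvc hq h k m
  refine ⟨N * q, Nat.mul_pos hN hq, k * p + m * q, ?_, ?_⟩
  · push_cast
    rw [hp]
    calc (k : ℚ) * (r * q) + m * q = (k * r + m) * q := by ring
      _ = r' * (N * q) := by rw [← hr]; ring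
  · intro z hz
    rw [pow_mul, iter_eq hw (fun z hz => (h1 z).2 hz) q z hz, h2 z hz]

theorem Rt.nonneg {J : Set Ω} (hJ : J.OrdConnected) {c v : Ω ≃o Ω} {r : ℚ}
    (hc : ∀ z, c z ∈ J ↔ z ∈ J) (hvc : Commute v c) (hv : Rt J c v r) {x : Ω} (hx : x ∈ J)
    (hcx : x < c x) (k m : ℤ) (hw : ∀ z ∈ J, z ≤ (v ^ k * c ^ m) z) : 0 ≤ k * r + m := by
  obtain ⟨q, hq, p, hp, h⟩ := hv
  obtain ⟨h1, h2⟩ := Rt.aux hJ hc hvc hq h k m
  have h3 : ∀ n : ℕ, x ≤ ((v ^ k * c ^ m) ^ n) x := by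
    intro n
    induction n with
    | zero => simp
    | succ n ih =>
      rw [pow_succ, mul_app]
      exact ih.trans (((v ^ k * c ^ m) ^ n).le_iff_le.2 (hw x hx))
  have h4 := h3 q
  rw [h2 x hx] at h4
  have h5 : 0 ≤ k * p + m * q := by
    by_contra hneg
    push Not at hneg
    have := zp_strictMono hcx hneg
    simp only [zpow_zero, one_app] at this
    exact absurd h4 (not_le.2 this)
  have hq' : (0 : ℚ) < q := by exact_mod_cast hq
  have h6 : (0 : ℚ) ≤ (k * r + m) * q := by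
    have h7 : ((k * p + m * q : ℤ) : ℚ) = (k * r + m) * q := by
      push_cast
      rw [hp]; ring
    rw [← h7]
    exact_mod_cast h5
  exact nonneg_of_mul_nonneg_left h6 hq'

end Pool.Agent.Helper56.QV
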