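import Mathlib
import Pool.Agent.Helper56.QV.Sem
import Pool.Agent.Helper56.QV.Sound

/-! A nontrivial solution of the system without halting gives iterated square roots. -/

set_option autoImplicit false

namespace Pool.Agent.Helper56.QV

open Pool.Agent.Helper14.Boone

universe u

section

variable {C K Γ : Type} {g : ℕ} (e : Γ ≃ Fin g) {Ω : Type u} [LinearOrder Ω]
variable [Fintype C] [Fintype K] [Fintype Γ] [DecidableEq K] [DecidableEq C]

theorem bigG_lt {l : List (Ω ≃o Ω)} {z : Ω} (h : z < bigG l z) : ∃ a ∈ l, z < a z := by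
  induction l with
  | nil => exact absurd h (lt_irrefl _)
  | cons a l ih =>
    have h1 : z < max (a z) (bigG l z) := h
    rcases lt_max_iff.1 h1 with h2 | h2
    · exact ⟨a, List.mem_cons_self, h2⟩
    · obtain ⟨a', h3, h4⟩ := ih h2
      exact ⟨a', List.mem_cons_of_mem _ h3, h4⟩

theorem le_of_sup_one {s t : Ω ≃o Ω} (h : (s * t⁻¹) ⊔ 1 = 1) (z : Ω) : s z ≤ t z := by
  have h1 : s * t⁻¹ ≤ 1 := by rw [← h]; exact le_sup_left
  have h2 : (s * t⁻¹) (t z) ≤ t z := h1 (t z)
  rwa [mul_app, inv_app_self] at h2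

theorem eq_of_mul_inv_fix {v w : Ω ≃o Ω} {J : Set Ω} (h : ∀ z ∈ J, (v * w⁻¹) z = z)
    (hv : ∀ z ∈ J, w z ∈ J) : ∀ z ∈ J, v z = w z := by
  intro z hz
  have h1 := h (w z) (hv z hz)
  rwa [mul_app, inv_app_self] at h1

theorem le_of_inf_fix {v : Ω ≃o Ω} {z : Ω} (h : (v ⊓ 1) z = z) : z ≤ v z := by
  have h1 : min (v z) z = z := h
  exact min_eq_right_iff.1 h1

/-- The configuration after `n` steps. -/
def cfg (M : SM C K Γ) (q₀ : C) (S : K → List Γ) (n : ℕ) : C × (K → List Γ) :=
  (M.step^[n]) (q₀, S)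

omit [Fintype C] [Fintype K] [Fintype Γ] [DecidableEq K] [DecidableEq C] in
theorem cfg_succ (M : SM C K Γ) (q₀ : C) (S : K → List Γ) (n : ℕ) :
    cfg M q₀ S (n + 1) = M.step (cfg M q₀ S n) := by
  unfold cfg
  rw [Function.iterate_succ_apply']

omit [Fintype C] [DecidableEq C] in
theorem sel_active {X : Vr C K Γ → (Ω ≃o Ω)} {q : C} {z : Ω} (h : z < selG X q z) :
    ∃ d : K → Option Γ, z < X (.ind q d) z := by
  obtain ⟨a, ha, h2⟩ := bigG_lt h
  simp only [List.mem_map] at ha
  obtain ⟨d, _, rfl⟩ := ha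
  exact ⟨d, h2⟩

theorem inv_congr {J : Set Ω} {v w : Ω ≃o Ω} (h : ∀ z ∈ J, v z = w z)
    (hw : ∀ z, w z ∈ J ↔ z ∈ J) : ∀ z, v z ∈ J ↔ z ∈ J := by
  intro z
  constructor
  · intro hz
    have h1 : w⁻¹ (v z) ∈ J := (inv_mem_iff hw _).2 hz
    have h2 := h _ h1
    rw [app_inv_self] at h2
    rwa [v.injective h2] at h1
  · intro hz
    rw [h z hz]
    exact (hw z).2 hz

theorem eq_of_mul_inv_fix' {v w : Ω ≃o Ω} {J : Set Ω} (h : ∀ z ∈ J, (v * w⁻¹) z = z)
    (hv : ∀ z, v z ∈ J ↔ z ∈ J) : ∀ z ∈ J, w z = v z := by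
  intro z hz
  have h1 := h (v z) ((hv z).2 hz)
  rw [mul_app] at h1
  have h2 := v.injective h1
  have h3 := congrArg (fun u => w u) h2
  simp only [app_inv_self] at h3
  exact h3.symm

theorem Rt.inv {J : Set Ω} (hJ : J.OrdConnected) {c v : Ω ≃o Ω} {r : ℚ}
    (hc : ∀ z, c z ∈ J ↔ z ∈ J) (hv : Rt J c v r) : ∀ z, v z ∈ J ↔ z ∈ J := by
  obtain ⟨q, hq, p, hp, h⟩ := hv
  exact inv_of_pow hJ hq (zp_mem_iff hc p) h

theorem alg_G2 {G : Type u} [Group G] {v c : G} (h : Commute v c) (g D : ℕ) :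
    c ^ g * ((v ^ (g + 2) * (c ^ D)⁻¹) ^ (g + 1))⁻¹ =
      v ^ (-(((g : ℤ) + 1) * ((g : ℤ) + 2))) * c ^ ((g : ℤ) + ((g : ℤ) + 1) * D) := by
  have h1 : v ^ (g + 2) * (c ^ D)⁻¹ = v ^ ((g : ℤ) + 2) * c ^ (-(D : ℤ)) := by
    rw [zpow_neg, zpow_natCast, ← zpow_natCast v (g + 2)]
    push_cast
    rfl
  have h2 : Commute (v ^ ((g : ℤ) + 2)) (c ^ (-(D : ℤ))) := h.zpow_zpow _ _
  rw [h1, ← zpow_natCast _ (g + 1), ← zpow_neg, h2.mul_zpow, ← zpow_mul, ← zpow_mul,
    ← zpow_natCast c g, ← mul_assoc, (h.symm.zpow_zpow _ _).eq, mul_assoc, ← zpow_add]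
  congr 2
  · push_cast; ring
  · push_cast; ring

theorem dyadic_of_sem {M : SM C K Γ} {q₀ h : C} {S : K → List Γ} {X : Vr C K Γ → (Ω ≃o Ω)}
    (H : Sem e M q₀ h S X) (hst : X .st ≠ 1) (hn : ∀ n, (cfg M q₀ S n).1 ≠ h) :
    HasDyadic Ω := by
  classical
  set b := X .b with hb
  set c := X .c with hc
  have hcomm : b⁻¹ * c * b = c := by
    have := H.cb
    unfold cjG at this
    exact mul_inv_eq_one.1 this
  have hbc : b * c * b⁻¹ = c := by
    calc b * c * b⁻¹ = b * (b⁻¹ * c * b) * b⁻¹ := by rw [hcomm]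
      _ = c := by group
  have hbc' : Commute b c := by
    change b * c = c * b
    calc b * c = (b * c * b⁻¹) * b := by group
      _ = c * b := by rw [hbc]
  -- the starting point
  obtain ⟨x₀, hx₀⟩ : ∃ x₀, X .st x₀ ≠ x₀ := by
    by_contra hcon
    push Not at hcon
    exact hst (OrderIso.ext (funext hcon))
  have hst0 := comp_on H.st1 H.st2 hx₀ (self_mem_bump c x₀)
  have hcx0 : x₀ < c x₀ := by rw [← hst0.2]; exact hst0.1
  set xn : ℕ → Ω := fun n => (b ^ n) x₀ with hxn
  set J : ℕ → Set Ω := fun n => bump c (xn n) with hJ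
  have hxs : ∀ n, xn (n + 1) = b (xn n) := by
    intro n
    simp only [hxn]
    rw [pow_succ', mul_app]
  have hcx : ∀ n, xn n < c (xn n) := by
    intro n
    induction n with
    | zero => simpa [hxn] using hcx0
    | succ n ih =>
      rw [hxs]
      have h1 : c (b (xn n)) = b (c (xn n)) := by
        change (c * b) (xn n) = (b * c) (xn n)
        rw [hbc'.eq]
      rw [h1]
      exact b.lt_iff_lt.2 ih
  have hJo : ∀ n, (J n).OrdConnected := fun n => bump_ordConnected _ _
  have hJc : ∀ n z, c z ∈ J n ↔ z ∈ J n := fun n z => app_mem_bump_iff'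
  have hJself : ∀ n, xn n ∈ J n := fun n => self_mem_bump _ _
  have hJs : ∀ n z, b z ∈ J (n + 1) ↔ z ∈ J n := by
    intro n z
    have h1 := bump_conj c b (xn n) z
    rw [hbc] at h1
    simp only [hJ, hxs]
    exact h1
  have hJs' : ∀ n z, z ∈ J (n + 1) ↔ b⁻¹ z ∈ J n := by
    intro n z
    rw [← hJs n, app_inv_self]
  -- commutation of registers with `c`
  have hreg : ∀ o, Commute (X (.reg o)) c := by
    intro o
    have h1 := H.cm o
    change X (.reg o) * c = c * X (.reg o)
    have h2 : X (.reg o) * c * ((X (.reg o))⁻¹ * c⁻¹) = (X (.reg o) * c) * (c * X (.reg o))⁻¹ := by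
      group
    rw [h2] at h1
    exact mul_inv_eq_one.1 h1
  -- consequences of an active indicator
  have hact : ∀ (n : ℕ) (s : Ω ≃o Ω), s ⊓ 1 = 1 → s ⊓ (c * s⁻¹) = 1 → xn n < s (xn n) →
      ∀ w : Ω ≃o Ω, actG s w = 1 → ∀ z ∈ J n, w z = z := by
    intro n s h1 h2 h3 w hw z hz
    exact act_eq hw (comp_on h1 h2 h3.ne' hz).1
  -- the induction
  have key : ∀ n, (∀ o, Rt (J n) c (X (.reg o)) (rho e ((cfg M q₀ S n).2 o))) ∧
      ∃ d, xn n < X (.ind (cfg M q₀ S n).1 d) (xn n) := by
    intro n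
    induction n with
    | zero =>
      refine ⟨fun o => ?_, ?_⟩
      · have h1 := hact 0 _ H.st1 H.st2 (by simpa [hxn] using hst0.1) _ (H.ini o)
        have h2 := eq_of_mul_inv_fix h1 (iter_mem (fun z hz => (hJc 0 z).2 hz) _)
        refine ⟨(g + 2) ^ (S o).length, by positivity, num e (S o), ?_, ?_⟩
        · have := rho_eq_num e (S o)
          change ((num e (S o) : ℕ) : ℤ) = rho e (S o) * (((g + 2) ^ (S o).length : ℕ) : ℚ)
          push_cast
          rw [← this]; ring
        · intro z hz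
          rw [h2 z hz, zpow_natCast]
      · have h1 := le_of_sup_one H.s0 x₀
        have h2 : x₀ < selG X q₀ x₀ := lt_of_lt_of_le hst0.1 h1
        simpa [hxn, cfg] using sel_active h2
    | succ n ih =>
      obtain ⟨ih1, d, hd⟩ := ih
      set q := (cfg M q₀ S n).1 with hq
      set T := (cfg M q₀ S n).2 with hT
      have hA := fun w hw => hact n _ (H.in1 (q, d)) (H.in2 (q, d)) hd w hw
      -- the guards
      have hguard : ∀ o, d o = (T o).head? := by
        intro o
        have hg1 : ∀ z ∈ J n, z ≤ (X (.reg o) ^ ((g : ℤ) + 2) * c ^ (-(dgo e (d o) : ℤ))) z := by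
          intro z hz
          have h1 := hA _ (H.g1 (q, d) o) z hz
          have h2 := le_of_inf_fix h1
          have h3 : G1 e X o (d o) = X (.reg o) ^ ((g : ℤ) + 2) * c ^ (-(dgo e (d o) : ℤ)) := by
            unfold G1
            rw [zpow_neg, zpow_natCast, ← zpow_natCast (X (.reg o)) (g + 2)]
            push_cast
            rfl
          rwa [h3] at h2
        have hg2 : ∀ z ∈ J n, z ≤ (X (.reg o) ^ (-(((g : ℤ) + 1) * ((g : ℤ) + 2))) *
            c ^ ((g : ℤ) + ((g : ℤ) + 1) * dgo e (d o))) z := by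
          intro z hz
          have h1 := hA _ (H.g2 (q, d) o) z hz
          have h2 := le_of_inf_fix h1
          have h3 : G2 e X o (d o) = X (.reg o) ^ (-(((g : ℤ) + 1) * ((g : ℤ) + 2))) *
            c ^ ((g : ℤ) + ((g : ℤ) + 1) * dgo e (d o)) := by
            exact alg_G2 (hreg o) g (dgo e (d o))
          rwa [h3] at h2
        have h4 := Rt.nonneg (hJo n) (hJc n) (hreg o) (ih1 o) (hJself n) (hcx n) _ _ hg1
        have h5 := Rt.nonneg (hJo n) (hJc n) (hreg o) (ih1 o) (hJself n) (hcx n) _ _ hg2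
        push_cast at h4 h5
        exact guard_unique e (T o) (d o) (by linarith) (by linarith)
      have hdT : d = fun o => (T o).head? := funext hguard
      have hcfg : cfg M q₀ S (n + 1) = ((M.nxt q d).1, fun o => ((M.nxt q d).2 o).run (T o)) := by
        rw [cfg_succ, hdT]
        rfl
      have hvinv : ∀ o z, X (.reg o) z ∈ J n ↔ z ∈ J n := fun o =>
        Rt.inv (hJo n) (hJc n) (ih1 o)
      refine ⟨fun o => ?_, ?_⟩
      · have hup := hA _ (H.up (q, d) o)
        have hshift : Rt (J n) c (cjG X (X (.reg o))) (rho e (((M.nxt q d).2 o).run (T o))) := by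
          have hD : dgo e (d o) = dgo e (T o).head? := by rw [hguard o]
          have hr := rho_tail e (T o)
          change ∀ z ∈ J n, (GU e X o (d o) ((M.nxt q d).2 o)) z = z at hup
          generalize (M.nxt q d).2 o = op at hup
          cases op with
          | id =>
            have h1 := eq_of_mul_inv_fix hup (fun z hz => (hvinv o z).2 hz)
            refine Rt.step (hJo n) (hJc n) (hreg o) (ih1 o) (N := 1) one_pos 1 0 ?_ ?_
            · intro z hz
              rw [pow_one, zpow_one, zpow_zero, mul_one]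
              exact h1 z hz
            · change ((1 : ℕ) : ℚ) * rho e (T o) = _
              push_cast; ring
          | pop =>
            have h3 : G1 e X o (d o) = X (.reg o) ^ ((g : ℤ) + 2) * c ^ (-(dgo e (d o) : ℤ)) := by
              unfold G1
              rw [zpow_neg, zpow_natCast, ← zpow_natCast (X (.reg o)) (g + 2)]
              push_cast
              rfl
            have h4 : ∀ z, G1 e X o (d o) z ∈ J n ↔ z ∈ J n := by
              intro z
              rw [h3, mul_app, zp_mem_iff (hvinv o), zp_mem_iff (hJc n)]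
            have h1 := eq_of_mul_inv_fix hup (fun z hz => (h4 z).2 hz)
            refine Rt.step (hJo n) (hJc n) (hreg o) (ih1 o) (N := 1) one_pos ((g : ℤ) + 2)
              (-(dgo e (d o) : ℤ)) ?_ ?_
            · intro z hz
              rw [pow_one, ← h3]
              exact h1 z hz
            · change ((1 : ℕ) : ℚ) * rho e (T o).tail = _
              push_cast
              rw [hD, ← hr]; ring
          | push a =>
            have h4 : ∀ z, (X (.reg o) * c ^ dg e a) z ∈ J n ↔ z ∈ J n := by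
              intro z
              rw [mul_app, hvinv o, ← zpow_natCast, zp_mem_iff (hJc n)]
            have h1 := eq_of_mul_inv_fix hup (fun z hz => (h4 z).2 hz)
            refine Rt.step (hJo n) (hJc n) (hreg o) (ih1 o) (N := g + 2) (by omega) 1
              (dg e a : ℤ) ?_ ?_
            · intro z hz
              rw [zpow_one, zpow_natCast]
              exact h1 z hz
            · change ((g + 2 : ℕ) : ℚ) * rho e (a :: T o) = _
              push_cast
              rw [rho_cons]; ring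
        rw [hcfg]
        obtain ⟨k, hk, p, hp, h1⟩ := hshift
        refine ⟨k, hk, p, hp, fun z hz => ?_⟩
        have h2 := h1 (b⁻¹ z) ((hJs' n z).1 hz)
        have h3 : cjG X (X (.reg o)) = b⁻¹ * X (.reg o) * (b⁻¹)⁻¹ := by
          unfold cjG; rw [inv_inv]
        rw [h3, conj_pow, mul_app, mul_app, inv_inv, app_inv_self] at h2
        have h4 := congrArg (fun u => b u) h2
        simp only [app_inv_self] at h4
        rw [h4, ← mul_app, ← mul_app]
        congr 1
        have h5 : Commute b (c ^ p) := hbc'.zpow_right p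
        rw [h5.eq]; group
      · rw [hcfg]
        have hne : (M.nxt (q, d).1 (q, d).2).1 ≠ h := by
          intro heq
          apply hn (n + 1)
          rw [hcfg]
          exact heq
        have h1 := le_of_sup_one (H.nx (q, d) hne) (xn n)
        have h2 : xn n < cjG X (selG X (M.nxt q d).1) (xn n) := lt_of_lt_of_le hd h1
        have h3 := b.lt_iff_lt.2 h2
        unfold cjG at h3
        rw [mul_app, mul_app, app_inv_self, ← hxs] at h3
        exact sel_active h3
  -- the timer
  set t := X .tt with ht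
  have hT0 : ∀ z ∈ J 0, t z = c z := by
    have h1 := hact 0 _ H.st1 H.st2 (by simpa [hxn] using hst0.1) _ H.tc
    exact eq_of_mul_inv_fix h1 (fun z hz => (hJc 0 z).2 hz)
  have hTn : ∀ n, ∀ z ∈ J n, (t * (cjG X t ^ 2)⁻¹) z = z := by
    intro n
    obtain ⟨_, d, hd⟩ := key n
    exact hact n _ (H.in1 (_, d)) (H.in2 (_, d)) hd _ (H.tm (_, d))
  have hTinv : ∀ n z, t z ∈ J n ↔ z ∈ J n := by
    intro n
    induction n with
    | zero => exact inv_congr hT0 (hJc 0)
    | succ n ih =>
      intro z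
      have h1 := eq_of_mul_inv_fix' (hTn n) ih
      have h2 := inv_of_pow (hJo n) (q := 2) (by norm_num) ih h1
      have h3 := h2 (b⁻¹ z)
      unfold cjG at h3
      rw [mul_app, mul_app, app_inv_self, ← hJs', ← hJs'] at h3
      exact h3
  have hTsq : ∀ n, ∀ z ∈ J n, (cjG X t ^ 2) z = t z := fun n =>
    eq_of_mul_inv_fix' (hTn n) (hTinv n)
  have hJ0 : ∀ (n : ℕ) z, (b ^ n) z ∈ J n ↔ z ∈ J 0 := by
    intro n
    induction n with
    | zero => intro z; simp
    | succ n ih =>
      intro z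
      rw [pow_succ', mul_app, hJs, ih]
  have hinv : ∀ (n : ℕ) z, ((b ^ n)⁻¹ * t * b ^ n) z ∈ J 0 ↔ z ∈ J 0 := by
    intro n z
    rw [← hJ0 n, mul_app, mul_app, app_inv_self, hTinv, hJ0]
  set P : ℕ → (Ω ≃o Ω) := fun n => paste (J 0) (hJo 0) ((b ^ n)⁻¹ * t * b ^ n) (hinv n) with hP
  have hPm : ∀ n z, z ∈ J 0 → P n z = ((b ^ n)⁻¹ * t * b ^ n) z := fun n z hz => paste_mem hz
  have hPn : ∀ n z, z ∉ J 0 → P n z = z := fun n z hz => paste_not_mem hz
  refine ⟨P, ?_, ?_⟩
  · intro h1
    have h2 := congrArg (fun f : Ω ≃o Ω => f x₀) h1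
    have hx0J : x₀ ∈ J 0 := by simpa [hxn] using hJself 0
    simp only [one_app] at h2
    rw [hPm _ _ hx0J, pow_zero, inv_one, one_mul, mul_one, hT0 _ hx0J] at h2
    exact absurd h2 hcx0.ne'
  · intro n
    apply OrderIso.ext
    funext z
    change P (n + 1) (P (n + 1) z) = P n z
    by_cases hz : z ∈ J 0
    · rw [hPm _ _ hz, hPm _ _ ((hinv (n + 1) z).2 hz), hPm _ _ hz]
      have h1 := hTsq n _ ((hJ0 n z).2 hz)
      rw [pow_two] at h1
      unfold cjG at h1
      simp only [mul_app, mul_inv_rev, pow_succ'] at h1 ⊢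
      rw [← h1]
      simp only [app_inv_self]
      rfl
    · rw [hPn _ _ hz, hPn _ _ hz, hPn _ _ hz]

end

end Pool.Agent.Helper56.QV
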