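import Mathlib
import Pool.Agent.Helper56.QV.Config2

/-! Functions `ℤ → ℤ` as automorphisms: pasting powers of `y` on the translates of its bump. -/

set_option autoImplicit false

namespace Pool.Agent.Helper56.QV

universe u

variable {Ω : Type u} [LinearOrder Ω]

theorem lev_lt {y b : Ω ≃o Ω} {x : Ω} (hb : ∀ z ∈ bump y x, ∀ w ∈ bump y x, z < b w)
    {z w : Ω} (hz : z ∈ bump y x) (hw : w ∈ bump y x) {n : ℤ} (hn : 0 < n) : z < (b ^ n) w := by
  obtain ⟨k, rfl⟩ : ∃ k : ℕ, n = (k : ℤ) + 1 := ⟨(n - 1).toNat, by omega⟩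
  clear hn
  induction k with
  | zero => simpa using hb z hz w hw
  | succ k ih =>
    refine ih.trans ?_
    push_cast
    rw [zp_add b ((k : ℤ) + 1) 1, zpow_one]
    exact (b ^ ((k : ℤ) + 1)).lt_iff_lt.2 (hb w hw w hw)

theorem lev_lt' {y b : Ω ≃o Ω} {x : Ω} (hb : ∀ z ∈ bump y x, ∀ w ∈ bump y x, z < b w)
    {z w : Ω} {n m : ℤ} (hz : (b ^ (-n)) z ∈ bump y x) (hw : (b ^ (-m)) w ∈ bump y x)
    (hnm : n < m) : z < w := by
  have h1 := lev_lt hb hz hw (sub_pos.2 hnm)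
  have h2 := (b ^ n).lt_iff_lt.2 h1
  rw [zp_zp_neg, ← zp_add] at h2
  have h3 : n + (m - n) = m := by ring
  rwa [h3, zp_zp_neg] at h2

theorem lev_unique {y b : Ω ≃o Ω} {x : Ω} (hb : ∀ z ∈ bump y x, ∀ w ∈ bump y x, z < b w)
    {z : Ω} {n m : ℤ} (hz : (b ^ (-n)) z ∈ bump y x) (hw : (b ^ (-m)) z ∈ bump y x) : n = m := by
  rcases lt_trichotomy n m with h | h | h
  · exact absurd (lev_lt' hb hz hw h) (lt_irrefl _)
  · exact h
  · exact absurd (lev_lt' hb hw hz h) (lt_irrefl _)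

open Classical in
/-- The pasted map. -/
noncomputable def wrF (y b : Ω ≃o Ω) (x : Ω) (f : ℤ → ℤ) (z : Ω) : Ω :=
  if h : ∃ n : ℤ, (b ^ (-n)) z ∈ bump y x then
    (b ^ h.choose) ((y ^ (f h.choose)) ((b ^ (-h.choose)) z)) else z

theorem wrF_mem {y b : Ω ≃o Ω} {x : Ω} (hb : ∀ z ∈ bump y x, ∀ w ∈ bump y x, z < b w)
    (f : ℤ → ℤ) {z : Ω} {n : ℤ} (hz : (b ^ (-n)) z ∈ bump y x) :
    wrF y b x f z = (b ^ n) ((y ^ (f n)) ((b ^ (-n)) z)) := by
  have h : ∃ n : ℤ, (b ^ (-n)) z ∈ bump y x := ⟨n, hz⟩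
  have h2 : h.choose = n := lev_unique hb h.choose_spec hz
  rw [wrF, dif_pos h, h2]

theorem wrF_not {y b : Ω ≃o Ω} {x : Ω} (f : ℤ → ℤ) {z : Ω}
    (hz : ∀ n : ℤ, (b ^ (-n)) z ∉ bump y x) : wrF y b x f z = z := by
  rw [wrF, dif_neg (by push Not; exact hz)]

theorem wrF_lev {y b : Ω ≃o Ω} {x : Ω} (hb : ∀ z ∈ bump y x, ∀ w ∈ bump y x, z < b w)
    (f : ℤ → ℤ) {z : Ω} {n : ℤ} (hz : (b ^ (-n)) z ∈ bump y x) :
    (b ^ (-n)) (wrF y b x f z) ∈ bump y x := by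
  rw [wrF_mem hb f hz, zp_neg_zp]
  exact app_mem_bump _ hz

theorem wrF_add {y b : Ω ≃o Ω} {x : Ω} (hb : ∀ z ∈ bump y x, ∀ w ∈ bump y x, z < b w)
    (f g : ℤ → ℤ) (z : Ω) : wrF y b x f (wrF y b x g z) = wrF y b x (f + g) z := by
  by_cases h : ∃ n : ℤ, (b ^ (-n)) z ∈ bump y x
  · obtain ⟨n, hn⟩ := h
    rw [wrF_mem hb f (wrF_lev hb g hn), wrF_mem hb g hn, wrF_mem hb (f + g) hn, zp_neg_zp,
      Pi.add_apply, zp_add]
  · push Not at h
    rw [wrF_not g h, wrF_not f h, wrF_not (f + g) h]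

theorem wrF_zero {y b : Ω ≃o Ω} {x : Ω} (hb : ∀ z ∈ bump y x, ∀ w ∈ bump y x, z < b w)
    (z : Ω) : wrF y b x 0 z = z := by
  by_cases h : ∃ n : ℤ, (b ^ (-n)) z ∈ bump y x
  · obtain ⟨n, hn⟩ := h
    rw [wrF_mem hb _ hn, Pi.zero_apply, zpow_zero, one_app, zp_zp_neg]
  · push Not at h
    exact wrF_not _ h

/-- A level is convex. -/
theorem lev_conv {y b : Ω ≃o Ω} {x : Ω} {z w v : Ω} {n : ℤ} (hz : (b ^ (-n)) z ∈ bump y x)
    (hw : (b ^ (-n)) w ∈ bump y x) (h1 : z ≤ v) (h2 : v ≤ w) : (b ^ (-n)) v ∈ bump y x :=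
  bump_conv hz hw ((b ^ (-n)).le_iff_le.2 h1) ((b ^ (-n)).le_iff_le.2 h2)

theorem wrF_strictMono {y b : Ω ≃o Ω} {x : Ω} (hb : ∀ z ∈ bump y x, ∀ w ∈ bump y x, z < b w)
    (f : ℤ → ℤ) : StrictMono (wrF y b x f) := by
  intro z w hzw
  by_cases h : ∃ n : ℤ, (b ^ (-n)) z ∈ bump y x
  · obtain ⟨n, hn⟩ := h
    by_cases h' : ∃ m : ℤ, (b ^ (-m)) w ∈ bump y x
    · obtain ⟨m, hm⟩ := h'
      rcases lt_trichotomy n m with hnm | hnm | hnm
      · exact lev_lt' hb (wrF_lev hb f hn) (wrF_lev hb f hm) hnm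
      · subst hnm
        rw [wrF_mem hb f hn, wrF_mem hb f hm]
        exact (b ^ n).lt_iff_lt.2 ((y ^ f n).lt_iff_lt.2 ((b ^ (-n)).lt_iff_lt.2 hzw))
      · exact absurd (lev_lt' hb hm hn hnm) (not_lt.2 hzw.le)
    · push Not at h'
      rw [wrF_not f h']
      by_contra hc
      push Not at hc
      exact h' n (lev_conv hn (wrF_lev hb f hn) hzw.le hc)
  · push Not at h
    rw [wrF_not f h]
    by_cases h' : ∃ m : ℤ, (b ^ (-m)) w ∈ bump y x
    · obtain ⟨m, hm⟩ := h'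
      by_contra hc
      push Not at hc
      exact h m (lev_conv (wrF_lev hb f hm) hm hc hzw.le)
    · push Not at h'
      rw [wrF_not f h']
      exact hzw

/-- The automorphism attached to `f : ℤ → ℤ`. -/
noncomputable def wr {y b : Ω ≃o Ω} {x : Ω} (hb : ∀ z ∈ bump y x, ∀ w ∈ bump y x, z < b w)
    (f : ℤ → ℤ) : Ω ≃o Ω where
  toFun := wrF y b x f
  invFun := wrF y b x (-f)
  left_inv z := by rw [wrF_add hb, neg_add_cancel, wrF_zero hb]
  right_inv z := by rw [wrF_add hb, add_neg_cancel, wrF_zero hb]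
  map_rel_iff' := (wrF_strictMono hb f).le_iff_le

section
variable {y b : Ω ≃o Ω} {x : Ω} (hb : ∀ z ∈ bump y x, ∀ w ∈ bump y x, z < b w)

theorem wr_apply (f : ℤ → ℤ) (z : Ω) : wr hb f z = wrF y b x f z := rfl

theorem wr_mul (f g : ℤ → ℤ) : wr hb f * wr hb g = wr hb (f + g) := by
  apply OrderIso.ext
  funext z
  exact wrF_add hb f g z

theorem wr_zero : wr hb 0 = 1 := by
  apply OrderIso.ext
  funext z
  exact wrF_zero hb z

theorem wr_inv (f : ℤ → ℤ) : (wr hb f)⁻¹ = wr hb (-f) := by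
  rw [inv_eq_iff_mul_eq_one, wr_mul, add_neg_cancel, wr_zero]

theorem wr_pow (f : ℤ → ℤ) (n : ℕ) : wr hb f ^ n = wr hb (n • f) := by
  induction n with
  | zero => rw [pow_zero, zero_smul, wr_zero]
  | succ n ih => rw [pow_succ, ih, wr_mul, succ_nsmul]

theorem wr_conj (f : ℤ → ℤ) : b⁻¹ * wr hb f * b = wr hb (fun n => f (n + 1)) := by
  apply OrderIso.ext
  funext z
  change b⁻¹ (wrF y b x f (b z)) = wrF y b x (fun n => f (n + 1)) z
  have key : ∀ n : ℤ, (b ^ (-(n + 1))) (b z) = (b ^ (-n)) z := by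
    intro n
    have h1 : b z = (b ^ (1 : ℤ)) z := by rw [zpow_one]
    rw [h1, ← zp_add]
    congr 2
    ring
  by_cases h : ∃ n : ℤ, (b ^ (-n)) z ∈ bump y x
  · obtain ⟨n, hn⟩ := h
    have h1 : (b ^ (-(n + 1))) (b z) ∈ bump y x := by rw [key]; exact hn
    rw [wrF_mem hb f h1, wrF_mem hb _ hn, key]
    rw [add_comm n 1, zp_one_add, inv_app_self]
  · push Not at h
    have h1 : ∀ n : ℤ, (b ^ (-n)) (b z) ∉ bump y x := by
      intro n
      have h2 := key (n - 1)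
      rw [sub_add_cancel] at h2
      rw [h2]
      exact h (n - 1)
    rw [wrF_not f h1, wrF_not _ h, inv_app_self]

include hb in
theorem wrF_mono (hx : x < y x) {f g : ℤ → ℤ} (hfg : f ≤ g) (z : Ω) :
    wrF y b x f z ≤ wrF y b x g z := by
  by_cases h : ∃ n : ℤ, (b ^ (-n)) z ∈ bump y x
  · obtain ⟨n, hn⟩ := h
    rw [wrF_mem hb f hn, wrF_mem hb g hn]
    refine (b ^ n).le_iff_le.2 ?_
    exact (zp_strictMono (lt_of_mem_bump hx hn)).monotone (hfg n)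
  · push Not at h
    rw [wrF_not f h, wrF_not g h]

theorem wr_sup (hx : x < y x) (f g : ℤ → ℤ) : wr hb f ⊔ wr hb g = wr hb (f ⊔ g) := by
  apply OrderIso.ext
  funext z
  change max (wrF y b x f z) (wrF y b x g z) = wrF y b x (f ⊔ g) z
  by_cases h : ∃ n : ℤ, (b ^ (-n)) z ∈ bump y x
  · obtain ⟨n, hn⟩ := h
    rw [wrF_mem hb f hn, wrF_mem hb g hn, wrF_mem hb _ hn, Pi.sup_apply]
    have hm := zp_strictMono (lt_of_mem_bump hx hn)
    rcases le_total (f n) (g n) with h1 | h1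
    · rw [sup_eq_right.2 h1, max_eq_right]
      exact (b ^ n).le_iff_le.2 (hm.monotone h1)
    · rw [sup_eq_left.2 h1, max_eq_left]
      exact (b ^ n).le_iff_le.2 (hm.monotone h1)
  · push Not at h
    rw [wrF_not f h, wrF_not g h, wrF_not _ h, max_self]

theorem wr_inf (hx : x < y x) (f g : ℤ → ℤ) : wr hb f ⊓ wr hb g = wr hb (f ⊓ g) := by
  have h := congrArg (fun t => t⁻¹) (wr_sup hb hx (-f) (-g))
  simp only [inv_sup, wr_inv, neg_neg] at h
  rw [h]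
  congr 1
  funext n
  simp [Pi.inf_apply, Pi.sup_apply, max_neg_neg]

theorem wr_injective (hx : x < y x) {f g : ℤ → ℤ} (h : wr hb f = wr hb g) : f = g := by
  funext n
  have h1 : (b ^ (-n)) ((b ^ n) x) ∈ bump y x := by rw [zp_neg_zp]; exact self_mem_bump y x
  have h2 : wrF y b x f ((b ^ n) x) = wrF y b x g ((b ^ n) x) := by
    rw [← wr_apply hb, ← wr_apply hb, h]
  rw [wrF_mem hb f h1, wrF_mem hb g h1, zp_neg_zp] at h2
  exact (zp_strictMono hx).injective ((b ^ n).injective h2)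

end

end Pool.Agent.Helper56.QV
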