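import Mathlib
import Pool.Agent.Helper56.QV.Sound2
import Pool.Agent.Helper56.QV.Wreath

/-! A halting run gives a nontrivial solution of the system. -/

set_option autoImplicit false

namespace Pool.Agent.Helper56.QV

open Pool.Agent.Helper14.Boone

universe u

variable {Ω : Type u} [LinearOrder Ω]

section
variable {y b : Ω ≃o Ω} {x : Ω} (hb : ∀ z ∈ bump y x, ∀ w ∈ bump y x, z < b w)

theorem act_wr (hx : x < y x) {f w : ℤ → ℤ} (hf : ∀ n, 0 ≤ f n) (hw : ∀ n, f n ≠ 0 → w n = 0) :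
    actG (wr hb f) (wr hb w) = 1 := by
  unfold actG
  rw [wr_inv, wr_sup hb hx, wr_inf hb hx, ← wr_zero hb]
  congr 1
  funext n
  simp only [Pi.inf_apply, Pi.sup_apply, Pi.neg_apply, Pi.zero_apply]
  by_cases h : f n = 0
  · rw [h]
    apply min_eq_left
    rcases le_total 0 (w n) with h1 | h1
    · exact le_sup_of_le_left h1
    · exact le_sup_of_le_right (by omega)
  · rw [hw n h]
    simp [hf n]

theorem inf_one_wr (hx : x < y x) {f : ℤ → ℤ} (hf : ∀ n, 0 ≤ f n) : wr hb f ⊓ 1 = 1 := by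
  rw [← wr_zero hb, wr_inf hb hx]
  congr 1
  funext n
  simp [hf n]

theorem comp_wr (hx : x < y x) {f : ℤ → ℤ} {A : ℤ} (hA : 0 ≤ A) (hf : ∀ n, f n = 0 ∨ f n = A) :
    wr hb f ⊓ (wr hb (fun _ => A) * (wr hb f)⁻¹) = 1 := by
  rw [wr_inv, wr_mul, wr_inf hb hx, ← wr_zero hb]
  congr 1
  funext n
  simp only [Pi.inf_apply, Pi.add_apply, Pi.neg_apply, Pi.zero_apply]
  rcases hf n with h | h
  · rw [h]; simp [hA]
  · rw [h]; simp [hA]

theorem bigG_wr (hx : x < y x) (l : List (ℤ → ℤ)) :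
    bigG (l.map (wr hb)) = wr hb (l.foldr (· ⊔ ·) 0) := by
  induction l with
  | nil => exact (wr_zero hb).symm
  | cons a l ih =>
    have h1 : bigG ((a :: l).map (wr hb)) = wr hb a ⊔ bigG (l.map (wr hb)) := rfl
    rw [h1, ih, wr_sup hb hx]
    rfl

theorem le_foldr {l : List (ℤ → ℤ)} {a : ℤ → ℤ} (h : a ∈ l) : a ≤ l.foldr (· ⊔ ·) 0 := by
  induction l with
  | nil => simp at h
  | cons c l ih =>
    rcases List.mem_cons.1 h with rfl | h
    · exact le_sup_left
    · exact (ih h).trans le_sup_right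

theorem zero_le_foldr (l : List (ℤ → ℤ)) : (0 : ℤ → ℤ) ≤ l.foldr (· ⊔ ·) 0 := by
  induction l with
  | nil => exact le_rfl
  | cons c l ih => exact ih.trans le_sup_right

theorem wr_mono (hx : x < y x) {f g : ℤ → ℤ} (h : f ≤ g) : wr hb f ≤ wr hb g :=
  fun z => wrF_mono hb hx h z

theorem sup_one_of_le {G : Type u} [LGroup G] {s t : G} (h : s ≤ t) : (s * t⁻¹) ⊔ 1 = 1 := by
  apply sup_eq_right.2
  have := mul_le_mul_left h t⁻¹
  simpa using this

variable {C K Γ : Type} {g : ℕ} (e : Γ ≃ Fin g)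
variable [Fintype C] [Fintype K] [Fintype Γ] [DecidableEq K] [DecidableEq C]

include hb in
theorem exists_sem (hx : x < y x) (M : SM C K Γ) (q₀ h : C) (S : K → List Γ)
    (hh : ∀ d, (M.nxt h d).1 = h) (hhalt : ∃ n, (cfg M q₀ S n).1 = h) :
    ∃ X : Vr C K Γ → (Ω ≃o Ω), Sem e M q₀ h S X ∧ X .st ≠ 1 := by
  classical
  -- the halting time
  have hex : ∃ N, 0 < N ∧ (cfg M q₀ S N).1 = h := by
    obtain ⟨n, hn⟩ := hhalt
    refine ⟨n + 1, Nat.succ_pos n, ?_⟩
    rw [cfg_succ]
    change (M.nxt (cfg M q₀ S n).1 _).1 = h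
    rw [hn]
    exact hh _
  set N := Nat.find hex with hN
  have hN0 : 0 < N := (Nat.find_spec hex).1
  have hNh : (cfg M q₀ S N).1 = h := (Nat.find_spec hex).2
  have hNmin : ∀ j, 0 < j → j < N → (cfg M q₀ S j).1 ≠ h := by
    intro j hj hjN heq
    exact Nat.find_min hex hjN ⟨hj, heq⟩
  set D : ℕ := ∏ n ∈ Finset.range (N + 1), ∏ o : K, (rho e ((cfg M q₀ S n).2 o)).den with hD
  have hDpos : 0 < D := Finset.prod_pos fun n _ => Finset.prod_pos fun o _ => Rat.den_pos _
  have hdvd : ∀ n ≤ N, ∀ o, (rho e ((cfg M q₀ S n).2 o)).den ∣ D := by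
    intro n hn o
    refine dvd_trans ?_ (Finset.dvd_prod_of_mem _ (Finset.mem_range.2 (Nat.lt_succ_of_le hn)))
    exact Finset.dvd_prod_of_mem (fun o => (rho e ((cfg M q₀ S n).2 o)).den) (Finset.mem_univ o)
  set A : ℤ := 2 ^ N * D with hA
  have hApos : 0 < A := by positivity
  have hint : ∀ n ≤ N, ∀ o, ∃ z : ℤ, (z : ℚ) = A * rho e ((cfg M q₀ S n).2 o) := by
    intro n hn o
    obtain ⟨k, hk⟩ := hdvd n hn o
    set r := rho e ((cfg M q₀ S n).2 o) with hr
    refine ⟨2 ^ N * k * r.num, ?_⟩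
    have h3 : r * r.den = r.num := Rat.mul_den_eq_num r
    rw [hA, hk]
    push_cast
    rw [← h3]
    ring
  choose z hz using hint
  set rF : K → ℤ → ℤ := fun o n =>
    if hn : 0 ≤ n ∧ n ≤ N then z n.toNat (by omega) o else 0 with hrF
  have hrF' : ∀ o (n : ℕ), n ≤ N → ((rF o (n : ℤ) : ℤ) : ℚ) = A * rho e ((cfg M q₀ S n).2 o) := by
    intro o n hn
    have h1 : (0 : ℤ) ≤ (n : ℤ) ∧ (n : ℤ) ≤ N := ⟨by omega, by omega⟩
    simp only [hrF, dif_pos h1]
    have h2 := hz (n : ℤ).toNat (by omega) o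
    rw [h2]
    simp
  set tF : ℤ → ℤ := fun n => if 0 ≤ n ∧ n ≤ N then 2 ^ (N - n.toNat) * (D : ℤ) else 0 with htF
  set sF : ℤ → ℤ := fun n => if n = 0 then A else 0 with hsF
  set iF : C → (K → Option Γ) → ℤ → ℤ := fun q d n =>
    if 0 ≤ n ∧ n < N ∧ (cfg M q₀ S n.toNat).1 = q ∧
      (fun o => ((cfg M q₀ S n.toNat).2 o).head?) = d then A else 0 with hiF
  have hiF0 : ∀ q d n, iF q d n = 0 ∨ iF q d n = A := by
    intro q d n
    simp only [hiF]
    split
    · exact Or.inr rfl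
    · exact Or.inl rfl
  have hiFn : ∀ q d n, 0 ≤ iF q d n := by
    intro q d n
    rcases hiF0 q d n with h1 | h1 <;> rw [h1]
    exact hApos.le
  -- an active indicator determines the rule
  have hiFa : ∀ q d n, iF q d n ≠ 0 → ∃ k : ℕ, n = k ∧ k < N ∧ (cfg M q₀ S k).1 = q ∧
      (fun o => ((cfg M q₀ S k).2 o).head?) = d := by
    intro q d n hne
    simp only [hiF] at hne
    split at hne
    · rename_i hc
      obtain ⟨h1, h2, h3, h4⟩ := hc
      exact ⟨n.toNat, by omega, by omega, h3, h4⟩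
    · exact absurd rfl hne
  have hiFv : ∀ k : ℕ, k < N → iF (cfg M q₀ S k).1 (fun o => ((cfg M q₀ S k).2 o).head?) k = A := by
    intro k hk
    simp only [hiF]
    rw [if_pos]
    refine ⟨by omega, by omega, ?_, ?_⟩
    · simp
    · simp
  have hsF0 : ∀ n, sF n = 0 ∨ sF n = A := by
    intro n
    simp only [hsF]
    split
    · exact Or.inr rfl
    · exact Or.inl rfl
  have hsFn : ∀ n, 0 ≤ sF n := by
    intro n
    rcases hsF0 n with h1 | h1 <;> rw [h1]
    exact hApos.le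
  have hsFa : ∀ n, sF n ≠ 0 → n = 0 := by
    intro n hne
    simp only [hsF] at hne
    split at hne
    · assumption
    · exact absurd rfl hne
  have htF0 : tF 0 = A := by
    simp only [htF, hA]
    rw [if_pos ⟨le_rfl, by omega⟩]
    simp
  have htFs : ∀ k : ℕ, k < N → tF k = 2 * tF ((k : ℤ) + 1) := by
    intro k hk
    simp only [htF]
    rw [if_pos ⟨by omega, by omega⟩, if_pos ⟨by omega, by omega⟩]
    have h1 : ((k : ℤ)).toNat = k := by simp
    have h2 : ((k : ℤ) + 1).toNat = k + 1 := by omega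
    rw [h1, h2]
    have h3 : N - k = (N - (k + 1)) + 1 := by omega
    rw [h3, pow_succ]
    ring
  let X : Vr C K Γ → (Ω ≃o Ω) := fun v => match v with
    | .b => b
    | .c => wr hb (fun _ => A)
    | .st => wr hb sF
    | .tt => wr hb tF
    | .reg o => wr hb (rF o)
    | .ind q d => wr hb (iF q d)
  have hcj : ∀ f : ℤ → ℤ, cjG X (wr hb f) = wr hb (fun n => f (n + 1)) := fun f => wr_conj hb f
  have hG1 : ∀ o d, G1 e X o d = wr hb (fun n => ((g : ℤ) + 2) * rF o n - dgo e d * A) := by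
    intro o d
    change wr hb (rF o) ^ (g + 2) * (wr hb (fun _ => A) ^ dgo e d)⁻¹ = _
    rw [wr_pow, wr_pow, wr_inv, wr_mul]
    congr 1
  have hG2 : ∀ o d, G2 e X o d =
      wr hb (fun n => (g : ℤ) * A - ((g : ℤ) + 1) * (((g : ℤ) + 2) * rF o n - dgo e d * A)) := by
    intro o d
    change wr hb (fun _ => A) ^ g * (G1 e X o d ^ (g + 1))⁻¹ = _
    rw [hG1, wr_pow, wr_pow, wr_inv, wr_mul]
    congr 1
  have hsel : ∀ q, selG X q = wr hb (((Finset.univ : Finset (K → Option Γ)).toList.map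
      fun d => iF q d).foldr (· ⊔ ·) 0) := by
    intro q
    unfold selG
    rw [← bigG_wr hb hx, List.map_map]
    rfl
  -- value of the tail term at active places
  have htail : ∀ (k : ℕ), k ≤ N → ∀ o, ((((g : ℤ) + 2) * rF o k -
      dgo e ((cfg M q₀ S k).2 o).head? * A : ℤ) : ℚ) = A * rho e ((cfg M q₀ S k).2 o).tail := by
    intro k hk o
    push_cast
    rw [hrF' o k hk, ← rho_tail e ((cfg M q₀ S k).2 o)]
    ring
  refine ⟨X, ⟨?_, ?_, ?_, ?_, ?_, ?_, ?_, ?_, ?_, ?_, ?_, ?_, ?_, ?_, ?_⟩, ?_⟩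
  · exact inf_one_wr hb hx fun _ => hApos.le
  · change cjG X (wr hb (fun _ => A)) * (wr hb (fun _ => A))⁻¹ = 1
    rw [hcj, mul_inv_cancel]
  · change actG (wr hb sF) (wr hb tF * (wr hb (fun _ => A))⁻¹) = 1
    rw [wr_inv, wr_mul]
    refine act_wr hb hx hsFn fun n hn => ?_
    have := hsFa n hn
    subst this
    simp only [Pi.add_apply, Pi.neg_apply]
    rw [htF0]; ring
  · apply sup_one_of_le
    rw [hsel]
    refine wr_mono hb hx fun n => ?_
    by_cases hn : sF n = 0
    · rw [hn]; exact zero_le_foldr _ n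
    · have h1 := hsFa n hn
      subst h1
      have h2 := hiFv 0 hN0
      have h3 : sF 0 = iF q₀ (fun o => ((cfg M q₀ S 0).2 o).head?) 0 := by
        have : sF 0 = A := by simp [hsF]
        rw [this]
        exact h2.symm
      rw [h3]
      refine le_foldr ?_ 0
      exact List.mem_map.2 ⟨_, by simp, rfl⟩
  · exact inf_one_wr hb hx hsFn
  · exact comp_wr hb hx hApos.le hsF0
  · intro p; exact inf_one_wr hb hx (hiFn _ _)
  · intro p; exact comp_wr hb hx hApos.le (hiF0 _ _)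
  · intro o
    change wr hb (rF o) * wr hb (fun _ => A) * ((wr hb (rF o))⁻¹ * (wr hb (fun _ => A))⁻¹) = 1
    rw [wr_inv, wr_inv, wr_mul, wr_mul, wr_mul, ← wr_zero hb]
    congr 1
    funext n
    simp only [Pi.add_apply, Pi.neg_apply, Pi.zero_apply]
    ring
  · intro p o
    change actG (wr hb (iF p.1 p.2)) _ = 1
    rw [hG1, ← wr_zero hb, wr_inf hb hx, wr_zero hb]
    refine act_wr hb hx (hiFn _ _) fun n hn => ?_
    obtain ⟨k, rfl, hk, h1, h2⟩ := hiFa _ _ _ hn
    simp only [Pi.inf_apply, Pi.zero_apply]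
    apply min_eq_right
    rw [← h2]
    have h3 := htail k hk.le o
    have h4 : (0 : ℚ) ≤ ((((g : ℤ) + 2) * rF o k - dgo e ((cfg M q₀ S k).2 o).head? * A : ℤ) : ℚ) := by
      rw [h3]
      exact mul_nonneg (by exact_mod_cast hApos.le) (rho_nonneg e _)
    exact_mod_cast h4
  · intro p o
    change actG (wr hb (iF p.1 p.2)) _ = 1
    rw [hG2, ← wr_zero hb, wr_inf hb hx, wr_zero hb]
    refine act_wr hb hx (hiFn _ _) fun n hn => ?_
    obtain ⟨k, rfl, hk, h1, h2⟩ := hiFa _ _ _ hn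
    simp only [Pi.inf_apply, Pi.zero_apply]
    apply min_eq_right
    rw [← h2]
    have h3 := htail k hk.le o
    have h4 : (0 : ℚ) ≤ (((g : ℤ) * A - ((g : ℤ) + 1) * (((g : ℤ) + 2) * rF o k -
        dgo e ((cfg M q₀ S k).2 o).head? * A) : ℤ) : ℚ) := by
      have h5 := rho_le e ((cfg M q₀ S k).2 o).tail
      have h6 : (((g : ℤ) * A - ((g : ℤ) + 1) * (((g : ℤ) + 2) * rF o k -
        dgo e ((cfg M q₀ S k).2 o).head? * A) : ℤ) : ℚ) = (g : ℚ) * A - ((g : ℚ) + 1) *
        ((((g : ℤ) + 2) * rF o k - dgo e ((cfg M q₀ S k).2 o).head? * A : ℤ) : ℚ) := by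
        push_cast; ring
      rw [h6, h3]
      have hA' : (0 : ℚ) ≤ A := by exact_mod_cast hApos.le
      nlinarith
    exact_mod_cast h4
  · intro p o
    change actG (wr hb (iF p.1 p.2)) _ = 1
    -- compute the update term
    have hact : ∀ (w : ℤ → ℤ), GU e X o (p.2 o) ((M.nxt p.1 p.2).2 o) = wr hb w →
        (∀ k : ℕ, k < N → (cfg M q₀ S k).1 = p.1 → (fun o => ((cfg M q₀ S k).2 o).head?) = p.2 →
          w k = 0) → actG (wr hb (iF p.1 p.2)) (GU e X o (p.2 o) ((M.nxt p.1 p.2).2 o)) = 1 := by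
      intro w hw hw0
      rw [hw]
      refine act_wr hb hx (hiFn _ _) fun n hn => ?_
      obtain ⟨k, rfl, hk, h1, h2⟩ := hiFa _ _ _ hn
      exact hw0 k hk h1 h2
    have hnext : ∀ k : ℕ, (cfg M q₀ S k).1 = p.1 → (fun o => ((cfg M q₀ S k).2 o).head?) = p.2 →
        (cfg M q₀ S (k + 1)).2 o = ((M.nxt p.1 p.2).2 o).run ((cfg M q₀ S k).2 o) := by
      intro k h1 h2
      rw [cfg_succ, ← h1, ← h2]
      rfl
    cases hop : (M.nxt p.1 p.2).2 o with
    | id =>
      rw [hop] at hact hnext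
      refine hact (fun n => rF o (n + 1) - rF o n) ?_ ?_
      · change cjG X (wr hb (rF o)) * (wr hb (rF o))⁻¹ = _
        rw [hcj, wr_inv, wr_mul]
        congr 1
      · intro k hk h1 h2
        have h3 := hnext k h1 h2
        change (cfg M q₀ S (k + 1)).2 o = (cfg M q₀ S k).2 o at h3
        have h4 : ((rF o ((k : ℤ) + 1) - rF o k : ℤ) : ℚ) = 0 := by
          push_cast
          have h5 := hrF' o (k + 1) (by omega)
          push_cast at h5
          rw [h5, hrF' o k hk.le, h3, sub_self]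
        exact_mod_cast h4
    | pop =>
      rw [hop] at hact hnext
      refine hact (fun n => rF o (n + 1) - (((g : ℤ) + 2) * rF o n - dgo e (p.2 o) * A)) ?_ ?_
      · change cjG X (wr hb (rF o)) * (G1 e X o (p.2 o))⁻¹ = _
        rw [hcj, hG1, wr_inv, wr_mul]
        congr 1
      · intro k hk h1 h2
        have h3 := hnext k h1 h2
        change (cfg M q₀ S (k + 1)).2 o = ((cfg M q₀ S k).2 o).tail at h3
        have h4 : ((rF o ((k : ℤ) + 1) - (((g : ℤ) + 2) * rF o k - dgo e (p.2 o) * A) : ℤ) : ℚ)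
            = 0 := by
          rw [← h2, Int.cast_sub, htail k hk.le o]
          have h5 := hrF' o (k + 1) (by omega)
          push_cast at h5
          rw [h5, h3, sub_self]
        exact_mod_cast h4
    | push a =>
      rw [hop] at hact hnext
      refine hact (fun n => ((g : ℤ) + 2) * rF o (n + 1) - (rF o n + dg e a * A)) ?_ ?_
      · change cjG X (wr hb (rF o)) ^ (g + 2) * (wr hb (rF o) * wr hb (fun _ => A) ^ dg e a)⁻¹ = _
        rw [hcj, wr_pow, wr_pow, wr_mul, wr_inv, wr_mul]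
        congr 1
      · intro k hk h1 h2
        have h3 := hnext k h1 h2
        change (cfg M q₀ S (k + 1)).2 o = a :: (cfg M q₀ S k).2 o at h3
        have h4 : ((((g : ℤ) + 2) * rF o ((k : ℤ) + 1) - (rF o k + dg e a * A) : ℤ) : ℚ)
            = 0 := by
          push_cast
          have h5 := hrF' o (k + 1) (by omega)
          push_cast at h5
          have h6 := rho_cons e a ((cfg M q₀ S k).2 o)
          rw [h5, h3, hrF' o k hk.le]
          have h7 : ((g : ℚ) + 2) * (A * rho e (a :: (cfg M q₀ S k).2 o)) =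
              A * (((g : ℚ) + 2) * rho e (a :: (cfg M q₀ S k).2 o)) := by ring
          rw [h7, h6]
          ring
        exact_mod_cast h4
  · intro p
    change actG (wr hb (iF p.1 p.2)) (wr hb tF * (cjG X (wr hb tF) ^ 2)⁻¹) = 1
    rw [hcj, wr_pow, wr_inv, wr_mul]
    refine act_wr hb hx (hiFn _ _) fun n hn => ?_
    obtain ⟨k, rfl, hk, h1, h2⟩ := hiFa _ _ _ hn
    change tF k + -((2 : ℕ) • tF ((k : ℤ) + 1)) = 0
    rw [htFs k hk, nsmul_eq_mul]
    push_cast
    ring
  · intro p hp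
    apply sup_one_of_le
    rw [hsel, hcj]
    refine wr_mono hb hx fun n => ?_
    by_cases hn : iF p.1 p.2 n = 0
    · rw [hn]; exact zero_le_foldr _ _
    · obtain ⟨k, rfl, hk, h1, h2⟩ := hiFa _ _ _ hn
      have h3 : (cfg M q₀ S (k + 1)).1 = (M.nxt p.1 p.2).1 := by
        rw [cfg_succ, ← h1, ← h2]
        rfl
      have hk1 : k + 1 < N := by
        by_contra hc
        have h4 : k + 1 = N := by omega
        rw [h4, hNh] at h3
        exact hp h3.symm
      have h4 := hiFv (k + 1) hk1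
      rw [h3] at h4
      have h5 : iF p.1 p.2 k = A := by
        rcases hiF0 p.1 p.2 k with h6 | h6
        · exact absurd h6 hn
        · exact h6
      rw [h5, ← h4]
      have h6 : (((k + 1 : ℕ)) : ℤ) = (k : ℤ) + 1 := by push_cast; ring
      rw [h6]
      refine le_foldr ?_ _
      exact List.mem_map.2 ⟨_, by simp, rfl⟩
  · intro o
    change actG (wr hb sF) (wr hb (rF o) ^ ((g + 2) ^ (S o).length) *
      (wr hb (fun _ => A) ^ num e (S o))⁻¹) = 1
    rw [wr_pow, wr_pow, wr_inv, wr_mul]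
    refine act_wr hb hx hsFn fun n hn => ?_
    have := hsFa n hn
    subst this
    simp only [Pi.add_apply, Pi.smul_apply, Pi.neg_apply, nsmul_eq_mul]
    have h1 := hrF' o 0 (by omega)
    have h2 : (cfg M q₀ S 0).2 o = S o := rfl
    rw [h2] at h1
    have h3 := rho_eq_num e (S o)
    have h4 : ((((((g + 2) ^ (S o).length : ℕ) : ℤ) * rF o 0 + -((num e (S o) : ℤ) * A)) : ℤ) : ℚ) = 0 := by
      push_cast
      push_cast at h1
      rw [h1, ← h3]
      ring
    exact_mod_cast h4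
  · intro h1
    rw [← wr_zero hb] at h1
    have h2 := wr_injective hb hx h1
    have h3 := congrFun h2 0
    simp only [hsF, Pi.zero_apply, if_true] at h3
    exact hApos.ne' h3

end

end Pool.Agent.Helper56.QV
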