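import Mathlib
import Pool.Agent.Helper56.QV.Compl
import Pool.Agent.Helper14.NovikovBoone

/-! The quasi-equational theory is not recursively enumerable. -/

set_option autoImplicit false

namespace Pool.Agent.Helper56.QV

open Pool.Agent.Helper14.Boone

universe u

/-! ### Gödel numbers are injective -/

theorem Tm.code_injective : Function.Injective Tm.code := by
  intro s
  induction s with
  | var n =>
    intro t h
    cases t <;> simp [Tm.code, Nat.pair_eq_pair] at h
    rw [h]
  | one =>
    intro t h
    cases t <;> simp [Tm.code, Nat.pair_eq_pair] at h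
    rfl
  | mul s₁ s₂ ih₁ ih₂ =>
    intro t h
    cases t <;> simp [Tm.code, Nat.pair_eq_pair] at h
    rw [ih₁ h.1, ih₂ h.2]
  | inv s ih =>
    intro t h
    cases t <;> simp [Tm.code, Nat.pair_eq_pair] at h
    rw [ih h]
  | inf s₁ s₂ ih₁ ih₂ =>
    intro t h
    cases t <;> simp [Tm.code, Nat.pair_eq_pair] at h
    rw [ih₁ h.1, ih₂ h.2]
  | sup s₁ s₂ ih₁ ih₂ =>
    intro t h
    cases t <;> simp [Tm.code, Nat.pair_eq_pair] at h
    rw [ih₁ h.1, ih₂ h.2]

theorem eqCode_injective : Function.Injective eqCode := by
  rintro ⟨a, b⟩ ⟨c, d⟩ h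
  simp only [eqCode, Nat.pair_eq_pair] at h
  rw [Tm.code_injective h.1, Tm.code_injective h.2]

theorem QId.code_injective : Function.Injective QId.code := by
  rintro ⟨p, c⟩ ⟨p', c'⟩ h
  simp only [QId.code, Nat.pair_eq_pair] at h
  have h1 : p.map eqCode = p'.map eqCode := Encodable.encode_injective h.1
  rw [List.map_injective_iff.2 eqCode_injective h1, eqCode_injective h.2]

/-! ### Computability of the reduction -/

theorem primrec_pw (t : Tm) {k : ℕ → ℕ} (hk : Primrec k) : Primrec fun n => (t.pw (k n)).code := by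
  have h : (fun n => (t.pw n).code) =
      (fun n => Nat.rec (motive := fun _ => ℕ) (Tm.one.code)
        (fun _ r => Nat.pair 2 (Nat.pair r t.code)) n) := by
    funext n
    induction n with
    | zero => rfl
    | succ n ih =>
      simp only [Tm.pw, Tm.code]
      rw [ih]
      rfl
  have h2 : Primrec fun n => (t.pw n).code := by
    rw [h]
    refine Primrec.nat_rec₁ _ ?_
    exact Primrec₂.natPair.comp (Primrec.const 2)
      (Primrec₂.natPair.comp Primrec.snd (Primrec.const _))
  exact h2.comp hk

theorem primrec_len {Γ : Type} (a b : Γ) : Primrec fun n => (List.replicate n a ++ [b]).length := by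
  have h : (fun n => (List.replicate n a ++ [b]).length) = fun n => n + 1 := by
    funext n
    simp
  rw [h]
  exact Primrec.succ

theorem primrec_num {Γ : Type} {g : ℕ} (e : Γ ≃ Fin g) (a b : Γ) :
    Primrec fun n => num e (List.replicate n a ++ [b]) := by
  have hp : Primrec₂ (fun a b : ℕ => a ^ b) := Primrec₂.unpaired'.1 Nat.Primrec.pow
  have h : (fun n => num e (List.replicate n a ++ [b])) =
      (fun n => Nat.rec (motive := fun _ => ℕ) (dg e b)
        (fun k r => dg e a * (g + 2) ^ (k + 1) + r) n) := by
    funext n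
    induction n with
    | zero => simp [num]
    | succ n ih =>
      rw [List.replicate_succ, List.cons_append]
      simp only [num]
      rw [ih]
      simp
  rw [h]
  refine Primrec.nat_rec₁ _ ?_
  exact Primrec.nat_add.comp (Primrec.nat_mul.comp (Primrec.const _)
    (hp.comp (Primrec.const _) (Primrec.succ.comp Primrec.fst))) Primrec.snd

theorem primrec_listmap {k : Type} (l : List k) (F : ℕ → k → ℕ)
    (hF : ∀ i, Primrec fun n => F n i) : Primrec fun n => l.map (F n) := by
  induction l with
  | nil => exact Primrec.const []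
  | cons a l ih => exact Primrec.list_cons.comp (hF a) ih

section

variable {C K Γ : Type} {g : ℕ} (e : Γ ≃ Fin g) (ix : Vr C K Γ → ℕ)
variable [Fintype C] [Fintype K] [Fintype Γ] [DecidableEq K] [DecidableEq C]

theorem code_act (s w : Tm) : (Tm.act s w).code =
    Nat.pair 4 (Nat.pair s.code (Nat.pair 5 (Nat.pair w.code (Nat.pair 3 w.code)))) := by
  simp only [Tm.act, Tm.code]

theorem code_mulinv (s w : Tm) : (Tm.mul s (.inv w)).code =
    Nat.pair 2 (Nat.pair s.code (Nat.pair 3 w.code)) := by
  simp only [Tm.code]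

theorem primrec_act (c : ℕ) {f : ℕ → ℕ} (hf : Primrec f) :
    Primrec fun n => Nat.pair 4 (Nat.pair c (Nat.pair 5 (Nat.pair (f n) (Nat.pair 3 (f n))))) :=
  Primrec₂.natPair.comp (Primrec.const 4) (Primrec₂.natPair.comp (Primrec.const _)
      (Primrec₂.natPair.comp (Primrec.const 5) (Primrec₂.natPair.comp hf
        (Primrec₂.natPair.comp (Primrec.const 3) hf))))

theorem primrec_mulinv {f h : ℕ → ℕ} (hf : Primrec f) (hh : Primrec h) :
    Primrec fun n => Nat.pair 2 (Nat.pair (f n) (Nat.pair 3 (h n))) :=
  Primrec₂.natPair.comp (Primrec.const 2) (Primrec₂.natPair.comp hf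
      (Primrec₂.natPair.comp (Primrec.const 3) hh))

theorem primrec_eqCode (d : ℕ) {f : ℕ → ℕ} (hf : Primrec f) :
    Primrec fun n => Nat.pair (f n) d :=
  Primrec₂.natPair.comp hf (Primrec.const _)

theorem primrec_start1 (S : ℕ → List Γ) (hl : Primrec fun n => (S n).length)
    (hn : Primrec fun n => num e (S n)) (o : K) :
    Primrec fun n => eqCode (start1 e ix (S n) o, Tm.one) := by
  have hp : Primrec₂ (fun a b : ℕ => a ^ b) := Primrec₂.unpaired'.1 Nat.Primrec.pow
  have h1 : Primrec fun n =>
      (Tm.pw (.var (ix (.reg o))) ((g + 2) ^ (S n).length)).code :=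
    primrec_pw _ (hp.comp (Primrec.const _) hl)
  have h2 : Primrec fun n => (Tm.pw (.var (ix .c)) (num e (S n))).code := primrec_pw _ hn
  have h3 := primrec_mulinv h1 h2
  have h4 := primrec_act (Tm.var (ix .st)).code h3
  have h5 := primrec_eqCode Tm.one.code h4
  refine h5.of_eq fun n => ?_
  rw [eqCode, start1, code_act, code_mulinv]

theorem primrec_code {f : ℕ → List ℕ} (d : ℕ) (hf : Primrec f) (l : List ℕ) :
    Primrec fun n => Nat.pair (Encodable.encode (f n ++ l)) d :=
  Primrec₂.natPair.comp (Primrec.encode.comp (Primrec.list_append.comp hf (Primrec.const l)))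
    (Primrec.const _)

theorem code_qid (M : SM C K Γ) (q₀ h : C) (S : K → List Γ) :
    (qid e ix M q₀ h S).code = Nat.pair (Encodable.encode
      (((start e ix S).map fun t => eqCode (t, Tm.one)) ++
        ((fixed e ix M q₀ h).map fun t => eqCode (t, Tm.one))))
      (eqCode (.var (ix .st), Tm.one)) := by
  rw [QId.code, qid]
  simp only [List.map_append, List.map_map, Function.comp_def]

theorem primrec_startc (S : ℕ → K → List Γ)
    (hl : ∀ o, Primrec fun n => (S n o).length) (hn : ∀ o, Primrec fun n => num e (S n o)) :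
    Primrec fun n => (start e ix (S n)).map fun t => eqCode (t, Tm.one) := by
  have h1 := primrec_listmap (Finset.univ : Finset K).toList
    (fun n o => eqCode (start1 e ix (S n o) o, Tm.one))
      fun o => primrec_start1 e ix (fun n => S n o) (hl o) (hn o) o
  refine h1.of_eq fun n => ?_
  simp only [start, List.map_map, Function.comp_def]

theorem primrec_qid (M : SM C K Γ) (q₀ h : C) (S : ℕ → K → List Γ)
    (hl : ∀ o, Primrec fun n => (S n o).length) (hn : ∀ o, Primrec fun n => num e (S n o)) :
    Primrec fun n => (qid e ix M q₀ h (S n)).code := by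
  have h2 := primrec_code (eqCode (.var (ix .st), Tm.one)) (primrec_startc e ix S hl hn)
    ((fixed e ix M q₀ h).map fun t => eqCode (t, Tm.one))
  refine h2.of_eq fun n => ?_
  rw [code_qid]

theorem vr_index (C K Γ : Type) [Finite C] [Finite K] [Finite Γ] :
    ∃ ix : Vr C K Γ → ℕ, Function.Injective ix := by
  let f : Vr C K Γ → (Fin 4 ⊕ K) ⊕ (C × (K → Option Γ)) := fun v => match v with
    | .b => .inl (.inl 0)
    | .c => .inl (.inl 1)
    | .st => .inl (.inl 2)
    | .tt => .inl (.inl 3)
    | .reg o => .inl (.inr o)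
    | .ind q d => .inr (q, d)
  have hf : Function.Injective f := by
    intro v w h
    cases v <;> cases w <;> simp [f] at h ⊢ <;> first | exact h | (exact absurd h (by decide))
  have : Countable (Vr C K Γ) := hf.countable
  exact exists_injective_nat _

/-- The quasi-identity holds iff the machine does not stop. -/
theorem qid_holds_iff {Ω : Type u} [LinearOrder Ω] (hconf : HasConf Ω) (hdy : ¬ HasDyadic Ω)
    (hix : Function.Injective ix) (M : SM C K Γ) (q₀ h : C) (S : K → List Γ)
    (hh : ∀ d, (M.nxt h d).1 = h) :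
    (qid e ix M q₀ h S).Holds (Ω ≃o Ω) ↔ ¬ ∃ n, (cfg M q₀ S n).1 = h := by
  constructor
  · intro H hhalt
    obtain ⟨y, b, x, hx, hb⟩ := hconf
    obtain ⟨X, hX, hst⟩ := exists_sem hb e hx M q₀ h S hh hhalt
    have hext : ∀ v, Function.extend ix X 1 (ix v) = X v := fun v => hix.extend_apply _ _ _
    have h1 := (sem_iff e ix M q₀ h S (Function.extend ix X 1)).2 (by
      have : (fun v => Function.extend ix X 1 (ix v)) = X := funext hext
      rw [this]; exact hX)
    have h2 := H (Function.extend ix X 1) (by
      intro t ht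
      simp only [qid, List.mem_map] at ht
      obtain ⟨s, hs, rfl⟩ := ht
      exact h1 s hs)
    apply hst
    have h3 : Function.extend ix X 1 (ix .st) = 1 := h2
    rwa [hext] at h3
  · intro hn x hx
    have h1 : ∀ t ∈ start e ix S ++ fixed e ix M q₀ h, t.eval x = 1 := by
      intro t ht
      have := hx (t, .one) (by simp only [qid, List.mem_map]; exact ⟨t, ht, rfl⟩)
      exact this
    have h2 := (sem_iff e ix M q₀ h S x).1 h1
    by_contra hst
    exact hdy (dyadic_of_sem e h2 hst (by push Not at hn; exact hn))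

end

/-- There is a computable sequence of quasi-identities `φ n` such that, for every chain with a
configuration and without iterated square roots, `φ n` holds in `Aut(Ω)` iff the `n`-th program
does not halt. -/
theorem exists_reduction : ∃ φ : ℕ → QId, (Computable fun n => (φ n).code) ∧
    ∀ (Ω : Type u) [LinearOrder Ω], HasConf Ω → ¬ HasDyadic Ω → ∀ n,
      ((φ n).Holds (Ω ≃o Ω) ↔
        ¬ (Nat.Partrec.Code.eval (Denumerable.ofNat Nat.Partrec.Code n) 0).Dom) := by
  classical
  obtain ⟨U, hU⟩ := exists_universal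
  have fK : Finite Turing.PartrecToTM2.K' := by
    apply Finite.of_surjective (fun i : Fin 4 => match i with
      | 0 => Turing.PartrecToTM2.K'.main
      | 1 => Turing.PartrecToTM2.K'.rev
      | 2 => Turing.PartrecToTM2.K'.aux
      | 3 => Turing.PartrecToTM2.K'.stack)
    intro k
    cases k
    · exact ⟨0, rfl⟩
    · exact ⟨1, rfl⟩
    · exact ⟨2, rfl⟩
    · exact ⟨3, rfl⟩
  have fK' : Fintype Turing.PartrecToTM2.K' := Fintype.ofFinite _
  have fC : Fintype (Ct U) := Fintype.ofFinite _
  obtain ⟨g, ⟨eΓ⟩⟩ := Finite.exists_equiv_fin Turing.PartrecToTM2.Γ'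
  obtain ⟨ix, hix⟩ := vr_index (Ct U) Turing.PartrecToTM2.K' Turing.PartrecToTM2.Γ'
  refine ⟨fun n => qid eΓ ix (MC U) (ini U 0).1 (ht U) (ini U n).2, ?_, ?_⟩
  · refine (primrec_qid eΓ ix (MC U) _ _ (fun n => (ini U n).2) ?_ ?_).to_comp
    · intro o
      cases o with
      | main => exact primrec_len _ _
      | rev => exact Primrec.const 0
      | aux => exact Primrec.const 0
      | stack => exact Primrec.const 0
    · intro o
      cases o with
      | main => exact primrec_num eΓ _ _
      | rev => exact Primrec.const (num eΓ [])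
      | aux => exact Primrec.const (num eΓ [])
      | stack => exact Primrec.const (num eΓ [])
  · intro Ω _ hconf hdy n
    rw [← hU n, ← reach_ini_iff,
      qid_holds_iff eΓ ix hconf hdy hix (MC U) (ini U 0).1 (ht U) (ini U n).2
        (fun d => by rw [ht_nxt])]
    exact Iff.rfl

/-- The set of Gödel numbers of valid quasi-identities is not recursively enumerable. -/
theorem not_re {Ω : Type u} [LinearOrder Ω] (hconf : HasConf Ω) (hdy : ¬ HasDyadic Ω) :
    ¬ REPred fun n : ℕ => ∃ φ : QId, φ.code = n ∧ φ.Holds (Ω ≃o Ω) := by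
  intro hre
  obtain ⟨φ, hφ, h⟩ := exists_reduction.{u}
  apply ComputablePred.halting_problem_not_re 0
  have h1 : REPred fun c : Nat.Partrec.Code =>
      ∃ ψ : QId, ψ.code = (φ (Encodable.encode c)).code ∧ ψ.Holds (Ω ≃o Ω) :=
    Partrec.comp hre (hφ.comp Computable.encode)
  refine h1.of_eq fun c => ?_
  have h2 := h Ω hconf hdy (Encodable.encode c)
  rw [Denumerable.ofNat_encode] at h2
  rw [← h2]
  constructor
  · rintro ⟨ψ, hψ, hh⟩
    rwa [← QId.code_injective hψ]
  · intro hh
    exact ⟨_, rfl, hh⟩

end Pool.Agent.Helper56.QV
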