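import Mathlib

/-! Cantor's theorem for countable dense chains with colours. -/

set_option autoImplicit false

namespace Pool.Agent.Helper56.QV

open Order

universe u v w

/-- The colour `i` occurs above, below and between the points of `α`. -/
structure DenseCol {α : Type u} [LinearOrder α] {I : Type w} (c : α → I) (i : I) : Prop where
  mid : ∀ x y : α, x < y → ∃ z, x < z ∧ z < y ∧ c z = i
  up : ∀ x : α, ∃ z, x < z ∧ c z = i
  dn : ∀ x : α, ∃ z, z < x ∧ c z = i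

section

variable {α : Type u} {β : Type v} [LinearOrder α] [LinearOrder β] {I : Type w}

theorem exists_between_col [Nonempty α] {c : α → I} {i : I} (hc : DenseCol c i)
    (lo hi : Finset α) (h : ∀ x ∈ lo, ∀ y ∈ hi, x < y) :
    ∃ m : α, (∀ x ∈ lo, x < m) ∧ (∀ y ∈ hi, m < y) ∧ c m = i := by
  by_cases nlo : lo.Nonempty
  · by_cases nhi : hi.Nonempty
    · obtain ⟨m, h1, h2, h3⟩ := hc.mid _ _ (h _ (Finset.max'_mem _ nlo) _ (Finset.min'_mem _ nhi))
      exact ⟨m, fun x hx => lt_of_le_of_lt (Finset.le_max' lo x hx) h1,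
        fun y hy => lt_of_lt_of_le h2 (Finset.min'_le hi y hy), h3⟩
    · obtain ⟨m, h1, h2⟩ := hc.up (Finset.max' lo nlo)
      exact ⟨m, fun x hx => lt_of_le_of_lt (Finset.le_max' lo x hx) h1,
        fun y hy => (nhi ⟨y, hy⟩).elim, h2⟩
  · by_cases nhi : hi.Nonempty
    · obtain ⟨m, h1, h2⟩ := hc.dn (Finset.min' hi nhi)
      exact ⟨m, fun x hx => (nlo ⟨x, hx⟩).elim,
        fun y hy => lt_of_lt_of_le h1 (Finset.min'_le hi y hy), h2⟩
    · obtain ⟨a⟩ := ‹Nonempty α›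
      obtain ⟨m, _, h2⟩ := hc.up a
      exact ⟨m, fun x hx => (nlo ⟨x, hx⟩).elim, fun y hy => (nhi ⟨y, hy⟩).elim, h2⟩

/-- Finite colour-preserving isomorphisms between finite parts. -/
def ColIso (ca : α → I) (cb : β → I) : Type _ :=
  { f : Finset (α × β) //
    (∀ p ∈ f, ∀ q ∈ f, cmp (Prod.fst p) (Prod.fst q) = cmp (Prod.snd p) (Prod.snd q)) ∧
      ∀ p ∈ f, ca p.1 = cb p.2 }
deriving Preorder

namespace ColIso

variable {ca : α → I} {cb : β → I}

instance : Inhabited (ColIso ca cb) :=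
  ⟨⟨∅, fun _p h _q => (Finset.notMem_empty _ h).elim, fun _p h => (Finset.notMem_empty _ h).elim⟩⟩

theorem exists_across [Nonempty β] (hb : ∀ a, DenseCol cb (ca a)) (f : ColIso ca cb) (a : α) :
    ∃ b : β, (∀ p ∈ f.val, cmp (Prod.fst p) a = cmp (Prod.snd p) b) ∧ ca a = cb b := by
  by_cases h : ∃ b, (a, b) ∈ f.val
  · obtain ⟨b, hb⟩ := h
    exact ⟨b, fun p hp => f.prop.1 _ hp _ hb, f.prop.2 _ hb⟩
  have :
    ∀ x ∈ {p ∈ f.val | p.fst < a}.image Prod.snd,
      ∀ y ∈ {p ∈ f.val | a < p.fst}.image Prod.snd, x < y := by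
    intro x hx y hy
    rw [Finset.mem_image] at hx hy
    rcases hx with ⟨p, hp1, rfl⟩
    rcases hy with ⟨q, hq1, rfl⟩
    rw [Finset.mem_filter] at hp1 hq1
    rw [← lt_iff_lt_of_cmp_eq_cmp (f.prop.1 _ hp1.1 _ hq1.1)]
    exact lt_trans hp1.right hq1.right
  obtain ⟨b, hb1, hb2, hb3⟩ := exists_between_col (hb a) _ _ this
  refine ⟨b, ?_, hb3.symm⟩
  rintro ⟨p1, p2⟩ hp
  have : p1 ≠ a := fun he => h ⟨p2, he ▸ hp⟩
  rcases lt_or_gt_of_ne this with hl | hr
  · have : p1 < a ∧ p2 < b :=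
      ⟨hl, hb1 _ (Finset.mem_image.mpr ⟨(p1, p2), Finset.mem_filter.mpr ⟨hp, hl⟩, rfl⟩)⟩
    rw [← cmp_eq_lt_iff, ← cmp_eq_lt_iff] at this
    exact this.1.trans this.2.symm
  · have : a < p1 ∧ b < p2 :=
      ⟨hr, hb2 _ (Finset.mem_image.mpr ⟨(p1, p2), Finset.mem_filter.mpr ⟨hp, hr⟩, rfl⟩)⟩
    rw [← cmp_eq_gt_iff, ← cmp_eq_gt_iff] at this
    exact this.1.trans this.2.symm

/-- Symmetry. -/
protected def comm (f : ColIso ca cb) : ColIso cb ca :=
  ⟨f.val.image Prod.swap, by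
    constructor
    · intro p hp q hq
      rw [Finset.mem_image] at hp hq
      obtain ⟨p', hp', rfl⟩ := hp
      obtain ⟨q', hq', rfl⟩ := hq
      exact (f.prop.1 _ hp' _ hq').symm
    · intro p hp
      rw [Finset.mem_image] at hp
      obtain ⟨p', hp', rfl⟩ := hp
      exact (f.prop.2 _ hp').symm⟩

theorem mem_comm {f : ColIso ca cb} {a : α} {b : β} : (b, a) ∈ f.comm.val ↔ (a, b) ∈ f.val := by
  change (b, a) ∈ f.val.image Prod.swap ↔ _
  rw [Finset.mem_image]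
  constructor
  · rintro ⟨⟨x, y⟩, h, h2⟩
    simp only [Prod.swap_prod_mk, Prod.mk.injEq] at h2
    rw [← h2.1, ← h2.2]
    exact h
  · intro h
    exact ⟨(a, b), h, rfl⟩

theorem exists_extend [Nonempty β] (hb : ∀ a, DenseCol cb (ca a)) (a : α) (f : ColIso ca cb) :
    ∃ g : ColIso ca cb, (∃ b, (a, b) ∈ g.val) ∧ f.val ⊆ g.val := by
  obtain ⟨b, a_b, hcol⟩ := exists_across hb f a
  refine ⟨⟨insert (a, b) f.val, fun p hp q hq => ?_, fun p hp => ?_⟩,
    ⟨b, Finset.mem_insert_self _ _⟩, Finset.subset_insert _ _⟩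
  · rw [Finset.mem_insert] at hp hq
    rcases hp with (rfl | pf) <;> rcases hq with (rfl | qf)
    · simp only [cmp_self_eq_eq]
    · rw [cmp_eq_cmp_symm]
      exact a_b _ qf
    · exact a_b _ pf
    · exact f.prop.1 _ pf _ qf
  · rw [Finset.mem_insert] at hp
    rcases hp with (rfl | pf)
    · exact hcol
    · exact f.prop.2 _ pf

/-- Isomorphisms between finite parts defined at `a`. -/
def definedAtLeft [Nonempty β] (hb : ∀ a, DenseCol cb (ca a)) (a : α) :
    Cofinal (ColIso ca cb) where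
  carrier := {f | ∃ b : β, (a, b) ∈ f.val}
  isCofinal f := by
    obtain ⟨g, h1, h2⟩ := exists_extend hb a f
    exact ⟨g, h1, h2⟩

/-- Isomorphisms between finite parts with `b` in the range. -/
def definedAtRight [Nonempty α] (ha : ∀ b, DenseCol ca (cb b)) (b : β) :
    Cofinal (ColIso ca cb) where
  carrier := {f | ∃ a, (a, b) ∈ f.val}
  isCofinal f := by
    obtain ⟨g, ⟨a, h1⟩, h2⟩ := exists_extend ha b f.comm
    refine ⟨g.comm, ⟨a, mem_comm.2 h1⟩, ?_⟩
    rintro ⟨x, y⟩ hxy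
    exact mem_comm.2 (h2 (mem_comm.2 hxy))

end ColIso

/-- Cantor's theorem with colours. -/
theorem iso_of_colours [Countable α] [Nonempty α] [Countable β] [Nonempty β]
    {ca : α → I} {cb : β → I} (ha : ∀ b, DenseCol ca (cb b)) (hb : ∀ a, DenseCol cb (ca a)) :
    ∃ F : α ≃o β, ∀ a, cb (F a) = ca a := by
  classical
  cases nonempty_encodable α
  cases nonempty_encodable β
  let to_cofinal : α ⊕ β → Cofinal (ColIso ca cb) := fun p =>
    Sum.recOn p (ColIso.definedAtLeft hb) (ColIso.definedAtRight ha)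
  let our_ideal : Ideal (ColIso ca cb) := idealOfCofinals default to_cofinal
  have hF : ∀ a, ∃ b, ∃ f ∈ our_ideal, (a, b) ∈ Subtype.val f := by
    intro a
    obtain ⟨f, ⟨b, hb⟩, hf⟩ := cofinal_meets_idealOfCofinals default to_cofinal (Sum.inl a)
    exact ⟨b, f, hf, hb⟩
  have hG : ∀ b, ∃ a, ∃ f ∈ our_ideal, (a, b) ∈ Subtype.val f := by
    intro b
    obtain ⟨f, ⟨a, ha⟩, hf⟩ := cofinal_meets_idealOfCofinals default to_cofinal (Sum.inr b)
    exact ⟨a, f, hf, ha⟩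
  choose F hF using hF
  choose G hG using hG
  refine ⟨OrderIso.ofCmpEqCmp F G fun a b => ?_, fun a => ?_⟩
  · obtain ⟨f, hf, ha⟩ := hF a
    obtain ⟨g, hg, hb⟩ := hG b
    rcases our_ideal.directed _ hf _ hg with ⟨m, _, fm, gm⟩
    exact m.prop.1 (a, _) (fm ha) (_, b) (gm hb)
  · obtain ⟨f, hf, ha⟩ := hF a
    exact (f.prop.2 _ ha).symm

end

end Pool.Agent.Helper56.QV
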