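import Mathlib
import Pool.Agent.Helper56.QV.Defs

/-! Holland's theorem in the form needed: a quasi-identity that is true in `Aut(C)` for every
countable chain `C` is true in every lattice-ordered group. -/

set_option autoImplicit false

namespace Pool.Agent.Helper56.QV

universe u v

/-! ### Homomorphisms -/

theorem map_eval {G : Type u} {H : Type v} [LGroup G] [LGroup H] (F : G → H)
    (h1 : F 1 = 1) (hm : ∀ a b, F (a * b) = F a * F b) (hi : ∀ a, F a⁻¹ = (F a)⁻¹)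
    (hs : ∀ a b, F (a ⊔ b) = F a ⊔ F b) (hf : ∀ a b, F (a ⊓ b) = F a ⊓ F b)
    (x : ℕ → G) (t : Tm) : F (t.eval x) = t.eval (fun n => F (x n)) := by
  induction t with
  | var n => rfl
  | one => exact h1
  | mul s t ihs iht => simp only [Tm.eval, hm, ihs, iht]
  | inv t ih => simp only [Tm.eval, hi, ih]
  | inf s t ihs iht => simp only [Tm.eval, hf, ihs, iht]
  | sup s t ihs iht => simp only [Tm.eval, hs, ihs, iht]

theorem holds_of_embedding {G : Type u} {H : Type v} [LGroup G] [LGroup H] (F : G → H)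
    (h1 : F 1 = 1) (hm : ∀ a b, F (a * b) = F a * F b) (hi : ∀ a, F a⁻¹ = (F a)⁻¹)
    (hs : ∀ a b, F (a ⊔ b) = F a ⊔ F b) (hf : ∀ a b, F (a ⊓ b) = F a ⊓ F b)
    (hinj : Function.Injective F) {φ : QId} (hφ : φ.Holds H) : φ.Holds G := by
  intro x hx
  apply hinj
  rw [map_eval F h1 hm hi hs hf, map_eval F h1 hm hi hs hf]
  apply hφ
  intro e he
  rw [← map_eval F h1 hm hi hs hf, ← map_eval F h1 hm hi hs hf, hx e he]

/-! ### Convex subgroups -/

section Prime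

variable {H : Type u} [LGroup H]

/-- Absolute value. -/
def ab (a : H) : H := a ⊔ a⁻¹

theorem one_le_ab (a : H) : 1 ≤ ab a := by
  have h1 : 1 ≤ ab a * ab a := by
    calc (1 : H) = a * a⁻¹ := (mul_inv_cancel a).symm
      _ ≤ ab a * ab a := mul_le_mul' le_sup_left le_sup_right
  rw [← pow_two] at h1
  exact pow_two_semiclosed h1

theorem ab_inv (a : H) : ab a⁻¹ = ab a := by simp [ab, sup_comm]

theorem ab_of_one_le {a : H} (h : 1 ≤ a) : ab a = a := by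
  apply sup_eq_left.2
  exact (inv_le_one'.2 h).trans h

theorem ab_mul_le (a b : H) : ab (a * b) ≤ ab a * ab b * ab a := by
  apply sup_le
  · calc a * b ≤ ab a * ab b := mul_le_mul' le_sup_left le_sup_left
      _ = ab a * ab b * 1 := (mul_one _).symm
      _ ≤ ab a * ab b * ab a := mul_le_mul_right (one_le_ab a) _
  · rw [mul_inv_rev]
    calc b⁻¹ * a⁻¹ ≤ ab b * ab a := mul_le_mul' le_sup_right le_sup_right
      _ = 1 * (ab b * ab a) := (one_mul _).symm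
      _ ≤ ab a * (ab b * ab a) := mul_le_mul_left (one_le_ab a) _
      _ = ab a * ab b * ab a := by rw [mul_assoc]

theorem inf_mul_le {x y z : H} (hx : 1 ≤ x) (hy : 1 ≤ y) (hz : 1 ≤ z) :
    z ⊓ (x * y) ≤ (z ⊓ x) * (z ⊓ y) := by
  rw [inf_mul, mul_inf, mul_inf]
  refine le_inf (le_inf ?_ ?_) (le_inf ?_ inf_le_right)
  · exact inf_le_left.trans (le_mul_of_one_le_right' hz)
  · exact inf_le_left.trans (le_mul_of_one_le_right' hy)
  · exact inf_le_left.trans (le_mul_of_one_le_left' hx)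

/-- Convex lattice-ordered subgroups. -/
structure IsCL (P : Set H) : Prop where
  one : (1 : H) ∈ P
  mul : ∀ a ∈ P, ∀ b ∈ P, a * b ∈ P
  inv : ∀ a ∈ P, a⁻¹ ∈ P
  conv : ∀ a ∈ P, ∀ b, ab b ≤ ab a → b ∈ P

theorem IsCL.of_le {P : Set H} (hP : IsCL P) {a b : H} (ha : a ∈ P) (h1 : 1 ≤ b) (h2 : b ≤ a) :
    b ∈ P := by
  apply hP.conv a ha b
  rw [ab_of_one_le h1, ab_of_one_le (h1.trans h2)]
  exact h2

theorem IsCL.ab_mem {P : Set H} (hP : IsCL P) {a : H} (ha : a ∈ P) : ab a ∈ P := by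
  apply hP.conv a ha
  rw [ab_of_one_le (one_le_ab a)]

/-- The convex subgroup generated by `P` and a positive element. -/
def genCL (P : Set H) (a : H) : Set H :=
  {h | ∃ m ∈ Submonoid.closure ({p | p ∈ P ∧ 1 ≤ p} ∪ {a}), ab h ≤ m}

theorem genCL_isCL (P : Set H) (a : H) : IsCL (genCL P a) where
  one := ⟨1, Submonoid.one_mem _, by rw [ab_of_one_le le_rfl]⟩
  mul := by
    rintro g ⟨m, hm, h1⟩ h ⟨m', hm', h2⟩
    refine ⟨m * m' * m, Submonoid.mul_mem _ (Submonoid.mul_mem _ hm hm') hm, ?_⟩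
    exact (ab_mul_le g h).trans (mul_le_mul' (mul_le_mul' h1 h2) h1)
  inv := by
    rintro g ⟨m, hm, h1⟩
    exact ⟨m, hm, by rwa [ab_inv]⟩
  conv := by
    rintro g ⟨m, hm, h1⟩ h h2
    exact ⟨m, hm, h2.trans h1⟩

theorem subset_genCL {P : Set H} (hP : IsCL P) (a : H) : P ⊆ genCL P a := by
  intro p hp
  exact ⟨ab p, Submonoid.subset_closure (Or.inl ⟨hP.ab_mem hp, one_le_ab p⟩), le_rfl⟩

theorem mem_genCL (P : Set H) {a : H} (ha : 1 ≤ a) : a ∈ genCL P a :=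
  ⟨a, Submonoid.subset_closure (Or.inr rfl), by rw [ab_of_one_le ha]⟩

theorem closure_inf_mem {P Y : Set H} (hP : IsCL P) {z : H} (hz : 1 ≤ z)
    (hY : ∀ y ∈ Y, 1 ≤ y ∧ z ⊓ y ∈ P) : ∀ m ∈ Submonoid.closure Y, 1 ≤ m ∧ z ⊓ m ∈ P := by
  intro m hm
  induction hm using Submonoid.closure_induction with
  | mem y hy => exact hY y hy
  | one => exact ⟨le_rfl, by rw [inf_eq_right.2 hz]; exact hP.one⟩
  | mul x y _ _ hx hy =>
    refine ⟨one_le_mul hx.1 hy.1, ?_⟩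
    refine hP.of_le (hP.mul _ hx.2 _ hy.2) (le_inf hz (one_le_mul hx.1 hy.1)) ?_
    exact inf_mul_le hx.1 hy.1 hz

/-- Prime convex subgroups exist. -/
theorem exists_prime {w : H} (hw : w ≠ 1) :
    ∃ P : Set H, IsCL P ∧ w ∉ P ∧ ∀ a b : H, a ⊓ b = 1 → a ∈ P ∨ b ∈ P := by
  have h1 : ({1} : Set H) ∈ {P : Set H | IsCL P ∧ w ∉ P} := by
    refine ⟨⟨rfl, ?_, ?_, ?_⟩, hw⟩
    · rintro a rfl b rfl; simp
    · rintro a rfl; simp
    · rintro a rfl b hb
      rw [ab_of_one_le le_rfl] at hb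
      have h2 : b ≤ 1 := le_sup_left.trans hb
      have h3 : b⁻¹ ≤ 1 := le_sup_right.trans hb
      exact le_antisymm h2 (inv_le_one'.1 h3)
  obtain ⟨P, _, hmax⟩ := zorn_subset_nonempty {P : Set H | IsCL P ∧ w ∉ P} (by
    intro c hc hchain hne
    refine ⟨⋃₀ c, ⟨⟨?_, ?_, ?_, ?_⟩, ?_⟩, fun s hs => Set.subset_sUnion_of_mem hs⟩
    · obtain ⟨s, hs⟩ := hne
      exact ⟨s, hs, (hc hs).1.one⟩
    · rintro a ⟨s, hs, ha⟩ b ⟨t, ht, hb⟩
      rcases hchain.total hs ht with h | h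
      · exact ⟨t, ht, (hc ht).1.mul a (h ha) b hb⟩
      · exact ⟨s, hs, (hc hs).1.mul a ha b (h hb)⟩
    · rintro a ⟨s, hs, ha⟩
      exact ⟨s, hs, (hc hs).1.inv a ha⟩
    · rintro a ⟨s, hs, ha⟩ b hb
      exact ⟨s, hs, (hc hs).1.conv a ha b hb⟩
    · rintro ⟨s, hs, hws⟩
      exact (hc hs).2 hws) {1} h1
  obtain ⟨hP, hwP⟩ := hmax.prop
  refine ⟨P, hP, hwP, ?_⟩
  intro a b hab
  by_contra hcon
  push Not at hcon
  obtain ⟨ha, hb⟩ := hcon
  have ha1 : 1 ≤ a := by rw [← hab]; exact inf_le_left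
  have hb1 : 1 ≤ b := by rw [← hab]; exact inf_le_right
  have key : ∀ c : H, 1 ≤ c → c ∉ P → w ∈ genCL P c := by
    intro c hc1 hc
    by_contra hwc
    have h2 : genCL P c ⊆ P := hmax.le_of_ge ⟨genCL_isCL P c, hwc⟩ (subset_genCL hP c)
    exact hc (h2 (mem_genCL P hc1))
  obtain ⟨m, hm, hwm⟩ := key a ha1 ha
  obtain ⟨m', hm', hwm'⟩ := key b hb1 hb
  have hposb : ∀ y ∈ ({p | p ∈ P ∧ 1 ≤ p} ∪ {b} : Set H), 1 ≤ y := by
    rintro y (⟨_, h⟩ | h)
    · exact h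
    · rw [Set.mem_singleton_iff.1 h]; exact hb1
  -- generators against the second closure
  have hgen : ∀ z ∈ ({p | p ∈ P ∧ 1 ≤ p} ∪ {a} : Set H), 1 ≤ z ∧ m' ⊓ z ∈ P := by
    intro z hz
    have hz1 : 1 ≤ z := by
      rcases hz with ⟨_, h⟩ | h
      · exact h
      · rw [Set.mem_singleton_iff.1 h]; exact ha1
    refine ⟨hz1, ?_⟩
    rw [inf_comm]
    refine (closure_inf_mem hP hz1 (fun y hy => ⟨hposb y hy, ?_⟩) m' hm').2
    rcases hz with ⟨h, _⟩ | h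
    · exact hP.of_le h (le_inf hz1 (hposb y hy)) inf_le_left
    · rcases hy with ⟨h', h''⟩ | h'
      · exact hP.of_le h' (le_inf hz1 h'') inf_le_right
      · rw [Set.mem_singleton_iff.1 h, Set.mem_singleton_iff.1 h', hab]
        exact hP.one
  have hm'1 : 1 ≤ m' := (closure_inf_mem hP le_rfl (fun y hy => ⟨hposb y hy, by
    rw [inf_eq_left.2 (hposb y hy)]; exact hP.one⟩) m' hm').1
  have h3 := (closure_inf_mem hP hm'1 hgen m hm).2
  have h4 : ab w ∈ P := hP.of_le h3 (one_le_ab w) (le_inf hwm' hwm)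
  exact hwP (hP.conv _ h4 w (by rw [ab_of_one_le (one_le_ab w)]))

end Prime

end Pool.Agent.Helper56.QV
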