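import Mathlib
import Pool.Agent.Helper56.QV.Holland

/-! The chain of cosets of a prime subgroup. -/

set_option autoImplicit false

namespace Pool.Agent.Helper56.QV

universe u v

section

variable {H : Type u} [LGroup H]

/-- Comparison of left cosets. -/
def cle (P : Set H) (a b : H) : Prop := (b⁻¹ * a) ⊔ 1 ∈ P

theorem cle_of_le {P : Set H} (hP : IsCL P) {a b : H} (h : a ≤ b) : cle P a b := by
  unfold cle
  have h1 : b⁻¹ * a ≤ 1 := by
    have := mul_le_mul_right h b⁻¹
    simpa using this
  rw [sup_eq_right.2 h1]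
  exact hP.one

theorem cle_refl {P : Set H} (hP : IsCL P) (a : H) : cle P a a := cle_of_le hP le_rfl

theorem cle_trans {P : Set H} (hP : IsCL P) {a b c : H} (h1 : cle P a b) (h2 : cle P b c) :
    cle P a c := by
  unfold cle at *
  refine hP.of_le (hP.mul _ h2 _ h1) le_sup_right (sup_le ?_ ?_)
  · calc c⁻¹ * a = (c⁻¹ * b) * (b⁻¹ * a) := by group
      _ ≤ _ := mul_le_mul' le_sup_left le_sup_left
  · exact one_le_mul le_sup_right le_sup_right

theorem cle_total {P : Set H} (hpr : ∀ a b : H, a ⊓ b = 1 → a ∈ P ∨ b ∈ P) (a b : H) :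
    cle P a b ∨ cle P b a := by
  unfold cle
  apply hpr
  -- `g⁺ ∧ (g⁻¹)⁺ = 1`
  have h : a⁻¹ * b = (b⁻¹ * a)⁻¹ := by group
  rw [h]
  set g := b⁻¹ * a
  -- `(g ∨ 1) ∧ (g⁻¹ ∨ 1)`
  have h1 : g⁻¹ ⊔ 1 = g⁻¹ * (g ⊔ 1) := by
    rw [mul_sup, inv_mul_cancel, mul_one, sup_comm]
  have h2 : (g ⊔ 1) ⊓ (g⁻¹ ⊔ 1) = (1 ⊓ g⁻¹) * (g ⊔ 1) := by
    rw [h1, inf_mul, one_mul]
  have h3 : (1 ⊓ g⁻¹) = (g ⊔ 1)⁻¹ := by
    rw [inv_sup, inv_one, inf_comm]
  rw [h2, h3, inv_mul_cancel]

theorem cle_mul {P : Set H} {a b : H} (g : H) : cle P (g * a) (g * b) ↔ cle P a b := by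
  unfold cle
  have h : (g * b)⁻¹ * (g * a) = b⁻¹ * a := by group
  rw [h]

theorem cle_sup {P : Set H} {g g' a : H} (h : cle P (g * a) (g' * a)) :
    cle P ((g ⊔ g') * a) (g' * a) := by
  unfold cle at *
  have h1 : (g' * a)⁻¹ * ((g ⊔ g') * a) = ((g' * a)⁻¹ * (g * a)) ⊔ 1 := by
    rw [sup_mul, mul_sup, inv_mul_cancel]
  rw [h1, sup_assoc, sup_idem]
  exact h

theorem cle_inf {P : Set H} {g g' a : H} (h : cle P (g * a) (g' * a)) :
    cle P (g * a) ((g ⊓ g') * a) := by
  unfold cle at *
  have h1 : ((g ⊓ g') * a)⁻¹ * (g * a) = 1 ⊔ ((g' * a)⁻¹ * (g * a)) := by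
    rw [inf_mul, inv_inf, sup_mul, inv_mul_cancel]
  rw [h1, sup_assoc, sup_comm, sup_assoc, sup_idem]
  exact h

end

/-- The data giving the chain of cosets. -/
structure Cos (H : Type u) [LGroup H] where
  x : ℕ → H
  P : Set H
  cl : IsCL P
  pr : ∀ a b : H, a ⊓ b = 1 → a ∈ P ∨ b ∈ P

/-- Terms, preordered by comparison of cosets. -/
def CTm {H : Type u} [LGroup H] (_ : Cos H) : Type := Tm

namespace Cos

variable {H : Type u} [LGroup H] (D : Cos H)

instance : Preorder (CTm D) where
  le s t := cle D.P (Tm.eval D.x s) (Tm.eval D.x t)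
  le_refl s := cle_refl D.cl _
  le_trans _ _ _ h1 h2 := cle_trans D.cl h1 h2

theorem le_def' (s t : CTm D) : s ≤ t ↔ cle D.P (Tm.eval D.x s) (Tm.eval D.x t) := Iff.rfl

/-- The chain. -/
abbrev Ch : Type := Antisymmetrization (CTm D) (· ≤ ·)

noncomputable instance : LinearOrder (Ch D) :=
  { (inferInstance : PartialOrder (Ch D)) with
    le_total := by
      intro a b
      induction a using Antisymmetrization.induction_on with | _ a => ?_
      induction b using Antisymmetrization.induction_on with | _ b => ?_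
      exact cle_total D.pr _ _
    toDecidableLE := Classical.decRel _ }

/-- Left multiplication by a term. -/
def lm (s : Tm) : CTm D →o CTm D where
  toFun t := Tm.mul s t
  monotone' := by
    intro a b h
    rw [le_def'] at h ⊢
    exact (cle_mul _).2 h

/-- Left multiplication on the chain. -/
noncomputable def L (s : Tm) : Ch D ≃o Ch D where
  toFun := (lm D s).antisymmetrization
  invFun := (lm D (Tm.inv s)).antisymmetrization
  left_inv := by
    intro a
    induction a using Antisymmetrization.induction_on with | _ a => ?_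
    apply Quotient.sound
    constructor
    · change cle D.P _ _
      apply cle_of_le D.cl
      simp [lm, Tm.eval]
    · change cle D.P _ _
      apply cle_of_le D.cl
      simp [lm, Tm.eval]
  right_inv := by
    intro a
    induction a using Antisymmetrization.induction_on with | _ a => ?_
    apply Quotient.sound
    constructor
    · change cle D.P _ _
      apply cle_of_le D.cl
      simp [lm, Tm.eval]
    · change cle D.P _ _
      apply cle_of_le D.cl
      simp [lm, Tm.eval]
  map_rel_iff' := by
    intro a b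
    induction a using Antisymmetrization.induction_on with | _ a => ?_
    induction b using Antisymmetrization.induction_on with | _ b => ?_
    exact cle_mul _

/-- The class of a term. -/
def cls (t : Tm) : Ch D := toAntisymmetrization (α := CTm D) (· ≤ ·) t

theorem L_cls (s t : Tm) : L D s (cls D t) = cls D (Tm.mul s t) := rfl

theorem cls_le (s t : Tm) : cls D s ≤ cls D t ↔ cle D.P (s.eval D.x) (t.eval D.x) := Iff.rfl

theorem cls_eq {s t : Tm} (h : s.eval D.x = t.eval D.x) : cls D s = cls D t := by
  apply le_antisymm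
  · rw [cls_le, h]; exact cle_refl D.cl _
  · rw [cls_le, h]; exact cle_refl D.cl _

theorem ext_cls {f g : Ch D ≃o Ch D} (h : ∀ t, f (cls D t) = g (cls D t)) : f = g := by
  apply OrderIso.ext
  funext a
  induction a using Antisymmetrization.induction_on with | _ a => ?_
  exact h a

theorem eval_L (s : Tm) : s.eval (fun n => L D (.var n)) = L D s := by
  induction s with
  | var n => rfl
  | one =>
    apply ext_cls
    intro t
    rw [L_cls]
    exact cls_eq D (by simp [Tm.eval])
  | mul s s' ih ih' =>
    simp only [Tm.eval, ih, ih']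
    apply ext_cls
    intro t
    change L D s (L D s' (cls D t)) = _
    rw [L_cls, L_cls, L_cls]
    exact cls_eq D (by simp [Tm.eval, mul_assoc])
  | inv s ih =>
    simp only [Tm.eval, ih]
    rw [inv_eq_iff_mul_eq_one]
    apply ext_cls
    intro t
    change L D s (L D (.inv s) (cls D t)) = cls D t
    rw [L_cls, L_cls]
    exact cls_eq D (by simp [Tm.eval])
  | inf s s' ih ih' =>
    simp only [Tm.eval, ih, ih']
    apply ext_cls
    intro t
    change min (L D s (cls D t)) (L D s' (cls D t)) = _
    rw [L_cls, L_cls, L_cls]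
    rcases le_total (cls D (.mul s t)) (cls D (.mul s' t)) with h | h
    · rw [min_eq_left h]
      apply le_antisymm
      · rw [cls_le] at h ⊢
        exact cle_inf h
      · rw [cls_le]
        apply cle_of_le D.cl
        exact mul_le_mul_left inf_le_left _
    · rw [min_eq_right h]
      apply le_antisymm
      · rw [cls_le] at h ⊢
        have := cle_inf h
        rwa [inf_comm] at this
      · rw [cls_le]
        apply cle_of_le D.cl
        exact mul_le_mul_left inf_le_right _
  | sup s s' ih ih' =>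
    simp only [Tm.eval, ih, ih']
    apply ext_cls
    intro t
    change max (L D s (cls D t)) (L D s' (cls D t)) = _
    rw [L_cls, L_cls, L_cls]
    rcases le_total (cls D (.mul s t)) (cls D (.mul s' t)) with h | h
    · rw [max_eq_right h]
      apply le_antisymm
      · rw [cls_le]
        apply cle_of_le D.cl
        exact mul_le_mul_left le_sup_right _
      · rw [cls_le] at h ⊢
        exact cle_sup h
    · rw [max_eq_left h]
      apply le_antisymm
      · rw [cls_le]
        apply cle_of_le D.cl
        exact mul_le_mul_left le_sup_left _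
      · rw [cls_le] at h ⊢
        have := cle_sup h
        rwa [sup_comm] at this

end Cos

instance : Countable Tm := by
  have hc : Function.Injective (Tm.code) := by
    intro s
    induction s with
    | var n =>
      intro t h
      cases t <;> simp [Tm.code, Nat.pair_eq_pair] at h
      rw [h]
    | one =>
      intro t h
      cases t <;> simp [Tm.code, Nat.pair_eq_pair] at h
      rfl
    | mul s₁ s₂ ih₁ ih₂ =>
      intro t h
      cases t <;> simp [Tm.code, Nat.pair_eq_pair] at h
      rw [ih₁ h.1, ih₂ h.2]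
    | inv s ih =>
      intro t h
      cases t <;> simp [Tm.code, Nat.pair_eq_pair] at h
      rw [ih h]
    | inf s₁ s₂ ih₁ ih₂ =>
      intro t h
      cases t <;> simp [Tm.code, Nat.pair_eq_pair] at h
      rw [ih₁ h.1, ih₂ h.2]
    | sup s₁ s₂ ih₁ ih₂ =>
      intro t h
      cases t <;> simp [Tm.code, Nat.pair_eq_pair] at h
      rw [ih₁ h.1, ih₂ h.2]
  exact hc.countable

/-- A quasi-identity true in `Aut(C)` for all countable chains `C` is true everywhere. -/
theorem holds_of_countable_chains {φ : QId}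
    (h : ∀ (C : Type) [LinearOrder C] [Countable C] [Nonempty C], φ.Holds (C ≃o C))
    (H : Type u) [LGroup H] : φ.Holds H := by
  intro x hx
  by_contra hne
  have hw : (φ.concl.2.eval x)⁻¹ * φ.concl.1.eval x ≠ 1 := by
    intro h1
    exact hne (inv_mul_eq_one.1 h1).symm
  obtain ⟨P, hP, hwP, hpr⟩ := exists_prime hw
  let D : Cos H := ⟨x, P, hP, hpr⟩
  have hcount : Countable (Cos.Ch D) := by
    have h1 : Function.Surjective (Cos.cls D) := by
      intro a
      induction a using Antisymmetrization.induction_on with | _ a => ?_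
      exact ⟨a, rfl⟩
    exact h1.countable
  have hnon : Nonempty (Cos.Ch D) := ⟨Cos.cls D .one⟩
  have hcon := h (Cos.Ch D) (fun n => Cos.L D (.var n)) (by
    intro e he
    rw [Cos.eval_L, Cos.eval_L]
    apply Cos.ext_cls
    intro t
    rw [Cos.L_cls, Cos.L_cls]
    apply Cos.cls_eq
    simp only [Tm.eval]
    rw [hx e he])
  rw [Cos.eval_L, Cos.eval_L] at hcon
  have h2 := congrArg (fun f : Cos.Ch D ≃o Cos.Ch D => f (Cos.cls D .one)) hcon
  simp only [Cos.L_cls] at h2
  have h3 : cle P (φ.concl.1.eval x * 1) (φ.concl.2.eval x * 1) := (Cos.cls_le D _ _).1 h2.le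
  have h4 : cle P (φ.concl.2.eval x * 1) (φ.concl.1.eval x * 1) := (Cos.cls_le D _ _).1 h2.ge
  unfold cle at h3 h4
  rw [mul_one, mul_one] at h3 h4
  apply hwP
  set w := (φ.concl.2.eval x)⁻¹ * φ.concl.1.eval x with hwdef
  have h5 : (φ.concl.1.eval x)⁻¹ * φ.concl.2.eval x = w⁻¹ := by rw [hwdef]; group
  rw [h5] at h4
  refine hP.conv _ (hP.mul _ h3 _ h4) w ?_
  have h6 : ab ((w ⊔ 1) * (w⁻¹ ⊔ 1)) = (w ⊔ 1) * (w⁻¹ ⊔ 1) :=
    ab_of_one_le (one_le_mul le_sup_right le_sup_right)
  rw [h6]
  apply sup_le
  · calc w = w * 1 := (mul_one _).symm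
      _ ≤ _ := mul_le_mul' le_sup_left le_sup_right
  · calc w⁻¹ = 1 * w⁻¹ := (one_mul _).symm
      _ ≤ _ := mul_le_mul' le_sup_right le_sup_left

end Pool.Agent.Helper56.QV
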