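import Mathlib
import Pool.Agent.Helper56.QV.Holland

/-! Homomorphisms of lattice-ordered groups. -/

set_option autoImplicit false

namespace Pool.Agent.Helper56.QV

universe u v w

/-- Homomorphisms of lattice-ordered groups. -/
structure LHom (G : Type u) (H : Type v) [LGroup G] [LGroup H] where
  toFun : G → H
  mul' : ∀ a b, toFun (a * b) = toFun a * toFun b
  sup' : ∀ a b, toFun (a ⊔ b) = toFun a ⊔ toFun b

namespace LHom

variable {G : Type u} {H : Type v} {K : Type w} [LGroup G] [LGroup H] [LGroup K]

instance : CoeFun (LHom G H) (fun _ => G → H) := ⟨LHom.toFun⟩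

theorem map_mul (F : LHom G H) (a b : G) : F (a * b) = F a * F b := F.mul' a b

theorem map_sup (F : LHom G H) (a b : G) : F (a ⊔ b) = F a ⊔ F b := F.sup' a b

theorem map_one (F : LHom G H) : F 1 = 1 := by
  have h := F.map_mul 1 1
  rw [mul_one] at h
  exact (mul_eq_left (a := F 1)).1 h.symm

theorem map_inv (F : LHom G H) (a : G) : F a⁻¹ = (F a)⁻¹ := by
  rw [eq_comm, inv_eq_iff_mul_eq_one, ← F.map_mul, mul_inv_cancel, F.map_one]

theorem map_inf (F : LHom G H) (a b : G) : F (a ⊓ b) = F a ⊓ F b := by
  have h1 := F.map_sup a⁻¹ b⁻¹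
  rw [← inv_inf, F.map_inv, F.map_inv, F.map_inv, ← inv_inf] at h1
  exact inv_injective h1

/-- Composition. -/
def comp (F : LHom H K) (E : LHom G H) : LHom G K where
  toFun a := F (E a)
  mul' a b := by rw [E.map_mul, F.map_mul]
  sup' a b := by rw [E.map_sup, F.map_sup]

theorem comp_app (F : LHom H K) (E : LHom G H) (a : G) : F.comp E a = F (E a) := rfl

theorem comp_injective {F : LHom H K} {E : LHom G H} (hF : Function.Injective F)
    (hE : Function.Injective E) : Function.Injective (F.comp E) :=
  hF.comp hE

/-- The underlying group homomorphism. -/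
def toMonoidHom (F : LHom G H) : G →* H where
  toFun := F
  map_one' := F.map_one
  map_mul' := F.map_mul

theorem eval (F : LHom G H) (x : ℕ → G) (t : Tm) :
    F (t.eval x) = t.eval (fun n => F (x n)) :=
  map_eval F F.map_one F.map_mul F.map_inv F.map_sup F.map_inf x t

theorem holds (F : LHom G H) (hinj : Function.Injective F) {φ : QId} (hφ : φ.Holds H) :
    φ.Holds G :=
  holds_of_embedding F F.map_one F.map_mul F.map_inv F.map_sup F.map_inf hinj hφ

end LHom

end Pool.Agent.Helper56.QV
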