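import Mathlib
import Pool.Agent.Helper56.QV.Sound
import Pool.Agent.Helper56.QV.LHom
import Pool.Agent.Helper56.QV.Cantor
import Pool.Agent.Helper56.QV.Holland2

/-! A dense action on a countable chain: `Aut(C)` embeds for every countable chain `C`. -/

set_option autoImplicit false

namespace Pool.Agent.Helper56.QV

universe u v w t

/-- A convex set `J` of `Ω` with a coordinate `co` in a chain `E`, such that automorphisms of `Ω`
act on the coordinates with dense orbits. -/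
structure DAct (Ω : Type u) [LinearOrder Ω] (E : Type v) [LinearOrder E] (I : Type w) where
  J : Set Ω
  conv : J.OrdConnected
  co : J → E
  mono : ∀ z w : J, z ≤ w → co z ≤ co w
  surj : Function.Surjective co
  pt : J
  col : E → I
  dense : ∀ u : E, DenseCol col (col u)
  tr : ∀ e f : E, col e = col f → ∃ s : Ω ≃o Ω, (∀ z, s z ∈ J ↔ z ∈ J) ∧
    ∀ z w : J, w.1 = s z.1 → (co z = e ↔ co w = f)

namespace DAct

variable {Ω : Type u} [LinearOrder Ω] {E : Type v} [LinearOrder E] {I : Type w}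
  (R : DAct Ω E I) (C : Type t) [LinearOrder C]

/-- Colour on the lexicographic product. -/
def colC (p : C ×ₗ E) : I := R.col (ofLex p).2

theorem dense_C (u : E) : DenseCol (R.colC C) (R.col u) where
  mid x y hxy := by
    have h := (Prod.Lex.lt_iff).1 hxy
    rcases h with h | ⟨h, h'⟩
    · obtain ⟨z, h1, h2⟩ := (R.dense u).up (ofLex x).2
      refine ⟨toLex ((ofLex x).1, z), ?_, ?_, h2⟩
      · exact (Prod.Lex.lt_iff).2 (Or.inr ⟨rfl, h1⟩)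
      · exact (Prod.Lex.lt_iff).2 (Or.inl h)
    · obtain ⟨z, h1, h2, h3⟩ := (R.dense u).mid _ _ h'
      refine ⟨toLex ((ofLex x).1, z), ?_, ?_, h3⟩
      · exact (Prod.Lex.lt_iff).2 (Or.inr ⟨rfl, h1⟩)
      · exact (Prod.Lex.lt_iff).2 (Or.inr ⟨h, h2⟩)
  up x := by
    obtain ⟨z, h1, h2⟩ := (R.dense u).up (ofLex x).2
    exact ⟨toLex ((ofLex x).1, z), (Prod.Lex.lt_iff).2 (Or.inr ⟨rfl, h1⟩), h2⟩
  dn x := by
    obtain ⟨z, h1, h2⟩ := (R.dense u).dn (ofLex x).2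
    exact ⟨toLex ((ofLex x).1, z), (Prod.Lex.lt_iff).2 (Or.inr ⟨rfl, h1⟩), h2⟩

theorem exists_iso [Countable E] [Countable C] [Nonempty C] :
    ∃ Φ : (C ×ₗ E) ≃o E, ∀ p, R.col (Φ p) = R.col (ofLex p).2 := by
  have h0' : Nonempty E := ⟨R.co R.pt⟩
  have h1 : Countable (C ×ₗ E) := inferInstanceAs (Countable (C × E))
  have h2 : Nonempty (C ×ₗ E) := inferInstanceAs (Nonempty (C × E))
  exact iso_of_colours (ca := R.colC C) (cb := R.col) (fun b => R.dense_C C b)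
    (fun a => R.dense (ofLex a).2)

theorem lt_of_co_lt {z w : R.J} (h : R.co z < R.co w) : z < w := by
  by_contra hc
  push Not at hc
  exact absurd (R.mono w z hc) (not_le.2 h)

/-- A chosen automorphism. -/
noncomputable def s (e f : E) (h : R.col e = R.col f) : Ω ≃o Ω := (R.tr e f h).choose

theorem s_mem {e f : E} (h : R.col e = R.col f) (z : Ω) : R.s e f h z ∈ R.J ↔ z ∈ R.J :=
  (R.tr e f h).choose_spec.1 z

theorem s_co {e f : E} (h : R.col e = R.col f) (z w : R.J) (hw : w.1 = R.s e f h z.1) :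
    R.co z = e ↔ R.co w = f :=
  (R.tr e f h).choose_spec.2 z w hw

section

variable {C}
variable (Φ : (C ×ₗ E) ≃o E) (hΦ : ∀ p, R.col (Φ p) = R.col (ofLex p).2)

/-- The isomorphism on points. -/
noncomputable def Ψ (c : C) (z : R.J) : R.J :=
  ⟨R.s (R.co z) (Φ (toLex (c, R.co z))) (hΦ (toLex (c, R.co z))).symm z.1,
    (R.s_mem _ z.1).2 z.2⟩

theorem co_Ψ (c : C) (z : R.J) : R.co (R.Ψ Φ hΦ c z) = Φ (toLex (c, R.co z)) :=
  (R.s_co _ z (R.Ψ Φ hΦ c z) rfl).1 rfl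

theorem Ψ_lt_of {c c' : C} {z z' : R.J} (h : toLex (c, R.co z) < toLex (c', R.co z')) :
    R.Ψ Φ hΦ c z < R.Ψ Φ hΦ c' z' := by
  apply R.lt_of_co_lt
  rw [co_Ψ, co_Ψ]
  exact Φ.lt_iff_lt.2 h

theorem Ψ_lt {c c' : C} {z z' : R.J} (h : c < c' ∨ c = c' ∧ z < z') :
    R.Ψ Φ hΦ c z < R.Ψ Φ hΦ c' z' := by
  rcases h with h | ⟨rfl, h⟩
  · exact R.Ψ_lt_of Φ hΦ ((Prod.Lex.lt_iff).2 (Or.inl h))
  · have h1 : R.co z ≤ R.co z' := R.mono z z' h.le
    rcases h1.lt_or_eq with h2 | h2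
    · exact R.Ψ_lt_of Φ hΦ ((Prod.Lex.lt_iff).2 (Or.inr ⟨rfl, h2⟩))
    · have key : ∀ (e : E) (he : e = R.co z'), R.s e (Φ (toLex (c, e)))
          (hΦ (toLex (c, e))).symm z.1 < R.s (R.co z') (Φ (toLex (c, R.co z')))
          (hΦ (toLex (c, R.co z'))).symm z'.1 := by
        rintro e rfl
        exact (R.s _ _ _).lt_iff_lt.2 h
      exact key _ h2

theorem Ψ_surj (w : R.J) : ∃ (c : C) (z : R.J), R.Ψ Φ hΦ c z = w := by
  set p := Φ.symm (R.co w) with hp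
  have hp2 : Φ p = R.co w := Φ.apply_symm_apply _
  have h1 : R.col (ofLex p).2 = R.col (R.co w) := by rw [← hp2]; exact (hΦ p).symm
  set g := R.s (ofLex p).2 (R.co w) h1 with hg
  let z : R.J := ⟨g⁻¹ w.1, by
    rw [← R.s_mem h1, ← hg, app_inv_self]
    exact w.2⟩
  have hz : R.co z = (ofLex p).2 := by
    rw [R.s_co h1 z w (by change w.1 = g (g⁻¹ w.1); rw [app_inv_self])]
  refine ⟨(ofLex p).1, z, ?_⟩
  apply Subtype.ext
  have key : ∀ (e : E) (he : e = (ofLex p).2), (R.s e (Φ (toLex ((ofLex p).1, e)))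
      (hΦ (toLex ((ofLex p).1, e))).symm) z.1 = w.1 := by
    rintro e rfl
    have key2 : ∀ (f : E) (hf : f = R.co w) (h3 : R.col (ofLex p).2 = R.col f),
        (R.s (ofLex p).2 f h3) z.1 = w.1 := by
      rintro f rfl h3
      exact app_inv_self _ _
    exact key2 _ hp2 _
  exact key _ hz

theorem Ψ_inj {c c' : C} {z z' : R.J} (h : R.Ψ Φ hΦ c z = R.Ψ Φ hΦ c' z') : c = c' ∧ z = z' := by
  rcases lt_trichotomy c c' with h1 | h1 | h1
  · exact absurd h (R.Ψ_lt Φ hΦ (Or.inl h1)).ne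
  · rcases lt_trichotomy z z' with h2 | h2 | h2
    · exact absurd h (R.Ψ_lt Φ hΦ (Or.inr ⟨h1, h2⟩)).ne
    · exact ⟨h1, h2⟩
    · exact absurd h (R.Ψ_lt Φ hΦ (Or.inr ⟨h1.symm, h2⟩)).ne'
  · exact absurd h (R.Ψ_lt Φ hΦ (Or.inl h1)).ne'

open Classical in
/-- The action of `Aut(C)` on `Ω`. -/
noncomputable def act (g : C ≃o C) (w : Ω) : Ω :=
  if hw : w ∈ R.J then
    (R.Ψ Φ hΦ (g (R.Ψ_surj Φ hΦ ⟨w, hw⟩).choose) (R.Ψ_surj Φ hΦ ⟨w, hw⟩).choose_spec.choose).1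
  else w

theorem act_Ψ (g : C ≃o C) (c : C) (z : R.J) :
    R.act Φ hΦ g (R.Ψ Φ hΦ c z).1 = (R.Ψ Φ hΦ (g c) z).1 := by
  unfold act
  rw [dif_pos (R.Ψ Φ hΦ c z).2]
  have key : ∀ (c' : C) (z' : R.J), R.Ψ Φ hΦ c' z' = R.Ψ Φ hΦ c z →
      (R.Ψ Φ hΦ (g c') z').1 = (R.Ψ Φ hΦ (g c) z).1 := by
    intro c' z' h
    obtain ⟨h1, h2⟩ := R.Ψ_inj Φ hΦ h
    rw [h1, h2]
  exact key _ _ (R.Ψ_surj Φ hΦ (R.Ψ Φ hΦ c z)).choose_spec.choose_spec

theorem act_not (g : C ≃o C) {w : Ω} (hw : w ∉ R.J) : R.act Φ hΦ g w = w := by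
  unfold act
  rw [dif_neg hw]

theorem act_mul (g h : C ≃o C) (w : Ω) :
    R.act Φ hΦ g (R.act Φ hΦ h w) = R.act Φ hΦ (g * h) w := by
  by_cases hw : w ∈ R.J
  · obtain ⟨c, z, h1⟩ := R.Ψ_surj Φ hΦ ⟨w, hw⟩
    have h2 : w = (R.Ψ Φ hΦ c z).1 := by rw [h1]
    rw [h2, act_Ψ, act_Ψ, act_Ψ]
    rfl
  · rw [R.act_not Φ hΦ h hw, R.act_not Φ hΦ g hw, R.act_not Φ hΦ _ hw]

theorem act_one (w : Ω) : R.act Φ hΦ 1 w = w := by
  by_cases hw : w ∈ R.J
  · obtain ⟨c, z, h1⟩ := R.Ψ_surj Φ hΦ ⟨w, hw⟩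
    have h2 : w = (R.Ψ Φ hΦ c z).1 := by rw [h1]
    rw [h2, act_Ψ]
    rfl
  · exact R.act_not Φ hΦ 1 hw

theorem act_mem (g : C ≃o C) {w : Ω} (hw : w ∈ R.J) : R.act Φ hΦ g w ∈ R.J := by
  obtain ⟨c, z, h1⟩ := R.Ψ_surj Φ hΦ ⟨w, hw⟩
  have h2 : w = (R.Ψ Φ hΦ c z).1 := by rw [h1]
  rw [h2, act_Ψ]
  exact (R.Ψ Φ hΦ (g c) z).2

theorem act_strictMono (g : C ≃o C) : StrictMono (R.act Φ hΦ g) := by
  intro w w' hlt
  by_cases hw : w ∈ R.J
  · by_cases hw' : w' ∈ R.J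
    · obtain ⟨c, z, h1⟩ := R.Ψ_surj Φ hΦ ⟨w, hw⟩
      have h2 : w = (R.Ψ Φ hΦ c z).1 := by rw [h1]
      obtain ⟨c', z', h1'⟩ := R.Ψ_surj Φ hΦ ⟨w', hw'⟩
      have h2' : w' = (R.Ψ Φ hΦ c' z').1 := by rw [h1']
      rw [h2, h2', act_Ψ, act_Ψ]
      rw [h2, h2'] at hlt
      rcases lt_trichotomy c c' with h3 | h3 | h3
      · exact R.Ψ_lt Φ hΦ (Or.inl (g.lt_iff_lt.2 h3))
      · subst h3
        rcases lt_trichotomy z z' with h4 | h4 | h4
        · exact R.Ψ_lt Φ hΦ (Or.inr ⟨rfl, h4⟩)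
        · subst h4
          exact absurd hlt (lt_irrefl _)
        · have h5 : R.Ψ Φ hΦ c z' < R.Ψ Φ hΦ c z := R.Ψ_lt Φ hΦ (Or.inr ⟨rfl, h4⟩)
          exact absurd hlt (not_lt.2 (le_of_lt h5))
      · have h5 : R.Ψ Φ hΦ c' z' < R.Ψ Φ hΦ c z := R.Ψ_lt Φ hΦ (Or.inl h3)
        exact absurd hlt (not_lt.2 (le_of_lt h5))
    · rw [R.act_not Φ hΦ g hw']
      by_contra hc
      push Not at hc
      exact hw' (R.conv.out hw (R.act_mem Φ hΦ g hw) ⟨hlt.le, hc⟩)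
  · rw [R.act_not Φ hΦ g hw]
    by_cases hw' : w' ∈ R.J
    · by_contra hc
      push Not at hc
      exact hw (R.conv.out (R.act_mem Φ hΦ g hw') hw' ⟨hc, hlt.le⟩)
    · rw [R.act_not Φ hΦ g hw']
      exact hlt

/-- The automorphism of `Ω` attached to an automorphism of `C`. -/
noncomputable def em (g : C ≃o C) : Ω ≃o Ω where
  toFun := R.act Φ hΦ g
  invFun := R.act Φ hΦ g⁻¹
  left_inv w := by rw [act_mul, inv_mul_cancel, act_one]
  right_inv w := by rw [act_mul, mul_inv_cancel, act_one]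
  map_rel_iff' := (R.act_strictMono Φ hΦ g).le_iff_le

/-- The embedding of `Aut(C)` into `Aut(Ω)`. -/
noncomputable def emb : LHom (C ≃o C) (Ω ≃o Ω) where
  toFun := R.em Φ hΦ
  mul' g h := by
    apply OrderIso.ext
    funext w
    exact (R.act_mul Φ hΦ g h w).symm
  sup' g h := by
    apply OrderIso.ext
    funext w
    change R.act Φ hΦ (g ⊔ h) w = max (R.act Φ hΦ g w) (R.act Φ hΦ h w)
    by_cases hw : w ∈ R.J
    · obtain ⟨c, z, h1⟩ := R.Ψ_surj Φ hΦ ⟨w, hw⟩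
      have h2 : w = (R.Ψ Φ hΦ c z).1 := by rw [h1]
      rw [h2, act_Ψ, act_Ψ, act_Ψ, sup_app]
      rcases lt_trichotomy (g c) (h c) with h3 | h3 | h3
      · rw [max_eq_right h3.le, max_eq_right]
        exact (R.Ψ_lt Φ hΦ (Or.inl h3)).le
      · rw [h3, max_self, max_self]
      · rw [max_eq_left h3.le, max_eq_left]
        exact (R.Ψ_lt Φ hΦ (Or.inl h3)).le
    · rw [R.act_not Φ hΦ g hw, R.act_not Φ hΦ h hw, R.act_not Φ hΦ _ hw, max_self]

theorem emb_injective : Function.Injective (R.emb Φ hΦ) := by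
  intro g h hgh
  apply OrderIso.ext
  funext c
  have h1 : R.act Φ hΦ g (R.Ψ Φ hΦ c R.pt).1 = R.act Φ hΦ h (R.Ψ Φ hΦ c R.pt).1 :=
    congrArg (fun F : Ω ≃o Ω => F (R.Ψ Φ hΦ c R.pt).1) hgh
  rw [act_Ψ, act_Ψ] at h1
  exact (R.Ψ_inj Φ hΦ (Subtype.ext h1)).1

end

include R in
/-- A dense action on a countable chain gives embeddings of `Aut(C)`, `C` any countable chain. -/
theorem exists_emb [Countable E] [Countable C] [Nonempty C] :
    ∃ F : LHom (C ≃o C) (Ω ≃o Ω), Function.Injective F := by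
  obtain ⟨Φ, hΦ⟩ := R.exists_iso C
  exact ⟨R.emb Φ hΦ, R.emb_injective Φ hΦ⟩

include R in
/-- A dense action gives a copy of `ℚ`. -/
theorem exists_rat : Nonempty (ℚ ↪o R.J) := by
  have e0 := R.co R.pt
  have h1 : DenselyOrdered E := ⟨fun x y hxy => by
    obtain ⟨z, h1, h2, _⟩ := (R.dense e0).mid x y hxy
    exact ⟨z, h1, h2⟩⟩
  have h2 : Nontrivial E := by
    obtain ⟨z, h1, _⟩ := (R.dense e0).up e0
    exact ⟨e0, z, h1.ne⟩
  obtain ⟨F⟩ := Order.embedding_from_countable_to_dense ℚ E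
  choose g hg using R.surj
  refine ⟨OrderEmbedding.ofStrictMono (fun q => g (F q)) ?_⟩
  intro a c hac
  apply R.lt_of_co_lt
  rw [hg, hg]
  exact F.lt_iff_lt.2 hac

include R in
theorem countable_or (h : R.J.Countable ∨ IsEmpty (ℚ ↪o R.J)) : Countable E := by
  rcases h with h | h
  · have := h.to_subtype
    exact R.surj.countable
  · obtain ⟨F⟩ := R.exists_rat
    exact h.elim F

end DAct

/-- `Aut(ℚ)` has iterated square roots. -/
theorem hasDyadic_of_emb {Ω : Type u} [LinearOrder Ω] (F : LHom (ℚ ≃o ℚ) (Ω ≃o Ω))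
    (hF : Function.Injective F) : HasDyadic Ω := by
  let t : ℕ → (ℚ ≃o ℚ) := fun n => OrderIso.addRight (1 / 2 ^ n : ℚ)
  have h1 : ∀ n, t (n + 1) * t (n + 1) = t n := by
    intro n
    apply OrderIso.ext
    funext q
    change q + 1 / 2 ^ (n + 1) + 1 / 2 ^ (n + 1) = q + 1 / 2 ^ n
    rw [pow_succ]
    ring
  refine ⟨fun n => F (t n), ?_, ?_⟩
  · intro h
    have h2 : t 0 = 1 := hF (h.trans F.map_one.symm)
    have h3 := congrArg (fun f : ℚ ≃o ℚ => f 0) h2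
    change (0 : ℚ) + 1 / 2 ^ 0 = 0 at h3
    norm_num at h3
  · intro n
    rw [← F.map_mul, h1]

end Pool.Agent.Helper56.QV
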