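import Mathlib
import Pool.Agent.Helper56.QV.Sound

/-! Iterated square roots: the action of the dyadic rationals on a bump and its coordinate. -/

set_option autoImplicit false

namespace Pool.Agent.Helper56.QV

universe u

/-- Dyadic rationals as a subgroup of the reals. -/
def Dy : AddSubgroup ℝ where
  carrier := {r | ∃ (n : ℕ) (m : ℤ), r = m / 2 ^ n}
  zero_mem' := ⟨0, 0, by simp⟩
  add_mem' := by
    rintro a b ⟨n, m, rfl⟩ ⟨n', m', rfl⟩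
    refine ⟨n + n', m * 2 ^ n' + m' * 2 ^ n, ?_⟩
    push_cast
    rw [pow_add]
    field_simp
  neg_mem' := by
    rintro a ⟨n, m, rfl⟩
    exact ⟨n, -m, by push_cast; ring⟩

theorem mem_Dy {r : ℝ} : r ∈ Dy ↔ ∃ (n : ℕ) (m : ℤ), r = m / 2 ^ n := Iff.rfl

theorem Dy_dense {a b : ℝ} (h : a < b) : ∃ r ∈ Dy, a < r ∧ r < b := by
  obtain ⟨n, hn⟩ := exists_pow_lt_of_lt_one (sub_pos.2 h) (by norm_num : (1 / 2 : ℝ) < 1)
  have h2 : (0 : ℝ) < 2 ^ n := by positivity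
  refine ⟨(⌊a * 2 ^ n⌋ + 1 : ℤ) / 2 ^ n, ⟨n, ⌊a * 2 ^ n⌋ + 1, rfl⟩, ?_, ?_⟩
  · rw [lt_div_iff₀ h2]
    push_cast
    exact Int.lt_floor_add_one _
  · rw [div_lt_iff₀ h2]
    push_cast
    have h3 : (⌊a * 2 ^ n⌋ : ℝ) ≤ a * 2 ^ n := Int.floor_le _
    have h4 : (1 : ℝ) < (b - a) * 2 ^ n := by
      have : (1 / 2 : ℝ) ^ n * 2 ^ n = 1 := by
        rw [← mul_pow]; norm_num
      calc (1 : ℝ) = (1 / 2 : ℝ) ^ n * 2 ^ n := this.symm
        _ < (b - a) * 2 ^ n := mul_lt_mul_of_pos_right hn h2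
    nlinarith

theorem Dy_common {r s : ℝ} (hr : r ∈ Dy) (hs : s ∈ Dy) :
    ∃ (N : ℕ) (a b : ℤ), r = a / 2 ^ N ∧ s = b / 2 ^ N := by
  obtain ⟨n, m, rfl⟩ := hr
  obtain ⟨n', m', rfl⟩ := hs
  refine ⟨n + n', m * 2 ^ n', m' * 2 ^ n, ?_, ?_⟩
  · push_cast; rw [pow_add]; field_simp
  · push_cast; rw [pow_add]; field_simp

variable {Ω : Type u} [LinearOrder Ω]

/-- Iterated square roots that move `x₀` up. -/
structure Roots (Ω : Type u) [LinearOrder Ω] where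
  t : ℕ → (Ω ≃o Ω)
  x₀ : Ω
  sq : ∀ n, t (n + 1) * t (n + 1) = t n
  pos : x₀ < t 0 x₀

theorem exists_roots (h : HasDyadic Ω) : Nonempty (Roots Ω) := by
  obtain ⟨t, h0, hsq⟩ := h
  obtain ⟨x, hx⟩ : ∃ x, t 0 x ≠ x := by
    by_contra hc
    push Not at hc
    exact h0 (OrderIso.ext (funext hc))
  rcases lt_or_gt_of_ne hx with h1 | h1
  · refine ⟨⟨fun n => (t n)⁻¹, x, ?_, lt_inv_of_lt h1⟩⟩
    intro n
    rw [← mul_inv_rev, hsq]
  · exact ⟨⟨t, x, hsq, h1⟩⟩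

namespace Roots

variable (R : Roots Ω)

theorem t_add (n k : ℕ) : R.t (n + k) ^ (2 ^ k) = R.t n := by
  induction k with
  | zero => simp
  | succ k ih =>
    rw [pow_succ 2 k, mul_comm, pow_mul, pow_two]
    have : R.t (n + (k + 1)) * R.t (n + (k + 1)) = R.t (n + k) := R.sq (n + k)
    rw [this, ih]

theorem rep_unique {n n' : ℕ} {m m' : ℤ} (h : (m : ℝ) / 2 ^ n = m' / 2 ^ n') :
    R.t n ^ m = R.t n' ^ m' := by
  have h1 : m * 2 ^ n' = m' * 2 ^ n := by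
    have h2 : (m : ℝ) * 2 ^ n' = m' * 2 ^ n := by
      field_simp at h
      linarith
    exact_mod_cast h2
  have h3 := R.t_add n n'
  have h4 := R.t_add n' n
  rw [← h3, ← h4, add_comm n' n, ← zpow_natCast, ← zpow_natCast, ← zpow_mul, ← zpow_mul]
  congr 1
  push_cast
  linarith

open Classical in
/-- The automorphism attached to a dyadic rational. -/
noncomputable def T (r : ℝ) : Ω ≃o Ω :=
  if h : ∃ p : ℕ × ℤ, r = p.2 / 2 ^ p.1 then R.t h.choose.1 ^ h.choose.2 else 1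

theorem T_eq {r : ℝ} {n : ℕ} {m : ℤ} (h : r = m / 2 ^ n) : R.T r = R.t n ^ m := by
  have h1 : ∃ p : ℕ × ℤ, r = p.2 / 2 ^ p.1 := ⟨(n, m), h⟩
  rw [T, dif_pos h1]
  apply R.rep_unique
  rw [← h1.choose_spec, h]

theorem T_add {r s : ℝ} (hr : r ∈ Dy) (hs : s ∈ Dy) : R.T (r + s) = R.T r * R.T s := by
  obtain ⟨N, a, b, h1, h2⟩ := Dy_common hr hs
  rw [R.T_eq h1, R.T_eq h2, ← zpow_add]
  apply R.T_eq
  rw [h1, h2]
  push_cast
  ring

theorem T_zero : R.T 0 = 1 := by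
  rw [R.T_eq (n := 0) (m := 0) (by simp), zpow_zero]

theorem T_one : R.T 1 = R.t 0 := by
  rw [R.T_eq (n := 0) (m := 1) (by simp), zpow_one]

theorem T_neg {r : ℝ} (hr : r ∈ Dy) : R.T (-r) * R.T r = 1 := by
  rw [← R.T_add (Dy.neg_mem hr) hr, neg_add_cancel, T_zero]

theorem T_neg_app {r : ℝ} (hr : r ∈ Dy) (z : Ω) : R.T (-r) (R.T r z) = z := by
  rw [← mul_app, R.T_neg hr, one_app]

theorem T_app_neg {r : ℝ} (hr : r ∈ Dy) (z : Ω) : R.T r (R.T (-r) z) = z := by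
  have := R.T_neg_app (Dy.neg_mem hr) z
  rwa [neg_neg] at this

/-- The bump. -/
def J : Set Ω := bump (R.t 0) R.x₀

theorem t_mem (n : ℕ) (z : Ω) : R.t n z ∈ R.J ↔ z ∈ R.J := by
  have h := R.t_add 0 n
  rw [zero_add] at h
  refine inv_of_pow (bump_ordConnected _ _) (q := 2 ^ n) (by positivity) (w := R.t 0)
    (fun z => app_mem_bump_iff') (fun z _ => ?_) z
  rw [h]

theorem T_mem {r : ℝ} (hr : r ∈ Dy) (z : Ω) : R.T r z ∈ R.J ↔ z ∈ R.J := by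
  obtain ⟨n, m, h⟩ := hr
  rw [R.T_eq h]
  exact zp_mem_iff (R.t_mem n) m z

theorem t_pos (n : ℕ) {z : Ω} (hz : z ∈ R.J) : z < R.t n z := by
  have h0 : z < R.t 0 z := lt_of_mem_bump R.pos hz
  by_contra hc
  push Not at hc
  have key : ∀ k : ℕ, (R.t n ^ k) z ≤ z := by
    intro k
    induction k with
    | zero => simp
    | succ k ih =>
      rw [pow_succ, mul_app]
      exact ((R.t n ^ k).le_iff_le.2 hc).trans ih
  have h := R.t_add 0 n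
  rw [zero_add] at h
  have h1 := key (2 ^ n)
  rw [h] at h1
  exact absurd h0 (not_lt.2 h1)

theorem T_pos {r : ℝ} (hr : r ∈ Dy) (h : 0 < r) {z : Ω} (hz : z ∈ R.J) : z < R.T r z := by
  obtain ⟨n, m, rfl⟩ := hr
  rw [R.T_eq rfl]
  have hm : 0 < m := by
    by_contra hc
    push Not at hc
    have : (m : ℝ) / 2 ^ n ≤ 0 := div_nonpos_of_nonpos_of_nonneg (by exact_mod_cast hc) (by positivity)
    linarith
  have := zp_strictMono (R.t_pos n hz) hm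
  simpa using this

theorem T_lt {r s : ℝ} (hr : r ∈ Dy) (hs : s ∈ Dy) (h : r < s) {z : Ω} (hz : z ∈ R.J) :
    R.T r z < R.T s z := by
  have h1 : s = r + (s - r) := by ring
  have h2 : s - r ∈ Dy := Dy.sub_mem hs hr
  rw [h1, R.T_add hr h2, mul_app]
  exact (R.T r).lt_iff_lt.2 (R.T_pos h2 (sub_pos.2 h) hz)

theorem le_of_T_le {r s : ℝ} (hr : r ∈ Dy) (hs : s ∈ Dy) {z : Ω} (hz : z ∈ R.J)
    (h : R.T r z ≤ R.T s z) : r ≤ s := by
  by_contra hc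
  push Not at hc
  exact absurd (R.T_lt hs hr hc hz) (not_lt.2 h)

/-- Lower approximations of the coordinate. -/
def S (z : Ω) : Set ℝ := {r | r ∈ Dy ∧ R.T r R.x₀ ≤ z}

/-- The coordinate. -/
noncomputable def τ (z : Ω) : ℝ := sSup (R.S z)

theorem x₀_mem : R.x₀ ∈ R.J := self_mem_bump _ _

theorem int_mem_Dy (m : ℤ) : (m : ℝ) ∈ Dy := ⟨0, m, by simp⟩

theorem T_int (m : ℤ) : R.T m = R.t 0 ^ m := R.T_eq (by simp)

theorem S_nonempty {z : Ω} (hz : z ∈ R.J) : (R.S z).Nonempty := by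
  obtain ⟨m, _, h, _⟩ := hz
  exact ⟨m, int_mem_Dy m, by rw [T_int]; exact h⟩

theorem S_bdd {z : Ω} (hz : z ∈ R.J) : BddAbove (R.S z) := by
  obtain ⟨_, n, _, h⟩ := hz
  refine ⟨n, ?_⟩
  rintro r ⟨hr, h1⟩
  apply R.le_of_T_le hr (int_mem_Dy n) R.x₀_mem
  rw [T_int]
  exact h1.trans h

theorem τ_mono {z w : Ω} (hz : z ∈ R.J) (hw : w ∈ R.J) (h : z ≤ w) : R.τ z ≤ R.τ w := by
  apply csSup_le_csSup (R.S_bdd hw) (R.S_nonempty hz)
  rintro r ⟨hr, h1⟩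
  exact ⟨hr, h1.trans h⟩

theorem lt_of_τ_lt {z w : Ω} (hz : z ∈ R.J) (hw : w ∈ R.J) (h : R.τ z < R.τ w) : z < w := by
  by_contra hc
  push Not at hc
  exact absurd (R.τ_mono hw hz hc) (not_le.2 h)

theorem τ_T_le {r : ℝ} (hr : r ∈ Dy) {z : Ω} (hz : z ∈ R.J) : R.τ z + r ≤ R.τ (R.T r z) := by
  have h1 : R.τ z ≤ R.τ (R.T r z) - r := by
    apply csSup_le (R.S_nonempty hz)
    rintro s ⟨hs, h2⟩
    have h3 : r + s ∈ R.S (R.T r z) := by
      refine ⟨Dy.add_mem hr hs, ?_⟩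
      rw [R.T_add hr hs, mul_app]
      exact (R.T r).le_iff_le.2 h2
    have h4 : r + s ≤ R.τ (R.T r z) := le_csSup (R.S_bdd ((R.T_mem hr z).2 hz)) h3
    linarith
  linarith

theorem τ_T {r : ℝ} (hr : r ∈ Dy) {z : Ω} (hz : z ∈ R.J) : R.τ (R.T r z) = R.τ z + r := by
  apply le_antisymm _ (R.τ_T_le hr hz)
  have h1 := R.τ_T_le (Dy.neg_mem hr) ((R.T_mem hr z).2 hz)
  rw [R.T_neg_app hr] at h1
  linarith

end Roots

end Pool.Agent.Helper56.QV
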