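import Mathlib
import Pool.Agent.Helper56.QV.Bump

/-! Locally countable or scattered chains. -/

set_option autoImplicit false

namespace Pool.Agent.Helper56.QV

universe u

variable {Ω : Type u} [LinearOrder Ω]

theorem locCS_of (h : Countable Ω ∨ IsEmpty (ℚ ↪o Ω)) : LocCS Ω := by
  intro a b
  rcases h with h | h
  · exact Or.inl (Set.to_countable _)
  · exact Or.inr ⟨fun F => h.false (F.trans (OrderEmbedding.subtype _))⟩

/-- In a locally countable or scattered chain, bumps are countable or scattered. -/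
theorem bump_cs (h : LocCS Ω) (g : Ω ≃o Ω) (x : Ω) :
    (bump g x).Countable ∨ IsEmpty (ℚ ↪o bump g x) := by
  by_cases hall : ∀ m n : ℤ, (Set.Icc ((g ^ m) x) ((g ^ n) x)).Countable
  · left
    have h1 : bump g x = ⋃ (m : ℤ) (n : ℤ), Set.Icc ((g ^ m) x) ((g ^ n) x) := by
      ext z
      simp only [Set.mem_iUnion, Set.mem_Icc]
      exact mem_bump
    rw [h1]
    exact Set.countable_iUnion fun m => Set.countable_iUnion fun n => hall m n
  · right
    push Not at hall
    obtain ⟨m, n, hmn⟩ := hall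
    constructor
    intro F
    have hnt : Nontrivial (Set.Ioo (0 : ℚ) 1) :=
      ⟨⟨1 / 2, by norm_num, by norm_num⟩, ⟨1 / 3, by norm_num, by norm_num⟩, fun h => by
        have := congrArg Subtype.val h
        norm_num at this⟩
    obtain ⟨E⟩ := Order.embedding_from_countable_to_dense ℚ (Set.Ioo (0 : ℚ) 1)
    obtain ⟨m₀, _, h1, _⟩ := mem_bump.1 (F 0).2
    obtain ⟨_, n₁, _, h2⟩ := mem_bump.1 (F 1).2
    -- a large interval
    have h3 : ∃ a b : Ω, a ≤ (g ^ m₀) x ∧ a ≤ (g ^ m) x ∧ (g ^ n₁) x ≤ b ∧ (g ^ n) x ≤ b :=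
      ⟨min ((g ^ m₀) x) ((g ^ m) x), max ((g ^ n₁) x) ((g ^ n) x), min_le_left _ _,
        min_le_right _ _, le_max_left _ _, le_max_right _ _⟩
    obtain ⟨a, b, h4, h5, h6, h7⟩ := h3
    rcases h a b with h8 | h8
    · exact hmn (h8.mono (Set.Icc_subset_Icc h5 h7))
    · apply h8.false
      refine OrderEmbedding.ofStrictMono (fun q => ⟨(F (E q).1).1, ?_, ?_⟩) ?_
      · have h9 : F 0 < F (E q).1 := F.lt_iff_lt.2 (E q).2.1
        have h10 : (F 0).1 ≤ (F (E q).1).1 := le_of_lt h9
        exact h4.trans (h1.trans h10)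
      · have h9 : F (E q).1 < F 1 := F.lt_iff_lt.2 (E q).2.2
        have h10 : (F (E q).1).1 ≤ (F 1).1 := le_of_lt h9
        exact h10.trans (h2.trans h6)
      · intro p q hpq
        have h9 : F (E p).1 < F (E q).1 := F.lt_iff_lt.2 (E.lt_iff_lt.2 hpq)
        exact h9

end Pool.Agent.Helper56.QV
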