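import Mathlib
import Pool.Agent.Helper56.QV.Dyadic
import Pool.Agent.Helper56.QV.DAct
import Pool.Agent.Helper56.QV.Loc

/-! A countable chain with iterated square roots: its automorphism group contains `Aut(C)` for
every countable chain `C`. -/

set_option autoImplicit false

namespace Pool.Agent.Helper56.QV

universe u v

namespace Roots

variable {Ω : Type u} [LinearOrder Ω] (R : Roots Ω)

/-- The range of the coordinate. -/
def E : Type := {e : ℝ // ∃ z ∈ R.J, R.τ z = e}

noncomputable instance : LinearOrder R.E := inferInstanceAs (LinearOrder {e : ℝ // ∃ z ∈ R.J, R.τ z = e})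

/-- The coordinate of a point of the bump. -/
noncomputable def co (z : R.J) : R.E := ⟨R.τ z.1, z.1, z.2, rfl⟩

theorem co_val (z : R.J) : (R.co z).1 = R.τ z.1 := rfl

/-- Colour of a coordinate. -/
def col (e : R.E) : ℝ ⧸ Dy := QuotientAddGroup.mk e.1

/-- Translation of a coordinate. -/
def sh (e : R.E) {r : ℝ} (hr : r ∈ Dy) : R.E :=
  ⟨e.1 + r, by
    obtain ⟨z, hz, h⟩ := e.2
    exact ⟨R.T r z, (R.T_mem hr z).2 hz, by rw [R.τ_T hr hz, h]⟩⟩

theorem col_sh (e : R.E) {r : ℝ} (hr : r ∈ Dy) : R.col (R.sh e hr) = R.col e := by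
  unfold col sh
  rw [eq_comm, QuotientAddGroup.eq]
  simpa using hr

theorem dense_E (u : R.E) : DenseCol R.col (R.col u) where
  mid x y hxy := by
    have h : x.1 - u.1 < y.1 - u.1 := by
      have : x.1 < y.1 := hxy
      linarith
    obtain ⟨r, hr, h1, h2⟩ := Dy_dense h
    refine ⟨R.sh u hr, ?_, ?_, R.col_sh u hr⟩
    · change x.1 < u.1 + r
      linarith
    · change u.1 + r < y.1
      linarith
  up x := by
    obtain ⟨r, hr, h1, h2⟩ := Dy_dense (show x.1 - u.1 < x.1 - u.1 + 1 by linarith)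
    refine ⟨R.sh u hr, ?_, R.col_sh u hr⟩
    change x.1 < u.1 + r
    linarith
  dn x := by
    obtain ⟨r, hr, h1, h2⟩ := Dy_dense (show x.1 - u.1 - 1 < x.1 - u.1 by linarith)
    refine ⟨R.sh u hr, ?_, R.col_sh u hr⟩
    change u.1 + r < x.1
    linarith

theorem diff_mem {e f : R.E} (h : R.col e = R.col f) : e.1 - f.1 ∈ Dy := by
  have h1 := QuotientAddGroup.eq.1 h.symm
  rwa [neg_add_eq_sub] at h1

/-- The dense action. -/
noncomputable def toDAct : DAct Ω R.E (ℝ ⧸ Dy) where
  J := R.J
  conv := bump_ordConnected _ _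
  co := R.co
  mono z w h := R.τ_mono z.2 w.2 h
  surj := by
    rintro ⟨e, z, hz, rfl⟩
    exact ⟨⟨z, hz⟩, rfl⟩
  pt := ⟨R.x₀, R.x₀_mem⟩
  col := R.col
  dense := R.dense_E
  tr e f h := by
    have hr : f.1 - e.1 ∈ Dy := R.diff_mem h.symm
    refine ⟨R.T (f.1 - e.1), R.T_mem hr, fun z w hw => ?_⟩
    have h1 : (R.co w).1 = (R.co z).1 + (f.1 - e.1) := by
      rw [co_val, co_val, hw, R.τ_T hr z.2]
    constructor
    · intro h2
      apply Subtype.ext
      rw [h1, h2]
      ring
    · intro h2
      apply Subtype.ext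
      rw [h2] at h1
      linarith

end Roots

/-- If `Ω` is locally countable or scattered and `Aut(Ω)` has iterated square roots, then `Aut(C)` embeds into `Aut(Ω)`
for every countable chain `C`. -/
theorem exists_emb_of_dyadic {Ω : Type u} [LinearOrder Ω] (hs : LocCS Ω) (h : HasDyadic Ω)
    (C : Type v) [LinearOrder C] [Countable C] [Nonempty C] :
    ∃ F : LHom (C ≃o C) (Ω ≃o Ω), Function.Injective F := by
  obtain ⟨R⟩ := exists_roots h
  have := R.toDAct.countable_or (bump_cs hs _ _)
  exact R.toDAct.exists_emb C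

/-- If `Ω` is locally countable or scattered and `Aut(Ω)` has iterated square roots, then a quasi-identity true in
`Aut(Ω)` is true in every lattice-ordered group. -/
theorem holds_everywhere {Ω : Type u} [LinearOrder Ω] (hs : LocCS Ω) (h : HasDyadic Ω) {φ : QId}
    (hφ : φ.Holds (Ω ≃o Ω)) (H : Type v) [LGroup H] : φ.Holds H := by
  apply holds_of_countable_chains
  intro C _ _ _
  obtain ⟨F, hF⟩ := exists_emb_of_dyadic hs h C
  exact F.holds hF hφ

end Pool.Agent.Helper56.QV
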