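import Mathlib
import Pool.Agent.Helper56.QV.Loc
import Pool.Agent.Helper56.QV.Dyadic2
import Pool.Agent.Helper56.QV.LHom

/-! `Aut(ℚ)` acts on chains that are fibred over the real line. -/

set_option autoImplicit false

namespace Pool.Agent.Helper56.QV

universe u v

/-- `y` is the image of the real number `x` under the extension of `g`. -/
def ExtR (g : ℚ ≃o ℚ) (x y : ℝ) : Prop := ∀ q : ℚ, (q : ℝ) < x ↔ ((g q : ℚ) : ℝ) < y

theorem ExtR.exists (g : ℚ ≃o ℚ) (x : ℝ) : ∃ y, ExtR g x y := by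
  obtain ⟨a, ha⟩ := exists_rat_lt x
  obtain ⟨b, hb⟩ := exists_rat_gt x
  set A : Set ℝ := {y | ∃ q : ℚ, (q : ℝ) < x ∧ y = ((g q : ℚ) : ℝ)} with hA
  have hne : A.Nonempty := ⟨_, a, ha, rfl⟩
  have hbd : BddAbove A := by
    refine ⟨((g b : ℚ) : ℝ), ?_⟩
    rintro y ⟨q, hq, rfl⟩
    have h1 : (q : ℝ) < b := hq.trans hb
    have h2 : q < b := by exact_mod_cast h1
    have h3 : g q < g b := g.lt_iff_lt.2 h2
    exact_mod_cast h3.le
  refine ⟨sSup A, fun q => ⟨fun h => ?_, fun h => ?_⟩⟩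
  · obtain ⟨r, hqr, hrx⟩ := exists_rat_btwn h
    have h1 : q < r := by exact_mod_cast hqr
    have h2 : g q < g r := g.lt_iff_lt.2 h1
    have h3 : ((g q : ℚ) : ℝ) < ((g r : ℚ) : ℝ) := by exact_mod_cast h2
    exact h3.trans_le (le_csSup hbd ⟨r, hrx, rfl⟩)
  · obtain ⟨y, ⟨r, hr, rfl⟩, hy⟩ := exists_lt_of_lt_csSup hne h
    have h1 : g q < g r := by exact_mod_cast hy
    have h2 : q < r := g.lt_iff_lt.1 h1
    have h3 : (q : ℝ) < r := by exact_mod_cast h2
    exact h3.trans hr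

theorem ExtR.uniq {g : ℚ ≃o ℚ} {x y z : ℝ} (h : ExtR g x y) (h' : ExtR g x z) : y = z := by
  have key : ∀ {y z : ℝ}, ExtR g x y → ExtR g x z → y ≤ z := by
    intro y z h h'
    by_contra hc
    push Not at hc
    obtain ⟨r, h1, h2⟩ := exists_rat_btwn hc
    have h3 := (h (g.symm r)).2 (by rw [g.apply_symm_apply]; exact h2)
    have h4 := (h' (g.symm r)).1 h3
    rw [g.apply_symm_apply] at h4
    exact absurd h4 (not_lt.2 h1.le)
  exact le_antisymm (key h h') (key h' h)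

theorem ExtR.one (x : ℝ) : ExtR 1 x x := fun _ => Iff.rfl

theorem ExtR.mul {g h : ℚ ≃o ℚ} {x y z : ℝ} (hh : ExtR h x y) (hg : ExtR g y z) :
    ExtR (g * h) x z := fun q => (hh q).trans (hg (h q))

theorem ExtR.inv {g : ℚ ≃o ℚ} {x y : ℝ} (h : ExtR g x y) : ExtR g⁻¹ y x := by
  intro q
  have h1 := h (g⁻¹ q)
  rw [app_inv_self] at h1
  exact h1.symm

theorem ExtR.rat (g : ℚ ≃o ℚ) (q : ℚ) : ExtR g q (g q) := by
  intro r
  rw [Rat.cast_lt, Rat.cast_lt, g.lt_iff_lt]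

theorem ExtR.lt {g : ℚ ≃o ℚ} {x x' y y' : ℝ} (h : ExtR g x y) (h' : ExtR g x' y')
    (hx : x < x') : y < y' := by
  obtain ⟨r, h1, h2⟩ := exists_rat_btwn hx
  have h3 := (h' r).1 h2
  have h4 : y ≤ ((g r : ℚ) : ℝ) := not_lt.1 fun h5 => absurd ((h r).2 h5) (not_lt.2 h1.le)
  exact h4.trans_lt h3

theorem ExtR.sup {g h : ℚ ≃o ℚ} {x y z : ℝ} (hg : ExtR g x y) (hh : ExtR h x z) :
    ExtR (g ⊔ h) x (max y z) := by
  intro q
  have h1 : (((g ⊔ h) q : ℚ) : ℝ) = max ((g q : ℚ) : ℝ) ((h q : ℚ) : ℝ) := by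
    change ((max (g q) (h q) : ℚ) : ℝ) = _
    exact Rat.cast_max _ _
  rw [h1]
  constructor
  · intro h0
    exact max_lt_max ((hg q).1 h0) ((hh q).1 h0)
  · intro h0
    by_contra hc
    have h2 : y ≤ ((g q : ℚ) : ℝ) := not_lt.1 fun h5 => hc ((hg q).2 h5)
    have h3 : z ≤ ((h q : ℚ) : ℝ) := not_lt.1 fun h5 => hc ((hh q).2 h5)
    exact absurd h0 (not_lt.2 (max_le_max h2 h3))

/-- The extension to the real line. -/
noncomputable def extR (g : ℚ ≃o ℚ) (x : ℝ) : ℝ := (ExtR.exists g x).choose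

theorem extR_spec (g : ℚ ≃o ℚ) (x : ℝ) : ExtR g x (extR g x) := (ExtR.exists g x).choose_spec

theorem extR_eq {g : ℚ ≃o ℚ} {x y : ℝ} (h : ExtR g x y) : extR g x = y :=
  (extR_spec g x).uniq h

theorem extR_irr {g : ℚ ≃o ℚ} {x : ℝ} (h : Irrational x) : Irrational (extR g x) := by
  rintro ⟨q, hq⟩
  apply h
  refine ⟨g⁻¹ q, ?_⟩
  have h1 := (extR_spec g x).inv
  rw [← hq] at h1
  exact (ExtR.rat g⁻¹ q).uniq h1

open Classical in
/-- The base point of the class of a real number. -/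
noncomputable def bpt (x : ℝ) : ℝ := if Irrational x then Real.sqrt 2 else 0

theorem bpt_ext (g : ℚ ≃o ℚ) (x : ℝ) : bpt (extR g x) = bpt x := by
  by_cases h : Irrational x
  · rw [bpt, bpt, if_pos h, if_pos (extR_irr h)]
  · have h1 : ¬ Irrational (extR g x) := by
      rw [Irrational, not_not] at h
      obtain ⟨q, rfl⟩ := h
      rw [extR_eq (ExtR.rat g q)]
      exact (g q).not_irrational
    rw [bpt, bpt, if_neg h, if_neg h1]

/-- A chain with a part that is fibred over the real line, with two types of fibres. -/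
structure Fib (Ω : Type u) [LinearOrder Ω] where
  J : Set Ω
  conv : J.OrdConnected
  ne : J.Nonempty
  p : Ω → ℝ
  mono : MonotoneOn p J
  hq : ∀ x y : ℚ, Nonempty ({z // z ∈ J ∧ p z = x} ≃o {z // z ∈ J ∧ p z = y})
  hi : ∀ x y : ℝ, Irrational x → Irrational y →
    Nonempty ({z // z ∈ J ∧ p z = x} ≃o {z // z ∈ J ∧ p z = y})

namespace Fib

variable {Ω : Type u} [LinearOrder Ω] (X : Fib Ω)

theorem exists_uv (x : ℝ) : ∃ u v : Ω → Ω,
    (∀ z, z ∈ X.J → X.p z = x → u z ∈ X.J ∧ X.p (u z) = bpt x ∧ v (u z) = z) ∧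
    (∀ w, w ∈ X.J → X.p w = bpt x → v w ∈ X.J ∧ X.p (v w) = x ∧ u (v w) = w) ∧
    (∀ z w, z ∈ X.J → X.p z = x → w ∈ X.J → X.p w = x → z < w → u z < u w) ∧
    (∀ z w, z ∈ X.J → X.p z = bpt x → w ∈ X.J → X.p w = bpt x → z < w → v z < v w) := by
  classical
  have h1 : Nonempty ({z // z ∈ X.J ∧ X.p z = x} ≃o {z // z ∈ X.J ∧ X.p z = bpt x}) := by
    by_cases h : Irrational x
    · rw [bpt, if_pos h]
      exact X.hi _ _ h irrational_sqrt_two
    · rw [bpt, if_neg h]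
      rw [Irrational, not_not] at h
      obtain ⟨q, rfl⟩ := h
      have h2 := X.hq q 0
      rw [Rat.cast_zero] at h2
      exact h2
  obtain ⟨e⟩ := h1
  refine ⟨fun z => if h : z ∈ X.J ∧ X.p z = x then (e ⟨z, h⟩).1 else z,
    fun z => if h : z ∈ X.J ∧ X.p z = bpt x then (e.symm ⟨z, h⟩).1 else z, ?_, ?_, ?_, ?_⟩
  · intro z h1 h2
    have h3 : z ∈ X.J ∧ X.p z = x := ⟨h1, h2⟩
    simp only [dif_pos h3]
    refine ⟨(e ⟨z, h3⟩).2.1, (e ⟨z, h3⟩).2.2, ?_⟩
    rw [dif_pos (e ⟨z, h3⟩).2]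
    have h4 : e.symm (⟨(e ⟨z, h3⟩).1, (e ⟨z, h3⟩).2⟩) = ⟨z, h3⟩ := e.symm_apply_apply _
    rw [h4]
  · intro z h1 h2
    have h3 : z ∈ X.J ∧ X.p z = bpt x := ⟨h1, h2⟩
    simp only [dif_pos h3]
    refine ⟨(e.symm ⟨z, h3⟩).2.1, (e.symm ⟨z, h3⟩).2.2, ?_⟩
    rw [dif_pos (e.symm ⟨z, h3⟩).2]
    have h4 : e (⟨(e.symm ⟨z, h3⟩).1, (e.symm ⟨z, h3⟩).2⟩) = ⟨z, h3⟩ := e.apply_symm_apply _
    rw [h4]
  · intro z w h1 h2 h3 h4 h
    simp only [dif_pos (show z ∈ X.J ∧ X.p z = x from ⟨h1, h2⟩),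
      dif_pos (show w ∈ X.J ∧ X.p w = x from ⟨h3, h4⟩)]
    exact e.lt_iff_lt.2 h
  · intro z w h1 h2 h3 h4 h
    simp only [dif_pos (show z ∈ X.J ∧ X.p z = bpt x from ⟨h1, h2⟩),
      dif_pos (show w ∈ X.J ∧ X.p w = bpt x from ⟨h3, h4⟩)]
    exact e.symm.lt_iff_lt.2 h

/-- Coordinates in the fibres. -/
noncomputable def U (x : ℝ) : Ω → Ω := (X.exists_uv x).choose

/-- Inverse coordinates. -/
noncomputable def V (x : ℝ) : Ω → Ω := (X.exists_uv x).choose_spec.choose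

variable {X}

theorem hU {x : ℝ} {z : Ω} (h : z ∈ X.J) (hx : X.p z = x) :
    X.U x z ∈ X.J ∧ X.p (X.U x z) = bpt x ∧ X.V x (X.U x z) = z :=
  (X.exists_uv x).choose_spec.choose_spec.1 z h hx

theorem hV {x : ℝ} {z : Ω} (h : z ∈ X.J) (hx : X.p z = bpt x) :
    X.V x z ∈ X.J ∧ X.p (X.V x z) = x ∧ X.U x (X.V x z) = z :=
  (X.exists_uv x).choose_spec.choose_spec.2.1 z h hx

theorem hUlt {x : ℝ} {z w : Ω} (h : z ∈ X.J) (hx : X.p z = x) (hw : w ∈ X.J) (hwx : X.p w = x)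
    (hzw : z < w) : X.U x z < X.U x w :=
  (X.exists_uv x).choose_spec.choose_spec.2.2.1 z w h hx hw hwx hzw

theorem hVlt {x : ℝ} {z w : Ω} (h : z ∈ X.J) (hx : X.p z = bpt x) (hw : w ∈ X.J)
    (hwx : X.p w = bpt x) (hzw : z < w) : X.V x z < X.V x w :=
  (X.exists_uv x).choose_spec.choose_spec.2.2.2 z w h hx hw hwx hzw

variable (X) in
open Classical in
/-- The action. -/
noncomputable def act (g : ℚ ≃o ℚ) (z : Ω) : Ω :=
  if z ∈ X.J then X.V (extR g (X.p z)) (X.U (X.p z) z) else z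

theorem act_in (g : ℚ ≃o ℚ) {z : Ω} (h : z ∈ X.J) :
    X.act g z ∈ X.J ∧ X.p (X.act g z) = extR g (X.p z) ∧
      X.U (extR g (X.p z)) (X.act g z) = X.U (X.p z) z := by
  have h1 := hU h rfl
  rw [act, if_pos h]
  exact hV h1.1 (h1.2.1.trans (bpt_ext g _).symm)

theorem act_out (g : ℚ ≃o ℚ) {z : Ω} (h : z ∉ X.J) : X.act g z = z := by
  rw [act, if_neg h]

theorem eq_of_U {x : ℝ} {z w : Ω} (h : z ∈ X.J) (hx : X.p z = x) (hw : w ∈ X.J)
    (hwx : X.p w = x) (hU' : X.U x z = X.U x w) : z = w := by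
  rw [← (hU h hx).2.2, hU', (hU hw hwx).2.2]

theorem act_mul (g h : ℚ ≃o ℚ) (z : Ω) : X.act (g * h) z = X.act g (X.act h z) := by
  by_cases hz : z ∈ X.J
  · obtain ⟨h1, h2, h3⟩ := act_in (g * h) hz
    obtain ⟨h4, h5, h6⟩ := act_in h hz
    obtain ⟨h7, h8, h9⟩ := act_in g h4
    have h10 : extR (g * h) (X.p z) = extR g (X.p (X.act h z)) := by
      rw [h5]
      exact extR_eq ((extR_spec h _).mul (extR_spec g _))
    apply eq_of_U h1 h2 h7
    · rw [h10]
      exact h8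
    · rw [h3, h10, h9, h5, h6]
  · rw [act_out _ hz, act_out _ hz, act_out _ hz]

theorem act_one (z : Ω) : X.act 1 z = z := by
  by_cases hz : z ∈ X.J
  · obtain ⟨h1, h2, h3⟩ := act_in 1 hz
    have h4 : extR 1 (X.p z) = X.p z := extR_eq (ExtR.one _)
    rw [h4] at h2 h3
    exact eq_of_U h1 h2 hz rfl h3
  · exact act_out _ hz

theorem lt_of_p {z w : Ω} (h : z ∈ X.J) (hw : w ∈ X.J) (hp : X.p z < X.p w) : z < w := by
  by_contra hc
  exact absurd (X.mono hw h (not_lt.1 hc)) (not_le.2 hp)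

theorem act_strictMono (g : ℚ ≃o ℚ) : StrictMono (X.act g) := by
  intro z w hzw
  by_cases hz : z ∈ X.J
  · obtain ⟨h1, h2, h3⟩ := act_in g hz
    by_cases hw : w ∈ X.J
    · obtain ⟨h4, h5, h6⟩ := act_in g hw
      rcases (X.mono hz hw hzw.le).lt_or_eq with h7 | h7
      · apply lt_of_p h1 h4
        rw [h2, h5]
        exact (extR_spec g _).lt (extR_spec g _) h7
      · have h8 := hUlt hz h7 hw rfl hzw
        have h9 := hU hw rfl
        have h10 := hU hz h7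
        rw [act, if_pos hz, act, if_pos hw, h7]
        exact hVlt h10.1 (h10.2.1.trans (bpt_ext g _).symm) h9.1
          (h9.2.1.trans (bpt_ext g _).symm) h8
    · rw [act_out g hw]
      by_contra hc
      exact hw (X.conv.out hz h1 ⟨hzw.le, not_lt.1 hc⟩)
  · rw [act_out g hz]
    by_cases hw : w ∈ X.J
    · obtain ⟨h4, _, _⟩ := act_in g hw
      by_contra hc
      exact hz (X.conv.out h4 hw ⟨not_lt.1 hc, hzw.le⟩)
    · rw [act_out g hw]
      exact hzw

variable (X) in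
/-- The automorphism of `Ω`. -/
noncomputable def em (g : ℚ ≃o ℚ) : Ω ≃o Ω where
  toFun := X.act g
  invFun := X.act g⁻¹
  left_inv z := by rw [← act_mul, inv_mul_cancel, act_one]
  right_inv z := by rw [← act_mul, mul_inv_cancel, act_one]
  map_rel_iff' := (act_strictMono g).le_iff_le

theorem act_sup (g h : ℚ ≃o ℚ) (z : Ω) : X.act (g ⊔ h) z = max (X.act g z) (X.act h z) := by
  by_cases hz : z ∈ X.J
  · have h0 : extR (g ⊔ h) (X.p z) = max (extR g (X.p z)) (extR h (X.p z)) :=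
      extR_eq ((extR_spec g _).sup (extR_spec h _))
    obtain ⟨h1, h2, _⟩ := act_in g hz
    obtain ⟨h4, h5, _⟩ := act_in h hz
    rcases lt_trichotomy (extR g (X.p z)) (extR h (X.p z)) with h7 | h7 | h7
    · have h8 : X.act g z < X.act h z := lt_of_p h1 h4 (by rw [h2, h5]; exact h7)
      rw [max_eq_right h8.le]
      rw [act, if_pos hz, act, if_pos hz, h0, max_eq_right h7.le]
    · rw [act, if_pos hz, act, if_pos hz, act, if_pos hz, h0, h7, max_self, max_self]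
    · have h8 : X.act h z < X.act g z := lt_of_p h4 h1 (by rw [h2, h5]; exact h7)
      rw [max_eq_left h8.le]
      rw [act, if_pos hz, act, if_pos hz, h0, max_eq_left h7.le]
  · rw [act_out _ hz, act_out _ hz, act_out _ hz, max_self]

variable (X) in
/-- The embedding of `Aut(ℚ)`. -/
noncomputable def emb : LHom (ℚ ≃o ℚ) (Ω ≃o Ω) where
  toFun := X.em
  mul' g h := by
    apply OrderIso.ext
    funext z
    exact act_mul g h z
  sup' g h := by
    apply OrderIso.ext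
    funext z
    exact act_sup g h z

theorem eq_of_ext {g h : ℚ ≃o ℚ} (H : ∀ x : ℝ, Irrational x → extR g x = extR h x) : g = h := by
  have key : ∀ {g h : ℚ ≃o ℚ}, (∀ x : ℝ, Irrational x → extR g x = extR h x) → ∀ q,
      h q ≤ g q := by
    intro g h H q
    by_contra hc
    push Not at hc
    obtain ⟨r, h1, h2⟩ := exists_between hc
    have h3 : q < g.symm r := by
      rw [← g.lt_iff_lt, g.apply_symm_apply]
      exact h1
    have h3' : (q : ℝ) < ((g.symm r : ℚ) : ℝ) := by exact_mod_cast h3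
    obtain ⟨x, hx, h4, h5⟩ := exists_irrational_btwn h3'
    have h6 := (extR_spec g x).lt (ExtR.rat g (g.symm r)) h5
    have h7 := (ExtR.rat h q).lt (extR_spec h x) h4
    rw [g.apply_symm_apply] at h6
    rw [H x hx] at h6
    have h8 : ((h q : ℚ) : ℝ) < r := h7.trans h6
    have h9 : h q < r := by exact_mod_cast h8
    exact absurd h9 (not_lt.2 h2.le)
  apply OrderIso.ext
  funext q
  exact le_antisymm (key (fun x hx => (H x hx).symm) q) (key H q)

theorem emb_injective : Function.Injective X.emb := by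
  intro g h hgh
  have hact : ∀ z, X.act g z = X.act h z := fun z =>
    congrArg (fun F : Ω ≃o Ω => F z) hgh
  have hp : ∀ z ∈ X.J, extR g (X.p z) = extR h (X.p z) := by
    intro z hz
    rw [← (act_in g hz).2.1, ← (act_in h hz).2.1, hact]
  obtain ⟨z₀, hz₀⟩ := X.ne
  by_cases hx : Irrational (X.p z₀)
  · apply eq_of_ext
    intro x hx'
    obtain ⟨e⟩ := X.hi _ _ hx hx'
    have h1 := hp _ (e ⟨z₀, hz₀, rfl⟩).2.1
    rw [(e ⟨z₀, hz₀, rfl⟩).2.2] at h1
    exact h1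
  · rw [Irrational, not_not] at hx
    obtain ⟨q₀, hq₀⟩ := hx
    apply OrderIso.ext
    funext q
    obtain ⟨e⟩ := X.hq q₀ q
    have h1 := hp _ (e ⟨z₀, hz₀, hq₀.symm⟩).2.1
    rw [(e ⟨z₀, hz₀, hq₀.symm⟩).2.2, extR_eq (ExtR.rat g q), extR_eq (ExtR.rat h q)] at h1
    exact_mod_cast h1

end Fib

theorem hasDyadic_rat : HasDyadic ℚ := by
  refine ⟨fun n => OrderIso.addRight ((1 : ℚ) / 2 ^ n), ?_, fun n => ?_⟩
  · intro h
    have h1 := congrArg (fun F : ℚ ≃o ℚ => F 0) h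
    simp at h1
  · apply OrderIso.ext
    funext x
    change x + 1 / 2 ^ (n + 1) + 1 / 2 ^ (n + 1) = x + 1 / 2 ^ n
    rw [pow_succ]
    field_simp
    ring

/-- Quasi-identities of the automorphism groups of fibred chains hold everywhere. -/
theorem Fib.holds {Ω : Type u} [LinearOrder Ω] (X : Fib Ω) {φ : QId} (hφ : φ.Holds (Ω ≃o Ω))
    (G : Type v) [LGroup G] : φ.Holds G :=
  holds_everywhere (locCS_of (Or.inl inferInstance)) hasDyadic_rat
    (X.emb.holds Fib.emb_injective hφ) G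

end Pool.Agent.Helper56.QV
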