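import Mathlib
import Pool.Agent.Helper56.QV.Sound

/-! Square roots by pasting; overlapping bumps give iterated square roots. -/

set_option autoImplicit false

namespace Pool.Agent.Helper56.QV

universe u

variable {Ω : Type u} [LinearOrder Ω]

section PW

variable (p : ℤ → Ω)

/-- The convex hull of the sequence `p`. -/
def hull : Set Ω := {z | ∃ i j : ℤ, p i ≤ z ∧ z ≤ p j}

variable {p}

theorem exists_lev (hp : StrictMono p) {z : Ω} (hz : z ∈ hull p) :
    ∃ j : ℤ, p j ≤ z ∧ z < p (j + 1) := by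
  obtain ⟨i, j, h1, h2⟩ := hz
  obtain ⟨k, hk1, hk2⟩ := Int.exists_greatest_of_bdd (P := fun k => p k ≤ z)
    ⟨j, fun k hk => hp.le_iff_le.1 (hk.trans h2)⟩ ⟨i, h1⟩
  refine ⟨k, hk1, ?_⟩
  by_contra hc
  push Not at hc
  have := hk2 (k + 1) hc
  omega

theorem lev_unique' (hp : StrictMono p) {z : Ω} {i j : ℤ} (h1 : p i ≤ z) (h2 : z < p (i + 1))
    (h3 : p j ≤ z) (h4 : z < p (j + 1)) : i = j := by
  have h5 : i < j + 1 := hp.lt_iff_lt.1 (h1.trans_lt h4)
  have h6 : j < i + 1 := hp.lt_iff_lt.1 (h3.trans_lt h2)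
  omega

theorem hull_conv {a c z : Ω} (ha : a ∈ hull p) (hc : c ∈ hull p) (h1 : a ≤ z) (h2 : z ≤ c) :
    z ∈ hull p := by
  obtain ⟨i, _, h3, _⟩ := ha
  obtain ⟨_, j, _, h4⟩ := hc
  exact ⟨i, j, h3.trans h1, h2.trans h4⟩

open Classical in
/-- The map that is `ψ j` on `[p j, p (j + 1))` and the identity outside the hull. -/
noncomputable def pwF (p : ℤ → Ω) (ψ : ℤ → (Ω ≃o Ω)) (z : Ω) : Ω :=
  if h : ∃ j : ℤ, p j ≤ z ∧ z < p (j + 1) then ψ h.choose z else z

theorem pwF_eq (hp : StrictMono p) (ψ : ℤ → (Ω ≃o Ω)) {z : Ω} {j : ℤ} (h1 : p j ≤ z)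
    (h2 : z < p (j + 1)) : pwF p ψ z = ψ j z := by
  have h : ∃ j : ℤ, p j ≤ z ∧ z < p (j + 1) := ⟨j, h1, h2⟩
  rw [pwF, dif_pos h, lev_unique' hp h.choose_spec.1 h.choose_spec.2 h1 h2]

theorem pwF_not (ψ : ℤ → (Ω ≃o Ω)) {z : Ω} (hz : z ∉ hull p) :
    pwF p ψ z = z := by
  rw [pwF, dif_neg]
  rintro ⟨j, h1, h2⟩
  exact hz ⟨j, j + 1, h1, h2.le⟩

/-- Pasting along a sequence that is shifted by the pieces. -/
theorem exists_pw (hp : StrictMono p) (ψ : ℤ → (Ω ≃o Ω)) (h1 : ∀ j, ψ j (p j) = p (j + 1))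
    (h2 : ∀ j, ψ j (p (j + 1)) = p (j + 2)) :
    ∃ s : Ω ≃o Ω, (∀ j z, p j ≤ z → z < p (j + 1) → s z = ψ j z) ∧ ∀ z, z ∉ hull p → s z = z := by
  have hF : ∀ j z, p j ≤ z → z < p (j + 1) → p (j + 1) ≤ pwF p ψ z ∧ pwF p ψ z < p (j + 2) := by
    intro j z h3 h4
    rw [pwF_eq hp ψ h3 h4, ← h1, ← h2]
    exact ⟨(ψ j).le_iff_le.2 h3, (ψ j).lt_iff_lt.2 h4⟩
  have hFm : ∀ z, z ∈ hull p → pwF p ψ z ∈ hull p := by
    intro z hz
    obtain ⟨j, h3, h4⟩ := exists_lev hp hz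
    obtain ⟨h5, h6⟩ := hF j z h3 h4
    exact ⟨j + 1, j + 2, h5, h6.le⟩
  have hmono : StrictMono (pwF p ψ) := by
    intro z w hzw
    by_cases hz : z ∈ hull p
    · by_cases hw : w ∈ hull p
      · obtain ⟨i, h3, h4⟩ := exists_lev hp hz
        obtain ⟨j, h5, h6⟩ := exists_lev hp hw
        have h7 : i < j + 1 := hp.lt_iff_lt.1 (h3.trans_lt (hzw.trans h6))
        rcases (show i ≤ j by omega).eq_or_lt with h8 | h8
        · subst h8
          rw [pwF_eq hp ψ h3 h4, pwF_eq hp ψ h5 h6]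
          exact (ψ i).lt_iff_lt.2 hzw
        · have h9 : p (i + 2) ≤ p (j + 1) := hp.monotone (by omega)
          exact (hF i z h3 h4).2.trans_le (h9.trans (hF j w h5 h6).1)
      · rw [pwF_not ψ hw]
        by_contra hc
        push Not at hc
        exact hw (hull_conv hz (hFm z hz) hzw.le hc)
    · rw [pwF_not ψ hz]
      by_cases hw : w ∈ hull p
      · by_contra hc
        push Not at hc
        exact hz (hull_conv (hFm w hw) hw hc hzw.le)
      · rw [pwF_not ψ hw]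
        exact hzw
  have hsurj : Function.Surjective (pwF p ψ) := by
    intro w
    by_cases hw : w ∈ hull p
    · obtain ⟨j, h3, h4⟩ := exists_lev hp hw
      have h5 : p (j - 1) ≤ (ψ (j - 1))⁻¹ w := by
        rw [← (ψ (j - 1)).le_iff_le, app_inv_self, h1]
        simpa using h3
      have h6 : (ψ (j - 1))⁻¹ w < p (j - 1 + 1) := by
        rw [← (ψ (j - 1)).lt_iff_lt, app_inv_self, h2]
        convert h4 using 2
        ring
      refine ⟨(ψ (j - 1))⁻¹ w, ?_⟩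
      rw [pwF_eq hp ψ h5 h6, app_inv_self]
    · exact ⟨w, pwF_not ψ hw⟩
  refine ⟨hmono.orderIsoOfSurjective _ hsurj, ?_, ?_⟩
  · intro j z h3 h4
    exact pwF_eq hp ψ h3 h4
  · intro z hz
    exact pwF_not ψ hz

end PW

/-- If `φ (φ x) = t x` and `t` is supported on its bump at `x`, then `t` has a square root that
moves `x` to `φ x`. -/
theorem half {t φ : Ω ≃o Ω} {x : Ω} (hx : x < φ x) (hφ : φ (φ x) = t x)
    (ht : ∀ z, z ∉ bump t x → t z = z) :
    ∃ s : Ω ≃o Ω, s * s = t ∧ s x = φ x ∧ ∀ z, z ∉ bump s x → s z = z := by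
  have hxt : φ x < t x := by
    rw [← hφ]
    exact φ.lt_iff_lt.2 hx
  have hmono := zp_strictMono (hx.trans hxt)
  let p : ℤ → Ω := fun j => (t ^ (j / 2)) (if j % 2 = 0 then x else φ x)
  let ψ : ℤ → (Ω ≃o Ω) := fun j =>
    t ^ (j / 2) * (if j % 2 = 0 then φ else t * φ⁻¹) * t ^ (-(j / 2))
  have pe : ∀ k : ℤ, p (2 * k) = (t ^ k) x := by
    intro k
    have h1 : 2 * k / 2 = k := by omega
    have h2 : 2 * k % 2 = 0 := by omega
    simp only [p, h1, h2, if_true]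
  have po : ∀ k : ℤ, p (2 * k + 1) = (t ^ k) (φ x) := by
    intro k
    have h1 : (2 * k + 1) / 2 = k := by omega
    have h2 : (2 * k + 1) % 2 = 1 := by omega
    simp only [p, h1, h2]
    norm_num
  have ψe : ∀ k : ℤ, ∀ z, ψ (2 * k) z = (t ^ k) (φ ((t ^ (-k)) z)) := by
    intro k z
    have h1 : 2 * k / 2 = k := by omega
    have h2 : 2 * k % 2 = 0 := by omega
    simp only [ψ, h1, h2, if_true, mul_app]
  have ψo : ∀ k : ℤ, ∀ z, ψ (2 * k + 1) z = (t ^ k) (t (φ⁻¹ ((t ^ (-k)) z))) := by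
    intro k z
    have h1 : (2 * k + 1) / 2 = k := by omega
    have h2 : (2 * k + 1) % 2 = 1 := by omega
    simp only [ψ, h1, h2]
    norm_num [mul_app]
  have htk : ∀ (k : ℤ) (z : Ω), (t ^ k) (t z) = (t ^ (k + 1)) z := by
    intro k z
    rw [zp_add, zpow_one]
  have hp : StrictMono p := by
    refine strictMono_int_of_lt_succ fun n => ?_
    obtain ⟨k, rfl | rfl⟩ := Int.even_or_odd' n
    · rw [pe, po]
      exact (t ^ k).lt_iff_lt.2 hx
    · have h1 : 2 * k + 1 + 1 = 2 * (k + 1) := by ring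
      rw [h1, po, pe, ← htk]
      exact (t ^ k).lt_iff_lt.2 hxt
  have h1 : ∀ j, ψ j (p j) = p (j + 1) := by
    intro j
    obtain ⟨k, rfl | rfl⟩ := Int.even_or_odd' j
    · rw [pe, po, ψe, zp_neg_zp]
    · have h3 : 2 * k + 1 + 1 = 2 * (k + 1) := by ring
      rw [h3, po, pe, ψo, zp_neg_zp, inv_app_self, htk]
  have h2 : ∀ j, ψ j (p (j + 1)) = p (j + 2) := by
    intro j
    obtain ⟨k, rfl | rfl⟩ := Int.even_or_odd' j
    · have h3 : 2 * k + 2 = 2 * (k + 1) := by ring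
      rw [h3, po, pe, ψe, zp_neg_zp, hφ, htk]
    · have h3 : 2 * k + 1 + 1 = 2 * (k + 1) := by ring
      have h4 : 2 * k + 1 + 2 = 2 * (k + 1) + 1 := by ring
      rw [h3, h4, po, pe, ψo, ← htk, zp_neg_zp, ← hφ, inv_app_self, htk]
  have hh : hull p = bump t x := by
    ext z
    constructor
    · rintro ⟨i, j, h3, h4⟩
      refine ⟨i / 2, j / 2 + 1, ?_, ?_⟩
      · refine le_trans ?_ h3
        rw [← pe]
        exact hp.monotone (by omega)
      · refine h4.trans ?_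
        rw [← pe]
        exact hp.monotone (by omega)
    · rintro ⟨m, n, h3, h4⟩
      exact ⟨2 * m, 2 * n, by rw [pe]; exact h3, by rw [pe]; exact h4⟩
  obtain ⟨s, hs1, hs2⟩ := exists_pw hp ψ h1 h2
  have hsx : s x = φ x := by
    have h3 : p 0 = x := by
      have := pe 0
      simpa using this
    have h4 : s x = ψ 0 x := hs1 0 x (by rw [h3]) (by rw [← h3]; exact hp (by norm_num))
    have h5 := ψe 0 x
    simp only [mul_zero, zpow_zero, neg_zero] at h5
    rw [h4, h5]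
    rfl
  have hss : s * s = t := by
    apply OrderIso.ext
    funext z
    rw [mul_app]
    by_cases hz : z ∈ hull p
    · obtain ⟨j, h3, h4⟩ := exists_lev hp hz
      have h5 : s z = ψ j z := hs1 j z h3 h4
      have h6 : p (j + 1) ≤ ψ j z := by rw [← h1]; exact (ψ j).le_iff_le.2 h3
      have h7 : ψ j z < p (j + 1 + 1) := by
        rw [add_assoc]
        norm_num
        rw [← h2]
        exact (ψ j).lt_iff_lt.2 h4
      rw [h5, hs1 (j + 1) _ h6 h7]
      obtain ⟨k, rfl | rfl⟩ := Int.even_or_odd' j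
      · rw [ψe, ψo, zp_neg_zp, inv_app_self, htk, ← zp_add]
        have h9 : k + 1 + -k = 1 := by ring
        rw [h9, zpow_one]
      · have h8 : 2 * k + 1 + 1 = 2 * (k + 1) := by ring
        rw [h8, ψo, ψe, htk, zp_neg_zp, app_inv_self]
        rw [← zp_add]
        have h9 : k + 1 + -k = 1 := by ring
        rw [h9, zpow_one]
    · rw [hs2 z hz, hs2 z hz, ht]
      rwa [← hh]
  refine ⟨s, hss, hsx, ?_⟩
  intro z hz
  apply hs2
  intro hz'
  apply hz
  rw [hh] at hz'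
  obtain ⟨m, n, h3, h4⟩ := hz'
  have h5 : ∀ m : ℤ, s ^ (2 * m) = t ^ m := by
    intro m
    rw [zpow_mul, zpow_two, hss]
  refine ⟨2 * m, 2 * n, ?_, ?_⟩
  · rw [h5]; exact h3
  · rw [h5]; exact h4

/-- A self-similar triple gives iterated square roots. -/
theorem dyadic_of_triple {α β : Ω ≃o Ω} {x m y : Ω} (h1 : x < m) (h2 : m < y) (hαx : α x = x)
    (hαy : α y = m) (hβx : β x = m) (hβy : β y = y) : HasDyadic Ω := by
  let P : ℕ → (Ω ≃o Ω) → Prop := fun n t => t x = (α ^ n) y ∧ ∀ z, z ∉ bump t x → t z = z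
  have hαn : ∀ n : ℕ, (α ^ n) x = x := by
    intro n
    induction n with
    | zero => rfl
    | succ n ih => rw [pow_succ, mul_app, hαx, ih]
  have step : ∀ (n : ℕ) (t : {t // P n t}), ∃ s : {s // P (n + 1) s}, s.1 * s.1 = t.1 := by
    rintro n ⟨t, ht1, ht2⟩
    have h3 : ∀ z, (α ^ (n + 1)) z = (α ^ n) (α z) := fun z => by rw [pow_succ, mul_app]
    let φ : Ω ≃o Ω := α ^ n * β * (α ^ (n + 1))⁻¹
    have h4 : φ x = (α ^ (n + 1)) y := by
      change (α ^ n) (β ((α ^ (n + 1))⁻¹ x)) = _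
      have h5 : (α ^ (n + 1))⁻¹ x = x := by
        conv_lhs => rw [← hαn (n + 1)]
        exact inv_app_self _ _
      rw [h5, hβx, h3, hαy]
    have h5 : φ ((α ^ (n + 1)) y) = (α ^ n) y := by
      change (α ^ n) (β ((α ^ (n + 1))⁻¹ ((α ^ (n + 1)) y))) = _
      rw [inv_app_self, hβy]
    have h6 : x < φ x := by
      rw [h4]
      conv_lhs => rw [← hαn (n + 1)]
      exact (α ^ (n + 1)).lt_iff_lt.2 (h1.trans h2)
    obtain ⟨s, hs1, hs2, hs3⟩ := half (t := t) h6 (by rw [h4, h5, ht1]) ht2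
    exact ⟨⟨s, by rw [hs2, h4], hs3⟩, hs1⟩
  choose F hF using step
  let g : Ω ≃o Ω := α⁻¹ * β
  have hg : g x = y := by
    change α⁻¹ (β x) = y
    rw [hβx, ← hαy, inv_app_self]
  let T0 : {t // P 0 t} := ⟨loc g x, by
    refine ⟨?_, fun z hz => ?_⟩
    · rw [loc_mem (self_mem_bump g x), hg]
      rfl
    · rw [bump_loc] at hz
      exact loc_not_mem hz⟩
  let T : (n : ℕ) → {t // P n t} := fun n => Nat.rec T0 (fun n t => F n t) n
  refine ⟨fun n => (T n).1, ?_, fun n => hF n (T n)⟩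
  intro h
  have h7 : (T 0).1 x = y := (T 0).2.1
  change (T 0).1 = 1 at h
  rw [h] at h7
  exact absurd h7 (h1.trans h2).ne

theorem dyadic_of_overlap_aux {f g : Ω ≃o Ω} {m x y' : Ω} (hf : m < f m) (hg : m < g m)
    (h1 : x ∈ bump f m) (h2 : x ∉ bump g m) (h3 : y' ∈ bump g m) (h4 : y' ∉ bump f m)
    (hxm : x < m) (hmy : m < y') : HasDyadic Ω := by
  obtain ⟨n, hn⟩ := exists_zp_lt hf h1 (self_mem_bump f m)
  set m' := (f ^ (n : ℤ)) x with hm'
  have h5 : m' ∈ bump f m := app_mem_bump _ h1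
  have h6 : m' < y' := by
    by_contra hc
    push Not at hc
    exact h4 (bump_conv (self_mem_bump f m) h5 hmy.le hc)
  have h7 : m' ∈ bump g m := bump_conv (self_mem_bump g m) h3 hn.le h6.le
  obtain ⟨j, hj⟩ := exists_zp_lt hg h7 h3
  set y := (g ^ (j : ℤ)) m' with hy
  have h8 : y ∉ bump f m := fun h => h4 (bump_conv (self_mem_bump f m) h hmy.le hj.le)
  refine dyadic_of_triple (α := (loc g m) ^ (-(j : ℤ))) (β := (loc f m) ^ (n : ℤ)) (x := x)
    (m := m') (y := y) (hxm.trans hn) (h6.trans hj) ?_ ?_ ?_ ?_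
  · exact loc_zp_not_mem h2 _
  · rw [loc_zp_mem (app_mem_bump _ h7), zp_neg_zp]
  · rw [loc_zp_mem h1]
  · exact loc_zp_not_mem h8 _

theorem bump_fix {f : Ω ≃o Ω} {m : Ω} (h : f m = m) {z : Ω} (hz : z ∈ bump f m) : z = m := by
  have h1 : ∀ n : ℕ, (f ^ n) m = m := by
    intro n
    induction n with
    | zero => rfl
    | succ n ih => rw [pow_succ, mul_app, h, ih]
  have h2 : ∀ n : ℤ, (f ^ n) m = m := by
    intro n
    obtain ⟨k, rfl | rfl⟩ := Int.eq_nat_or_neg n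
    · exact_mod_cast h1 k
    · have := zp_neg_zp f k m
      rw [zpow_natCast, h1] at this
      exact this
  obtain ⟨a, b, h3, h4⟩ := hz
  rw [h2] at h3 h4
  exact le_antisymm h4 h3

theorem exists_pos {f : Ω ≃o Ω} {m x : Ω} (hx : x ∈ bump f m) (hne : x ≠ m) :
    ∃ f' : Ω ≃o Ω, m < f' m ∧ bump f' m = bump f m := by
  rcases lt_trichotomy (f m) m with h | h | h
  · refine ⟨f⁻¹, ?_, bump_inv f m⟩
    have := (f⁻¹).lt_iff_lt.2 h
    rwa [inv_app_self] at this
  · exact absurd (bump_fix h hx) hne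
  · exact ⟨f, h, rfl⟩

theorem dyadic_of_overlap {f g : Ω ≃o Ω} {m x y' : Ω}
    (h1 : x ∈ bump f m) (h2 : x ∉ bump g m) (h3 : y' ∈ bump g m) (h4 : y' ∉ bump f m) :
    HasDyadic Ω := by
  have hx : x ≠ m := fun h => h2 (h ▸ self_mem_bump g m)
  have hy : y' ≠ m := fun h => h4 (h ▸ self_mem_bump f m)
  obtain ⟨f', hf', hfb⟩ := exists_pos h1 hx
  obtain ⟨g', hg', hgb⟩ := exists_pos h3 hy
  rw [← hfb] at h1 h4
  rw [← hgb] at h2 h3
  rcases lt_or_gt_of_ne hx with h | h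
  · rcases lt_or_gt_of_ne hy with h' | h'
    · exfalso
      rcases le_total x y' with h5 | h5
      · exact h4 (bump_conv h1 (self_mem_bump f' m) h5 h'.le)
      · exact h2 (bump_conv h3 (self_mem_bump g' m) h5 h.le)
    · exact dyadic_of_overlap_aux hf' hg' h1 h2 h3 h4 h h'
  · rcases lt_or_gt_of_ne hy with h' | h'
    · exact dyadic_of_overlap_aux hg' hf' h3 h4 h1 h2 h' h
    · exfalso
      rcases le_total x y' with h5 | h5
      · exact h2 (bump_conv (self_mem_bump g' m) h3 h.le h5)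
      · exact h4 (bump_conv (self_mem_bump f' m) h1 h'.le h5)

/-- Without iterated square roots, two bumps at one point are comparable. -/
theorem bump_total (h : ¬ HasDyadic Ω) (f g : Ω ≃o Ω) (m : Ω) :
    bump f m ⊆ bump g m ∨ bump g m ⊆ bump f m := by
  by_contra hc
  push Not at hc
  obtain ⟨x, h1, h2⟩ := Set.not_subset.1 hc.1
  obtain ⟨y, h3, h4⟩ := Set.not_subset.1 hc.2
  exact h (dyadic_of_overlap h1 h2 h3 h4)

end Pool.Agent.Helper56.QV
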