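import Mathlib
import Pool.Agent.Helper56.QV.Half

/-! The wreath power of `ℤ` over a chain `Γ`. -/

set_option autoImplicit false

namespace Pool.Agent.Helper56.QV

universe u v

/-- Finitely supported functions `Γ → ℤ`, with `x < y` if `x i < y i` at the largest index `i`
where they differ. -/
def FZ (Γ : Type u) [LinearOrder Γ] : Type u := Colex (Γ →₀ ℤ)

/-- The identity map. -/
def FZ.toColex {Γ : Type u} [LinearOrder Γ] (x : FZ Γ) : Colex (Γ →₀ ℤ) := x

/-- The order of `FZ Γ`. -/
noncomputable instance fzOrder (Γ : Type u) [LinearOrder Γ] : LinearOrder (FZ Γ) :=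
  LinearOrder.lift' FZ.toColex fun _ _ h => h

theorem fz_lt_iff {Γ : Type u} [LinearOrder Γ] {x y : FZ Γ} :
    x < y ↔ ∃ i, (∀ j, i < j → ofColex x j = ofColex y j) ∧ ofColex x i < ofColex y i :=
  Finsupp.Colex.lt_iff (a := x.toColex) (b := y.toColex)

section

variable {Γ : Type u} [LinearOrder Γ]

/-- `x` and `y` agree above `i`, and `y i - x i = n`. -/
def Dif (i : Γ) (n : ℤ) (x y : FZ Γ) : Prop :=
  (∀ j, i < j → ofColex x j = ofColex y j) ∧ ofColex y i - ofColex x i = n

theorem Dif.refl (i : Γ) (x : FZ Γ) : Dif i 0 x x := ⟨fun _ _ => rfl, sub_self _⟩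

theorem Dif.symm {i : Γ} {n : ℤ} {x y : FZ Γ} (h : Dif i n x y) : Dif i (-n) y x :=
  ⟨fun j hj => (h.1 j hj).symm, by rw [← h.2]; ring⟩

theorem Dif.trans {i : Γ} {n m : ℤ} {x y z : FZ Γ} (h : Dif i n x y) (h' : Dif i m y z) :
    Dif i (n + m) x z :=
  ⟨fun j hj => (h.1 j hj).trans (h'.1 j hj), by rw [← h.2, ← h'.2]; ring⟩

theorem Dif.up {i j : Γ} {n : ℤ} {x y : FZ Γ} (h : Dif i n x y) (hij : i < j) : Dif j 0 x y :=
  ⟨fun k hk => h.1 k (hij.trans hk), by rw [h.1 j hij, sub_self]⟩

theorem Dif.uniq {i : Γ} {n m : ℤ} {x y : FZ Γ} (h : Dif i n x y) (h' : Dif i m x y) : n = m :=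
  h.2.symm.trans h'.2

theorem Dif.lt {i : Γ} {n : ℤ} {x y : FZ Γ} (h : Dif i n x y) (hn : 0 < n) : x < y := by
  refine fz_lt_iff.2 ⟨i, h.1, ?_⟩
  have := h.2
  change ofColex x i < ofColex y i
  omega

theorem exists_dif {x y : FZ Γ} (h : x ≠ y) : ∃ i n, n ≠ 0 ∧ Dif i n x y := by
  rcases lt_or_gt_of_ne h with h | h
  · obtain ⟨i, h1, h2⟩ := fz_lt_iff.1 h
    refine ⟨i, ofColex y i - ofColex x i, ?_, h1, rfl⟩
    have h3 : ofColex x i < ofColex y i := h2
    omega
  · obtain ⟨i, h1, h2⟩ := fz_lt_iff.1 h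
    refine ⟨i, ofColex y i - ofColex x i, ?_, fun j hj => (h1 j hj).symm, rfl⟩
    have h3 : ofColex y i < ofColex x i := h2
    omega

theorem exists_dif_pos {x y : FZ Γ} (h : x < y) : ∃ i n, 0 < n ∧ Dif i n x y := by
  obtain ⟨i, h1, h2⟩ := fz_lt_iff.1 h
  refine ⟨i, ofColex y i - ofColex x i, ?_, h1, rfl⟩
  have h3 : ofColex x i < ofColex y i := h2
  omega

theorem Dif.ne {i : Γ} {n : ℤ} {x y : FZ Γ} (h : Dif i n x y) (hn : n ≠ 0) : x ≠ y := by
  rintro rfl
  exact hn (h.uniq (Dif.refl i x))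

/-- Change of one coordinate, lower ones being set to zero. -/
theorem exists_move (x : FZ Γ) (i : Γ) (n : ℤ) : ∃ y, Dif i n x y := by
  classical
  refine ⟨toColex ((ofColex x).filter (i < ·) + Finsupp.single i (ofColex x i + n)), ?_, ?_⟩
  · intro j hj
    rw [ofColex_toColex, Finsupp.add_apply, Finsupp.filter_apply_pos _ _ hj,
      Finsupp.single_eq_of_ne hj.ne', add_zero]
  · rw [ofColex_toColex, Finsupp.add_apply, Finsupp.filter_apply_neg _ _ (lt_irrefl i),
      Finsupp.single_eq_same]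
    ring

end

/-- The automorphisms of a chain that preserve the relations `R i`. -/
def autRel {C : Type u} [LinearOrder C] {ι : Type v} (R : ι → C → C → Prop) :
    Subgroup (C ≃o C) where
  carrier := {g | ∀ i x y, R i (g x) (g y) ↔ R i x y}
  one_mem' _ _ _ := Iff.rfl
  mul_mem' {g h} hg hh i x y := (hg i (h x) (h y)).trans (hh i x y)
  inv_mem' {g} hg i x y := by
    have h1 := hg i (g.symm x) (g.symm y)
    rw [g.apply_symm_apply, g.apply_symm_apply] at h1
    exact h1.symm

/-- The wreath power of `ℤ` over the chain `Γ`: the automorphisms of the chain `FZ Γ` that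
preserve the relations `x and y agree above i, and y i - x i = n`, for all `i` and `n`. -/
noncomputable def ZPow (Γ : Type u) [LinearOrder Γ] : Subgroup (FZ Γ ≃o FZ Γ) :=
  autRel fun (p : Γ × ℤ) x y => Dif p.1 p.2 x y

theorem mem_zpow {Γ : Type u} [LinearOrder Γ] {g : FZ Γ ≃o FZ Γ} :
    g ∈ ZPow Γ ↔ ∀ (x y : FZ Γ) (i : Γ) (n : ℤ), Dif i n x y → Dif i n (g x) (g y) := by
  constructor
  · intro h x y i n hd
    exact (h (i, n) x y).2 hd
  · rintro hg ⟨i, n⟩ a b
    refine ⟨fun hd => ?_, hg a b i n⟩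
    change Dif i n (g a) (g b) at hd
    change Dif i n a b
    by_cases hab : a = b
    · subst hab
      have h0 := hd.uniq (Dif.refl i (g a))
      rw [h0]
      exact Dif.refl i a
    · obtain ⟨j, m, hm, hj⟩ := exists_dif hab
      have hj' := hg _ _ _ _ hj
      rcases lt_trichotomy i j with h | h | h
      · exact absurd ((hd.up h).uniq hj') hm.symm
      · subst h
        rw [hd.uniq hj']
        exact hj
      · rw [hd.uniq (hj'.up h)]
        exact hj.up h

theorem dif_max {Γ : Type u} [LinearOrder Γ] {i : Γ} {n : ℤ} {a b a' b' : FZ Γ}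
    (h : Dif i n a b) (h' : Dif i n a' b') : Dif i n (max a a') (max b b') := by
  -- if `a < a'` and `b' < b` then `a` and `b'` are close
  have key : ∀ {a b a' b' : FZ Γ}, Dif i n a b → Dif i n a' b' → a < a' → b' < b →
      Dif i n a' b := by
    intro a b a' b' h h' h1 h2
    obtain ⟨j, m, hm, hj⟩ := exists_dif_pos h1
    obtain ⟨l, k, hk, hl⟩ := exists_dif_pos h2
    rcases lt_trichotomy j i with h3 | h3 | h3
    · have h4 := (hj.up h3).symm.trans h
      rwa [neg_zero, zero_add] at h4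
    · subst h3
      rcases lt_trichotomy l j with h5 | h5 | h5
      · have h6 := h'.trans (hl.up h5)
        rwa [add_zero] at h6
      · subst h5
        have h7 := h.symm.trans (hj.trans h')
        have h8 := h7.uniq hl.symm
        omega
      · have h7 := ((h.up h5).symm.trans ((hj.up h5).trans (h'.up h5))).uniq hl.symm
        omega
    · have h7 := (h.up h3).symm.trans (hj.trans (h'.up h3))
      rw [neg_zero, zero_add, add_zero] at h7
      -- `Dif j m b b'` with `m > 0`: `b < b'`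
      exact absurd (h7.lt hm) (not_lt.2 h2.le)
  rcases le_total a a' with h1 | h1 <;> rcases le_total b b' with h2 | h2
  · rw [max_eq_right h1, max_eq_right h2]
    exact h'
  · rw [max_eq_right h1, max_eq_left h2]
    rcases h1.lt_or_eq with h3 | rfl
    · rcases h2.lt_or_eq with h4 | rfl
      · exact key h h' h3 h4
      · exact h'
    · exact h
  · rw [max_eq_left h1, max_eq_right h2]
    rcases h1.lt_or_eq with h3 | rfl
    · rcases h2.lt_or_eq with h4 | rfl
      · exact key h' h h3 h4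
      · exact h
    · exact h'
  · rw [max_eq_left h1, max_eq_left h2]
    exact h

theorem zpow_sup {Γ : Type u} [LinearOrder Γ] {g h : FZ Γ ≃o FZ Γ} (hg : g ∈ ZPow Γ)
    (hh : h ∈ ZPow Γ) : g ⊔ h ∈ ZPow Γ := mem_zpow.2 fun x y i n hd =>
  dif_max (mem_zpow.1 hg x y i n hd) (mem_zpow.1 hh x y i n hd)

/-- A subgroup that is closed under joins. -/
def SupCl {G : Type u} [LGroup G] (H : Subgroup G) : Prop := ∀ a ∈ H, ∀ b ∈ H, a ⊔ b ∈ H

theorem SupCl.inf {G : Type u} [LGroup G] {H : Subgroup G} (hs : SupCl H)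
    {a b : G} (ha : a ∈ H) (hb : b ∈ H) : a ⊓ b ∈ H := by
  have h1 : a ⊓ b = (a⁻¹ ⊔ b⁻¹)⁻¹ := by rw [inv_sup, inv_inv, inv_inv]
  rw [h1]
  exact H.inv_mem (hs _ (H.inv_mem ha) _ (H.inv_mem hb))

/-- A subgroup of a lattice-ordered group that is closed under joins (and thus under meets) is a
lattice-ordered group. -/
@[reducible] def subLGroup {G : Type u} [LGroup G] (H : Subgroup G) (hs : SupCl H) : LGroup H where
  toGroup := inferInstance
  toLattice := Subtype.lattice (fun _ _ ha hb => hs _ ha _ hb) (fun _ _ ha hb => hs.inf ha hb)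
  mul_le_mul_mul a b c d h := LGroup.mul_le_mul_mul a.1 b.1 c.1 d.1 h

theorem supCl_zpow (Γ : Type u) [LinearOrder Γ] : SupCl (ZPow Γ) :=
  fun _ hg _ hh => zpow_sup hg hh

noncomputable instance zpowLGroup (Γ : Type u) [LinearOrder Γ] : LGroup (ZPow Γ) :=
  subLGroup (ZPow Γ) (supCl_zpow Γ)

/-- The group `autRel R`, as a type. -/
def AutRel {C : Type u} [LinearOrder C] {ι : Type v} (R : ι → C → C → Prop) : Type u := autRel R

/-- If `autRel R` is closed under joins, it is a lattice-ordered group with the pointwise order. -/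
@[reducible] def autRelLGroup {C : Type u} [LinearOrder C] {ι : Type v} (R : ι → C → C → Prop)
    (hs : SupCl (autRel R)) : LGroup (AutRel R) := subLGroup (autRel R) hs

/-- The wreath power of `ℤ` over `Γ`: the automorphisms of the chain `FZ Γ` that preserve the
relations `x and y agree above i, and y i - x i = n`, for all `i` and `n`. -/
def ZPowT (Γ : Type u) [LinearOrder Γ] : Type u :=
  AutRel fun (p : Γ × ℤ) (x y : FZ Γ) => Dif p.1 p.2 x y

/-- The wreath power is a lattice-ordered group, with the pointwise order. -/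
noncomputable instance zpowTLGroup (Γ : Type u) [LinearOrder Γ] : LGroup (ZPowT Γ) :=
  autRelLGroup _ (supCl_zpow Γ)

theorem zpow_sup_coe {Γ : Type u} [LinearOrder Γ] (g h : ZPow Γ) (x : FZ Γ) :
    (g ⊔ h).1 x = max (g.1 x) (h.1 x) := rfl

theorem zpow_mul_coe {Γ : Type u} [LinearOrder Γ] (g h : ZPow Γ) (x : FZ Γ) :
    (g * h).1 x = g.1 (h.1 x) := rfl

section

variable {Ω : Type u} [LinearOrder Ω]

/-- The nontrivial bumps that contain `ω`. -/
def Lev (ω : Ω) : Type u := {C : Set Ω // ∃ g : Ω ≃o Ω, g ω ≠ ω ∧ C = bump g ω}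

/-- The nontrivial bumps that contain `ω` are ordered by inclusion. -/
@[reducible] def levPartial (ω : Ω) : PartialOrder (Lev ω) := Subtype.partialOrder _

theorem lev_total (h : ¬ HasDyadic Ω) (ω : Ω) (a b : Lev ω) : a.1 ⊆ b.1 ∨ b.1 ⊆ a.1 := by
  obtain ⟨f, _, hf⟩ := a.2
  obtain ⟨g, _, hg⟩ := b.2
  rw [hf, hg]
  exact bump_total h f g ω

/-- If `Ω` has no iterated roots then the nontrivial bumps that contain `ω`, ordered by inclusion,
form a chain. -/
@[reducible] noncomputable def levOrder (h : ¬ HasDyadic Ω) (ω : Ω) : LinearOrder (Lev ω) :=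
  { levPartial ω with
    le_total := lev_total h ω
    toDecidableLE := Classical.decRel _ }

/-- The wreath power of `ℤ` over the chain of nontrivial bumps that contain `ω`. -/
def BumpPow (h : ¬ HasDyadic Ω) (ω : Ω) : Type u := @ZPowT (Lev ω) (levOrder h ω)

/-- It is a lattice-ordered group. -/
noncomputable instance bumpPowLGroup (h : ¬ HasDyadic Ω) (ω : Ω) : LGroup (BumpPow h ω) :=
  @zpowTLGroup (Lev ω) (levOrder h ω)

end

end Pool.Agent.Helper56.QV
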