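import Mathlib
import Pool.Agent.Helper56.QV.ZPow
import Pool.Agent.Helper56.QV.LHom

/-! Over a well-founded chain, every automorphism of `FZ Γ` belongs to the wreath power. -/

set_option autoImplicit false

namespace Pool.Agent.Helper56.QV

universe u

variable {Γ : Type u} [LinearOrder Γ]

/-- Points between two close points. -/
theorem between_dif {i : Γ} {n : ℤ} {x y w : FZ Γ} (h : Dif i n x y) (h1 : x ≤ w) (h2 : w ≤ y) :
    ∃ m, 0 ≤ m ∧ m ≤ n ∧ Dif i m x w := by
  have key : ∀ j, i < j → Dif j 0 x w := by
    intro j hj
    by_contra hcon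
    have hne : x ≠ w := by
      rintro rfl
      exact hcon (Dif.refl j x)
    obtain ⟨l, k, hk, hl⟩ := exists_dif_pos (h1.lt_of_ne hne)
    have hjl : j ≤ l := by
      by_contra hc
      push Not at hc
      exact hcon (hl.up hc)
    -- `w` and `y` differ at `l` by `-k`
    have h3 := hl.symm.trans (h.up (hj.trans_le hjl))
    rw [add_zero] at h3
    have h4 := h3.symm
    rw [neg_neg] at h4
    exact absurd (h4.lt hk) (not_lt.2 h2)
  have h3 : Dif i (ofColex w i - ofColex x i) x w := by
    refine ⟨fun j hj => ?_, rfl⟩
    have := (key j hj).2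
    omega
  refine ⟨_, ?_, ?_, h3⟩
  · by_contra hc
    push Not at hc
    have h4 := h3.symm.lt (by omega)
    exact absurd h4 (not_lt.2 h1)
  · by_contra hc
    push Not at hc
    have h4 := h.symm.trans h3
    have h5 := h4.lt (by omega)
    exact absurd h5 (not_lt.2 h2)

theorem classes_preserved [WellFoundedLT Γ] (i : Γ) : ∀ (g : FZ Γ ≃o FZ Γ) (x y : FZ Γ),
    Dif i 0 x y → Dif i 0 (g x) (g y) := by
  induction i using WellFoundedLT.induction with
  | ind i ih =>
  -- the case `x < y`
  have key : ∀ (g : FZ Γ ≃o FZ Γ) (x y : FZ Γ), x < y → Dif i 0 x y → Dif i 0 (g x) (g y) := by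
    intro g x y hxy h
    obtain ⟨j, n, hn, hj⟩ := exists_dif_pos hxy
    have hji : j < i := by
      by_contra hc
      push Not at hc
      rcases hc.lt_or_eq with h1 | h1
      · have := (h.up h1).uniq hj
        omega
      · subst h1
        have := h.uniq hj
        omega
    by_contra hcon
    obtain ⟨l, k, hk, hl⟩ := exists_dif_pos (g.lt_iff_lt.2 hxy)
    have hil : i ≤ l := by
      by_contra hc
      push Not at hc
      exact hcon (hl.up hc)
    have hjl : j < l := hji.trans_le hil
    -- points `z m` just above `g x`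
    choose z hz using fun m : ℕ => exists_move (g x) j ((m : ℤ) + 1)
    have hzy : ∀ m, z m < g y := by
      intro m
      have h1 := ((hz m).up hjl).symm.trans hl
      rw [neg_zero, zero_add] at h1
      exact h1.lt hk
    have hzx : ∀ m, g x < z m := fun m => (hz m).lt (by positivity)
    have hzz : ∀ m, Dif j 1 (z m) (z (m + 1)) := by
      intro m
      have h1 := (hz m).symm.trans (hz (m + 1))
      have h2 : -((m : ℤ) + 1) + (((m + 1 : ℕ) : ℤ) + 1) = 1 := by push_cast; ring
      rwa [h2] at h1
    have hw : ∀ m, ∃ r, 0 ≤ r ∧ r ≤ n ∧ Dif j r x (g.symm (z m)) := by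
      intro m
      apply between_dif hj
      · rw [← g.le_iff_le, g.apply_symm_apply]
        exact (hzx m).le
      · rw [← g.le_iff_le, g.apply_symm_apply]
        exact (hzy m).le
    choose r hr0 hrn hr using hw
    have hrm : ∀ m : ℕ, (m : ℤ) + 1 ≤ r m := by
      intro m
      induction m with
      | zero =>
        by_contra hc
        have h1 : r 0 = 0 := by
          have := hr0 0
          push_cast at hc
          omega
        have h2 := hr 0
        rw [h1] at h2
        have h3 := ih j hji g _ _ h2
        rw [g.apply_symm_apply] at h3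
        have := h3.uniq (hz 0)
        simp at this
      | succ m ihm =>
        have h1 := (hr m).symm.trans (hr (m + 1))
        have h2 : g.symm (z m) < g.symm (z (m + 1)) :=
          g.symm.lt_iff_lt.2 ((hzz m).lt one_pos)
        have h3 : -r m + r (m + 1) ≠ 0 := by
          intro h4
          rw [h4] at h1
          have h5 := ih j hji g _ _ h1
          rw [g.apply_symm_apply, g.apply_symm_apply] at h5
          have := h5.uniq (hzz m)
          omega
        have h4 : 0 ≤ -r m + r (m + 1) := by
          by_contra hc
          push Not at hc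
          have h5 := h1.symm.lt (by omega)
          exact absurd h5 (not_lt.2 h2.le)
        push_cast
        omega
    have h1 := hrm n.toNat
    have h2 := hrn n.toNat
    omega
  intro g x y h
  rcases lt_trichotomy x y with h1 | h1 | h1
  · exact key g x y h1 h
  · subst h1
    exact Dif.refl i _
  · have h2 := h.symm
    rw [neg_zero] at h2
    have h3 := (key g y x h1 h2).symm
    rwa [neg_zero] at h3

theorem dif_one_preserved [WellFoundedLT Γ] {i : Γ} (g : FZ Γ ≃o FZ Γ) {x y : FZ Γ}
    (h : Dif i 1 x y) : Dif i 1 (g x) (g y) := by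
  have h1 : Dif i (ofColex (g y) i - ofColex (g x) i) (g x) (g y) := by
    refine ⟨fun j hj => ?_, rfl⟩
    have := (classes_preserved j g x y (h.up hj)).2
    omega
  set m := ofColex (g y) i - ofColex (g x) i with hm
  have hlt : g x < g y := g.lt_iff_lt.2 (h.lt one_pos)
  have hm0 : m ≠ 0 := by
    intro h0
    rw [h0] at h1
    have h2 := classes_preserved i g.symm _ _ h1
    rw [g.symm_apply_apply, g.symm_apply_apply] at h2
    have := h2.uniq h
    omega
  have hm1 : 0 ≤ m := by
    by_contra hc
    push Not at hc
    have h2 := h1.symm.lt (by omega)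
    exact absurd h2 (not_lt.2 hlt.le)
  have hm2 : m = 1 := by
    by_contra hne
    obtain ⟨z, hz⟩ := exists_move (g x) i 1
    have h3 := hz.symm.trans h1
    have h4 : Dif i 1 (g x) z := hz
    have hzy : z < g y := h3.lt (by omega)
    have hxz : g x < z := hz.lt one_pos
    obtain ⟨r, hr0, hr1, hr⟩ := between_dif h (w := g.symm z)
      (by rw [← g.le_iff_le, g.apply_symm_apply]; exact hxz.le)
      (by rw [← g.le_iff_le, g.apply_symm_apply]; exact hzy.le)
    rcases (show r = 0 ∨ r = 1 by omega) with h5 | h5
    · rw [h5] at hr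
      have h6 := classes_preserved i g _ _ hr
      rw [g.apply_symm_apply] at h6
      have := h6.uniq hz
      omega
    · rw [h5] at hr
      have h6 := hr.symm.trans h
      rw [neg_add_cancel] at h6
      have h7 := classes_preserved i g _ _ h6
      rw [g.apply_symm_apply] at h7
      have := h7.uniq h3
      omega
  rw [hm2] at h1
  exact h1

/-- Over a well-founded chain every automorphism is in the wreath power. -/
theorem mem_zpow_of_wf [WellFoundedLT Γ] (g : FZ Γ ≃o FZ Γ) : g ∈ ZPow Γ := by
  have key : ∀ (n : ℕ) (i : Γ) (x y : FZ Γ), Dif i (n : ℤ) x y → Dif i (n : ℤ) (g x) (g y) := by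
    intro n i
    induction n with
    | zero =>
      intro x y h
      exact classes_preserved i g x y (by simpa using h)
    | succ n ih =>
      intro x y h
      obtain ⟨z, hz⟩ := exists_move x i (n : ℤ)
      have h1 := hz.symm.trans h
      have h2 : -(n : ℤ) + ((n + 1 : ℕ) : ℤ) = 1 := by push_cast; ring
      rw [h2] at h1
      have h3 := (ih x z hz).trans (dif_one_preserved g h1)
      have h4 : ((n + 1 : ℕ) : ℤ) = (n : ℤ) + 1 := by push_cast; ring
      rw [h4]
      exact h3
  rw [mem_zpow]
  intro x y i n h
  rcases Int.eq_nat_or_neg n with ⟨m, rfl | rfl⟩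
  · exact key m i x y h
  · have h1 := h.symm
    rw [neg_neg] at h1
    exact (key m i y x h1).symm

/-- Quasi-identities of the wreath power over a well-founded chain `Γ` are those of the
automorphism group of the chain `FZ Γ`. -/
theorem zpow_holds_iff [WellFoundedLT Γ] (φ : QId) :
    φ.Holds (ZPow Γ) ↔ φ.Holds (FZ Γ ≃o FZ Γ) := by
  let E : LHom (ZPow Γ) (FZ Γ ≃o FZ Γ) := ⟨fun g => g.1, fun _ _ => rfl, fun _ _ => rfl⟩
  let F : LHom (FZ Γ ≃o FZ Γ) (ZPow Γ) := ⟨fun g => ⟨g, mem_zpow_of_wf g⟩, fun _ _ => rfl,
    fun _ _ => rfl⟩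
  constructor
  · intro h
    exact F.holds (fun a b hab => congrArg Subtype.val hab) h
  · intro h
    exact E.holds (fun a b hab => Subtype.ext hab) h

end Pool.Agent.Helper56.QV
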