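import Mathlib
import Pool.Agent.Helper56.QV.Half

/-! Without iterated square roots, bumps are blocks. -/

set_option autoImplicit false

namespace Pool.Agent.Helper56.QV

universe u

variable {Ω : Type u} [LinearOrder Ω]

/-- A convex set that every automorphism preserves or moves off itself. -/
structure IsBlk (B : Set Ω) : Prop where
  conv : B.OrdConnected
  blk : ∀ (k : Ω ≃o Ω) (z w : Ω), z ∈ B → k z ∈ B → w ∈ B → k w ∈ B

theorem mem_bump_conj {g k : Ω ≃o Ω} {x z : Ω} :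
    z ∈ bump (k * g * k⁻¹) (k x) ↔ k⁻¹ z ∈ bump g x := by
  rw [← bump_conj g k x (k⁻¹ z), app_inv_self]

theorem block_aux (h : ¬ HasDyadic Ω) {g k : Ω ≃o Ω} {z w : Ω} (hz : z ∈ bump g w)
    (hkz : k z ∈ bump g w) (hkw : k w ∉ bump g w) (hup : k z < k w) (hg : w < g w) : False := by
  -- `C ⊆ k C`
  have hsub : ∀ v, v ∈ bump g w → k⁻¹ v ∈ bump g w := by
    have hb1 : bump g (k z) = bump g w := bump_eq_of_mem hkz
    have hb2 : bump g z = bump g w := bump_eq_of_mem hz
    rcases bump_total h g (k * g * k⁻¹) (k z) with h1 | h1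
    · intro v hv
      rw [← hb1] at hv
      have h2 := h1 hv
      rwa [mem_bump_conj, hb2] at h2
    · exfalso
      apply hkw
      rw [← hb1]
      apply h1
      rw [mem_bump_conj, hb2, inv_app_self]
      exact self_mem_bump g w
  have hC : ∀ v, v ∈ bump g w → v < k w := by
    intro v hv
    by_contra hc
    push Not at hc
    exact hkw (bump_conv hkz hv hup.le hc)
  have hwk : w < k w := hC w (self_mem_bump g w)
  have hkD : k w ∈ bump k w := by simpa using zp_mem_bump k w 1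
  have hCD : bump g w ⊆ bump k w := by
    rcases bump_total h g k w with h1 | h1
    · exact h1
    · exact absurd (h1 hkD) hkw
  have hneg : ∀ (n : ℕ) v, v ∈ bump g w → (k ^ (-(n : ℤ))) v ∈ bump g w := by
    intro n v hv
    induction n with
    | zero => simpa using hv
    | succ n ih =>
      have h1 : (-((n + 1 : ℕ) : ℤ)) = -1 + -(n : ℤ) := by push_cast; ring
      rw [h1, zp_add, zpow_neg_one]
      exact hsub _ ih
  have hinit : ∀ v c, v ∈ bump k w → c ∈ bump g w → v ≤ c → v ∈ bump g w := by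
    intro v c hv hc hvc
    obtain ⟨n, hn⟩ := exists_lt_zp hwk (hCD hc) hv
    exact bump_conv (hneg n c hc) hc hn.le hvc
  -- localise
  set g' := loc g w with hg'
  have hbg' : bump g' w = bump g w := bump_loc g w
  have hg'w : w < g' w := by rw [hg', loc_mem (self_mem_bump g w)]; exact hg
  set g₁ := k * g' * k⁻¹ with hg₁
  have hg₁pos : k w < g₁ (k w) := by
    change k w < k (g' (k⁻¹ (k w)))
    rw [inv_app_self]
    exact k.lt_iff_lt.2 hg'w
  have hmem : ∀ v, v ∈ bump g₁ (k w) ↔ k⁻¹ v ∈ bump g w := by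
    intro v
    rw [hg₁, mem_bump_conj, hbg']
  have hw1 : w ∈ bump g₁ (k w) := (hmem w).2 (hsub w (self_mem_bump g w))
  obtain ⟨n, hn⟩ := exists_zp_lt hg₁pos hw1 (self_mem_bump g₁ (k w))
  set p := (g₁ ^ (-(n : ℤ))) w with hp
  have hp1 : p ∈ bump g₁ (k w) := app_mem_bump _ hw1
  have hpD : p ∈ bump k w := by
    have h1 := hCD ((hmem p).1 hp1)
    rwa [inv_mem_bump_iff] at h1
  have hgp : (g₁ ^ (n : ℤ)) p = w := zp_zp_neg _ _ _
  have hpw : p ≤ w := by
    have h1 := zp_strictMono (lt_of_mem_bump hg₁pos hp1)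
    have h2 : (g₁ ^ (0 : ℤ)) p ≤ (g₁ ^ (n : ℤ)) p := h1.monotone (by positivity)
    rw [hgp, zpow_zero, one_app] at h2
    exact h2
  have hpC : p ∈ bump g w := hinit p w hpD (self_mem_bump g w) hpw
  obtain ⟨j, hj⟩ := exists_zp_lt hg'w (a := p) (c := w) (by rw [hbg']; exact hpC)
    (self_mem_bump g' w)
  let f : Ω ≃o Ω := g' ^ (-(j : ℤ)) * g₁ ^ (n : ℤ)
  have hfp : f p < p := by
    change (g' ^ (-(j : ℤ))) ((g₁ ^ (n : ℤ)) p) < p
    rw [hgp]
    have h1 := (g' ^ (-(j : ℤ))).lt_iff_lt.2 hj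
    rwa [zp_neg_zp] at h1
  have hfw : f w = (g₁ ^ (n : ℤ)) w := by
    change (g' ^ (-(j : ℤ))) ((g₁ ^ (n : ℤ)) w) = _
    apply loc_zp_not_mem
    intro h1
    exact absurd (hC _ h1) (not_lt.2 hn.le)
  have hfw2 : w < f w := by rw [hfw]; exact hwk.trans hn
  have hfm : f w ∈ bump f w := by simpa using zp_mem_bump f w 1
  have hkf : k w ∈ bump f w := bump_conv (self_mem_bump f w) hfm hwk.le (by rw [hfw]; exact hn.le)
  have hCf : bump g w ⊆ bump f w := by
    rcases bump_total h g f w with h1 | h1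
    · exact h1
    · exact absurd (h1 hkf) hkw
  exact absurd (lt_of_mem_bump hfw2 (hCf hpC)) (not_lt.2 hfp.le)

/-! Duality. -/

/-- The automorphism of the reversed chain. -/
def du : (Ω ≃o Ω) →* (Ωᵒᵈ ≃o Ωᵒᵈ) where
  toFun f := f.dual
  map_one' := rfl
  map_mul' _ _ := rfl

theorem du_app (f : Ω ≃o Ω) (x : Ω) : du f (OrderDual.toDual x) = OrderDual.toDual (f x) := rfl

theorem du_zp (f : Ω ≃o Ω) (n : ℤ) (x : Ω) :
    ((du f) ^ n) (OrderDual.toDual x) = OrderDual.toDual ((f ^ n) x) := by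
  rw [← map_zpow, du_app]

theorem mem_bump_du {f : Ω ≃o Ω} {x z : Ω} :
    OrderDual.toDual z ∈ bump (du f) (OrderDual.toDual x) ↔ z ∈ bump f x := by
  simp only [mem_bump, du_zp, OrderDual.toDual_le_toDual]
  constructor
  · rintro ⟨m, n, h1, h2⟩
    exact ⟨n, m, h2, h1⟩
  · rintro ⟨m, n, h1, h2⟩
    exact ⟨n, m, h2, h1⟩

/-- Back from the reversed chain. -/
def ud (f : Ωᵒᵈ ≃o Ωᵒᵈ) : Ω ≃o Ω where
  toFun x := OrderDual.ofDual (f (OrderDual.toDual x))
  invFun x := OrderDual.ofDual (f.symm (OrderDual.toDual x))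
  left_inv x := by simp
  right_inv x := by simp
  map_rel_iff' := by
    intro a b
    change OrderDual.ofDual (f (OrderDual.toDual a)) ≤ OrderDual.ofDual (f (OrderDual.toDual b)) ↔ _
    rw [OrderDual.ofDual_le_ofDual, f.le_iff_le, OrderDual.toDual_le_toDual]

theorem hasDyadic_dual (h : HasDyadic Ωᵒᵈ) : HasDyadic Ω := by
  obtain ⟨t, h0, h1⟩ := h
  refine ⟨fun n => ud (t n), ?_, ?_⟩
  · intro h2
    apply h0
    apply OrderIso.ext
    funext x
    have h3 := congrArg (fun F : Ω ≃o Ω => F (OrderDual.ofDual x)) h2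
    exact h3
  · intro n
    change ud (t (n + 1)) * ud (t (n + 1)) = ud (t n)
    rw [← h1 n]
    rfl

/-- Without iterated square roots, bumps are blocks. -/
theorem isBlk_bump (h : ¬ HasDyadic Ω) (g : Ω ≃o Ω) (x : Ω) : IsBlk (bump g x) := by
  refine ⟨bump_ordConnected g x, ?_⟩
  intro k z w hz hkz hw
  by_contra hkw
  rw [← bump_eq_of_mem hw] at hz hkz hkw
  have hzw : z ≠ w := by
    rintro rfl
    exact hkw hkz
  have hne : k z ≠ k w := fun h1 => hzw (k.injective h1)
  obtain ⟨g', hg', hb⟩ := exists_pos hz hzw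
  rw [← hb] at hz hkz hkw
  rcases lt_or_gt_of_ne hne with h1 | h1
  · exact block_aux h hz hkz hkw h1 hg'
  · -- the dual case
    have hd : ¬ HasDyadic Ωᵒᵈ := fun h2 => h (hasDyadic_dual h2)
    rw [← bump_inv] at hz hkz hkw
    refine block_aux hd (g := du g'⁻¹) (k := du k) (z := OrderDual.toDual z)
      (w := OrderDual.toDual w) (mem_bump_du.2 hz) ?_ ?_ ?_ ?_
    · rw [du_app]; exact mem_bump_du.2 hkz
    · rw [du_app]; exact fun h2 => hkw (mem_bump_du.1 h2)
    · rw [du_app, du_app]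
      exact OrderDual.toDual_lt_toDual.2 h1
    · rw [du_app]
      apply OrderDual.toDual_lt_toDual.2
      have h2 := (g'⁻¹).lt_iff_lt.2 hg'
      rwa [inv_app_self] at h2

theorem isBlk_singleton (x : Ω) : IsBlk ({x} : Set Ω) := by
  refine ⟨Set.ordConnected_singleton, ?_⟩
  intro k z w hz hkz hw
  rw [Set.mem_singleton_iff] at *
  subst hz
  rw [hw]
  exact hkz

namespace IsBlk

variable {B : Set Ω} (hB : IsBlk B)

include hB

theorem mem_iff {k : Ω ≃o Ω} {z : Ω} (hz : z ∈ B) (hkz : k z ∈ B) (w : Ω) : k w ∈ B ↔ w ∈ B := by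
  refine ⟨fun hw => ?_, fun hw => hB.blk k z w hz hkz hw⟩
  have h1 := hB.blk k⁻¹ (k z) (k w) hkz (by rw [inv_app_self]; exact hz) hw
  rwa [inv_app_self] at h1

theorem inv_mem {k : Ω ≃o Ω} {z : Ω} (hz : z ∈ B) (hkz : k z ∈ B) : k⁻¹ z ∈ B := by
  rw [← hB.mem_iff hz hkz, app_inv_self]
  exact hz

theorem bump_sub {k : Ω ≃o Ω} {z : Ω} (hz : z ∈ B) (hkz : k z ∈ B) : bump k z ⊆ B := by
  have h1 : ∀ n : ℤ, (k ^ n) z ∈ B := by
    intro n
    induction n using Int.induction_on with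
    | zero => simpa using hz
    | succ n ih =>
      rw [add_comm, zp_one_add]
      exact hB.blk k z _ hz hkz ih
    | pred n ih =>
      have h2 : (-(n : ℤ) - 1) = -1 + -(n : ℤ) := by ring
      rw [h2, zp_add, zpow_neg_one]
      have h3 := hB.mem_iff hz hkz (k⁻¹ ((k ^ (-(n : ℤ))) z))
      rw [app_inv_self] at h3
      exact h3.1 ih
  rintro w ⟨m, n, h2, h3⟩
  exact hB.conv.out (h1 m) (h1 n) ⟨h2, h3⟩

/-- If `k` moves a point of the block up and out, then it moves the block above itself. -/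
theorem off {k : Ω ≃o Ω} {x : Ω} (hx : x ∈ B) (hk : k x ∉ B) (hlt : x < k x) :
    ∀ z ∈ B, ∀ w ∈ B, z < k w := by
  have h1 : ∀ w ∈ B, k w ∉ B := by
    intro w hw hkw
    exact hk (hB.blk k w x hw hkw hx)
  have h2 : ∀ z ∈ B, z < k x := by
    intro z hz
    by_contra hc
    push Not at hc
    exact hk (hB.conv.out hx hz ⟨hlt.le, hc⟩)
  intro z hz w hw
  by_contra hc
  push Not at hc
  -- `k w ≤ z < k x`
  have h3 : k w < x := by
    by_contra hc'
    push Not at hc'
    exact h1 w hw (hB.conv.out hx hz ⟨hc', hc⟩)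
  -- then `k w < x < k x`, so `x = k v` with `v` between `w` and `x`
  have h4 : w < k⁻¹ x := by
    rw [← k.lt_iff_lt, app_inv_self]
    exact h3
  have h5 : k⁻¹ x < x := by
    rw [← k.lt_iff_lt, app_inv_self]
    exact hlt
  have h6 : k⁻¹ x ∈ B := hB.conv.out hw hx ⟨h4.le, h5.le⟩
  have h7 := h1 _ h6
  rw [app_inv_self] at h7
  exact h7 hx

end IsBlk

end Pool.Agent.Helper56.QV
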