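import Mathlib
import Pool.Agent.Helper56.QV.Bump

/-! Chains `{(p, q) | q ≤ c p}` over a densely ordered chain, with well-ordered fibres: the
automorphisms are those of the base that preserve `c`. -/

set_option autoImplicit false

namespace Pool.Agent.Helper56.QV

universe u v

/-- The chain of pairs `(p, q)` with `q ≤ c p`, ordered lexicographically. -/
def Stk {P : Type u} {W : Type v} [LinearOrder P] [LinearOrder W] (c : P → W) : Type (max u v) :=
  {z : P ×ₗ W // (ofLex z).2 ≤ c (ofLex z).1}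

namespace Stk

variable {P : Type u} {W : Type v} [LinearOrder P] [LinearOrder W] {c : P → W}

instance : LinearOrder (Stk c) :=
  inferInstanceAs (LinearOrder {z : P ×ₗ W // (ofLex z).2 ≤ c (ofLex z).1})

/-- First coordinate. -/
def fst (z : Stk c) : P := (ofLex z.1).1

/-- Second coordinate. -/
def snd (z : Stk c) : W := (ofLex z.1).2

/-- A point. -/
def mk (p : P) (q : W) (h : q ≤ c p) : Stk c := ⟨toLex (p, q), h⟩

theorem snd_le (z : Stk c) : z.snd ≤ c z.fst := z.2

theorem mk_fst_snd (z : Stk c) : mk z.fst z.snd z.2 = z := rfl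

theorem fst_mk (p : P) (q : W) (h : q ≤ c p) : (mk p q h).fst = p := rfl

theorem snd_mk (p : P) (q : W) (h : q ≤ c p) : (mk p q h).snd = q := rfl

theorem ext' {z w : Stk c} (h1 : z.fst = w.fst) (h2 : z.snd = w.snd) : z = w := by
  apply Subtype.ext
  apply ofLex.injective
  exact Prod.ext h1 h2

theorem lt_iff {z w : Stk c} : z < w ↔ z.fst < w.fst ∨ z.fst = w.fst ∧ z.snd < w.snd :=
  Prod.Lex.lt_iff

theorem le_iff {z w : Stk c} : z ≤ w ↔ z.fst < w.fst ∨ z.fst = w.fst ∧ z.snd ≤ w.snd :=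
  Prod.Lex.le_iff

theorem fst_mono {z w : Stk c} (h : z ≤ w) : z.fst ≤ w.fst := by
  rcases le_iff.1 h with h | h
  · exact h.le
  · exact h.1.le

variable [WellFoundedLT W]

/-- No descending sequence inside a fibre. -/
theorem no_desc {u v : Stk c} (h : u.fst = v.fst) :
    ¬ ∃ s : ℕ → Stk c, StrictAnti s ∧ ∀ k, u ≤ s k ∧ s k ≤ v := by
  rintro ⟨s, hs, hk⟩
  have h1 : ∀ k, (s k).fst = u.fst := fun k =>
    le_antisymm ((fst_mono (hk k).2).trans h.ge) (fst_mono (hk k).1)
  have h2 : ∀ k, (s (k + 1)).snd < (s k).snd := by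
    intro k
    rcases lt_iff.1 (hs (Nat.lt_succ_self k)) with h3 | h3
    · rw [h1, h1] at h3
      exact absurd h3 (lt_irrefl _)
    · exact h3.2
  obtain ⟨m, ⟨k, rfl⟩, hm⟩ := (wellFounded_lt (α := W)).has_min
    (Set.range fun k => (s k).snd) ⟨_, 0, rfl⟩
  exact hm _ ⟨k + 1, rfl⟩ (h2 k)

omit [WellFoundedLT W] in
theorem exists_desc [DenselyOrdered P] {u v : Stk c} (h : u.fst < v.fst) :
    ∃ s : ℕ → Stk c, StrictAnti s ∧ ∀ k, u ≤ s k ∧ s k ≤ v := by
  have hne : Nonempty (Set.Ioo u.fst v.fst) := (Set.nonempty_Ioo.2 h).to_subtype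
  obtain ⟨f, hf⟩ := Nat.exists_strictAnti (Set.Ioo u.fst v.fst)
  refine ⟨fun k => mk (f k).1 (c (f k).1) le_rfl, ?_, fun k => ⟨?_, ?_⟩⟩
  · intro a b hab
    exact lt_iff.2 (Or.inl (hf hab))
  · exact le_iff.2 (Or.inl (f k).2.1)
  · exact le_iff.2 (Or.inl (f k).2.2)

variable [DenselyOrdered P]

theorem fst_app_le (h : Stk c ≃o Stk c) {u v : Stk c} (huv : u ≤ v) (he : u.fst = v.fst) :
    (h u).fst = (h v).fst := by
  by_contra hne
  have h1 : (h u).fst < (h v).fst := (fst_mono (h.le_iff_le.2 huv)).lt_of_ne hne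
  obtain ⟨s, hs, hk⟩ := exists_desc h1
  apply no_desc he
  refine ⟨fun k => h.symm (s k), fun a b hab => h.symm.lt_iff_lt.2 (hs hab), fun k => ⟨?_, ?_⟩⟩
  · rw [← h.le_iff_le, h.apply_symm_apply]
    exact (hk k).1
  · rw [← h.le_iff_le, h.apply_symm_apply]
    exact (hk k).2

theorem fst_app (h : Stk c ≃o Stk c) {u v : Stk c} (he : u.fst = v.fst) :
    (h u).fst = (h v).fst := by
  rcases le_total u v with h1 | h1
  · exact fst_app_le h h1 he
  · exact (fst_app_le h h1 he.symm).symm

/-- The induced map of the base. -/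
def bar (h : Stk c ≃o Stk c) (p : P) : P := (h (mk p (c p) le_rfl)).fst

theorem fst_eq_bar (h : Stk c ≃o Stk c) (z : Stk c) : (h z).fst = bar h z.fst :=
  fst_app h rfl

theorem bar_mul (h k : Stk c ≃o Stk c) (p : P) : bar (h * k) p = bar h (bar k p) := by
  change (h (k (mk p (c p) le_rfl))).fst = _
  rw [fst_eq_bar h]
  rfl

omit [WellFoundedLT W] [DenselyOrdered P] in
theorem bar_one (p : P) : bar (1 : Stk c ≃o Stk c) p = p := rfl

theorem bar_strictMono (h : Stk c ≃o Stk c) : StrictMono (bar h) := by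
  intro p q hpq
  have h1 : mk p (c p) le_rfl < mk q (c q) le_rfl := lt_iff.2 (Or.inl hpq)
  refine (fst_mono (h.lt_iff_lt.2 h1).le).lt_of_ne fun h2 => ?_
  have h3 := congrArg (bar h⁻¹) (show bar h p = bar h q from h2)
  rw [← bar_mul, ← bar_mul, inv_mul_cancel, bar_one, bar_one] at h3
  exact hpq.ne h3

/-- The induced automorphism of the base. -/
def barHom : (Stk c ≃o Stk c) →* (P ≃o P) where
  toFun h :=
    { toFun := bar h
      invFun := bar h⁻¹
      left_inv := fun p => by rw [← bar_mul, inv_mul_cancel, bar_one]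
      right_inv := fun p => by rw [← bar_mul, mul_inv_cancel, bar_one]
      map_rel_iff' := (bar_strictMono h).le_iff_le }
  map_one' := rfl
  map_mul' h k := by
    apply OrderIso.ext
    funext p
    exact bar_mul h k p

theorem barHom_app (h : Stk c ≃o Stk c) (p : P) : barHom h p = bar h p := rfl

theorem le_snd (h : Stk c ≃o Stk c) (p : P) : ∀ (q : W) (hq : q ≤ c p), q ≤ (h (mk p q hq)).snd := by
  intro q
  induction q using WellFoundedLT.induction with
  | ind q ih =>
  intro hq
  by_contra hc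
  push Not at hc
  set s := (h (mk p q hq)).snd with hs
  have h1 := ih s hc (hc.le.trans hq)
  have h2 : mk p s (hc.le.trans hq) < mk p q hq := lt_iff.2 (Or.inr ⟨rfl, hc⟩)
  rcases lt_iff.1 (h.lt_iff_lt.2 h2) with h3 | h3
  · rw [fst_eq_bar, fst_eq_bar] at h3
    exact absurd h3 (lt_irrefl _)
  · exact absurd h1 (not_le.2 h3.2)

theorem snd_app (h : Stk c ≃o Stk c) (z : Stk c) : (h z).snd = z.snd := by
  apply le_antisymm
  · have h1 := le_snd h⁻¹ (h z).fst (h z).snd (h z).2
    rw [mk_fst_snd] at h1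
    rwa [inv_app_self] at h1
  · exact le_snd h z.fst z.snd z.2

theorem c_bar (h : Stk c ≃o Stk c) (p : P) : c (bar h p) = c p := by
  have key : ∀ (h : Stk c ≃o Stk c) (p : P), c p ≤ c (bar h p) := by
    intro h p
    have h1 := snd_app h (mk p (c p) le_rfl)
    have h2 := (h (mk p (c p) le_rfl)).2
    calc c p = (h (mk p (c p) le_rfl)).snd := h1.symm
      _ ≤ _ := h2
  apply le_antisymm _ (key h p)
  have h1 := key h⁻¹ (bar h p)
  rwa [← bar_mul, inv_mul_cancel, bar_one] at h1

theorem barHom_injective : Function.Injective (barHom (c := c)) := by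
  intro h k hhk
  apply OrderIso.ext
  funext z
  apply ext'
  · rw [fst_eq_bar, fst_eq_bar, ← barHom_app, ← barHom_app, hhk]
  · rw [snd_app, snd_app]

omit [WellFoundedLT W] [DenselyOrdered P] in
theorem lift_aux {g : P ≃o P} (hg : ∀ p, c (g p) = c p) (z : Stk c) : z.snd ≤ c (g z.fst) := by
  rw [hg]
  exact z.2

/-- Automorphisms of the base that preserve `c`. -/
def pres (c : P → W) : Subgroup (P ≃o P) where
  carrier := {g | ∀ p, c (g p) = c p}
  one_mem' _ := rfl
  mul_mem' {g h} hg hh p := by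
    change c (g (h p)) = c p
    rw [hg, hh]
  inv_mem' {g} hg p := by
    have h1 := hg (g⁻¹ p)
    rw [app_inv_self] at h1
    exact h1.symm

/-- Lift of an automorphism of the base. -/
def lift : pres c →* (Stk c ≃o Stk c) where
  toFun g :=
    { toFun := fun z => mk (g.1 z.fst) z.snd (lift_aux g.2 z)
      invFun := fun z => mk ((g⁻¹).1 z.fst) z.snd (lift_aux (g⁻¹).2 z)
      left_inv := fun z => ext' (inv_app_self g.1 z.fst) rfl
      right_inv := fun z => ext' (app_inv_self g.1 z.fst) rfl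
      map_rel_iff' := by
        intro z w
        change mk (g.1 z.fst) z.snd (lift_aux g.2 z) ≤ mk (g.1 w.fst) w.snd (lift_aux g.2 w) ↔ _
        rw [le_iff, le_iff]
        simp only [fst_mk, snd_mk, OrderIso.lt_iff_lt, EmbeddingLike.apply_eq_iff_eq] }
  map_one' := rfl
  map_mul' g h := rfl

theorem barHom_lift (g : pres c) : barHom (lift g) = g.1 := by
  apply OrderIso.ext
  funext p
  rfl

theorem barHom_mem (h : Stk c ≃o Stk c) : barHom h ∈ pres c := fun p => c_bar h p

end Stk

end Pool.Agent.Helper56.QV
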