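import Mathlib
import Pool.Agent.Helper56.QV.Col

/-! Chains whose automorphism group is the wreath product of a countable group of real numbers
with the integers. -/

set_option autoImplicit false

namespace Pool.Agent.Helper56.QV

/-- The base chain: integer many copies of the reals with a least point. -/
abbrev PB : Type := ℤ ×ₗ WithBot ℝ

/-- The least point of a copy. -/
def bt (n : ℤ) : PB := toLex (n, ⊥)

/-- The other points of a copy. -/
def pt (n : ℤ) (r : ℝ) : PB := toLex (n, (r : WithBot ℝ))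

theorem pb_cases (x : PB) : (∃ n, x = bt n) ∨ ∃ n r, x = pt n r := by
  obtain ⟨⟨n, b⟩, rfl⟩ := toLex.surjective x
  induction b using WithBot.recBotCoe with
  | bot => exact Or.inl ⟨n, rfl⟩
  | coe r => exact Or.inr ⟨n, r, rfl⟩

theorem bt_lt_bt {m n : ℤ} : bt m < bt n ↔ m < n := by
  rw [bt, bt, Prod.Lex.toLex_lt_toLex]
  simp

theorem bt_lt_pt {m n : ℤ} {r : ℝ} : bt m < pt n r ↔ m ≤ n := by
  rw [bt, pt, Prod.Lex.toLex_lt_toLex]
  simp only [WithBot.bot_lt_coe, and_true]
  exact le_iff_lt_or_eq.symm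

theorem pt_lt_bt {m n : ℤ} {r : ℝ} : pt m r < bt n ↔ m < n := by
  rw [bt, pt, Prod.Lex.toLex_lt_toLex]
  simp

theorem pt_lt_pt {m n : ℤ} {r s : ℝ} : pt m r < pt n s ↔ m < n ∨ m = n ∧ r < s := by
  rw [pt, pt, Prod.Lex.toLex_lt_toLex]
  simp only [WithBot.coe_lt_coe]

theorem bt_inj {m n : ℤ} : bt m = bt n ↔ m = n := by
  constructor
  · intro h
    exact congrArg (fun x : PB => (ofLex x).1) h
  · rintro rfl
    rfl

theorem pt_inj {m n : ℤ} {r s : ℝ} : pt m r = pt n s ↔ m = n ∧ r = s := by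
  constructor
  · intro h
    refine ⟨congrArg (fun x : PB => (ofLex x).1) h, ?_⟩
    exact WithBot.coe_injective (congrArg (fun x : PB => (ofLex x).2) h)
  · rintro ⟨rfl, rfl⟩
    rfl

/-- The colour of a point. -/
def col (A : AddSubgroup ℝ) (x : PB) : Option (ℝ ⧸ A) :=
  WithBot.recBotCoe (C := fun _ => Option (ℝ ⧸ A)) none
    (fun r => some (QuotientAddGroup.mk r)) (ofLex x).2

theorem col_bt (A : AddSubgroup ℝ) (n : ℤ) : col A (bt n) = none := rfl

theorem col_pt (A : AddSubgroup ℝ) (n : ℤ) (r : ℝ) :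
    col A (pt n r) = some (QuotientAddGroup.mk r) := rfl

/-- `g` shifts the copies by `s` and translates the `n`-th copy by `f n`. -/
def IsSF (g : PB ≃o PB) (s : ℤ) (f : ℤ → ℝ) : Prop :=
  (∀ n, g (bt n) = bt (n + s)) ∧ ∀ n r, g (pt n r) = pt (n + s) (r + f n)

theorem IsSF.mul {g h : PB ≃o PB} {s t : ℤ} {f k : ℤ → ℝ} (hg : IsSF g s f) (hh : IsSF h t k) :
    IsSF (g * h) (t + s) (fun n => k n + f (n + t)) := by
  constructor
  · intro n
    rw [mul_app, hh.1, hg.1, add_assoc]
  · intro n r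
    rw [mul_app, hh.2, hg.2, add_assoc, add_assoc]

theorem IsSF.inv {g : PB ≃o PB} {s : ℤ} {f : ℤ → ℝ} (hg : IsSF g s f) :
    IsSF g⁻¹ (-s) (fun n => - f (n + -s)) := by
  constructor
  · intro n
    have h1 := hg.1 (n + -s)
    rw [neg_add_cancel_right] at h1
    rw [← h1, inv_app_self]
  · intro n r
    have h1 := hg.2 (n + -s) (r + -f (n + -s))
    rw [neg_add_cancel_right, neg_add_cancel_right] at h1
    rw [← h1, inv_app_self]

theorem isSF_one : IsSF 1 0 (fun _ => 0) := by
  constructor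
  · intro n
    rw [one_app, add_zero]
  · intro n r
    rw [one_app, add_zero, add_zero]

theorem IsSF.uniq {g : PB ≃o PB} {s t : ℤ} {f k : ℤ → ℝ} (hg : IsSF g s f) (hh : IsSF g t k) :
    s = t ∧ f = k := by
  have h1 := bt_inj.1 ((hg.1 0).symm.trans (hh.1 0))
  refine ⟨by omega, ?_⟩
  funext n
  have h2 := (pt_inj.1 ((hg.2 n 0).symm.trans (hh.2 n 0))).2
  linarith

theorem IsSF.ext {g h : PB ≃o PB} {s : ℤ} {f : ℤ → ℝ} (hg : IsSF g s f) (hh : IsSF h s f) :
    g = h := by
  apply OrderIso.ext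
  funext x
  rcases pb_cases x with ⟨n, rfl⟩ | ⟨n, r, rfl⟩
  · exact (hg.1 n).trans (hh.1 n).symm
  · exact (hg.2 n r).trans (hh.2 n r).symm

/-- A continuous function with countable range on the line is constant. -/
theorem const_of_countable {A : Set ℝ} (hA : A.Countable) {φ : ℝ → ℝ} (hφ : Continuous φ)
    (h : ∀ r, φ r ∈ A) (r : ℝ) : φ r = φ 0 := by
  have h1 : IsTotallyDisconnected A := hA.isTotallyDisconnected
  have h2 : IsPreconnected (Set.range φ) := isPreconnected_range hφ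
  exact h1 _ (by rintro _ ⟨x, rfl⟩; exact h x) h2 ⟨r, rfl⟩ ⟨0, rfl⟩

theorem exists_sf {A : AddSubgroup ℝ} (hA : (A : Set ℝ).Countable) {g : PB ≃o PB}
    (hg : ∀ x, col A (g x) = col A x) : ∃ s f, (∀ n, f n ∈ A) ∧ IsSF g s f := by
  have hg' : ∀ x, col A (g⁻¹ x) = col A x := fun x => by
    rw [← hg (g⁻¹ x), app_inv_self]
  have hbt : ∀ h : PB ≃o PB, (∀ x, col A (h x) = col A x) → ∀ n, ∃ m, h (bt n) = bt m := by
    intro h hh n
    rcases pb_cases (h (bt n)) with h1 | ⟨m, r, h1⟩
    · exact h1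
    · have h2 := hh (bt n)
      rw [h1, col_pt, col_bt] at h2
      exact absurd h2 (by simp)
  have hpt : ∀ h : PB ≃o PB, (∀ x, col A (h x) = col A x) → ∀ n r, ∃ m q,
      h (pt n r) = pt m q ∧ q - r ∈ A := by
    intro h hh n r
    rcases pb_cases (h (pt n r)) with ⟨m, h1⟩ | ⟨m, q, h1⟩
    · have h2 := hh (pt n r)
      rw [h1, col_pt, col_bt] at h2
      exact absurd h2 (by simp)
    · refine ⟨m, q, h1, ?_⟩
      have h2 := hh (pt n r)
      rw [h1, col_pt, col_pt, Option.some_inj, QuotientAddGroup.eq] at h2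
      have h3 := A.neg_mem h2
      have h4 : -(-q + r) = q - r := by ring
      rwa [h4] at h3
  choose σ hσ using hbt g hg
  choose τ hτ using hbt g⁻¹ hg'
  have hστ : ∀ n, σ (τ n) = n := by
    intro n
    apply bt_inj.1
    rw [← hσ, ← hτ, app_inv_self]
  have hσm : StrictMono σ := by
    intro m n hmn
    rw [← bt_lt_bt, ← hσ, ← hσ, g.lt_iff_lt, bt_lt_bt]
    exact hmn
  have hstep : ∀ n, σ (n + 1) = σ n + 1 := by
    intro n
    have h1 := hσm (show n < n + 1 by omega)
    by_contra hne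
    have h2 : n < τ (σ n + 1) := by
      rw [← hσm.lt_iff_lt, hστ]
      omega
    have h3 : τ (σ n + 1) < n + 1 := by
      rw [← hσm.lt_iff_lt, hστ]
      omega
    omega
  have hlin : ∀ n, σ n = n + σ 0 := by
    intro n
    induction n using Int.induction_on with
    | zero => simp
    | succ n ih => rw [hstep, ih]; ring
    | pred n ih =>
      have h2 := hstep (-(n : ℤ) - 1)
      rw [sub_add_cancel, ih] at h2
      linarith
  have hbt' : ∀ n, g (bt n) = bt (n + σ 0) := fun n => by rw [hσ, hlin]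
  have hpt' : ∀ n r, ∃ q, g (pt n r) = pt (n + σ 0) q ∧ q - r ∈ A := by
    intro n r
    obtain ⟨m, q, h1, h2⟩ := hpt g hg n r
    refine ⟨q, ?_, h2⟩
    have h3 : bt n < pt n r := bt_lt_pt.2 le_rfl
    have h4 : pt n r < bt (n + 1) := pt_lt_bt.2 (by omega)
    rw [← g.lt_iff_lt, h1, hbt', bt_lt_pt] at h3
    rw [← g.lt_iff_lt, h1, hbt', pt_lt_bt] at h4
    rw [h1, show m = n + σ 0 by omega]
  choose F hF hFA using hpt'
  have hFm : ∀ n, StrictMono (F n) := by
    intro n r r' hr
    have h1 : pt n r < pt n r' := pt_lt_pt.2 (Or.inr ⟨rfl, hr⟩)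
    rw [← g.lt_iff_lt, hF, hF, pt_lt_pt] at h1
    rcases h1 with h1 | h1
    · exact absurd h1 (lt_irrefl _)
    · exact h1.2
  have hFs : ∀ n, Function.Surjective (F n) := by
    intro n q
    obtain ⟨m, r, h1, _⟩ := hpt g⁻¹ hg' (n + σ 0) q
    refine ⟨r, ?_⟩
    have h2 : g (pt m r) = pt (n + σ 0) q := by rw [← h1, app_inv_self]
    rw [hF, pt_inj] at h2
    have h3 : m = n := by omega
    rw [h3] at h2
    exact h2.2
  have hFc : ∀ n, Continuous (F n) := fun n => (hFm n).monotone.continuous_of_surjective (hFs n)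
  have hc : ∀ n r, F n r - r = F n 0 - 0 := fun n r =>
    const_of_countable hA (φ := fun r => F n r - r) ((hFc n).sub continuous_id) (hFA n) r
  refine ⟨σ 0, fun n => F n 0, fun n => by simpa using hFA n 0, hbt', fun n r => ?_⟩
  rw [hF]
  have := hc n r
  congr 1
  linarith

/-- The automorphism with given data. -/
def mkSF (s : ℤ) (f : ℤ → ℝ) : PB ≃o PB where
  toFun x := toLex ((ofLex x).1 + s, (ofLex x).2.map (· + f (ofLex x).1))
  invFun x := toLex ((ofLex x).1 + -s, (ofLex x).2.map (· + -f ((ofLex x).1 + -s)))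
  left_inv x := by
    rcases pb_cases x with ⟨n, rfl⟩ | ⟨n, r, rfl⟩
    · change bt (n + s + -s) = bt n
      rw [add_neg_cancel_right]
    · change pt (n + s + -s) (r + f n + -f (n + s + -s)) = pt n r
      rw [add_neg_cancel_right, add_neg_cancel_right]
  right_inv x := by
    rcases pb_cases x with ⟨n, rfl⟩ | ⟨n, r, rfl⟩
    · change bt (n + -s + s) = bt n
      rw [neg_add_cancel_right]
    · change pt (n + -s + s) (r + -f (n + -s) + f (n + -s)) = pt n r
      rw [neg_add_cancel_right, neg_add_cancel_right]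
  map_rel_iff' := by
    intro x y
    have key : StrictMono fun x : PB =>
        (toLex ((ofLex x).1 + s, (ofLex x).2.map (· + f (ofLex x).1)) : PB) := by
      intro x y hxy
      rcases pb_cases x with ⟨n, rfl⟩ | ⟨n, r, rfl⟩ <;>
        rcases pb_cases y with ⟨m, rfl⟩ | ⟨m, q, rfl⟩
      · change bt (n + s) < bt (m + s)
        rw [bt_lt_bt] at hxy ⊢
        omega
      · change bt (n + s) < pt (m + s) (q + f m)
        rw [bt_lt_pt] at hxy ⊢
        omega
      · change pt (n + s) (r + f n) < bt (m + s)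
        rw [pt_lt_bt] at hxy ⊢
        omega
      · change pt (n + s) (r + f n) < pt (m + s) (q + f m)
        rw [pt_lt_pt] at hxy ⊢
        rcases hxy with h | ⟨rfl, h⟩
        · exact Or.inl (by omega)
        · exact Or.inr ⟨rfl, by linarith⟩
    exact key.le_iff_le

theorem isSF_mk (s : ℤ) (f : ℤ → ℝ) : IsSF (mkSF s f) s f := ⟨fun _ => rfl, fun _ _ => rfl⟩

theorem col_mk {A : AddSubgroup ℝ} {s : ℤ} {f : ℤ → ℝ} (hf : ∀ n, f n ∈ A) (x : PB) :
    col A (mkSF s f x) = col A x := by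
  rcases pb_cases x with ⟨n, rfl⟩ | ⟨n, r, rfl⟩
  · rw [(isSF_mk s f).1, col_bt, col_bt]
  · rw [(isSF_mk s f).2, col_pt, col_pt, Option.some_inj, QuotientAddGroup.eq]
    have h1 : -(r + f n) + r = -f n := by ring
    rw [h1]
    exact A.neg_mem (hf n)

end Pool.Agent.Helper56.QV
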