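import Mathlib
import Pool.Agent.Helper56.QV.RealCol
import Pool.Agent.Helper56.QV.Comp

/-! Continuum many quasi-varieties generated by metabelian automorphism groups of chains. -/

set_option autoImplicit false

namespace Pool.Agent.Helper56.QV

/-- The rational numbers whose denominator is a product of primes in `S`. -/
def AS (S : Set ℕ) : AddSubgroup ℝ where
  carrier := {x | ∃ N : ℕ, N ≠ 0 ∧ (∀ p, p.Prime → p ∣ N → p ∈ S) ∧ ∃ m : ℤ, (N : ℝ) * x = m}
  zero_mem' := ⟨1, one_ne_zero, fun p hp h => absurd (Nat.dvd_one.1 h) hp.one_lt.ne', 0, by simp⟩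
  add_mem' := by
    rintro x y ⟨N, hN, hN', m, hm⟩ ⟨K, hK, hK', k, hk⟩
    refine ⟨N * K, mul_ne_zero hN hK,
      fun p hp h => (hp.dvd_mul.1 h).elim (hN' p hp) (hK' p hp), K * m + N * k, ?_⟩
    push_cast
    rw [← hm, ← hk]
    ring
  neg_mem' := by
    rintro x ⟨N, hN, hN', m, hm⟩
    refine ⟨N, hN, hN', -m, ?_⟩
    push_cast
    rw [← hm]
    ring

theorem mem_AS {S : Set ℕ} {x : ℝ} : x ∈ AS S ↔ ∃ N : ℕ, N ≠ 0 ∧
    (∀ p, p.Prime → p ∣ N → p ∈ S) ∧ ∃ m : ℤ, (N : ℝ) * x = m := Iff.rfl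

theorem AS_countable (S : Set ℕ) : (AS S : Set ℝ).Countable := by
  apply (Set.countable_range ((↑) : ℚ → ℝ)).mono
  rintro x ⟨N, hN, _, m, hm⟩
  refine ⟨(m : ℚ) / (N : ℚ), ?_⟩
  have hN' : (N : ℝ) ≠ 0 := Nat.cast_ne_zero.2 hN
  push_cast
  rw [← hm]
  field_simp

theorem pow_mem_AS {S : Set ℕ} {p : ℕ} (hp : p.Prime) (hS : p ∈ S) (n : ℤ) :
    (p : ℝ) ^ (-n) ∈ AS S := by
  have hp0 : (p : ℝ) ≠ 0 := Nat.cast_ne_zero.2 hp.ne_zero
  rcases le_total 0 n with h | h
  · obtain ⟨k, rfl⟩ := Int.eq_ofNat_of_zero_le h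
    refine ⟨p ^ k, pow_ne_zero _ hp.ne_zero, fun q hq hd => ?_, 1, ?_⟩
    · rw [(Nat.prime_dvd_prime_iff_eq hq hp).1 (hq.dvd_of_dvd_pow hd)]
      exact hS
    · push_cast
      rw [zpow_neg, zpow_natCast, mul_inv_cancel₀ (pow_ne_zero _ hp0)]
  · obtain ⟨k, hk⟩ := Int.eq_ofNat_of_zero_le (show 0 ≤ -n by omega)
    refine ⟨1, one_ne_zero, fun q hq hd => absurd (Nat.dvd_one.1 hd) hq.one_lt.ne', p ^ k, ?_⟩
    rw [hk]
    push_cast
    rw [zpow_natCast, one_mul]

theorem AS_reduced {S : Set ℕ} {p : ℕ} (hp : p.Prime) (hS : p ∉ S) {x : ℝ}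
    (h : ∀ j : ℕ, ∃ y ∈ AS S, x = (p : ℝ) ^ j * y) : x = 0 := by
  obtain ⟨y, ⟨N, hN, _, m, hm⟩, hy⟩ := h 0
  rw [pow_zero, one_mul] at hy
  subst hy
  have hN' : (N : ℝ) ≠ 0 := Nat.cast_ne_zero.2 hN
  have hdiv : ∀ j : ℕ, (p : ℤ) ^ j ∣ m := by
    intro j
    obtain ⟨y, ⟨K, hK, hKS, k, hk⟩, hy⟩ := h j
    have h1 : (K : ℝ) * m = N * p ^ j * k := by
      rw [← hm, ← hk, hy]
      ring
    have h2 : (K : ℤ) * m = N * p ^ j * k := by exact_mod_cast h1
    have h3 : (p : ℤ) ^ j ∣ (K : ℤ) * m := ⟨N * k, by rw [h2]; ring⟩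
    have h4 : IsCoprime ((p : ℤ) ^ j) (K : ℤ) := by
      apply IsCoprime.pow_left
      rw [Nat.isCoprime_iff_coprime]
      rw [hp.coprime_iff_not_dvd]
      exact fun hd => hS (hKS p hp hd)
    exact h4.dvd_of_dvd_mul_left h3
  have hm0 : m = 0 := by
    by_contra hne
    have h1 := Int.le_of_dvd (abs_pos.2 hne) ((dvd_abs _ _).2 (hdiv m.natAbs))
    have h2 : m.natAbs < p ^ m.natAbs := Nat.lt_pow_self hp.one_lt
    have h3 : (m.natAbs : ℤ) < (p : ℤ) ^ m.natAbs := by exact_mod_cast h2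
    rw [Int.natCast_natAbs] at h3
    exact absurd h1 (not_le.2 h3)
  rw [hm0, Int.cast_zero] at hm
  exact (mul_eq_zero.1 hm).resolve_left hN'

/-- The set of colours. -/
def Cw (S : Set ℕ) : Type := Option (ℝ ⧸ AS S)

noncomputable instance (S : Set ℕ) : LinearOrder (Cw S) :=
  (exists_wellFoundedLT (α := Cw S)).choose

instance (S : Set ℕ) : WellFoundedLT (Cw S) := (exists_wellFoundedLT (α := Cw S)).choose_spec

/-- The colouring. -/
def colS (S : Set ℕ) : PB → Cw S := col (AS S)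

/-- The chain. -/
def Ch (S : Set ℕ) : Type := Stk (colS S)

noncomputable instance (S : Set ℕ) : LinearOrder (Ch S) := inferInstanceAs (LinearOrder (Stk _))

section

variable {S : Set ℕ}

/-- Projection to the automorphism group of the base. -/
noncomputable def bh (S : Set ℕ) : (Ch S ≃o Ch S) →* (PB ≃o PB) := Stk.barHom (c := colS S)

theorem bh_injective : Function.Injective (bh S) := Stk.barHom_injective

theorem bh_sf (h : Ch S ≃o Ch S) : ∃ s f, (∀ n, f n ∈ AS S) ∧ IsSF (bh S h) s f :=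
  exists_sf (AS_countable S) (Stk.barHom_mem (c := colS S) h)

theorem exists_lift (s : ℤ) {f : ℤ → ℝ} (hf : ∀ n, f n ∈ AS S) :
    ∃ h : Ch S ≃o Ch S, IsSF (bh S h) s f := by
  refine ⟨Stk.lift (c := colS S) ⟨mkSF s f, col_mk hf⟩, ?_⟩
  have h1 : bh S (Stk.lift (c := colS S) ⟨mkSF s f, col_mk hf⟩) = mkSF s f :=
    Stk.barHom_lift _
  rw [h1]
  exact isSF_mk s f

/-- Automorphisms that do not move the copies. -/
noncomputable def Bs (S : Set ℕ) : Subgroup (Ch S ≃o Ch S) where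
  carrier := {h | ∃ f, IsSF (bh S h) 0 f}
  one_mem' := ⟨_, by rw [map_one]; exact isSF_one⟩
  mul_mem' := by
    rintro g h ⟨f, hf⟩ ⟨k, hk⟩
    exact ⟨_, by rw [map_mul]; exact hf.mul hk⟩
  inv_mem' := by
    rintro g ⟨f, hf⟩
    exact ⟨_, by rw [map_inv]; exact hf.inv⟩

theorem derived_two (S : Set ℕ) : derivedSeries (Ch S ≃o Ch S) 2 = ⊥ := by
  have h1 : derivedSeries (Ch S ≃o Ch S) 1 ≤ Bs S := by
    rw [derivedSeries_succ, derivedSeries_zero, Subgroup.commutator_le]
    intro g _ h _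
    obtain ⟨s, f, _, hg⟩ := bh_sf g
    obtain ⟨t, k, _, hh⟩ := bh_sf h
    have h2 := ((hg.mul hh).mul hg.inv).mul hh.inv
    rw [← map_inv, ← map_inv, ← map_mul, ← map_mul, ← map_mul] at h2
    have h3 : -t + (-s + (t + s)) = 0 := by ring
    rw [h3] at h2
    exact ⟨_, h2⟩
  rw [eq_bot_iff, derivedSeries_succ, Subgroup.commutator_le]
  intro g hg h hh
  obtain ⟨f, hf⟩ := h1 hg
  obtain ⟨k, hk⟩ := h1 hh
  rw [Subgroup.mem_bot, commutatorElement_eq_one_iff_mul_comm]
  apply bh_injective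
  rw [map_mul, map_mul]
  apply (hf.mul hk).ext
  have h2 := hk.mul hf
  have h3 : (fun n => f n + k (n + 0)) = fun n => k n + f (n + 0) := by
    funext n
    rw [add_zero, add_comm]
  rw [h3] at h2
  exact h2

end

/-- Powers of a term. -/
def pwT (t : Tm) : ℕ → Tm
  | 0 => .one
  | n + 1 => .mul (pwT t n) t

theorem eval_pwT {G : Type*} [LGroup G] (x : ℕ → G) (t : Tm) (n : ℕ) :
    (pwT t n).eval x = (t.eval x) ^ n := by
  induction n with
  | zero => rw [pow_zero]; rfl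
  | succ n ih => rw [pow_succ, ← ih]; rfl

/-- The quasi-identity `(y⁻¹ x y)^p = x → x = 1`. -/
def rq (p : ℕ) : QId :=
  ⟨[(pwT (.mul (.inv (.var 1)) (.mul (.var 0) (.var 1))) p, .var 0)], (.var 0, .one)⟩

theorem rq_iff {G : Type*} [LGroup G] (p : ℕ) :
    (rq p).Holds G ↔ ∀ x y : G, (y⁻¹ * (x * y)) ^ p = x → x = 1 := by
  constructor
  · intro h x y hxy
    have h1 := h (fun n => if n = 0 then x else y) (by
      intro e he
      rw [rq, List.mem_singleton] at he
      rw [he, eval_pwT]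
      exact hxy)
    exact h1
  · intro h x hx
    have h1 := hx _ (List.mem_singleton_self _)
    rw [eval_pwT] at h1
    exact h (x 0) (x 1) h1

theorem IsSF.pow {g : PB ≃o PB} {f : ℤ → ℝ} (hg : IsSF g 0 f) (m : ℕ) :
    IsSF (g ^ m) 0 (fun n => m * f n) := by
  induction m with
  | zero =>
    rw [pow_zero]
    convert isSF_one using 1
    funext n
    rw [Nat.cast_zero, zero_mul]
  | succ m ih =>
    rw [pow_succ]
    have h1 := ih.mul hg
    rw [add_zero] at h1
    have h2 : (fun n : ℤ => ((m + 1 : ℕ) : ℝ) * f n) = fun n => f n + m * f (n + 0) := by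
      funext n
      rw [add_zero]
      push_cast
      ring
    rw [h2]
    exact h1

theorem IsSF.pow' {g : PB ≃o PB} {s : ℤ} {f : ℤ → ℝ} (hg : IsSF g s f) (m : ℕ) :
    ∃ f', IsSF (g ^ m) (m * s) f' := by
  induction m with
  | zero => exact ⟨_, by rw [pow_zero, Nat.cast_zero, zero_mul]; exact isSF_one⟩
  | succ m ih =>
    obtain ⟨f', hf'⟩ := ih
    have h1 := hf'.mul hg
    have h2 : s + (m : ℤ) * s = ((m + 1 : ℕ) : ℤ) * s := by push_cast; ring
    rw [h2, ← pow_succ] at h1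
    exact ⟨_, h1⟩

theorem IsSF.conj {g h : PB ≃o PB} {s t : ℤ} {f k : ℤ → ℝ} (hg : IsSF g s f) (hh : IsSF h t k) :
    ∃ f', IsSF (h⁻¹ * (g * h)) s f' := by
  have h1 := hh.inv.mul (hg.mul hh)
  have h2 : t + s + -t = s := by ring
  rw [h2] at h1
  exact ⟨_, h1⟩

theorem IsSF.conj0 {g h : PB ≃o PB} {t : ℤ} {f k : ℤ → ℝ} (hg : IsSF g 0 f) (hh : IsSF h t k) :
    IsSF (h⁻¹ * (g * h)) 0 (fun n => f (n + t)) := by
  convert hh.inv.mul (hg.mul hh) using 1
  · ring
  · funext n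
    simp only [add_zero]
    rw [add_neg_cancel_right]
    ring

theorem rq_holds_iff {S : Set ℕ} {p : ℕ} (hp : p.Prime) :
    (rq p).Holds (Ch S ≃o Ch S) ↔ p ∉ S := by
  rw [rq_iff]
  constructor
  · intro h hS
    have hp0 : (p : ℝ) ≠ 0 := Nat.cast_ne_zero.2 hp.ne_zero
    obtain ⟨x, hx⟩ := exists_lift (S := S) 0 (f := fun n => (p : ℝ) ^ (-n)) (pow_mem_AS hp hS)
    obtain ⟨y, hy⟩ := exists_lift (S := S) 1 (f := fun _ => 0) (fun _ => (AS S).zero_mem)
    have h1 : (y⁻¹ * (x * y)) ^ p = x := by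
      apply bh_injective
      rw [map_pow, map_mul, map_mul, map_inv]
      have h2 := (hx.conj0 hy).pow p
      have h3 : (fun n : ℤ => (p : ℝ) * (p : ℝ) ^ (-(n + 1))) = fun n => (p : ℝ) ^ (-n) := by
        funext n
        rw [neg_add, zpow_add₀ hp0, zpow_neg_one]
        field_simp
      rw [h3] at h2
      exact h2.ext hx
    have h2 := h x y h1
    rw [h2, map_one] at hx
    have h3 := congrFun (isSF_one.uniq hx).2 0
    simp at h3
  · intro hS x y hxy
    obtain ⟨s, f, hfA, hx⟩ := bh_sf x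
    obtain ⟨t, k, _, hy⟩ := bh_sf y
    have h1 : (bh S y)⁻¹ * (bh S x * bh S y) = bh S (y⁻¹ * (x * y)) := by
      rw [map_mul, map_mul, map_inv]
    have hs : s = 0 := by
      obtain ⟨f', hf'⟩ := hx.conj hy
      obtain ⟨f'', hf''⟩ := hf'.pow' p
      rw [h1, ← map_pow, hxy] at hf''
      have h2 := (hx.uniq hf'').1
      have h3 : ((p : ℤ) - 1) * s = 0 := by linarith
      rcases mul_eq_zero.1 h3 with h4 | h4
      · have := hp.one_lt
        omega
      · exact h4
    subst hs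
    have h2 := (hx.conj0 hy).pow p
    rw [h1, ← map_pow, hxy] at h2
    have h3 : ∀ n, f n = p * f (n + t) := fun n => congrFun (hx.uniq h2).2 n
    have h4 : ∀ (j : ℕ) (n : ℤ), f n = (p : ℝ) ^ j * f (n + j * t) := by
      intro j
      induction j with
      | zero => intro n; simp
      | succ j ih =>
        intro n
        rw [ih n, h3]
        push_cast
        rw [pow_succ, show n + (j : ℤ) * t + t = n + ((j : ℤ) + 1) * t by ring]
        ring
    have h5 : f = fun _ => 0 := by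
      funext n
      exact AS_reduced hp hS fun j => ⟨_, hfA _, h4 j n⟩
    rw [h5] at hx
    apply bh_injective
    rw [map_one]
    exact hx.ext isSF_one

theorem countable_qid : Countable QId := QId.code_injective.countable

/-- The quasi-identities that hold in the automorphism group of the chain. -/
def Th (S : Set ℕ) : Set QId := {φ | φ.Holds (Ch S ≃o Ch S)}

theorem rq_mem_Th {S : Set ℕ} {p : ℕ} (hp : p.Prime) : rq p ∈ Th S ↔ p ∉ S := rq_holds_iff hp

theorem Th_injective : Function.Injective fun S : Set Nat.Primes => Th (Subtype.val '' S) := by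
  intro S S' hSS
  have h1 : Th (Subtype.val '' S) = Th (Subtype.val '' S') := hSS
  ext p
  have h2 := rq_mem_Th (S := Subtype.val '' S) p.2
  rw [h1, rq_mem_Th p.2, Subtype.val_injective.mem_set_image,
    Subtype.val_injective.mem_set_image] at h2
  exact (not_iff_not.1 h2).symm

/-- There are continuum many quasi-varieties generated by metabelian `Aut(Ω)`. -/
theorem continuum_many :
    Cardinal.mk {T : Set QId // ∃ (Ω : Type) (_ : LinearOrder Ω),
      derivedSeries (Ω ≃o Ω) 2 = ⊥ ∧ T = {φ | φ.Holds (Ω ≃o Ω)}} = Cardinal.continuum := by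
  have := countable_qid
  apply le_antisymm
  · refine (Cardinal.mk_subtype_le _).trans ?_
    rw [Cardinal.mk_set, ← Cardinal.two_power_aleph0]
    exact Cardinal.power_le_power_left two_ne_zero Cardinal.mk_le_aleph0
  · have h1 : Cardinal.mk (Set Nat.Primes) = Cardinal.continuum := by
      rw [Cardinal.mk_set, Cardinal.mk_eq_aleph0, Cardinal.two_power_aleph0]
    rw [← h1]
    apply Cardinal.mk_le_of_injective
      (f := fun S : Set Nat.Primes => ⟨Th (Subtype.val '' S), Ch (Subtype.val '' S), inferInstance,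
        derived_two _, rfl⟩)
    intro S S' hSS
    exact Th_injective (congrArg Subtype.val hSS)

end Pool.Agent.Helper56.QV
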