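import Mathlib
import Pool.Agent.Helper56.QV.Loc
import Pool.Agent.Helper56.QV.Block
import Pool.Agent.Helper56.QV.DAct

/-! A component that is not cyclic is dense. -/

set_option autoImplicit false

namespace Pool.Agent.Helper56.QV

universe u v w

variable {Ω : Type u} [LinearOrder Ω]

/-- Two consecutive blocks at a point, such that the translates of the smaller one inside the
larger one are densely ordered. -/
structure DCtx (Ω : Type u) [LinearOrder Ω] where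
  ω : Ω
  B : Set Ω
  D : Set Ω
  hB : IsBlk B
  hD : IsBlk D
  ωB : ω ∈ B
  b : Ω ≃o Ω
  hb : D = bump b ω
  pos : ω < b ω
  hbB : b ω ∉ B
  min : ∀ k : Ω ≃o Ω, k ω ∈ D → k ω ∉ B → ω < k ω → bump k ω = D
  dense : ∀ k : Ω ≃o Ω, k ω ∈ D → k ω ∉ B → ω < k ω →
    ∃ k' : Ω ≃o Ω, k' ω ∈ D ∧ k' ω ∉ B ∧ ω < k' ω ∧ k'⁻¹ (k ω) ∉ B ∧ k' ω < k ω

namespace DCtx

variable (X : DCtx Ω)

theorem ωD : X.ω ∈ X.D := by
  rw [X.hb]
  exact self_mem_bump _ _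

/-- The block of `k` is below the block of `k'`. -/
def lt' (k k' : Ω ≃o Ω) : Prop := k X.ω < k' X.ω ∧ k⁻¹ (k' X.ω) ∉ X.B

theorem between {k k' : Ω ≃o Ω} (hk : k X.ω ∈ X.D) (hk' : k' X.ω ∈ X.D) (h : X.lt' k k') :
    ∃ k₁ : Ω ≃o Ω, k₁ X.ω ∈ X.D ∧ X.lt' k k₁ ∧ X.lt' k₁ k' := by
  have h1 : (k⁻¹ * k') X.ω ∈ X.D := by
    rw [mul_app, ← X.hD.mem_iff X.ωD hk, app_inv_self]
    exact hk'
  have h2 : X.ω < (k⁻¹ * k') X.ω := by
    rw [mul_app, ← k.lt_iff_lt, app_inv_self]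
    exact h.1
  obtain ⟨k'', h3, h4, h5, h6, h7⟩ := X.dense (k⁻¹ * k') h1 h.2 h2
  refine ⟨k * k'', ?_, ⟨?_, ?_⟩, ?_, ?_⟩
  · exact (X.hD.mem_iff X.ωD hk _).2 h3
  · exact k.lt_iff_lt.2 h5
  · rw [mul_app, inv_app_self]
    exact h4
  · rw [mul_app, ← (k⁻¹).lt_iff_lt, inv_app_self]
    exact h7
  · rw [mul_inv_rev, mul_app]
    exact h6

/-- Points that are separated from `z` by two blocks. -/
def L (z : Ω) : Set Ω :=
  {x | ∃ k k' : Ω ≃o Ω, k X.ω ∈ X.D ∧ k' X.ω ∈ X.D ∧ x ≤ k X.ω ∧ X.lt' k k' ∧ k' X.ω ≤ z}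

theorem L_mono {z w : Ω} (h : z ≤ w) : X.L z ⊆ X.L w := by
  rintro x ⟨k, k', h1, h2, h3, h4, h5⟩
  exact ⟨k, k', h1, h2, h3, h4, h5.trans h⟩

theorem not_mem_L {z q : Ω} (h : z < q) : q ∉ X.L z := by
  rintro ⟨k, k', h1, h2, h3, h4, h5⟩
  exact absurd (h3.trans_lt (h4.1.trans_le h5)) (not_lt.2 h.le)

theorem L_total (z w : Ω) : X.L z ⊆ X.L w ∨ X.L w ⊆ X.L z := by
  rcases le_total z w with h | h
  · exact Or.inl (X.L_mono h)
  · exact Or.inr (X.L_mono h)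

theorem mem_L_app {s : Ω ≃o Ω} (hs : ∀ z, s z ∈ X.D ↔ z ∈ X.D) {z x : Ω} :
    s x ∈ X.L (s z) ↔ x ∈ X.L z := by
  have hs' : ∀ z, s⁻¹ z ∈ X.D ↔ z ∈ X.D := fun z => by rw [← hs, app_inv_self]
  constructor
  · rintro ⟨k, k', h1, h2, h3, h4, h5⟩
    refine ⟨s⁻¹ * k, s⁻¹ * k', (hs' _).2 h1, (hs' _).2 h2, ?_, ⟨?_, ?_⟩, ?_⟩
    · rw [mul_app, ← s.le_iff_le, app_inv_self]
      exact h3
    · exact (s⁻¹).lt_iff_lt.2 h4.1
    · rw [mul_inv_rev, mul_app, mul_app, inv_inv, app_inv_self]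
      exact h4.2
    · rw [mul_app, ← s.le_iff_le, app_inv_self]
      exact h5
  · rintro ⟨k, k', h1, h2, h3, h4, h5⟩
    refine ⟨s * k, s * k', (hs _).2 h1, (hs _).2 h2, s.le_iff_le.2 h3, ⟨?_, ?_⟩,
      s.le_iff_le.2 h5⟩
    · exact s.lt_iff_lt.2 h4.1
    · rw [mul_inv_rev, mul_app, mul_app, inv_app_self]
      exact h4.2

theorem L_app {s : Ω ≃o Ω} (hs : ∀ z, s z ∈ X.D ↔ z ∈ X.D) (z : Ω) :
    X.L (s z) = s '' X.L z := by
  ext x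
  constructor
  · intro h
    refine ⟨s⁻¹ x, ?_, app_inv_self _ _⟩
    rw [← X.mem_L_app hs, app_inv_self]
    exact h
  · rintro ⟨y, hy, rfl⟩
    exact (X.mem_L_app hs).2 hy

/-- The coordinates. -/
def E : Type u := {A : Set Ω // ∃ z : X.D, X.L z.1 = A}

noncomputable instance : LinearOrder X.E where
  le e f := e.1 ⊆ f.1
  le_refl e := subset_rfl
  le_trans e f g h1 h2 := h1.trans h2
  le_antisymm e f h1 h2 := Subtype.ext (h1.antisymm h2)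
  le_total := by
    rintro ⟨_, z, rfl⟩ ⟨_, w, rfl⟩
    exact X.L_total z.1 w.1
  toDecidableLE := Classical.decRel _

/-- The coordinate of a point. -/
def co (z : X.D) : X.E := ⟨X.L z.1, z, rfl⟩

theorem co_lt {z w : X.D} {q : Ω} (h1 : q ∈ X.L w.1) (h2 : q ∉ X.L z.1) : X.co z < X.co w := by
  rw [lt_iff_not_ge]
  intro h3
  exact h2 (h3 h1)

theorem of_co_lt {z w : X.D} (h : X.co z < X.co w) : ∃ q, q ∈ X.L w.1 ∧ q ∉ X.L z.1 := by
  rw [lt_iff_not_ge] at h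
  exact Set.not_subset.1 h

/-- Translations. -/
def S : Set (Ω ≃o Ω) := {s | ∀ z, s z ∈ X.D ↔ z ∈ X.D}

theorem S_of {k : Ω ≃o Ω} (hk : k X.ω ∈ X.D) : k ∈ X.S := fun z => X.hD.mem_iff X.ωD hk z

theorem S_mul {s t : Ω ≃o Ω} (hs : s ∈ X.S) (ht : t ∈ X.S) : s * t ∈ X.S := fun z => by
  rw [mul_app, hs, ht]

theorem S_inv {s : Ω ≃o Ω} (hs : s ∈ X.S) : s⁻¹ ∈ X.S := fun z => by
  rw [← hs, app_inv_self]

/-- The orbit of a coordinate. -/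
def col (e : X.E) : Set X.E := {f | ∃ s ∈ X.S, f.1 = s '' e.1}

theorem one_image (A : Set Ω) : (1 : Ω ≃o Ω) '' A = A := by
  ext x
  constructor
  · rintro ⟨y, hy, rfl⟩
    exact hy
  · intro h
    exact ⟨x, h, rfl⟩

theorem mul_image (s t : Ω ≃o Ω) (A : Set Ω) : s '' (t '' A) = (s * t) '' A := by
  rw [Set.image_image]
  rfl

theorem col_app {s : Ω ≃o Ω} (hs : s ∈ X.S) (z w : X.D) (hw : w.1 = s z.1) :
    X.col (X.co w) = X.col (X.co z) := by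
  have h1 : (X.co w).1 = s '' (X.co z).1 := by
    change X.L w.1 = s '' X.L z.1
    rw [hw, X.L_app hs]
  ext f
  constructor
  · rintro ⟨t, ht, h2⟩
    refine ⟨t * s, X.S_mul ht hs, ?_⟩
    rw [h2, h1, mul_image]
  · rintro ⟨t, ht, h2⟩
    refine ⟨t * s⁻¹, X.S_mul ht (X.S_inv hs), ?_⟩
    rw [h2, h1, mul_image, inv_mul_cancel_right]

/-- Every point has a translate in a given interval between two blocks. -/
theorem exists_in {k k' : Ω ≃o Ω} (hk : k X.ω ∈ X.D) (hk' : k' X.ω ∈ X.D) (h : X.lt' k k')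
    (z : X.D) : ∃ s ∈ X.S, k X.ω ≤ s z.1 ∧ s z.1 < k' X.ω := by
  set e := k⁻¹ * k' with he
  have h1 : e X.ω ∈ X.D := by
    rw [he, mul_app, ← X.hD.mem_iff X.ωD hk, app_inv_self]
    exact hk'
  have h2 : X.ω < e X.ω := by
    rw [he, mul_app, ← k.lt_iff_lt, app_inv_self]
    exact h.1
  have h3 : bump e X.ω = X.D := X.min e h1 h.2 h2
  have hz : z.1 ∈ bump e X.ω := by rw [h3]; exact z.2
  have hmono := zp_strictMono h2
  have hzh : z.1 ∈ hull (fun n : ℤ => (e ^ n) X.ω) := by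
    obtain ⟨i, j, h4, h5⟩ := hz
    exact ⟨i, j, h4, h5⟩
  obtain ⟨n, h4, h5⟩ := exists_lev hmono hzh
  have heS : e ∈ X.S := X.S_of h1
  have hen : e ^ (-n) ∈ X.S := by
    intro w
    exact zp_mem_iff heS (-n) w
  refine ⟨k * e ^ (-n), X.S_mul (X.S_of hk) hen, ?_, ?_⟩
  · rw [mul_app, k.le_iff_le]
    have := (e ^ (-n)).le_iff_le.2 h4
    rwa [zp_neg_zp] at this
  · have h6 := (e ^ (-n)).lt_iff_lt.2 h5
    rw [zp_add, zp_neg_zp, zpow_one] at h6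
    have h7 := k.lt_iff_lt.2 h6
    rw [he, mul_app k⁻¹ k', app_inv_self] at h7
    rw [mul_app, he]
    exact h7

theorem b_mem (n : ℤ) {z : Ω} : (X.b ^ n) z ∈ X.D ↔ z ∈ X.D := by
  rw [X.hb]
  exact app_mem_bump_iff n

theorem bω_mem (n : ℤ) : (X.b ^ n) X.ω ∈ X.D := (X.b_mem n).2 X.ωD

theorem b_lt (n : ℤ) : X.lt' (X.b ^ n) (X.b ^ (n + 1)) := by
  constructor
  · exact zp_strictMono X.pos (by omega)
  · rw [zp_add, zpow_one, ← zpow_neg, zp_neg_zp]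
    exact X.hbB

theorem dense_E (u : X.E) : DenseCol X.col (X.col u) where
  mid := by
    rintro ⟨_, x, rfl⟩ ⟨_, y, rfl⟩ hxy
    obtain ⟨_, z, rfl⟩ := u
    obtain ⟨p, ⟨k, k', h1, h2, h3, h4, h5⟩, h6⟩ := X.of_co_lt (z := x) (w := y) hxy
    obtain ⟨k₁, g1, g2, g3⟩ := X.between h1 h2 h4
    obtain ⟨k₂, g4, g5, g6⟩ := X.between g1 h2 g3
    obtain ⟨s, hs, g7, g8⟩ := X.exists_in g1 g4 g5 z
    let w : X.D := ⟨s z.1, (hs z.1).2 z.2⟩
    refine ⟨X.co w, ?_, ?_, X.col_app hs z w rfl⟩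
    · exact X.co_lt (z := x) (w := w) (q := p) ⟨k, k₁, h1, g1, h3, g2, g7⟩ h6
    · exact X.co_lt (z := w) (w := y) (q := k₂ X.ω) ⟨k₂, k', g4, h2, le_rfl, g6, h5⟩
        (X.not_mem_L g8)
  up := by
    rintro ⟨_, x, rfl⟩
    obtain ⟨_, z, rfl⟩ := u
    have hx : x.1 ∈ bump X.b X.ω := X.hb ▸ x.2
    have hz : z.1 ∈ bump X.b X.ω := X.hb ▸ z.2
    obtain ⟨n, hn⟩ := exists_zp_lt X.pos (self_mem_bump X.b X.ω) hx
    have h1 : (X.b ^ ((n : ℤ) + 1)) X.ω ∈ bump X.b X.ω := zp_mem_bump _ _ _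
    obtain ⟨m, hm⟩ := exists_zp_lt X.pos hz h1
    have hs : X.b ^ (m : ℤ) ∈ X.S := fun z => X.b_mem _
    let w : X.D := ⟨(X.b ^ (m : ℤ)) z.1, (hs z.1).2 z.2⟩
    refine ⟨X.co w, ?_, X.col_app hs z w rfl⟩
    refine X.co_lt (z := x) (w := w) (q := (X.b ^ (n : ℤ)) X.ω) ?_ (X.not_mem_L hn)
    exact ⟨X.b ^ (n : ℤ), X.b ^ ((n : ℤ) + 1), X.bω_mem _, X.bω_mem _, le_rfl, X.b_lt _, hm.le⟩
  dn := by
    rintro ⟨_, x, rfl⟩
    obtain ⟨_, z, rfl⟩ := u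
    have hx : x.1 ∈ bump X.b X.ω := X.hb ▸ x.2
    have hz : z.1 ∈ bump X.b X.ω := X.hb ▸ z.2
    obtain ⟨n, hn⟩ := exists_lt_zp X.pos (self_mem_bump X.b X.ω) hx
    have h1 : (X.b ^ (-(n : ℤ) - 1)) X.ω ∈ bump X.b X.ω := zp_mem_bump _ _ _
    obtain ⟨m, hm⟩ := exists_lt_zp X.pos hz h1
    have hs : X.b ^ (-(m : ℤ)) ∈ X.S := fun z => X.b_mem _
    let w : X.D := ⟨(X.b ^ (-(m : ℤ))) z.1, (hs z.1).2 z.2⟩
    refine ⟨X.co w, ?_, X.col_app hs z w rfl⟩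
    refine X.co_lt (z := w) (w := x) (q := (X.b ^ (-(n : ℤ) - 1)) X.ω) ?_ (X.not_mem_L hm)
    refine ⟨X.b ^ (-(n : ℤ) - 1), X.b ^ (-(n : ℤ)), X.bω_mem _, X.bω_mem _, le_rfl, ?_, hn.le⟩
    have := X.b_lt (-(n : ℤ) - 1)
    rwa [sub_add_cancel] at this

/-- The dense action. -/
noncomputable def toDAct : DAct Ω X.E (Set X.E) where
  J := X.D
  conv := X.hD.conv
  co := X.co
  mono z w h := X.L_mono h
  surj := by
    rintro ⟨_, z, rfl⟩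
    exact ⟨z, rfl⟩
  pt := ⟨X.ω, X.ωD⟩
  col := X.col
  dense := X.dense_E
  tr e f h := by
    have h1 : f ∈ X.col f := ⟨1, fun z => Iff.rfl, (one_image f.1).symm⟩
    rw [← h] at h1
    obtain ⟨s, hs, h2⟩ := h1
    refine ⟨s, hs, fun z w hw => ?_⟩
    have h3 : (X.co w).1 = s '' (X.co z).1 := by
      change X.L w.1 = s '' X.L z.1
      rw [hw, X.L_app hs]
    constructor
    · intro h4
      apply Subtype.ext
      rw [h3, h4, h2]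
    · intro h4
      apply Subtype.ext
      rw [h4, h2] at h3
      exact (s.injective.image_injective h3).symm

end DCtx

/-- A chain with a dense action contains a copy of the rationals. -/
theorem no_dctx (hd : ¬ HasDyadic Ω) (hs : LocCS Ω) (X : DCtx Ω) : False := by
  have := X.toDAct.countable_or (by
    change X.D.Countable ∨ IsEmpty (ℚ ↪o X.D)
    rw [X.hb]
    exact bump_cs hs _ _)
  obtain ⟨F, hF⟩ := X.toDAct.exists_emb ℚ
  exact hd (hasDyadic_of_emb F hF)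

/-- Components are cyclic. -/
theorem exists_cyclic (hd : ¬ HasDyadic Ω) (hs : LocCS Ω) {ω : Ω} {B D : Set Ω} (hB : IsBlk B)
    (hD : IsBlk D) (hω : ω ∈ B) {b : Ω ≃o Ω} (hb : D = bump b ω) (hbB : b ω ∉ B)
    (hmin : ∀ k : Ω ≃o Ω, k ω ∈ D → k ω ∉ B → bump k ω = D) :
    ∃ c : Ω ≃o Ω, (∀ z ∈ B, ∀ w ∈ B, z < c w) ∧ bump c ω = D ∧
      ∀ k : Ω ≃o Ω, k ω ∈ D → ∃ n : ℤ, (c ^ (-n)) (k ω) ∈ B := by
  -- a positive element
  have hbω : b ω ≠ ω := fun h => hbB (by rw [h]; exact hω)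
  obtain ⟨b', hb', hbb⟩ := exists_pos (f := b) (m := ω) (x := b ω)
    (by simpa using zp_mem_bump b ω 1) hbω
  have hb'm : b' ω ∈ bump b' ω := by simpa using zp_mem_bump b' ω 1
  have hωD : ω ∈ D := by rw [hb]; exact self_mem_bump b ω
  have hb'B : b' ω ∉ B := by
    intro h
    have h1 := hB.bump_sub hω h
    rw [hbb] at h1
    exact hbB (h1 (by simpa using zp_mem_bump b ω 1))
  have hdense : ¬ ∀ k : Ω ≃o Ω, k ω ∈ D → k ω ∉ B → ω < k ω →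
      ∃ k' : Ω ≃o Ω, k' ω ∈ D ∧ k' ω ∉ B ∧ ω < k' ω ∧ k'⁻¹ (k ω) ∉ B ∧ k' ω < k ω := by
    intro h
    exact no_dctx hd hs ⟨ω, B, D, hB, hD, hω, b', by rw [hb, hbb], hb', hb'B,
      fun k h1 h2 _ => hmin k h1 h2, h⟩
  push Not at hdense
  obtain ⟨c, hc1, hc2, hc3, hc4⟩ := hdense
  have hcD : bump c ω = D := hmin c hc1 hc2
  refine ⟨c, hB.off hω hc2 hc3, hcD, ?_⟩
  intro k hk
  have hmono := zp_strictMono hc3
  have hkh : k ω ∈ hull (fun n : ℤ => (c ^ n) ω) := by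
    rw [← hcD] at hk
    obtain ⟨i, j, h4, h5⟩ := hk
    exact ⟨i, j, h4, h5⟩
  obtain ⟨n, h4, h5⟩ := exists_lev hmono hkh
  set k' := c ^ (-n) * k with hk'
  have h6 : k' ω = (c ^ (-n)) (k ω) := rfl
  have h7 : k' ω ∈ D := by
    rw [h6, ← hcD, app_mem_bump_iff, hcD]
    exact hk
  have h8 : k' ω < c ω := by
    have h9 := (c ^ (-n)).lt_iff_lt.2 h5
    rw [zp_add, zp_neg_zp, zpow_one] at h9
    exact h9
  have h9 : ω ≤ k' ω := by
    have h10 := (c ^ (-n)).le_iff_le.2 h4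
    rwa [zp_neg_zp] at h10
  by_cases h10 : k' ω ∈ B
  · exact ⟨n, h10⟩
  · have h11 : ω < k' ω := h9.lt_of_ne fun h => h10 (h ▸ hω)
    have h12 : k'⁻¹ (c ω) ∈ B := by
      by_contra hcon
      exact absurd h8 (not_lt.2 (hc4 k' h7 h10 h11 hcon))
    refine ⟨n + 1, ?_⟩
    have h13 := hB.inv_mem (k := k'⁻¹ * c) hω h12
    rw [mul_inv_rev, inv_inv, mul_app] at h13
    have h14 : (c ^ (-(n + 1))) (k ω) = c⁻¹ (k' ω) := by
      have h15 : -(n + 1) = -1 + -n := by ring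
      rw [h15, zp_add, zpow_neg_one, h6]
    rw [h14]
    exact h13

end Pool.Agent.Helper56.QV
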