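import Mathlib
import Pool.Agent.Helper56.QV.Defs

/-! The wreath powers are defined in the module of definitions. -/
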