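import Mathlib
import Pool.Agent.Helper56.QV.WrDef
import Pool.Agent.Helper56.QV.LHom

/-! The wreath powers of the integers: derived length and embeddings. -/

set_option autoImplicit false

namespace Pool.Agent.Helper56.QV

universe u

open scoped commutatorElement

namespace Wr

variable {G : Type u} [LGroup G]

theorem mul_f (a b : Wr G) (k : ℤ) : (a * b).f k = a.f (k + b.s) * b.f k := rfl
theorem mul_s (a b : Wr G) : (a * b).s = a.s + b.s := rfl
theorem one_f (k : ℤ) : (1 : Wr G).f k = 1 := rfl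
theorem one_s : (1 : Wr G).s = 0 := rfl
theorem inv_f (a : Wr G) (k : ℤ) : (a⁻¹).f k = (a.f (k - a.s))⁻¹ := rfl
theorem inv_s (a : Wr G) : (a⁻¹).s = -a.s := rfl
theorem le_def (a b : Wr G) : a ≤ b ↔ a.s < b.s ∨ a.s = b.s ∧ ∀ k, a.f k ≤ b.f k := Iff.rfl
theorem sup_def (a b : Wr G) : a ⊔ b = if a.s < b.s then b else if b.s < a.s then a else
  ⟨fun k => a.f k ⊔ b.f k, a.s⟩ := rfl
theorem inf_def (a b : Wr G) : a ⊓ b = if a.s < b.s then a else if b.s < a.s then b else
  ⟨fun k => a.f k ⊓ b.f k, a.s⟩ := rfl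

/-- The diagonal embedding. -/
def diag : LHom G (Wr G) where
  toFun g := ⟨fun _ => g, 0⟩
  mul' a b := rfl
  sup' a b := by
    rw [sup_def, if_neg (lt_irrefl _), if_neg (lt_irrefl _)]

theorem diag_injective : Function.Injective (diag : LHom G (Wr G)) := by
  intro a b h
  have := congrArg (fun w : Wr G => w.f 0) h
  exact this

/-- Elements with zero shift and all values in `H`. -/
def base (H : Subgroup G) : Subgroup (Wr G) where
  carrier := {a | a.s = 0 ∧ ∀ k, a.f k ∈ H}
  one_mem' := ⟨rfl, fun k => H.one_mem⟩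
  mul_mem' := by
    rintro a b ⟨h1, h2⟩ ⟨h3, h4⟩
    refine ⟨?_, fun k => ?_⟩
    · rw [mul_s, h1, h3, add_zero]
    · rw [mul_f]
      exact H.mul_mem (h2 _) (h4 _)
  inv_mem' := by
    rintro a ⟨h1, h2⟩
    refine ⟨?_, fun k => ?_⟩
    · rw [inv_s, h1, neg_zero]
    · rw [inv_f]
      exact H.inv_mem (h2 _)

theorem mem_base {H : Subgroup G} {a : Wr G} : a ∈ base H ↔ a.s = 0 ∧ ∀ k, a.f k ∈ H := Iff.rfl

theorem derived_le (i : ℕ) : derivedSeries (Wr G) (i + 1) ≤ base (derivedSeries G i) := by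
  induction i with
  | zero =>
    rw [derivedSeries_succ, Subgroup.commutator_le]
    intro a _ b _
    refine ⟨?_, fun k => Subgroup.mem_top _⟩
    rw [commutatorElement_def]
    simp only [mul_s, inv_s]
    ring
  | succ i ih =>
    rw [derivedSeries_succ, Subgroup.commutator_le]
    intro a ha b hb
    obtain ⟨h1, h2⟩ := ih ha
    obtain ⟨h3, h4⟩ := ih hb
    refine ⟨?_, fun k => ?_⟩
    · rw [commutatorElement_def]
      simp only [mul_s, inv_s]
      omega
    · have h5 : (⁅a, b⁆ : Wr G).f k = ⁅a.f k, b.f k⁆ := by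
        rw [commutatorElement_def, commutatorElement_def]
        simp only [mul_f, inv_f, inv_s, h1, h3]
        simp
      rw [h5, derivedSeries_succ]
      exact Subgroup.commutator_mem_commutator (h2 k) (h4 k)

/-- Values at zero of elements of `D` with zero shift. -/
def val (D : Subgroup (Wr G)) : Subgroup G where
  carrier := {g | ∃ a ∈ D, a.s = 0 ∧ a.f 0 = g}
  one_mem' := ⟨1, D.one_mem, rfl, rfl⟩
  mul_mem' := by
    rintro _ _ ⟨a, ha, h1, rfl⟩ ⟨b, hb, h2, rfl⟩
    refine ⟨a * b, D.mul_mem ha hb, ?_, ?_⟩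
    · rw [mul_s, h1, h2, add_zero]
    · rw [mul_f, h2, add_zero]
  inv_mem' := by
    rintro _ ⟨a, ha, h1, rfl⟩
    refine ⟨a⁻¹, D.inv_mem ha, ?_, ?_⟩
    · rw [inv_s, h1, neg_zero]
    · rw [inv_f, h1, sub_zero]

theorem le_val (i : ℕ) : derivedSeries G i ≤ val (derivedSeries (Wr G) (i + 1)) := by
  induction i with
  | zero =>
    intro g _
    let h : Wr G := ⟨fun k => if 0 ≤ k then g else 1, 0⟩
    let b : Wr G := ⟨fun _ => 1, 1⟩
    refine ⟨⁅h, b⁆, ?_, ?_, ?_⟩
    · rw [derivedSeries_succ]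
      exact Subgroup.commutator_mem_commutator (Subgroup.mem_top _) (Subgroup.mem_top _)
    · rw [commutatorElement_def]
      simp only [mul_s, inv_s]
      ring
    · rw [commutatorElement_def]
      simp only [mul_f, inv_f, mul_s, inv_s, h, b]
      norm_num
  | succ i ih =>
    rw [derivedSeries_succ, Subgroup.commutator_le]
    intro x hx y hy
    obtain ⟨a, ha, h1, rfl⟩ := ih hx
    obtain ⟨b, hb, h2, rfl⟩ := ih hy
    refine ⟨⁅a, b⁆, ?_, ?_, ?_⟩
    · rw [derivedSeries_succ]
      exact Subgroup.commutator_mem_commutator ha hb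
    · rw [commutatorElement_def]
      simp only [mul_s, inv_s]
      omega
    · rw [commutatorElement_def, commutatorElement_def]
      simp only [mul_f, inv_f, inv_s, h1, h2]
      simp

end Wr

theorem derivedSeries_wrPow (n : ℕ) : derivedSeries (WrPow n) n = ⊥ := by
  induction n with
  | zero =>
    rw [eq_bot_iff]
    intro a _
    exact Subgroup.mem_bot.2 (Subsingleton.elim (α := Unit) a _)
  | succ n ih =>
    rw [eq_bot_iff]
    intro a ha
    obtain ⟨h1, h2⟩ := (Wr.derived_le (G := WrPow n) n) ha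
    rw [Subgroup.mem_bot]
    refine Wr.ext (funext fun k => ?_) h1
    have h3 := h2 k
    rw [ih, Subgroup.mem_bot] at h3
    exact h3

theorem derivedSeries_wrPow_ne (n : ℕ) : derivedSeries (WrPow (n + 1)) n ≠ ⊥ := by
  induction n with
  | zero =>
    intro h
    let e : WrPow (0 + 1) := (⟨fun _ => 1, 1⟩ : Wr (WrPow 0))
    have h1 : e ∈ derivedSeries (WrPow (0 + 1)) 0 := Subgroup.mem_top _
    rw [h, Subgroup.mem_bot] at h1
    have h2 := congrArg (fun w : WrPow (0 + 1) => Wr.s (G := WrPow 0) w) h1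
    change (1 : ℤ) = 0 at h2
    norm_num at h2
  | succ n ih =>
    intro h
    apply ih
    rw [eq_bot_iff]
    intro g hg
    obtain ⟨a, ha, h1, rfl⟩ := Wr.le_val (G := WrPow (n + 1)) n hg
    have h2 : derivedSeries (Wr (WrPow (n + 1))) (n + 1) = ⊥ := h
    rw [h2, Subgroup.mem_bot] at ha
    rw [ha]
    exact Subgroup.one_mem _

/-- Embeddings between wreath powers. -/
theorem exists_wrPow_emb {m n : ℕ} (h : m ≤ n) :
    ∃ F : LHom (WrPow m) (WrPow n), Function.Injective F := by
  induction n, h using Nat.le_induction with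
  | base => exact ⟨⟨fun a => a, fun _ _ => rfl, fun _ _ => rfl⟩, fun _ _ h => h⟩
  | succ n _ ih =>
    obtain ⟨F, hF⟩ := ih
    exact ⟨(Wr.diag (G := WrPow n)).comp F, LHom.comp_injective Wr.diag_injective hF⟩

theorem wrPow_holds {m n : ℕ} (h : m ≤ n) {φ : QId} (hφ : φ.Holds (WrPow n)) :
    φ.Holds (WrPow m) := by
  obtain ⟨F, hF⟩ := exists_wrPow_emb h
  exact F.holds hF hφ

/-- Injective homomorphisms and the derived series. -/
theorem derivedSeries_of_emb {G : Type*} {H : Type*} [Group G] [Group H] (F : G →* H)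
    (hF : Function.Injective F) {n : ℕ} (h : derivedSeries H n = ⊥) : derivedSeries G n = ⊥ := by
  rw [eq_bot_iff]
  intro a ha
  have h1 : F a ∈ derivedSeries H n := map_derivedSeries_le_derivedSeries F n ⟨a, ha, rfl⟩
  rw [h, Subgroup.mem_bot] at h1
  exact Subgroup.mem_bot.2 (hF (h1.trans F.map_one.symm))

theorem derivedSeries_anti {G : Type*} [Group G] {m n : ℕ} (h : m ≤ n)
    (hm : derivedSeries G m = ⊥) : derivedSeries G n = ⊥ := by
  rw [eq_bot_iff, ← hm]
  exact derivedSeries_antitone G h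

end Pool.Agent.Helper56.QV
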