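import Mathlib
import Pool.Agent.Helper56.QV.WrSolv
import Pool.Agent.Helper56.QV.Sound

/-! Embedding wreath products into `Aut(Ω)`. -/

set_option autoImplicit false

namespace Pool.Agent.Helper56.QV

universe u v

variable {Ω : Type u} [LinearOrder Ω] {G : Type v} [LGroup G]

/-- The data for the embedding: an embedding of `G` supported on `B`, and an automorphism that
moves `B` above itself. -/
structure WCtx (Ω : Type u) [LinearOrder Ω] (G : Type v) [LGroup G] where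
  F : LHom G (Ω ≃o Ω)
  inj : Function.Injective F
  B : Set Ω
  conv : B.OrdConnected
  supp : ∀ g z, z ∉ B → F g z = z
  c : Ω ≃o Ω
  hc : ∀ z ∈ B, ∀ w ∈ B, z < c w
  ω : Ω
  hω : ω ∈ B

namespace WCtx

variable (X : WCtx Ω G)

theorem F_mem (g : G) {z : Ω} (hz : z ∈ X.B) : X.F g z ∈ X.B := by
  by_contra h
  have h1 := X.supp g _ h
  have h2 := (X.F g).injective h1
  rw [h2] at h
  exact h hz

theorem lv_lt {z w : Ω} (hz : z ∈ X.B) (hw : w ∈ X.B) {n m : ℤ} (h : n < m) :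
    (X.c ^ n) z < (X.c ^ m) w := by
  have h1 : w < X.c w := X.hc w hw w hw
  have h2 : z < (X.c ^ (m - n)) w := by
    refine (X.hc z hz w hw).trans_le ?_
    have := (zp_strictMono h1).monotone (show (1 : ℤ) ≤ m - n by omega)
    simpa using this
  have h3 := (X.c ^ n).lt_iff_lt.2 h2
  rwa [← zp_add, add_sub_cancel] at h3

theorem lv_lt' {z w : Ω} {n m : ℤ} (hz : (X.c ^ (-n)) z ∈ X.B) (hw : (X.c ^ (-m)) w ∈ X.B)
    (h : n < m) : z < w := by
  have := X.lv_lt hz hw h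
  rwa [zp_zp_neg, zp_zp_neg] at this

theorem lv_unique {z : Ω} {n m : ℤ} (hz : (X.c ^ (-n)) z ∈ X.B) (hw : (X.c ^ (-m)) z ∈ X.B) :
    n = m := by
  rcases lt_trichotomy n m with h | h | h
  · exact absurd (X.lv_lt' hz hw h) (lt_irrefl _)
  · exact h
  · exact absurd (X.lv_lt' hw hz h) (lt_irrefl _)

theorem pos : X.ω < X.c X.ω := X.hc _ X.hω _ X.hω

theorem B_sub {z : Ω} (hz : z ∈ X.B) : z ∈ bump X.c X.ω := by
  refine ⟨-1, 1, ?_, ?_⟩
  · rw [zpow_neg_one, ← X.c.le_iff_le, app_inv_self]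
    exact (X.hc _ X.hω _ hz).le
  · rw [zpow_one]
    exact (X.hc _ hz _ X.hω).le

theorem lv_mem {z : Ω} {n : ℤ} (hz : (X.c ^ (-n)) z ∈ X.B) : z ∈ bump X.c X.ω :=
  (app_mem_bump_iff (-n)).1 (X.B_sub hz)

/-- `z` lies in a translate of `B`. -/
def In (z : Ω) : Prop := ∃ n : ℤ, (X.c ^ (-n)) z ∈ X.B

open Classical in
/-- The action of `Wr G`. -/
noncomputable def wa (a : Wr G) (z : Ω) : Ω :=
  if h : X.In z then (X.c ^ (h.choose + a.s)) (X.F (a.f h.choose) ((X.c ^ (-h.choose)) z))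
  else if z ∈ bump X.c X.ω then (X.c ^ a.s) z else z

theorem wa_in (a : Wr G) {z : Ω} {n : ℤ} (hz : (X.c ^ (-n)) z ∈ X.B) :
    X.wa a z = (X.c ^ (n + a.s)) (X.F (a.f n) ((X.c ^ (-n)) z)) := by
  have h : X.In z := ⟨n, hz⟩
  rw [wa, dif_pos h, X.lv_unique h.choose_spec hz]

theorem wa_mid (a : Wr G) {z : Ω} (h : ¬ X.In z) (hz : z ∈ bump X.c X.ω) :
    X.wa a z = (X.c ^ a.s) z := by
  rw [wa, dif_neg h, if_pos hz]

theorem wa_out (a : Wr G) {z : Ω} (hz : z ∉ bump X.c X.ω) : X.wa a z = z := by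
  have h : ¬ X.In z := fun ⟨n, hn⟩ => hz (X.lv_mem hn)
  rw [wa, dif_neg h, if_neg hz]

theorem wa_lv (a : Wr G) {z : Ω} {n : ℤ} (hz : (X.c ^ (-n)) z ∈ X.B) :
    (X.c ^ (-(n + a.s))) (X.wa a z) ∈ X.B := by
  rw [X.wa_in a hz, zp_neg_zp]
  exact X.F_mem _ hz

theorem In_zp {z : Ω} {k : ℤ} : X.In ((X.c ^ k) z) ↔ X.In z := by
  constructor
  · rintro ⟨n, hn⟩
    refine ⟨n - k, ?_⟩
    rw [← zp_add] at hn
    have h : -(n - k) = -n + k := by ring
    rwa [h]
  · rintro ⟨n, hn⟩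
    refine ⟨n + k, ?_⟩
    rw [← zp_add]
    have h : -(n + k) + k = -n := by ring
    rwa [h]

theorem wa_mem (a : Wr G) {z : Ω} (hz : z ∈ bump X.c X.ω) : X.wa a z ∈ bump X.c X.ω := by
  by_cases h : X.In z
  · obtain ⟨n, hn⟩ := h
    exact X.lv_mem (X.wa_lv a hn)
  · rw [X.wa_mid a h hz]
    exact app_mem_bump _ hz

theorem wa_mul (a b : Wr G) (z : Ω) : X.wa (a * b) z = X.wa a (X.wa b z) := by
  by_cases h : X.In z
  · obtain ⟨n, hn⟩ := h
    rw [X.wa_in (a * b) hn, X.wa_in a (X.wa_lv b hn), X.wa_in b hn, zp_neg_zp, Wr.mul_f, Wr.mul_s,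
      X.F.map_mul, mul_app]
    congr 2
    ring
  · by_cases hz : z ∈ bump X.c X.ω
    · rw [X.wa_mid (a * b) h hz, X.wa_mid b h hz, X.wa_mid a (fun h' => h (X.In_zp.1 h'))
        (app_mem_bump _ hz), ← zp_add, Wr.mul_s]
    · rw [X.wa_out (a * b) hz, X.wa_out b hz, X.wa_out a hz]

theorem wa_one (z : Ω) : X.wa 1 z = z := by
  by_cases h : X.In z
  · obtain ⟨n, hn⟩ := h
    rw [X.wa_in 1 hn, Wr.one_f, Wr.one_s, X.F.map_one, one_app, add_zero, zp_zp_neg]
  · by_cases hz : z ∈ bump X.c X.ω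
    · rw [X.wa_mid 1 h hz, Wr.one_s, zpow_zero, one_app]
    · rw [X.wa_out 1 hz]

theorem above {z w : Ω} {n : ℤ} (hz : (X.c ^ (-n)) z ∈ X.B) (hw : (X.c ^ (-n)) w ∉ X.B)
    (h : z < w) {v : Ω} (hv : (X.c ^ (-n)) v ∈ X.B) : v < w := by
  by_contra hc
  push Not at hc
  exact hw (X.conv.out hz hv ⟨((X.c ^ (-n)).lt_iff_lt.2 h).le, (X.c ^ (-n)).le_iff_le.2 hc⟩)

theorem below {z w : Ω} {n : ℤ} (hz : (X.c ^ (-n)) z ∈ X.B) (hw : (X.c ^ (-n)) w ∉ X.B)
    (h : w < z) {v : Ω} (hv : (X.c ^ (-n)) v ∈ X.B) : w < v := by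
  by_contra hc
  push Not at hc
  exact hw (X.conv.out hv hz ⟨(X.c ^ (-n)).le_iff_le.2 hc, ((X.c ^ (-n)).lt_iff_lt.2 h).le⟩)

theorem shift_mem {n s : ℤ} {v : Ω} (h : (X.c ^ (-(n + s))) v ∈ X.B) :
    (X.c ^ (-n)) ((X.c ^ (-s)) v) ∈ X.B := by
  rw [← zp_add]
  have h1 : -n + -s = -(n + s) := by ring
  rwa [h1]

theorem wa_strictMono (a : Wr G) : StrictMono (X.wa a) := by
  intro z w hzw
  by_cases hz : z ∈ bump X.c X.ω
  · by_cases hw : w ∈ bump X.c X.ω
    · by_cases hz' : X.In z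
      · obtain ⟨n, hn⟩ := hz'
        by_cases hw' : X.In w
        · obtain ⟨m, hm⟩ := hw'
          rcases lt_trichotomy n m with h | h | h
          · exact X.lv_lt' (X.wa_lv a hn) (X.wa_lv a hm) (by omega)
          · subst h
            rw [X.wa_in a hn, X.wa_in a hm]
            exact (X.c ^ (n + a.s)).lt_iff_lt.2 ((X.F (a.f n)).lt_iff_lt.2
              ((X.c ^ (-n)).lt_iff_lt.2 hzw))
          · exact absurd hzw (not_lt.2 (X.lv_lt' hm hn h).le)
        · rw [X.wa_mid a hw' hw]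
          have h1 := X.shift_mem (X.wa_lv a hn)
          have h2 : (X.c ^ (-a.s)) (X.wa a z) < w :=
            X.above hn (fun h => hw' ⟨n, h⟩) hzw h1
          have h3 := (X.c ^ a.s).lt_iff_lt.2 h2
          rwa [zp_zp_neg] at h3
      · rw [X.wa_mid a hz' hz]
        by_cases hw' : X.In w
        · obtain ⟨m, hm⟩ := hw'
          have h1 := X.shift_mem (X.wa_lv a hm)
          have h2 : z < (X.c ^ (-a.s)) (X.wa a w) :=
            X.below hm (fun h => hz' ⟨m, h⟩) hzw h1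
          have h3 := (X.c ^ a.s).lt_iff_lt.2 h2
          rwa [zp_zp_neg] at h3
        · rw [X.wa_mid a hw' hw]
          exact (X.c ^ a.s).lt_iff_lt.2 hzw
    · rw [X.wa_out a hw]
      by_contra hc
      push Not at hc
      exact hw (bump_conv hz (X.wa_mem a hz) hzw.le hc)
  · rw [X.wa_out a hz]
    by_cases hw : w ∈ bump X.c X.ω
    · by_contra hc
      push Not at hc
      exact hz (bump_conv (X.wa_mem a hw) hw hc hzw.le)
    · rw [X.wa_out a hw]
      exact hzw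

/-- The automorphism attached to an element of `Wr G`. -/
noncomputable def we (a : Wr G) : Ω ≃o Ω where
  toFun := X.wa a
  invFun := X.wa a⁻¹
  left_inv z := by rw [← wa_mul, inv_mul_cancel, wa_one]
  right_inv z := by rw [← wa_mul, mul_inv_cancel, wa_one]
  map_rel_iff' := (X.wa_strictMono a).le_iff_le

theorem we_app (a : Wr G) (z : Ω) : X.we a z = X.wa a z := rfl

theorem wa_le {a b : Wr G} (h : a.s < b.s) (z : Ω) : X.wa a z ≤ X.wa b z := by
  by_cases hz : z ∈ bump X.c X.ω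
  · by_cases h' : X.In z
    · obtain ⟨n, hn⟩ := h'
      exact (X.lv_lt' (X.wa_lv a hn) (X.wa_lv b hn) (by omega)).le
    · rw [X.wa_mid a h' hz, X.wa_mid b h' hz]
      exact (zp_strictMono (lt_of_mem_bump X.pos hz)).monotone h.le
  · rw [X.wa_out a hz, X.wa_out b hz]

/-- The embedding of `Wr G`. -/
noncomputable def emb : LHom (Wr G) (Ω ≃o Ω) where
  toFun := X.we
  mul' a b := by
    apply OrderIso.ext
    funext z
    exact X.wa_mul a b z
  sup' a b := by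
    apply OrderIso.ext
    funext z
    change X.wa (a ⊔ b) z = max (X.wa a z) (X.wa b z)
    rw [Wr.sup_def]
    by_cases h1 : a.s < b.s
    · rw [if_pos h1, max_eq_right (X.wa_le h1 z)]
    · rw [if_neg h1]
      by_cases h2 : b.s < a.s
      · rw [if_pos h2, max_eq_left (X.wa_le h2 z)]
      · rw [if_neg h2]
        have h3 : a.s = b.s := le_antisymm (not_lt.1 h2) (not_lt.1 h1)
        by_cases h' : X.In z
        · obtain ⟨n, hn⟩ := h'
          rw [X.wa_in _ hn, X.wa_in a hn, X.wa_in b hn, ← h3, X.F.map_sup, sup_app]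
          exact (X.c ^ (n + a.s)).monotone.map_max
        · by_cases hz : z ∈ bump X.c X.ω
          · rw [X.wa_mid _ h' hz, X.wa_mid a h' hz, X.wa_mid b h' hz, ← h3, max_self]
          · rw [X.wa_out _ hz, X.wa_out a hz, X.wa_out b hz, max_self]

theorem emb_injective : Function.Injective X.emb := by
  intro a b hab
  have h1 : ∀ z, X.wa a z = X.wa b z := fun z =>
    congrArg (fun F : Ω ≃o Ω => F z) hab
  have h0 : (X.c ^ (-(0 : ℤ))) X.ω ∈ X.B := by
    rw [neg_zero, zpow_zero]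
    exact X.hω
  have hs : a.s = b.s := by
    have h2 := X.wa_lv a h0
    rw [h1] at h2
    have h3 := X.lv_unique h2 (X.wa_lv b h0)
    omega
  refine Wr.ext (funext fun n => ?_) hs
  apply X.inj
  apply OrderIso.ext
  funext v
  by_cases hv : v ∈ X.B
  · have h4 : (X.c ^ (-n)) ((X.c ^ n) v) ∈ X.B := by
      rw [zp_neg_zp]
      exact hv
    have h5 := h1 ((X.c ^ n) v)
    rw [X.wa_in a h4, X.wa_in b h4, zp_neg_zp, hs] at h5
    exact (X.c ^ (n + b.s)).injective h5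
  · rw [X.supp _ _ hv, X.supp _ _ hv]

theorem emb_supp (a : Wr G) {z : Ω} (hz : z ∉ bump X.c X.ω) : X.emb a z = z := X.wa_out a hz

end WCtx

/-- The `n`-th wreath power embeds into `Aut(Ω)` with support in `B`. -/
def EmbIn (n : ℕ) (B : Set Ω) : Prop :=
  ∃ F : LHom (WrPow n) (Ω ≃o Ω), Function.Injective F ∧ ∀ g z, z ∉ B → F g z = z

theorem embIn_zero (B : Set Ω) : EmbIn 0 B := by
  refine ⟨⟨fun _ => 1, fun _ _ => (mul_one _).symm, fun _ _ => sup_idem _ |>.symm⟩, ?_, ?_⟩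
  · intro a b _
    exact Subsingleton.elim (α := Unit) a b
  · intro g z _
    rfl

theorem embIn_succ {n : ℕ} {B : Set Ω} (hB : B.OrdConnected) {ω : Ω} (hω : ω ∈ B)
    (h : EmbIn n B) {c : Ω ≃o Ω} (hc : ∀ z ∈ B, ∀ w ∈ B, z < c w) :
    EmbIn (n + 1) (bump c ω) := by
  obtain ⟨F, hF, hs⟩ := h
  let X : WCtx Ω (WrPow n) := ⟨F, hF, B, hB, hs, c, hc, ω, hω⟩
  exact ⟨X.emb, X.emb_injective, fun g z hz => X.emb_supp g hz⟩

theorem EmbIn.holds {n : ℕ} {B : Set Ω} (h : EmbIn n B) {φ : QId} (hφ : φ.Holds (Ω ≃o Ω)) :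
    φ.Holds (WrPow n) := by
  obtain ⟨F, hF, _⟩ := h
  exact F.holds hF hφ

theorem EmbIn.derived {n m : ℕ} {B : Set Ω} (h : EmbIn n B)
    (hm : derivedSeries (Ω ≃o Ω) m = ⊥) : n ≤ m := by
  obtain ⟨F, hF, _⟩ := h
  have h1 : derivedSeries (WrPow n) m = ⊥ := derivedSeries_of_emb F.toMonoidHom hF hm
  by_contra hc
  push Not at hc
  obtain ⟨k, rfl⟩ := Nat.exists_eq_succ_of_ne_zero (show n ≠ 0 by omega)
  exact derivedSeries_wrPow_ne k (derivedSeries_anti (by omega) h1)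

end Pool.Agent.Helper56.QV
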