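import Mathlib
import Pool.Agent.Helper56.QV.WrEmb
import Pool.Agent.Helper56.QV.Block

/-! Towers of cyclic blocks at a point and wreath powers. -/

set_option autoImplicit false

namespace Pool.Agent.Helper56.QV

universe u v

variable {Ω : Type u} [LinearOrder Ω]

section lv

variable {B : Set Ω} {c : Ω ≃o Ω}

theorem lv_lt (hc : ∀ z ∈ B, ∀ w ∈ B, z < c w) {z w : Ω} (hz : z ∈ B) (hw : w ∈ B) {n m : ℤ}
    (h : n < m) : (c ^ n) z < (c ^ m) w := by
  have h1 : w < c w := hc w hw w hw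
  have h2 : z < (c ^ (m - n)) w := by
    refine (hc z hz w hw).trans_le ?_
    have := (zp_strictMono h1).monotone (show (1 : ℤ) ≤ m - n by omega)
    simpa using this
  have h3 := (c ^ n).lt_iff_lt.2 h2
  rwa [← zp_add, add_sub_cancel] at h3

theorem lvl_lt (hc : ∀ z ∈ B, ∀ w ∈ B, z < c w) {z w : Ω} {n m : ℤ} (hz : (c ^ (-n)) z ∈ B)
    (hw : (c ^ (-m)) w ∈ B) (h : n < m) : z < w := by
  have := Pool.Agent.Helper56.QV.lv_lt hc hz hw h
  rwa [zp_zp_neg, zp_zp_neg] at this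

theorem lvl_unique (hc : ∀ z ∈ B, ∀ w ∈ B, z < c w) {z : Ω} {n m : ℤ} (hz : (c ^ (-n)) z ∈ B)
    (hw : (c ^ (-m)) z ∈ B) : n = m := by
  rcases lt_trichotomy n m with h | h | h
  · exact absurd (lvl_lt hc hz hw h) (lt_irrefl _)
  · exact h
  · exact absurd (lvl_lt hc hw hz h) (lt_irrefl _)

end lv

/-- Properties of a relation between automorphisms that preserve the block `B` of `ω` and elements
of `G`, which is trivial exactly on the smaller block `N`. -/
structure RelP (ω : Ω) (N B : Set Ω) {G : Type v} [LGroup G] (R : (Ω ≃o Ω) → G → Prop) : Prop where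
  tot : ∀ g : Ω ≃o Ω, g ω ∈ B → ∃ w, R g w
  dom : ∀ g w, R g w → g ω ∈ B
  one : R 1 1
  mul : ∀ g h w v, R g w → R h v → R (g * h) (w * v)
  inv : ∀ g w, R g w → R g⁻¹ w⁻¹
  sup : ∀ g h w v, R g w → R h v → R (g ⊔ h) (w ⊔ v)
  fn : ∀ g w v, R g w → R g v → w = v
  sep : ∀ g h w, R g w → R h w → (h⁻¹ * g) ω ∈ N
  loc : ∀ g h w, (∀ z ∈ B, g z = h z) → R g w → R h w

theorem RelP.inf {ω : Ω} {N B : Set Ω} {G : Type v} [LGroup G] {R : (Ω ≃o Ω) → G → Prop}
    (hR : RelP ω N B R) (g h : Ω ≃o Ω) (w v : G) (h1 : R g w) (h2 : R h v) :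
    R (g ⊓ h) (w ⊓ v) := by
  have h3 := hR.inv _ _ (hR.sup _ _ _ _ (hR.inv _ _ h1) (hR.inv _ _ h2))
  rwa [inv_sup, inv_sup, inv_inv, inv_inv, inv_inv, inv_inv] at h3

theorem relP_base {ω : Ω} {N : Set Ω} (hN : IsBlk N) (hω : ω ∈ N) :
    RelP ω N N (fun (g : Ω ≃o Ω) (_ : WrPow 0) => g ω ∈ N) where
  tot g h := ⟨1, h⟩
  dom g w h := h
  one := hω
  mul g h w v h1 h2 := (hN.mem_iff hω h1 _).2 h2
  inv g w h := hN.inv_mem hω h
  sup g h w v h1 h2 := by
    rw [sup_app]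
    rcases le_total (g ω) (h ω) with h3 | h3
    · rw [max_eq_right h3]; exact h2
    · rw [max_eq_left h3]; exact h1
  fn g w v _ _ := Subsingleton.elim (α := Unit) w v
  sep g h w h1 h2 := by
    have h3 := hN.inv_mem hω h2
    exact (hN.mem_iff hω h3 _).2 h1
  loc g h w h1 h2 := by
    rw [← h1 ω hω]
    exact h2

/-- The relation one level higher. -/
def RS {G : Type v} (R : (Ω ≃o Ω) → G → Prop) (ω : Ω) (D : Set Ω) (c : Ω ≃o Ω) (g : Ω ≃o Ω)
    (a : Wr G) : Prop :=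
  g ω ∈ D ∧ ∀ k : ℤ, R (c ^ (-(k + a.s)) * g * c ^ k) (a.f k)

theorem relP_step {ω : Ω} {N B D : Set Ω} {G : Type v} [LGroup G] {R : (Ω ≃o Ω) → G → Prop}
    (hR : RelP ω N B R) (hB : IsBlk B) (hD : IsBlk D) (hω : ω ∈ B) {c : Ω ≃o Ω}
    (hc : ∀ z ∈ B, ∀ w ∈ B, z < c w) (hcD : bump c ω = D)
    (cyc : ∀ k : Ω ≃o Ω, k ω ∈ D → ∃ n : ℤ, (c ^ (-n)) (k ω) ∈ B) :
    RelP ω N D (RS R ω D c) := by
  have hωD : ω ∈ D := by rw [← hcD]; exact self_mem_bump c ω
  have hcω : ∀ k : ℤ, (c ^ k) ω ∈ D := fun k => by rw [← hcD]; exact zp_mem_bump c ω k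
  have hBD : ∀ z ∈ B, ∀ k : ℤ, (c ^ k) z ∈ D := by
    intro z hz k
    rw [← hcD]
    apply app_mem_bump
    refine ⟨-1, 1, ?_, ?_⟩
    · rw [zpow_neg_one, ← c.le_iff_le, app_inv_self]
      exact (hc _ hω _ hz).le
    · rw [zpow_one]
      exact (hc _ hz _ hω).le
  have hcB : c ω ∉ B := fun h => absurd (hc _ h _ hω) (lt_irrefl _)
  refine ⟨?_, ?_, ?_, ?_, ?_, ?_, ?_, ?_, ?_⟩
  · -- total
    intro g hg
    have h1 : ∀ k : ℤ, ∃ n : ℤ, (c ^ (-n)) ((g * c ^ k) ω) ∈ B := fun k =>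
      cyc (g * c ^ k) ((hD.mem_iff hωD hg _).2 (hcω k))
    choose n hn using h1
    have hlt : ∀ k, n k < n (k + 1) := by
      intro k
      by_contra hc'
      push Not at hc'
      rcases hc'.lt_or_eq with h2 | h2
      · have h3 := lvl_lt hc (hn (k + 1)) (hn k) h2
        have h4 : (c ^ (k + 1)) ω < (c ^ k) ω := g.lt_iff_lt.1 h3
        exact absurd h4 (not_lt.2 ((zp_strictMono (hc _ hω _ hω)).monotone (by omega)))
      · have h3 : (c ^ (-(n k)) * g * c ^ k) ω ∈ B := hn k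
        have h4 : (c ^ (-(n k)) * g * c ^ k) (c ω) ∈ B := by
          have h5 := hn (k + 1)
          rw [h2, mul_app, zp_add, zpow_one] at h5
          exact h5
        exact hcB ((hB.mem_iff hω h3 _).1 h4)
    have hstep : ∀ k, n (k + 1) = n k + 1 := by
      intro k
      by_contra hne
      have h2 : n k + 1 < n (k + 1) := by
        have := hlt k
        omega
      set m := n k + 1 with hm
      have hm0 : (c ^ (-m)) ((c ^ m) ω) ∈ B := by rw [zp_neg_zp]; exact hω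
      have h3 : (g * c ^ k) ω < (c ^ m) ω := lvl_lt hc (hn k) hm0 (by omega)
      have h4 : (c ^ m) ω < (g * c ^ (k + 1)) ω := lvl_lt hc hm0 (hn (k + 1)) h2
      have hg' : g⁻¹ ω ∈ D := hD.inv_mem hωD hg
      obtain ⟨j, hj⟩ := cyc (g⁻¹ * c ^ m) ((hD.mem_iff hωD hg' _).2 (hcω m))
      have h5 : (c ^ k) ω < (g⁻¹ * c ^ m) ω := by
        rw [mul_app, ← g.lt_iff_lt, app_inv_self]
        exact h3
      have h6 : (g⁻¹ * c ^ m) ω < (c ^ (k + 1)) ω := by
        rw [mul_app, ← g.lt_iff_lt, app_inv_self]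
        exact h4
      have hk0 : ∀ i : ℤ, (c ^ (-i)) ((c ^ i) ω) ∈ B := fun i => by rw [zp_neg_zp]; exact hω
      have h7 : k ≤ j := by
        by_contra hc'
        push Not at hc'
        exact absurd (lvl_lt hc hj (hk0 k) hc') (not_lt.2 h5.le)
      have h8 : j ≤ k + 1 := by
        by_contra hc'
        push Not at hc'
        exact absurd (lvl_lt hc (hk0 (k + 1)) hj hc') (not_lt.2 h6.le)
      have h9 : (c ^ (-m)) ((g * c ^ j) ω) ∈ B := by
        have h10 : (c ^ (-j) * (g⁻¹ * c ^ m)) ω ∈ B := hj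
        have h11 := hB.inv_mem hω h10
        have h12 : (c ^ (-j) * (g⁻¹ * c ^ m))⁻¹ = c ^ (-m) * (g * c ^ j) := by group
        rw [h12] at h11
        exact h11
      have h10 := lvl_unique hc h9 (hn j)
      rcases (show j = k ∨ j = k + 1 by omega) with h11 | h11
      · rw [h11] at h10; omega
      · rw [h11] at h10; omega
    have hlin : ∀ k : ℤ, n k = k + n 0 := by
      intro k
      induction k using Int.induction_on with
      | zero => simp
      | succ k ih => rw [hstep, ih]; ring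
      | pred k ih =>
        have h2 := hstep (-(k : ℤ) - 1)
        rw [sub_add_cancel, ih] at h2
        linarith
    have h2 : ∀ k : ℤ, ∃ w, R (c ^ (-(k + n 0)) * g * c ^ k) w := by
      intro k
      apply hR.tot
      have h3 := hn k
      rw [hlin] at h3
      exact h3
    choose w hw using h2
    exact ⟨⟨w, n 0⟩, hg, hw⟩
  · intro g a h
    exact h.1
  · refine ⟨hωD, fun k => ?_⟩
    have h1 : c ^ (-(k + (1 : Wr G).s)) * 1 * c ^ k = 1 := by
      rw [Wr.one_s, add_zero, mul_one, ← zpow_add, neg_add_cancel, zpow_zero]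
    rw [h1, Wr.one_f]
    exact hR.one
  · intro g h a b h1 h2
    refine ⟨(hD.mem_iff hωD h1.1 _).2 h2.1, fun k => ?_⟩
    have h3 := hR.mul _ _ _ _ (h1.2 (k + b.s)) (h2.2 k)
    have h4 : c ^ (-(k + (a * b).s)) * (g * h) * c ^ k =
        c ^ (-(k + b.s + a.s)) * g * c ^ (k + b.s) * (c ^ (-(k + b.s)) * h * c ^ k) := by
      rw [Wr.mul_s]
      have h5 : -(k + (a.s + b.s)) = -(k + b.s + a.s) := by ring
      rw [h5]
      have h6 : c ^ (k + b.s) * c ^ (-(k + b.s)) = 1 := by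
        rw [← zpow_add, add_neg_cancel, zpow_zero]
      calc _ = c ^ (-(k + b.s + a.s)) * g * (1 * h) * c ^ k := by rw [one_mul]; group
        _ = _ := by rw [← h6]; simp only [mul_assoc]
    rw [h4, Wr.mul_f]
    exact h3
  · intro g a h1
    refine ⟨hD.inv_mem hωD h1.1, fun k => ?_⟩
    have h3 := hR.inv _ _ (h1.2 (k - a.s))
    have h4 : c ^ (-(k + (a⁻¹).s)) * g⁻¹ * c ^ k =
        (c ^ (-(k - a.s + a.s)) * g * c ^ (k - a.s))⁻¹ := by
      rw [Wr.inv_s]
      have h5 : -(k + -a.s) = -(k - a.s) := by ring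
      have h6 : -(k - a.s + a.s) = -k := by ring
      rw [h5, h6, mul_inv_rev, mul_inv_rev, ← zpow_neg, ← zpow_neg, neg_neg, mul_assoc]
    rw [h4, Wr.inv_f]
    exact h3
  · intro g h a b h1 h2
    refine ⟨?_, ?_⟩
    · rw [sup_app]
      rcases le_total (g ω) (h ω) with h3 | h3
      · rw [max_eq_right h3]; exact h2.1
      · rw [max_eq_left h3]; exact h1.1
    have key : ∀ (g h : Ω ≃o Ω) (a b : Wr G), RS R ω D c g a → RS R ω D c h b → a.s < b.s →
        ∀ k : ℤ, R (c ^ (-(k + b.s)) * (g ⊔ h) * c ^ k) (b.f k) := by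
      intro g h a b h1 h2 hs k
      refine hR.loc _ _ _ ?_ (h2.2 k)
      intro z hz
      have h3 : (c ^ (-(k + a.s))) (g ((c ^ k) z)) ∈ B :=
        (hB.mem_iff hω (hR.dom _ _ (h1.2 k)) z).2 hz
      have h4 : (c ^ (-(k + b.s))) (h ((c ^ k) z)) ∈ B :=
        (hB.mem_iff hω (hR.dom _ _ (h2.2 k)) z).2 hz
      have h5 : g ((c ^ k) z) < h ((c ^ k) z) := lvl_lt hc h3 h4 (by omega)
      rw [mul_app, mul_app, mul_app, mul_app, sup_app, max_eq_right h5.le]
    intro k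
    rw [Wr.sup_def]
    by_cases h3 : a.s < b.s
    · rw [if_pos h3]
      exact key g h a b h1 h2 h3 k
    · rw [if_neg h3]
      by_cases h4 : b.s < a.s
      · rw [if_pos h4, sup_comm]
        exact key h g b a h2 h1 h4 k
      · rw [if_neg h4]
        have h5 : a.s = b.s := le_antisymm (not_lt.1 h4) (not_lt.1 h3)
        have h6 : c ^ (-(k + a.s)) * (g ⊔ h) * c ^ k =
            (c ^ (-(k + a.s)) * g * c ^ k) ⊔ (c ^ (-(k + b.s)) * h * c ^ k) := by
          rw [mul_sup, sup_mul, h5]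
        change R (c ^ (-(k + a.s)) * (g ⊔ h) * c ^ k) (a.f k ⊔ b.f k)
        rw [h6]
        exact hR.sup _ _ _ _ (h1.2 k) (h2.2 k)
  · intro g a b h1 h2
    have h3 := hR.dom _ _ (h1.2 0)
    have h4 := hR.dom _ _ (h2.2 0)
    rw [zpow_zero, mul_one, mul_app] at h3 h4
    have h5 : a.s = b.s := by
      have := lvl_unique hc h3 h4
      omega
    refine Wr.ext (funext fun k => ?_) h5
    have h6 := h1.2 k
    rw [h5] at h6
    exact hR.fn _ _ _ h6 (h2.2 k)
  · intro g h a h1 h2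
    have h3 := hR.sep _ _ _ (h1.2 0) (h2.2 0)
    have h4 : (c ^ (-(0 + a.s)) * h * c ^ (0 : ℤ))⁻¹ * (c ^ (-(0 + a.s)) * g * c ^ (0 : ℤ)) =
        h⁻¹ * g := by group
    rwa [h4] at h3
  · intro g h a h1 h2
    refine ⟨?_, fun k => ?_⟩
    · rw [← h1 ω hωD]
      exact h2.1
    · refine hR.loc _ _ _ ?_ (h2.2 k)
      intro z hz
      rw [mul_app, mul_app, mul_app, mul_app, h1 _ (hBD z hz k)]

/-- A tower of `m` cyclic blocks between the block `N` and the block `B` of `ω`. -/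
inductive Tow (ω : Ω) (N : Set Ω) : ℕ → Set Ω → Prop
  | zero : Tow ω N 0 N
  | succ {m : ℕ} {B D : Set Ω} (c : Ω ≃o Ω) (h : Tow ω N m B) (hD : IsBlk D)
      (hc : ∀ z ∈ B, ∀ w ∈ B, z < c w) (hcD : bump c ω = D)
      (cyc : ∀ k : Ω ≃o Ω, k ω ∈ D → ∃ n : ℤ, (c ^ (-n)) (k ω) ∈ B) : Tow ω N (m + 1) D

namespace Tow

variable {ω : Ω} {N : Set Ω}

theorem blk (hN : IsBlk N) {m : ℕ} {B : Set Ω} (h : Tow ω N m B) : IsBlk B := by
  cases h with
  | zero => exact hN
  | succ c h hD hc hcD cyc => exact hD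

theorem mem (hω : ω ∈ N) {m : ℕ} {B : Set Ω} (h : Tow ω N m B) : ω ∈ B := by
  cases h with
  | zero => exact hω
  | succ c h hD hc hcD cyc => rw [← hcD]; exact self_mem_bump c ω

theorem exists_rel (hN : IsBlk N) (hω : ω ∈ N) {m : ℕ} {B : Set Ω} (h : Tow ω N m B) :
    ∃ R : (Ω ≃o Ω) → WrPow m → Prop, RelP ω N B R := by
  induction h with
  | zero => exact ⟨_, relP_base hN hω⟩
  | succ c h hD hc hcD cyc ih =>
    obtain ⟨R, hR⟩ := ih
    exact ⟨_, relP_step hR (h.blk hN) hD (h.mem hω) hc hcD cyc⟩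

theorem embIn (hN : IsBlk N) (hω : ω ∈ N) {m : ℕ} {B : Set Ω} (h : Tow ω N m B) :
    EmbIn m B := by
  induction h with
  | zero => exact embIn_zero N
  | succ c h hD hc hcD cyc ih =>
    rw [← hcD]
    exact embIn_succ (h.blk hN).conv (h.mem hω) ih hc

/-- A quasi-identity of the wreath power, applied in `Aut(Ω)` to automorphisms that preserve the
top block, holds up to the bottom block. -/
theorem holds (hN : IsBlk N) (hω : ω ∈ N) {m : ℕ} {B : Set Ω} (h : Tow ω N m B) {φ : QId}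
    (hφ : φ.Holds (WrPow m)) (X : ℕ → (Ω ≃o Ω)) (hX : ∀ i, X i ω ∈ B)
    (hp : ∀ e ∈ φ.prem, e.1.eval X = e.2.eval X) :
    ((φ.concl.2.eval X)⁻¹ * φ.concl.1.eval X) ω ∈ N := by
  obtain ⟨R, hR⟩ := h.exists_rel hN hω
  choose w hw using fun i => hR.tot (X i) (hX i)
  have hev : ∀ t : Tm, R (t.eval X) (t.eval w) := by
    intro t
    induction t with
    | var n => exact hw n
    | one => exact hR.one
    | mul s t ihs iht => exact hR.mul _ _ _ _ ihs iht
    | inv t ih => exact hR.inv _ _ ih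
    | inf s t ihs iht => exact hR.inf _ _ _ _ ihs iht
    | sup s t ihs iht => exact hR.sup _ _ _ _ ihs iht
  have h1 := hφ w (by
    intro e he
    have h2 := hev e.1
    rw [hp e he] at h2
    exact hR.fn _ _ _ h2 (hev e.2))
  have h2 := hev φ.concl.1
  rw [h1] at h2
  exact hR.sep _ _ _ h2 (hev φ.concl.2)

theorem derived (hN : IsBlk N) (hω : ω ∈ N) {m : ℕ} {B : Set Ω} (h : Tow ω N m B)
    (hall : ∀ g : Ω ≃o Ω, g ω ∈ B) {i : ℕ} {g : Ω ≃o Ω} (hg : g ∈ derivedSeries (Ω ≃o Ω) i)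
    (hgN : g ω ∉ N) : derivedSeries (WrPow m) i ≠ ⊥ := by
  obtain ⟨R, hR⟩ := h.exists_rel hN hω
  choose F hF using fun g => hR.tot g (hall g)
  let F' : (Ω ≃o Ω) →* WrPow m :=
    { toFun := F
      map_one' := hR.fn _ _ _ (hF 1) hR.one
      map_mul' := fun a b => hR.fn _ _ _ (hF (a * b)) (hR.mul _ _ _ _ (hF a) (hF b)) }
  intro hbot
  have h1 : F' g ∈ derivedSeries (WrPow m) i :=
    map_derivedSeries_le_derivedSeries F' i ⟨g, hg, rfl⟩
  rw [hbot, Subgroup.mem_bot] at h1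
  have h2 : R g 1 := by
    have := hF g
    rwa [show F g = 1 from h1] at this
  have h3 := hR.sep _ _ _ h2 hR.one
  rw [inv_one, one_mul] at h3
  exact hgN h3

end Tow

end Pool.Agent.Helper56.QV
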