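import Mathlib
import Pool.Agent.Helper56.QV.Tow
import Pool.Agent.Helper56.QV.Dense
import Pool.Agent.Helper56.QV.Dyadic2

/-! Existence of towers. -/

set_option autoImplicit false

namespace Pool.Agent.Helper56.QV

universe u v

variable {Ω : Type u} [LinearOrder Ω]

theorem bump_one (ω : Ω) : bump (1 : Ω ≃o Ω) ω = {ω} := by
  ext z
  constructor
  · intro h
    exact bump_fix (one_app ω) h
  · rintro rfl
    exact self_mem_bump _ _

/-- All bumps at `ω`. -/
def bumpsAt (ω : Ω) : Set (Set Ω) := {C | ∃ k : Ω ≃o Ω, C = bump k ω}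

theorem app_mem_self (k : Ω ≃o Ω) (ω : Ω) : k ω ∈ bump k ω := by simpa using zp_mem_bump k ω 1

theorem app_not_mem_of_ssub (hd : ¬ HasDyadic Ω) {ω : Ω} {g h : Ω ≃o Ω}
    (hs : bump g ω ⊂ bump h ω) : h ω ∉ bump g ω := by
  intro h1
  have h2 := (isBlk_bump hd g ω).bump_sub (self_mem_bump g ω) h1
  exact hs.2 h2

theorem exists_tow (hd : ¬ HasDyadic Ω) (hsc : LocCS Ω) {ω : Ω} (g h : Ω ≃o Ω)
    (hgh : bump g ω ⊆ bump h ω)
    (hfin : {C | C ∈ bumpsAt ω ∧ bump g ω ⊆ C ∧ C ⊆ bump h ω}.Finite) :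
    ∃ m, Tow ω (bump g ω) m (bump h ω) := by
  have key : ∀ (n : ℕ) (k : Ω ≃o Ω) (m : ℕ), bump g ω ⊆ bump k ω → bump k ω ⊆ bump h ω →
      Tow ω (bump g ω) m (bump k ω) →
      {C | C ∈ bumpsAt ω ∧ bump k ω ⊂ C ∧ C ⊆ bump h ω}.ncard = n →
      ∃ m, Tow ω (bump g ω) m (bump h ω) := by
    intro n
    induction n using Nat.strong_induction_on with
    | _ n ih =>
    intro k m hgk hkh htow hcard
    set T := {C | C ∈ bumpsAt ω ∧ bump k ω ⊂ C ∧ C ⊆ bump h ω} with hT
    have hTfin : T.Finite := hfin.subset (fun C hC => ⟨hC.1, hgk.trans hC.2.1.1, hC.2.2⟩)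
    by_cases hk : bump k ω = bump h ω
    · exact ⟨m, hk ▸ htow⟩
    · have hne : T.Nonempty := ⟨bump h ω, ⟨h, rfl⟩, hkh.ssubset_of_ne hk, subset_rfl⟩
      obtain ⟨D, hDT, hDmin⟩ := hTfin.exists_minimal hne
      obtain ⟨⟨b, hb⟩, hkD, hDh⟩ := hDT
      have hDblk : IsBlk D := by rw [hb]; exact isBlk_bump hd b ω
      have hωD : ω ∈ D := by rw [hb]; exact self_mem_bump b ω
      have hmin : ∀ l : Ω ≃o Ω, l ω ∈ D → l ω ∉ bump k ω → bump l ω = D := by
        intro l h1 h2
        have h3 : bump l ω ⊆ D := hDblk.bump_sub hωD h1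
        have h4 : bump k ω ⊂ bump l ω := by
          rcases bump_total hd k l ω with h5 | h5
          · exact ⟨h5, fun h6 => h2 (h6 (app_mem_self l ω))⟩
          · exact absurd (h5 (app_mem_self l ω)) h2
        exact h3.antisymm (hDmin ⟨⟨l, rfl⟩, h4, h3.trans hDh⟩ h3)
      have hbB : b ω ∉ bump k ω := app_not_mem_of_ssub hd (hb ▸ hkD)
      obtain ⟨c, hc1, hc2, hc3⟩ := exists_cyclic hd hsc (isBlk_bump hd k ω) hDblk
        (self_mem_bump k ω) hb hbB hmin
      have htow' : Tow ω (bump g ω) (m + 1) D := Tow.succ c htow hDblk hc1 hc2 hc3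
      have hlt : {C | C ∈ bumpsAt ω ∧ D ⊂ C ∧ C ⊆ bump h ω}.ncard < n := by
        rw [← hcard]
        apply Set.ncard_lt_ncard _ hTfin
        refine ⟨fun C hC => ⟨hC.1, hkD.trans hC.2.1, hC.2.2⟩, fun h1 => ?_⟩
        have h2 : D ∈ {C | C ∈ bumpsAt ω ∧ D ⊂ C ∧ C ⊆ bump h ω} := h1 ⟨⟨b, hb⟩, hkD, hDh⟩
        exact h2.2.1.2 subset_rfl
      rw [hb] at htow' hlt hDh hkD
      exact ih _ hlt b (m + 1) (hgk.trans hkD.1) hDh htow' rfl
  exact key _ g 0 subset_rfl hgh Tow.zero rfl

/-- Many bumps at one point give embeddings of wreath powers. -/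
theorem embIn_of_card (hd : ¬ HasDyadic Ω) {ω : Ω} (k : ℕ) : ∀ (S : Finset (Set Ω)),
    (∀ C ∈ S, C ∈ bumpsAt ω) → S.card = k + 1 → ∃ C ∈ S, EmbIn k C ∧ ∀ C' ∈ S, C' ⊆ C := by
  classical
  induction k with
  | zero =>
    intro S hS hcard
    obtain ⟨C, rfl⟩ := Finset.card_eq_one.1 hcard
    exact ⟨C, Finset.mem_singleton_self C, embIn_zero C, fun C' h => by
      rw [Finset.mem_singleton] at h
      rw [h]⟩
  | succ k ih =>
    intro S hS hcard
    have hne : S.Nonempty := Finset.card_pos.1 (by omega)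
    obtain ⟨C, hC⟩ := S.exists_maximal hne
    have htot : ∀ C' ∈ S, C' ⊆ C := by
      intro C' hC'
      obtain ⟨g, hg⟩ := hS C hC.1
      obtain ⟨g', hg'⟩ := hS C' hC'
      rcases bump_total hd g g' ω with h1 | h1
      · rw [← hg, ← hg'] at h1
        exact hC.2 hC' h1
      · rw [← hg, ← hg'] at h1
        exact h1
    obtain ⟨C', hC', hE, hmax⟩ := ih (S.erase C)
      (fun C' h => hS C' (Finset.mem_of_mem_erase h)) (by
        rw [Finset.card_erase_of_mem hC.1, hcard]
        omega)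
    have hC'S : C' ∈ S := Finset.mem_of_mem_erase hC'
    have hne' : C' ≠ C := Finset.ne_of_mem_erase hC'
    obtain ⟨h, hh⟩ := hS C hC.1
    obtain ⟨g, hg⟩ := hS C' hC'S
    have hss : C' ⊂ C := (htot C' hC'S).ssubset_of_ne hne'
    have hhω : h ω ∉ C' := by
      rw [hg]
      apply app_not_mem_of_ssub hd
      rw [← hg, ← hh]
      exact hss
    have hω : ω ∈ C' := by rw [hg]; exact self_mem_bump g ω
    obtain ⟨h', hh', hbb⟩ := exists_pos (app_mem_self h ω) (fun h1 => hhω (by rw [h1]; exact hω))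
    have hblk : IsBlk C' := by rw [hg]; exact isBlk_bump hd g ω
    have hh'ω : h' ω ∉ C' := by
      rw [hg]
      apply app_not_mem_of_ssub hd
      rw [← hg, hbb, ← hh]
      exact hss
    refine ⟨C, hC.1, ?_, htot⟩
    have h3 := embIn_succ hblk.conv hω hE (hblk.off hω hh'ω hh')
    rwa [hbb, ← hh] at h3

/-- Either `WrPow n` embeds, or there are at most `n` bumps at the point (the trivial one
included). -/
theorem finite_of_not_embIn (hd : ¬ HasDyadic Ω) {ω : Ω} {n : ℕ} (h : ∀ C : Set Ω, ¬ EmbIn n C) :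
    (bumpsAt ω).Finite := by
  by_contra hinf
  obtain ⟨S, hS, hcard⟩ := Set.Infinite.exists_subset_card_eq hinf (n + 1)
  obtain ⟨C, _, hE, _⟩ := embIn_of_card hd n S (fun C hC => hS hC) hcard
  exact h C hE

/-- If there are only finitely many bumps at `ω`, then there is a full tower at `ω`. -/
theorem exists_full_tow (hd : ¬ HasDyadic Ω) (hsc : LocCS Ω) {ω : Ω} (hfin : (bumpsAt ω).Finite) :
    ∃ (m : ℕ) (C : Set Ω), Tow ω {ω} m C ∧ ∀ g : Ω ≃o Ω, g ω ∈ C := by
  obtain ⟨C, hC⟩ := hfin.exists_maximal ⟨bump 1 ω, 1, rfl⟩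
  obtain ⟨h, hh⟩ := hC.1
  have hmax : ∀ g : Ω ≃o Ω, bump g ω ⊆ C := by
    intro g
    rcases bump_total hd g h ω with h1 | h1
    · rw [← hh] at h1
      exact h1
    · rw [← hh] at h1
      exact hC.2 ⟨g, rfl⟩ h1
  obtain ⟨m, hm⟩ := exists_tow hd hsc 1 h (ω := ω) (by rw [← hh]; exact hmax 1)
    (hfin.subset fun C hC => hC.1)
  rw [bump_one, ← hh] at hm
  exact ⟨m, C, hm, fun g => hmax g (app_mem_self g ω)⟩

/-! Chains with many square roots are not solvable. -/

/-- The iterated lexicographic powers of the integers. -/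
def ZC : ℕ → Type
  | 0 => Unit
  | n + 1 => ℤ ×ₗ ZC n

instance instZC : (n : ℕ) → LinearOrder (ZC n)
  | 0 => inferInstanceAs (LinearOrder Unit)
  | n + 1 => @Prod.Lex.instLinearOrder ℤ (ZC n) _ (instZC n)

theorem countable_ZC (n : ℕ) : Countable (ZC n) := by
  induction n with
  | zero => exact inferInstanceAs (Countable Unit)
  | succ n ih => exact inferInstanceAs (Countable (ℤ × ZC n))

theorem nonempty_ZC (n : ℕ) : Nonempty (ZC n) := by
  induction n with
  | zero => exact ⟨()⟩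
  | succ n ih =>
    obtain ⟨a⟩ := ih
    exact ⟨toLex ((0 : ℤ), a)⟩

/-- Shift of the first coordinate. -/
def shiftL (L : Type u) [LinearOrder L] : (ℤ ×ₗ L) ≃o (ℤ ×ₗ L) where
  toFun p := toLex ((ofLex p).1 + 1, (ofLex p).2)
  invFun p := toLex ((ofLex p).1 - 1, (ofLex p).2)
  left_inv p := by simp
  right_inv p := by simp
  map_rel_iff' := by
    intro a b
    simp only [Equiv.coe_fn_mk, Prod.Lex.le_iff, ofLex_toLex]
    constructor
    · rintro (h | ⟨h, h'⟩)
      · exact Or.inl (by omega)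
      · exact Or.inr ⟨by omega, h'⟩
    · rintro (h | ⟨h, h'⟩)
      · exact Or.inl (by omega)
      · exact Or.inr ⟨by omega, h'⟩

/-- Action of `Aut(L)` on the block of zero. -/
def act0 {L : Type u} [LinearOrder L] (g : L ≃o L) : (ℤ ×ₗ L) ≃o (ℤ ×ₗ L) where
  toFun p := toLex ((ofLex p).1, if (ofLex p).1 = 0 then g (ofLex p).2 else (ofLex p).2)
  invFun p := toLex ((ofLex p).1, if (ofLex p).1 = 0 then g.symm (ofLex p).2 else (ofLex p).2)
  left_inv p := by
    by_cases h : (ofLex p).1 = 0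
    · simp [h]
      rw [← h]
      rfl
    · simp [h]
  right_inv p := by
    by_cases h : (ofLex p).1 = 0
    · simp [h]
      rw [← h]
      rfl
    · simp [h]
  map_rel_iff' := by
    intro a b
    simp only [Equiv.coe_fn_mk, Prod.Lex.le_iff, ofLex_toLex]
    constructor
    · rintro (h | ⟨h, h'⟩)
      · exact Or.inl h
      · rw [h] at h'
        by_cases h0 : (ofLex b).1 = 0
        · rw [if_pos h0, if_pos h0, g.le_iff_le] at h'
          exact Or.inr ⟨h, h'⟩
        · rw [if_neg h0, if_neg h0] at h'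
          exact Or.inr ⟨h, h'⟩
    · rintro (h | ⟨h, h'⟩)
      · exact Or.inl h
      · rw [h]
        by_cases h0 : (ofLex b).1 = 0
        · rw [if_pos h0, if_pos h0, g.le_iff_le]
          exact Or.inr ⟨rfl, h'⟩
        · rw [if_neg h0, if_neg h0]
          exact Or.inr ⟨rfl, h'⟩

/-- The embedding of `Aut(L)`. -/
def act0Hom (L : Type u) [LinearOrder L] : LHom (L ≃o L) ((ℤ ×ₗ L) ≃o (ℤ ×ₗ L)) where
  toFun := act0
  mul' g h := by
    apply OrderIso.ext
    funext p
    change toLex _ = toLex _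
    simp only [act0]
    by_cases h0 : (ofLex p).1 = 0
    · simp [h0, mul_app]
    · simp [h0]
  sup' g h := by
    apply OrderIso.ext
    funext p
    rw [sup_app]
    change toLex ((ofLex p).1, if (ofLex p).1 = 0 then (g ⊔ h) (ofLex p).2 else (ofLex p).2) =
      max (toLex ((ofLex p).1, if (ofLex p).1 = 0 then g (ofLex p).2 else (ofLex p).2))
        (toLex ((ofLex p).1, if (ofLex p).1 = 0 then h (ofLex p).2 else (ofLex p).2))
    by_cases h0 : (ofLex p).1 = 0
    · rw [if_pos h0, if_pos h0, if_pos h0, sup_app]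
      rcases le_total (g (ofLex p).2) (h (ofLex p).2) with h1 | h1
      · rw [max_eq_right h1, max_eq_right]
        exact (Prod.Lex.le_iff).2 (Or.inr ⟨rfl, h1⟩)
      · rw [max_eq_left h1, max_eq_left]
        exact (Prod.Lex.le_iff).2 (Or.inr ⟨rfl, h1⟩)
    · rw [if_neg h0, if_neg h0, if_neg h0, max_self]

theorem act0_injective (L : Type u) [LinearOrder L] : Function.Injective (act0Hom L) := by
  intro g h hgh
  apply OrderIso.ext
  funext l
  have h1 := congrArg (fun F : (ℤ ×ₗ L) ≃o (ℤ ×ₗ L) => (ofLex (F (toLex (0, l)))).2) hgh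
  exact h1

theorem wrPow_emb_ZC (n : ℕ) :
    ∃ F : LHom (WrPow n) (ZC n ≃o ZC n), Function.Injective F := by
  induction n with
  | zero =>
    exact ⟨⟨fun _ => 1, fun _ _ => (mul_one _).symm, fun _ _ => (sup_idem _).symm⟩,
      fun a b _ => Subsingleton.elim (α := Unit) a b⟩
  | succ n ih =>
    obtain ⟨F, hF⟩ := ih
    obtain ⟨l⟩ := nonempty_ZC n
    let X : WCtx (ℤ ×ₗ ZC n) (WrPow n) :=
      { F := (act0Hom (ZC n)).comp F
        inj := LHom.comp_injective (act0_injective _) hF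
        B := {p | (ofLex p).1 = 0}
        conv := ⟨by
          intro a ha b hb p hp
          have h1 := (Prod.Lex.le_iff).1 hp.1
          have h2 := (Prod.Lex.le_iff).1 hp.2
          change (ofLex a).1 = 0 at ha
          change (ofLex b).1 = 0 at hb
          change (ofLex p).1 = 0
          rcases h1 with h1 | ⟨h1, _⟩ <;> rcases h2 with h2 | ⟨h2, _⟩ <;> omega⟩
        supp := by
          intro g p hp
          change ¬ (ofLex p).1 = 0 at hp
          change toLex ((ofLex p).1, if (ofLex p).1 = 0 then _ else (ofLex p).2) = p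
          rw [if_neg hp]
          rfl
        c := shiftL (ZC n)
        hc := by
          intro z hz w hw
          change (ofLex z).1 = 0 at hz
          change (ofLex w).1 = 0 at hw
          apply (Prod.Lex.lt_iff).2
          left
          change (ofLex z).1 < (ofLex w).1 + 1
          omega
        ω := toLex (0, l)
        hω := rfl }
    exact ⟨X.emb, X.emb_injective⟩

/-- A countable chain with iterated square roots has a nonsolvable automorphism group. -/
theorem not_solvable_of_dyadic (hs : LocCS Ω) (h : HasDyadic Ω) (n : ℕ) :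
    derivedSeries (Ω ≃o Ω) n ≠ ⊥ := by
  intro hn
  have := countable_ZC (n + 1)
  have := nonempty_ZC (n + 1)
  obtain ⟨F, hF⟩ := exists_emb_of_dyadic hs h (ZC (n + 1))
  obtain ⟨E, hE⟩ := wrPow_emb_ZC (n + 1)
  have h1 := derivedSeries_of_emb (F.comp E).toMonoidHom (LHom.comp_injective hF hE) hn
  exact derivedSeries_wrPow_ne n h1

end Pool.Agent.Helper56.QV
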