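import Mathlib
import Pool.Agent.Helper56.QV.Levels
import Pool.Agent.Helper56.QV.ZPow

/-! Frames: blocks and cyclic components at a point, indexed by the chain of bumps. -/

set_option autoImplicit false

namespace Pool.Agent.Helper56.QV

universe u v

/-- A block of `ω` for every index, and an automorphism that moves the block to the next one. -/
structure Fr (Γ : Type v) [LinearOrder Γ] (Ω : Type u) [LinearOrder Ω] where
  ω : Ω
  M : Γ → Set Ω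
  c : Γ → (Ω ≃o Ω)
  blk : ∀ i, IsBlk (M i)
  mem : ∀ i, ω ∈ M i
  lt : ∀ i, ∀ z ∈ M i, ∀ w ∈ M i, z < c i w
  le : ∀ i z, z ≤ c i z
  supp : ∀ i j, j < i → ∀ z, z ∉ M i → c j z = z
  shift : ∀ i (n : ℤ) (u : Ω ≃o Ω), (c i ^ (-n)) (u ω) ∈ M i →
    ∀ (k : ℤ) z, (c i ^ (-k)) z ∈ M i → (c i ^ (-(k + n))) (u z) ∈ M i
  sep : ∀ u : Ω ≃o Ω, u ω ≠ ω → ∃ i, ∃ n : ℤ, n ≠ 0 ∧ (c i ^ (-n)) (u ω) ∈ M i

section

variable {Ω : Type u} [LinearOrder Ω]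

/-- Automorphisms shift cells. -/
theorem cell_shift {ω : Ω} {B D : Set Ω} (hB : IsBlk B) (hD : IsBlk D) (hω : ω ∈ B) {c : Ω ≃o Ω}
    (hc : ∀ z ∈ B, ∀ w ∈ B, z < c w) (hcD : bump c ω = D)
    (cyc : ∀ k : Ω ≃o Ω, k ω ∈ D → ∃ n : ℤ, (c ^ (-n)) (k ω) ∈ B) {g : Ω ≃o Ω} (hg : g ω ∈ D) :
    ∃ n₀ : ℤ, ∀ k : ℤ, (c ^ (-(k + n₀)) * g * c ^ k) ω ∈ B := by
  have hωD : ω ∈ D := by rw [← hcD]; exact self_mem_bump c ω
  have hcω : ∀ k : ℤ, (c ^ k) ω ∈ D := fun k => by rw [← hcD]; exact zp_mem_bump c ω k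
  have hcB : c ω ∉ B := fun h => absurd (hc _ h _ hω) (lt_irrefl _)
  have h1 : ∀ k : ℤ, ∃ n : ℤ, (c ^ (-n)) ((g * c ^ k) ω) ∈ B := fun k =>
    cyc (g * c ^ k) ((hD.mem_iff hωD hg _).2 (hcω k))
  choose n hn using h1
  have hlt : ∀ k, n k < n (k + 1) := by
    intro k
    by_contra hc'
    push Not at hc'
    rcases hc'.lt_or_eq with h2 | h2
    · have h3 := lvl_lt hc (hn (k + 1)) (hn k) h2
      have h4 : (c ^ (k + 1)) ω < (c ^ k) ω := g.lt_iff_lt.1 h3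
      exact absurd h4 (not_lt.2 ((zp_strictMono (hc _ hω _ hω)).monotone (by omega)))
    · have h3 : (c ^ (-(n k)) * g * c ^ k) ω ∈ B := hn k
      have h4 : (c ^ (-(n k)) * g * c ^ k) (c ω) ∈ B := by
        have h5 := hn (k + 1)
        rw [h2, mul_app, zp_add, zpow_one] at h5
        exact h5
      exact hcB ((hB.mem_iff hω h3 _).1 h4)
  have hstep : ∀ k, n (k + 1) = n k + 1 := by
    intro k
    by_contra hne
    have h2 : n k + 1 < n (k + 1) := by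
      have := hlt k
      omega
    set m := n k + 1 with hm
    have hm0 : (c ^ (-m)) ((c ^ m) ω) ∈ B := by rw [zp_neg_zp]; exact hω
    have h3 : (g * c ^ k) ω < (c ^ m) ω := lvl_lt hc (hn k) hm0 (by omega)
    have h4 : (c ^ m) ω < (g * c ^ (k + 1)) ω := lvl_lt hc hm0 (hn (k + 1)) h2
    have hg' : g⁻¹ ω ∈ D := hD.inv_mem hωD hg
    obtain ⟨j, hj⟩ := cyc (g⁻¹ * c ^ m) ((hD.mem_iff hωD hg' _).2 (hcω m))
    have h5 : (c ^ k) ω < (g⁻¹ * c ^ m) ω := by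
      rw [mul_app, ← g.lt_iff_lt, app_inv_self]
      exact h3
    have h6 : (g⁻¹ * c ^ m) ω < (c ^ (k + 1)) ω := by
      rw [mul_app, ← g.lt_iff_lt, app_inv_self]
      exact h4
    have hk0 : ∀ i : ℤ, (c ^ (-i)) ((c ^ i) ω) ∈ B := fun i => by rw [zp_neg_zp]; exact hω
    have h7 : k ≤ j := by
      by_contra hc'
      push Not at hc'
      exact absurd (lvl_lt hc hj (hk0 k) hc') (not_lt.2 h5.le)
    have h8 : j ≤ k + 1 := by
      by_contra hc'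
      push Not at hc'
      exact absurd (lvl_lt hc (hk0 (k + 1)) hj hc') (not_lt.2 h6.le)
    have h9 : (c ^ (-m)) ((g * c ^ j) ω) ∈ B := by
      have h10 : (c ^ (-j) * (g⁻¹ * c ^ m)) ω ∈ B := hj
      have h11 := hB.inv_mem hω h10
      have h12 : (c ^ (-j) * (g⁻¹ * c ^ m))⁻¹ = c ^ (-m) * (g * c ^ j) := by group
      rw [h12] at h11
      exact h11
    have h10 := lvl_unique hc h9 (hn j)
    rcases (show j = k ∨ j = k + 1 by omega) with h11 | h11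
    · rw [h11] at h10; omega
    · rw [h11] at h10; omega
  have hlin : ∀ k : ℤ, n k = k + n 0 := by
    intro k
    induction k using Int.induction_on with
    | zero => simp
    | succ k ih => rw [hstep, ih]; ring
    | pred k ih =>
      have h2 := hstep (-(k : ℤ) - 1)
      rw [sub_add_cancel, ih] at h2
      linarith
  refine ⟨n 0, fun k => ?_⟩
  have h3 := hn k
  rw [hlin] at h3
  exact h3

theorem shift_of_cyc {ω : Ω} {B D : Set Ω} (hB : IsBlk B) (hD : IsBlk D) (hω : ω ∈ B) {c : Ω ≃o Ω}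
    (hc : ∀ z ∈ B, ∀ w ∈ B, z < c w) (hcD : bump c ω = D)
    (cyc : ∀ k : Ω ≃o Ω, k ω ∈ D → ∃ n : ℤ, (c ^ (-n)) (k ω) ∈ B) {n : ℤ} {u : Ω ≃o Ω}
    (hu : (c ^ (-n)) (u ω) ∈ B) (k : ℤ) {z : Ω} (hz : (c ^ (-k)) z ∈ B) :
    (c ^ (-(k + n))) (u z) ∈ B := by
  have hBD : ∀ z ∈ B, z ∈ D := by
    intro z hz
    rw [← hcD]
    refine ⟨-1, 1, ?_, ?_⟩
    · rw [zpow_neg_one, ← c.le_iff_le, app_inv_self]
      exact (hc _ hω _ hz).le
    · rw [zpow_one]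
      exact (hc _ hz _ hω).le
  have huD : u ω ∈ D := by
    have h1 := hBD _ hu
    rw [← hcD] at h1 ⊢
    exact (app_mem_bump_iff (-n)).1 h1
  obtain ⟨n₀, hn₀⟩ := cell_shift hB hD hω hc hcD cyc huD
  have h1 : n₀ = n := by
    have h2 := hn₀ 0
    rw [zpow_zero, mul_one, zero_add, mul_app] at h2
    exact lvl_unique hc h2 hu
  subst h1
  have h2 := hB.blk _ _ _ hω (hn₀ k) hz
  rwa [mul_app, mul_app, zp_zp_neg] at h2

/-- The union of a chain of blocks is a block. -/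
theorem isBlk_sUnion {A : Set (Set Ω)} (hA : ∀ B ∈ A, IsBlk B)
    (hch : ∀ B ∈ A, ∀ C ∈ A, B ⊆ C ∨ C ⊆ B) : IsBlk (⋃₀ A) := by
  have key : ∀ x ∈ ⋃₀ A, ∀ y ∈ ⋃₀ A, ∃ B ∈ A, x ∈ B ∧ y ∈ B := by
    rintro x ⟨B, hB, hx⟩ y ⟨C, hC, hy⟩
    rcases hch B hB C hC with h | h
    · exact ⟨C, hC, h hx, hy⟩
    · exact ⟨B, hB, hx, h hy⟩
  constructor
  · constructor
    intro x hx y hy z hz
    obtain ⟨B, hB, h1, h2⟩ := key x hx y hy
    exact ⟨B, hB, (hA B hB).conv.out h1 h2 hz⟩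
  · intro k z w hz hkz hw
    obtain ⟨B, hB, h1, h2⟩ := key z hz _ hkz
    obtain ⟨C, hC, hw⟩ := hw
    rcases hch B hB C hC with h | h
    · exact ⟨C, hC, (hA C hC).blk k z w (h h1) (h h2) hw⟩
    · exact ⟨B, hB, (hA B hB).blk k z w h1 h2 (h hw)⟩

/-- The blocks of `ω` below a level. -/
def lowBlk {ω : Ω} (C : Lev ω) : Set Ω := ⋃₀ {A | A = {ω} ∨ ∃ C' : Lev ω, C'.1 ⊂ C.1 ∧ A = C'.1}

theorem Lev.isBlk (h : ¬ HasDyadic Ω) {ω : Ω} (C : Lev ω) : IsBlk C.1 := by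
  obtain ⟨g, _, hg⟩ := C.2
  rw [hg]
  exact isBlk_bump h g ω

theorem Lev.mem {ω : Ω} (C : Lev ω) : ω ∈ C.1 := by
  obtain ⟨g, _, hg⟩ := C.2
  rw [hg]
  exact self_mem_bump g ω

theorem Lev.total (h : ¬ HasDyadic Ω) {ω : Ω} (C D : Lev ω) : C.1 ⊆ D.1 ∨ D.1 ⊆ C.1 := by
  obtain ⟨g, _, hg⟩ := C.2
  obtain ⟨f, _, hf⟩ := D.2
  rw [hg, hf]
  exact bump_total h g f ω

theorem isBlk_lowBlk (h : ¬ HasDyadic Ω) {ω : Ω} (C : Lev ω) : IsBlk (lowBlk C) := by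
  apply isBlk_sUnion
  · rintro B (rfl | ⟨C', _, rfl⟩)
    · exact isBlk_singleton ω
    · exact C'.isBlk h
  · rintro B (rfl | ⟨C', _, rfl⟩) D (rfl | ⟨D', _, rfl⟩)
    · exact Or.inl subset_rfl
    · exact Or.inl (Set.singleton_subset_iff.2 D'.mem)
    · exact Or.inr (Set.singleton_subset_iff.2 C'.mem)
    · exact C'.total h D'

theorem mem_lowBlk {ω : Ω} (C : Lev ω) : ω ∈ lowBlk C := ⟨{ω}, Or.inl rfl, rfl⟩

theorem lowBlk_sub {ω : Ω} (C : Lev ω) : lowBlk C ⊆ C.1 := by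
  rintro z ⟨A, rfl | ⟨C', h, rfl⟩, hz⟩
  · rw [Set.mem_singleton_iff.1 hz]
    exact C.mem
  · exact h.1 hz

theorem app_not_mem_lowBlk (h : ¬ HasDyadic Ω) {ω : Ω} (C : Lev ω) {g : Ω ≃o Ω} (hg : g ω ≠ ω)
    (hC : C.1 = bump g ω) : g ω ∉ lowBlk C := by
  rintro ⟨A, rfl | ⟨C', h', rfl⟩, hz⟩
  · exact hg hz
  · have h1 := (C'.isBlk h).bump_sub C'.mem hz
    rw [← hC] at h1
    exact h'.2 h1

theorem exists_cell (h : ¬ HasDyadic Ω) (hsc : LocCS Ω) {ω : Ω} (C : Lev ω) :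
    ∃ c : Ω ≃o Ω, (∀ z ∈ lowBlk C, ∀ w ∈ lowBlk C, z < c w) ∧ bump c ω = C.1 ∧
      (∀ k : Ω ≃o Ω, k ω ∈ C.1 → ∃ n : ℤ, (c ^ (-n)) (k ω) ∈ lowBlk C) ∧
      (∀ z, z ≤ c z) ∧ ∀ z, z ∉ C.1 → c z = z := by
  obtain ⟨g, hg, hC⟩ := C.2
  obtain ⟨c, h1, h2, h3⟩ := exists_cyclic h hsc (isBlk_lowBlk h C) (C.isBlk h) (mem_lowBlk C) hC
    (app_not_mem_lowBlk h C hg hC) (by
      intro k hk1 hk2
      have h4 := (C.isBlk h).bump_sub C.mem hk1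
      by_contra hne
      have hkω : k ω ≠ ω := fun h5 => hk2 (by rw [h5]; exact mem_lowBlk C)
      exact hk2 ⟨bump k ω, Or.inr ⟨⟨bump k ω, k, hkω, rfl⟩, h4.ssubset_of_ne hne, rfl⟩,
        app_mem_self k ω⟩)
  have hpos : ω < c ω := h1 _ (mem_lowBlk C) _ (mem_lowBlk C)
  have hin : ∀ z ∈ C.1, ∀ n : ℤ, (loc c ω ^ n) z = (c ^ n) z := by
    intro z hz n
    rw [← h2] at hz
    exact loc_zp_mem hz n
  refine ⟨loc c ω, ?_, ?_, ?_, ?_, ?_⟩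
  · intro z hz w hw
    have h4 := hin w (lowBlk_sub C hw) 1
    rw [zpow_one, zpow_one] at h4
    rw [h4]
    exact h1 z hz w hw
  · rw [bump_loc, h2]
  · intro k hk
    obtain ⟨n, hn⟩ := h3 k hk
    exact ⟨n, by rw [hin _ hk]; exact hn⟩
  · intro z
    by_cases hz : z ∈ bump c ω
    · rw [loc_mem hz]
      exact (lt_of_mem_bump hpos hz).le
    · rw [loc_not_mem hz]
  · intro z hz
    rw [← h2] at hz
    exact loc_not_mem hz

/-- The frame at a point. -/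
theorem exists_frame (h : ¬ HasDyadic Ω) (hsc : LocCS Ω) (ω : Ω) :
    letI := levOrder h ω
    ∃ X : Fr (Lev ω) Ω, X.ω = ω := by
  letI := levOrder h ω
  choose c h1 h2 h3 h4 h5 using fun C : Lev ω => exists_cell h hsc C
  refine ⟨⟨ω, lowBlk, c, fun C => isBlk_lowBlk h C, fun C => mem_lowBlk C, h1, h4, ?_, ?_, ?_⟩, rfl⟩
  · intro i j hij z hz
    apply h5
    intro hzj
    have hlt : j.1 ⊂ i.1 := ⟨(le_of_lt hij : j ≤ i), fun h6 => absurd hij (not_lt.2 h6)⟩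
    exact hz ⟨j.1, Or.inr ⟨j, hlt, rfl⟩, hzj⟩
  · intro i n u hu k z hz
    exact shift_of_cyc (isBlk_lowBlk h i) (i.isBlk h) (mem_lowBlk i) (h1 i) (h2 i) (h3 i) hu k hz
  · intro u hu
    let C : Lev ω := ⟨bump u ω, u, hu, rfl⟩
    obtain ⟨n, hn⟩ := h3 C u (app_mem_self u ω)
    refine ⟨C, n, ?_, hn⟩
    rintro rfl
    rw [neg_zero, zpow_zero, one_app] at hn
    exact app_not_mem_lowBlk h C hu rfl hn

end

end Pool.Agent.Helper56.QV
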