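import Mathlib
import Pool.Agent.Helper56.QV.Frame

/-! The wreath power embeds in `Aut(Ω)`. -/

set_option autoImplicit false

namespace Pool.Agent.Helper56.QV

universe u v

namespace Fr

variable {Γ : Type v} [LinearOrder Γ] {Ω : Type u} [LinearOrder Ω] (X : Fr Γ Ω)

/-- `u` shifts the cells of level `i` by `d n`, and it is a power of `c i` outside the cells whose
number is a multiple of `d`. -/
structure Q (d : ℤ) (i : Γ) (n : ℤ) (u : Ω ≃o Ω) : Prop where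
  near : (X.c i ^ (-(d * n))) (u X.ω) ∈ X.M i
  out : ∀ r, (∀ m : ℤ, (X.c i ^ (-(d * m))) r ∉ X.M i) → u r = (X.c i ^ (d * n)) r

/-- A family of automorphisms indexed by `FZ Γ`. -/
def Good (d : ℤ) (G : FZ Γ → (Ω ≃o Ω)) : Prop :=
  ∀ x y i n, n ≠ 0 → Dif i n x y → X.Q d i n ((G x)⁻¹ * G y)

/-- `r` is not in the cells with nonzero number divisible by `d`. -/
def Froz (d : ℤ) (r : Ω) : Prop := ∀ i (m : ℤ), m ≠ 0 → (X.c i ^ (-(d * m))) r ∉ X.M i

variable {X} {d : ℤ}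

theorem Q.inv_out {i : Γ} {n : ℤ} {u : Ω ≃o Ω} (h : X.Q d i n u) {r : Ω}
    (hr : ∀ m : ℤ, (X.c i ^ (-(d * m))) r ∉ X.M i) : u⁻¹ r = (X.c i ^ (-(d * n))) r := by
  have h1 : u ((X.c i ^ (-(d * n))) r) = r := by
    rw [h.out, zp_zp_neg]
    intro m hm
    rw [← zp_add] at hm
    apply hr (m + n)
    have : -(d * (m + n)) = -(d * m) + -(d * n) := by ring
    rwa [this]
  calc u⁻¹ r = u⁻¹ (u ((X.c i ^ (-(d * n))) r)) := by rw [h1]
    _ = _ := inv_app_self _ _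

theorem Q.cell {i : Γ} {n : ℤ} {u : Ω ≃o Ω} (h : X.Q d i n u) (k : ℤ) {z : Ω}
    (hz : (X.c i ^ (-(d * k))) z ∈ X.M i) : (X.c i ^ (-(d * (k + n)))) (u z) ∈ X.M i := by
  have h1 := X.shift i (d * n) u h.near (d * k) z hz
  rwa [mul_add]

theorem Q.cell0 {i : Γ} {n : ℤ} {u : Ω ≃o Ω} (h : X.Q d i n u) {z : Ω}
    (hz : z ∈ X.M i) : (X.c i ^ (-(d * n))) (u z) ∈ X.M i := by
  have h1 := h.cell 0 (z := z) (by rw [mul_zero, neg_zero, zpow_zero]; exact hz)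
  rwa [zero_add] at h1

theorem Froz.zero {r : Ω} (hr : X.Froz d r) {i : Γ} {m : ℤ}
    (h : (X.c i ^ (-(d * m))) r ∈ X.M i) : r ∈ X.M i := by
  by_cases hm : m = 0
  · rw [hm, mul_zero, neg_zero, zpow_zero] at h
    exact h
  · exact absurd h (hr i m hm)

theorem mem0 {i : Γ} {r : Ω} (h : r ∈ X.M i) : (X.c i ^ (-(0 : ℤ))) r ∈ X.M i := by
  rw [neg_zero, zpow_zero]
  exact h

theorem key_lt (hd : 0 < d) {i : Γ} {n : ℤ} (hn : n ≠ 0) {u u' : Ω ≃o Ω} (hu : X.Q d i n u)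
    (hu' : X.Q d i n u') {r s : Ω} (hr : X.Froz d r) (hs : X.Froz d s) (h : r < u s) :
    r < u' s := by
  by_cases hs1 : ∃ m : ℤ, (X.c i ^ (-(d * m))) s ∈ X.M i
  · obtain ⟨m, hm⟩ := hs1
    have hsM := hs.zero hm
    have h1 := hu.cell0 hsM
    have h2 := hu'.cell0 hsM
    by_cases hr1 : ∃ m : ℤ, (X.c i ^ (-(d * m))) r ∈ X.M i
    · obtain ⟨l, hl⟩ := hr1
      have hrM := hr.zero hl
      have hne : d * n ≠ 0 := mul_ne_zero hd.ne' hn
      rcases lt_or_gt_of_ne hne with h3 | h3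
      · exact absurd (lvl_lt (X.lt i) h1 (mem0 hrM) h3) (not_lt.2 h.le)
      · exact lvl_lt (X.lt i) (mem0 hrM) h2 h3
    · push Not at hr1
      have h3 : u⁻¹ r < s := by rw [← u.lt_iff_lt, app_inv_self]; exact h
      rw [← u'⁻¹.lt_iff_lt, inv_app_self, hu'.inv_out hr1, ← hu.inv_out hr1]
      exact h3
  · push Not at hs1
    rw [hu'.out s hs1, ← hu.out s hs1]
    exact h

theorem G_lt (hd : 0 < d) {G : FZ Γ → (Ω ≃o Ω)} (hG : X.Good d G) {x y x' y' : FZ Γ} {r s : Ω}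
    (hr : X.Froz d r) (hs : X.Froz d s)
    (hrel : (x = y ∧ x' = y') ∨ ∃ i n, n ≠ 0 ∧ Dif i n x y ∧ Dif i n x' y')
    (h : G x r < G y s) : G x' r < G y' s := by
  rcases hrel with ⟨rfl, rfl⟩ | ⟨i, n, hn, h1, h2⟩
  · exact (G x').lt_iff_lt.2 ((G x).lt_iff_lt.1 h)
  · have h3 : r < ((G x)⁻¹ * G y) s := by
      rw [mul_app, ← (G x).lt_iff_lt, app_inv_self]
      exact h
    have h4 := key_lt hd hn (hG _ _ _ _ hn h1) (hG _ _ _ _ hn h2) hr hs h3
    rw [mul_app, ← (G x').lt_iff_lt, app_inv_self] at h4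
    exact h4

theorem G_eq (hd : 0 < d) {G : FZ Γ → (Ω ≃o Ω)} (hG : X.Good d G) {x y x' y' : FZ Γ} {r s : Ω}
    (hr : X.Froz d r) (hs : X.Froz d s)
    (hrel : (x = y ∧ x' = y') ∨ ∃ i n, n ≠ 0 ∧ Dif i n x y ∧ Dif i n x' y')
    (h : G x r = G y s) : G x' r = G y' s := by
  rcases lt_trichotomy (G x' r) (G y' s) with h1 | h1 | h1
  · have h2 := G_lt hd hG hr hs (x := x') (y := y') (x' := x) (y' := y) (by
      rcases hrel with ⟨h3, h4⟩ | ⟨i, n, hn, h3, h4⟩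
      · exact Or.inl ⟨h4, h3⟩
      · exact Or.inr ⟨i, n, hn, h4, h3⟩) h1
    exact absurd h h2.ne
  · exact h1
  · have h2 := G_lt hd hG hs hr (x := y') (y := x') (x' := y) (y' := x) (by
      rcases hrel with ⟨h3, h4⟩ | ⟨i, n, hn, h3, h4⟩
      · exact Or.inl ⟨h4.symm, h3.symm⟩
      · exact Or.inr ⟨i, -n, neg_ne_zero.2 hn, h4.symm, h3.symm⟩) h1
    exact absurd h h2.ne'

theorem rel_of_mem (h : ZPow Γ) (x y : FZ Γ) :
    (x = y ∧ h.1 x = h.1 y) ∨ ∃ i n, n ≠ 0 ∧ Dif i n x y ∧ Dif i n (h.1 x) (h.1 y) := by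
  by_cases hxy : x = y
  · exact Or.inl ⟨hxy, by rw [hxy]⟩
  · obtain ⟨i, n, hn, h1⟩ := exists_dif hxy
    exact Or.inr ⟨i, n, hn, h1, mem_zpow.1 h.2 _ _ _ _ h1⟩

section act

variable (G : FZ Γ → (Ω ≃o Ω)) (hF : ∀ z, ∃ x, X.Froz d ((G x)⁻¹ z))

/-- The action of the wreath power on `Ω`. -/
noncomputable def act (h : ZPow Γ) (z : Ω) : Ω :=
  G (h.1 (hF z).choose) ((G (hF z).choose)⁻¹ z)

variable {G}

theorem act_eq (hd : 0 < d) (hG : X.Good d G) (h : ZPow Γ) {x : FZ Γ} {r : Ω}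
    (hr : X.Froz d r) : act G hF h (G x r) = G (h.1 x) r := by
  unfold act
  refine G_eq hd hG (hF (G x r)).choose_spec hr (rel_of_mem h _ _) ?_
  rw [app_inv_self]

include hF in
theorem exists_rep (z : Ω) : ∃ x r, X.Froz d r ∧ z = G x r := by
  obtain ⟨x, hx⟩ := hF z
  exact ⟨x, _, hx, (app_inv_self _ _).symm⟩

theorem act_mul (hd : 0 < d) (hG : X.Good d G) (h k : ZPow Γ) (z : Ω) :
    act G hF (h * k) z = act G hF h (act G hF k z) := by
  obtain ⟨x, r, hr, rfl⟩ := exists_rep hF z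
  rw [act_eq hF hd hG _ hr, act_eq hF hd hG _ hr, act_eq hF hd hG _ hr]
  rfl

theorem act_one (hd : 0 < d) (hG : X.Good d G) (z : Ω) : act G hF 1 z = z := by
  obtain ⟨x, r, hr, rfl⟩ := exists_rep hF z
  rw [act_eq hF hd hG _ hr]
  rfl

theorem act_strictMono (hd : 0 < d) (hG : X.Good d G) (h : ZPow Γ) :
    StrictMono (act G hF h) := by
  intro z w hzw
  obtain ⟨x, r, hr, rfl⟩ := exists_rep hF z
  obtain ⟨y, s, hs, rfl⟩ := exists_rep hF w
  rw [act_eq hF hd hG _ hr, act_eq hF hd hG _ hs]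
  exact G_lt hd hG hr hs (rel_of_mem h _ _) hzw

theorem zp_le (i : Γ) (z : Ω) {n : ℤ} (hn : 0 ≤ n) : z ≤ (X.c i ^ n) z := by
  obtain ⟨m, rfl⟩ := Int.eq_ofNat_of_zero_le hn
  induction m with
  | zero => simp
  | succ m ih =>
    have h1 := ih (by positivity)
    refine h1.trans ?_
    rw [show ((m + 1 : ℕ) : ℤ) = 1 + (m : ℤ) by push_cast; ring, zp_one_add]
    exact X.le i _

theorem G_le (hd : 0 < d) (hG : X.Good d G) {x y : FZ Γ} (hxy : x ≤ y) {r : Ω}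
    (hr : X.Froz d r) : G x r ≤ G y r := by
  rcases hxy.lt_or_eq with hxy | rfl
  · obtain ⟨i, n, hn, h1⟩ := exists_dif_pos hxy
    have hQ := hG _ _ _ _ hn.ne' h1
    have h2 : r ≤ ((G x)⁻¹ * G y) r := by
      by_cases hr1 : ∃ m : ℤ, (X.c i ^ (-(d * m))) r ∈ X.M i
      · obtain ⟨m, hm⟩ := hr1
        have hrM := hr.zero hm
        exact (lvl_lt (X.lt i) (mem0 hrM) (hQ.cell0 hrM) (mul_pos hd hn)).le
      · push Not at hr1
        rw [hQ.out r hr1]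
        exact zp_le i r (mul_pos hd hn).le
    rw [mul_app, ← (G x).le_iff_le, app_inv_self] at h2
    exact h2
  · exact le_rfl

/-- The automorphism attached to an element of the wreath power. -/
noncomputable def em (hd : 0 < d) (hG : X.Good d G) (h : ZPow Γ) : Ω ≃o Ω where
  toFun := act G hF h
  invFun := act G hF h⁻¹
  left_inv z := by rw [← act_mul hF hd hG, inv_mul_cancel, act_one hF hd hG]
  right_inv z := by rw [← act_mul hF hd hG, mul_inv_cancel, act_one hF hd hG]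
  map_rel_iff' := (act_strictMono hF hd hG h).le_iff_le

/-- The embedding of the wreath power in `Aut(Ω)`. -/
noncomputable def emb (hd : 0 < d) (hG : X.Good d G) : LHom (ZPow Γ) (Ω ≃o Ω) where
  toFun := em hF hd hG
  mul' h k := by
    apply OrderIso.ext
    funext z
    exact act_mul hF hd hG h k z
  sup' h k := by
    apply OrderIso.ext
    funext z
    change act G hF (h ⊔ k) z = max (act G hF h z) (act G hF k z)
    obtain ⟨x, r, hr, rfl⟩ := exists_rep hF z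
    rw [act_eq hF hd hG _ hr, act_eq hF hd hG _ hr, act_eq hF hd hG _ hr, zpow_sup_coe]
    rcases le_total (h.1 x) (k.1 x) with h1 | h1
    · rw [max_eq_right h1, max_eq_right (G_le hd hG h1 hr)]
    · rw [max_eq_left h1, max_eq_left (G_le hd hG h1 hr)]

end act

theorem froz_ω (hd : 0 < d) : X.Froz d X.ω := by
  intro i m hm h1
  have h2 := lvl_unique (X.lt i) h1 (mem0 (X.mem i))
  exact hm (by
    rcases mul_eq_zero.1 h2 with h3 | h3
    · exact absurd h3 hd.ne'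
    · exact h3)

theorem G_ω_inj (hd : 0 < d) {G : FZ Γ → (Ω ≃o Ω)} (hG : X.Good d G) {x y : FZ Γ}
    (h : G x X.ω = G y X.ω) : x = y := by
  by_contra hne
  obtain ⟨i, n, hn, h1⟩ := exists_dif hne
  have h2 := (hG _ _ _ _ hn h1).near
  rw [mul_app, ← h, inv_app_self] at h2
  exact froz_ω hd i n hn h2

theorem emb_injective (hd : 0 < d) {G : FZ Γ → (Ω ≃o Ω)} (hG : X.Good d G)
    (hF : ∀ z, ∃ x, X.Froz d ((G x)⁻¹ z)) : Function.Injective (emb hF hd hG) := by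
  intro h k hhk
  apply Subtype.ext
  apply OrderIso.ext
  funext x
  have h1 : act G hF h (G x X.ω) = act G hF k (G x X.ω) :=
    congrArg (fun F : Ω ≃o Ω => F (G x X.ω)) hhk
  rw [act_eq hF hd hG _ (froz_ω hd), act_eq hF hd hG _ (froz_ω hd)] at h1
  exact G_ω_inj hd hG h1

/-- The wreath power satisfies every quasi-identity true in `Aut(Ω)`. -/
theorem holds_zpow (hd : 0 < d) {G : FZ Γ → (Ω ≃o Ω)} (hG : X.Good d G)
    (hF : ∀ z, ∃ x, X.Froz d ((G x)⁻¹ z)) {φ : QId} (hφ : φ.Holds (Ω ≃o Ω)) :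
    φ.Holds (ZPow Γ) :=
  (emb hF hd hG).holds (emb_injective hd hG hF) hφ

end Fr

end Pool.Agent.Helper56.QV
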