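import Mathlib

/-! Fourier–Motzkin elimination for an abstract notion of positive linear forms. -/

set_option autoImplicit false

namespace Pool.Agent.Helper56.QV

/-- Value of a linear form. -/
def dot (n : ℕ) (a : ℕ → ℤ) (y : ℕ → ℚ) : ℚ := ∑ i ∈ Finset.range n, (a i : ℚ) * y i

theorem dot_succ (n : ℕ) (a : ℕ → ℤ) (y : ℕ → ℚ) (q : ℚ) :
    dot (n + 1) a (Function.update y n q) = dot n a y + a n * q := by
  unfold dot
  rw [Finset.sum_range_succ, Function.update_self]
  congr 1
  apply Finset.sum_congr rfl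
  intro i hi
  rw [Function.update_of_ne (Finset.mem_range.1 hi).ne]

theorem dot_comb (n : ℕ) (k l : ℤ) (a b : ℕ → ℤ) (y : ℕ → ℚ) :
    dot n (k • a + l • b) y = k * dot n a y + l * dot n b y := by
  unfold dot
  rw [Finset.mul_sum, Finset.mul_sum, ← Finset.sum_add_distrib]
  apply Finset.sum_congr rfl
  intro i _
  simp only [Pi.add_apply, Pi.smul_apply, smul_eq_mul]
  push_cast
  ring

/-- Abstract positivity of linear forms. -/
structure PZ (Pos Zer : (ℕ → ℤ) → Prop) : Prop where
  add : ∀ a b, Pos a → Pos b → Pos (a + b)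
  addz : ∀ a b, Pos a → Zer b → Pos (a + b)
  zz : ∀ a b, Zer a → Zer b → Zer (a + b)
  neg : ∀ a, Zer a → Zer (-a)
  zero : Zer 0
  nz : ¬ Pos 0

namespace PZ

variable {Pos Zer : (ℕ → ℤ) → Prop} (h : PZ Pos Zer)

include h

theorem zsmul_zer (k : ℤ) {a : ℕ → ℤ} (ha : Zer a) : Zer (k • a) := by
  have key : ∀ n : ℕ, Zer ((n : ℤ) • a) := by
    intro n
    induction n with
    | zero => simpa using h.zero
    | succ n ih =>
      have : ((n + 1 : ℕ) : ℤ) • a = (n : ℤ) • a + a := by
        push_cast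
        rw [add_smul, one_smul]
      rw [this]
      exact h.zz _ _ ih ha
  obtain ⟨n, rfl | rfl⟩ := Int.eq_nat_or_neg k
  · exact key n
  · rw [neg_smul]
    exact h.neg _ (key n)

theorem zsmul_pos {k : ℤ} (hk : 0 < k) {a : ℕ → ℤ} (ha : Pos a) : Pos (k • a) := by
  have key : ∀ n : ℕ, Pos (((n + 1 : ℕ) : ℤ) • a) := by
    intro n
    induction n with
    | zero => simpa using ha
    | succ n ih =>
      have : ((n + 1 + 1 : ℕ) : ℤ) • a = ((n + 1 : ℕ) : ℤ) • a + a := by
        push_cast
        rw [add_smul, one_smul]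
      rw [this]
      exact h.add _ _ ih ha
  obtain ⟨n, hn⟩ := Int.eq_succ_of_zero_lt hk
  have := key n
  rw [hn]
  exact this

/-- Fourier–Motzkin elimination. -/
theorem exists_sol (n : ℕ) : ∀ (S E : List (ℕ → ℤ)),
    (∀ a ∈ S, Pos a ∧ ∀ i, n ≤ i → a i = 0) → (∀ e ∈ E, Zer e ∧ ∀ i, n ≤ i → e i = 0) →
    ∃ y : ℕ → ℚ, (∀ a ∈ S, 0 < dot n a y) ∧ ∀ e ∈ E, dot n e y = 0 := by
  induction n with
  | zero =>
    intro S E hS hE
    refine ⟨fun _ => 0, fun a ha => ?_, fun e _ => by simp [dot]⟩
    exfalso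
    have h1 : a = 0 := funext fun i => (hS a ha).2 i (Nat.zero_le i)
    exact h.nz (h1 ▸ (hS a ha).1)
  | succ n ih =>
    intro S E hS hE
    by_cases hcase : ∃ e, Zer e ∧ (∀ i, n + 1 ≤ i → e i = 0) ∧ 0 < e n
    · obtain ⟨e, he1, he2, he3⟩ := hcase
      have hstep : ∀ s : ℕ → ℤ, (∀ i, n + 1 ≤ i → s i = 0) →
          ∀ i, n ≤ i → ((e n) • s + (-(s n)) • e) i = 0 := by
        intro s hs i hi
        rcases Nat.eq_or_lt_of_le hi with h1 | h1
        · subst h1
          simp only [Pi.add_apply, Pi.smul_apply, smul_eq_mul]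
          ring
        · simp only [Pi.add_apply, Pi.smul_apply, smul_eq_mul, hs i h1, he2 i h1]
          ring
      obtain ⟨y, hy1, hy2⟩ := ih (S.map fun s => (e n) • s + (-(s n)) • e)
        (E.map fun s => (e n) • s + (-(s n)) • e)
        (by
          intro a ha
          obtain ⟨s, hs, rfl⟩ := List.mem_map.1 ha
          exact ⟨h.addz _ _ (h.zsmul_pos he3 (hS s hs).1) (h.zsmul_zer _ he1),
            hstep s (hS s hs).2⟩)
        (by
          intro a ha
          obtain ⟨s, hs, rfl⟩ := List.mem_map.1 ha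
          exact ⟨h.zz _ _ (h.zsmul_zer _ (hE s hs).1) (h.zsmul_zer _ he1),
            hstep s (hE s hs).2⟩)
      have hα : (0 : ℚ) < (e n : ℚ) := by exact_mod_cast he3
      have hkey : ∀ s : ℕ → ℤ, (e n : ℚ) *
          dot (n + 1) s (Function.update y n (-(dot n e y) / (e n))) =
          dot n ((e n) • s + (-(s n)) • e) y := by
        intro s
        rw [dot_succ, dot_comb]
        push_cast
        field_simp
      refine ⟨Function.update y n (-(dot n e y) / (e n)), fun s hs => ?_, fun s hs => ?_⟩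
      · have h1 := hy1 _ (List.mem_map.2 ⟨s, hs, rfl⟩)
        rw [← hkey] at h1
        exact (mul_pos_iff_of_pos_left hα).1 h1
      · have h1 := hy2 _ (List.mem_map.2 ⟨s, hs, rfl⟩)
        rw [← hkey] at h1
        exact (mul_eq_zero.1 h1).resolve_left hα.ne'
    · have hE0 : ∀ e ∈ E, e n = 0 := by
        intro e he
        by_contra hne
        apply hcase
        rcases lt_or_gt_of_ne hne with h1 | h1
        · refine ⟨-e, h.neg _ (hE e he).1, fun i hi => ?_, ?_⟩
          · simp [(hE e he).2 i hi]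
          · simpa using h1
        · exact ⟨e, (hE e he).1, (hE e he).2, h1⟩
      let Sp := S.filter fun s => decide (0 < s n)
      let Sm := S.filter fun s => decide (s n < 0)
      let S0 := S.filter fun s => decide (s n = 0)
      have hSp : ∀ s, s ∈ Sp ↔ s ∈ S ∧ 0 < s n := fun s => by simp [Sp]
      have hSm : ∀ s, s ∈ Sm ↔ s ∈ S ∧ s n < 0 := fun s => by simp [Sm]
      have hS0 : ∀ s, s ∈ S0 ↔ s ∈ S ∧ s n = 0 := fun s => by simp [S0]
      let C := (Sp.product Sm).map fun p => (-(p.2 n)) • p.1 + (p.1 n) • p.2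
      have hC : ∀ p ∈ Sp, ∀ q ∈ Sm, (-(q n)) • p + (p n) • q ∈ C := by
        intro p hp q hq
        exact List.mem_map.2 ⟨(p, q), List.mem_product.2 ⟨hp, hq⟩, rfl⟩
      obtain ⟨y, hy1, hy2⟩ := ih (S0 ++ C) E
        (by
          intro a ha
          rcases List.mem_append.1 ha with h1 | h1
          · obtain ⟨h2, h3⟩ := (hS0 a).1 h1
            refine ⟨(hS a h2).1, fun i hi => ?_⟩
            rcases Nat.eq_or_lt_of_le hi with h4 | h4
            · subst h4; exact h3
            · exact (hS a h2).2 i h4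
          · obtain ⟨⟨p, q⟩, hpq, rfl⟩ := List.mem_map.1 h1
            obtain ⟨hp, hq⟩ := List.mem_product.1 hpq
            obtain ⟨hp1, hp2⟩ := (hSp p).1 hp
            obtain ⟨hq1, hq2⟩ := (hSm q).1 hq
            refine ⟨h.add _ _ (h.zsmul_pos (by simpa using hq2) (hS p hp1).1)
              (h.zsmul_pos hp2 (hS q hq1).1), fun i hi => ?_⟩
            rcases Nat.eq_or_lt_of_le hi with h4 | h4
            · subst h4
              simp only [Pi.add_apply, Pi.smul_apply, smul_eq_mul]
              ring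
            · simp only [Pi.add_apply, Pi.smul_apply, smul_eq_mul, (hS p hp1).2 i h4,
                (hS q hq1).2 i h4]
              ring)
        (by
          intro e he
          refine ⟨(hE e he).1, fun i hi => ?_⟩
          rcases Nat.eq_or_lt_of_le hi with h4 | h4
          · subst h4; exact hE0 e he
          · exact (hE e he).2 i h4)
      classical
      obtain ⟨m, hm1, hm2⟩ := Order.exists_between_finsets
        (Sp.map fun p => -(dot n p y) / (p n : ℚ)).toFinset
        (Sm.map fun q => (dot n q y) / (-(q n) : ℚ)).toFinset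
        (by
          intro u hu v hv
          rw [List.mem_toFinset, List.mem_map] at hu hv
          obtain ⟨p, hp, rfl⟩ := hu
          obtain ⟨q, hq, rfl⟩ := hv
          have h1 := hy1 _ (List.mem_append_right _ (hC p hp q hq))
          rw [dot_comb] at h1
          have hp2 : (0 : ℚ) < (p n : ℚ) := by exact_mod_cast ((hSp p).1 hp).2
          have hq2 : (0 : ℚ) < (-(q n) : ℚ) := by
            have := ((hSm q).1 hq).2
            have h3 : (q n : ℚ) < 0 := by exact_mod_cast this
            linarith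
          rw [div_lt_div_iff₀ hp2 hq2]
          push_cast at h1
          nlinarith)
      refine ⟨Function.update y n m, fun s hs => ?_, fun e he => ?_⟩
      · rw [dot_succ]
        rcases lt_trichotomy (s n) 0 with h1 | h1 | h1
        · have h2 := hm2 _ (by
            rw [List.mem_toFinset, List.mem_map]
            exact ⟨s, (hSm s).2 ⟨hs, h1⟩, rfl⟩)
          have h3 : (0 : ℚ) < (-(s n) : ℚ) := by
            have : (s n : ℚ) < 0 := by exact_mod_cast h1
            linarith
          rw [lt_div_iff₀ h3] at h2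
          linarith
        · rw [h1]
          have := hy1 s (List.mem_append_left _ ((hS0 s).2 ⟨hs, h1⟩))
          simpa using this
        · have h2 := hm1 _ (by
            rw [List.mem_toFinset, List.mem_map]
            exact ⟨s, (hSp s).2 ⟨hs, h1⟩, rfl⟩)
          have h3 : (0 : ℚ) < (s n : ℚ) := by exact_mod_cast h1
          rw [div_lt_iff₀ h3] at h2
          linarith
      · rw [dot_succ, hE0 e he, hy2 e he]
        simp

omit h in
/-- Common denominators. -/
theorem exists_int (n : ℕ) (y : ℕ → ℚ) :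
    ∃ (N : ℕ) (z : ℕ → ℤ), 0 < N ∧ ∀ i, i < n → (z i : ℚ) = N * y i := by
  refine ⟨∏ i ∈ Finset.range n, (y i).den,
    fun i => ((∏ i ∈ Finset.range n, (y i).den : ℕ) * y i).num, ?_, ?_⟩
  · exact Finset.prod_pos fun i _ => (y i).den_pos
  · intro i hi
    obtain ⟨k, hk⟩ := Finset.dvd_prod_of_mem (fun i => (y i).den) (Finset.mem_range.2 hi)
    rw [hk]
    have h1 : (((y i).den * k : ℕ) : ℚ) * y i = ((k * (y i).num : ℤ) : ℚ) := by
      have h2 : ((y i).den : ℚ) * y i = (y i).num := by
        rw [mul_comm]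
        exact Rat.mul_den_eq_num (y i)
      push_cast
      rw [mul_assoc, mul_comm (k : ℚ), ← mul_assoc, h2]
      ring
    simp only
    rw [h1, Rat.num_intCast]

theorem exists_int_sol (n : ℕ) (S E : List (ℕ → ℤ))
    (hS : ∀ a ∈ S, Pos a ∧ ∀ i, n ≤ i → a i = 0) (hE : ∀ e ∈ E, Zer e ∧ ∀ i, n ≤ i → e i = 0) :
    ∃ z : ℕ → ℤ, (∀ a ∈ S, 0 < ∑ i ∈ Finset.range n, a i * z i) ∧
      ∀ e ∈ E, ∑ i ∈ Finset.range n, e i * z i = 0 := by
  obtain ⟨y, hy1, hy2⟩ := h.exists_sol n S E hS hE
  obtain ⟨N, z, hN, hz⟩ := exists_int n y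
  have key : ∀ a : ℕ → ℤ, ((∑ i ∈ Finset.range n, a i * z i : ℤ) : ℚ) = N * dot n a y := by
    intro a
    push_cast
    unfold dot
    rw [Finset.mul_sum]
    apply Finset.sum_congr rfl
    intro i hi
    rw [hz i (Finset.mem_range.1 hi)]
    ring
  have hN' : (0 : ℚ) < N := by exact_mod_cast hN
  refine ⟨z, fun a ha => ?_, fun e he => ?_⟩
  · have h1 := mul_pos hN' (hy1 a ha)
    rw [← key] at h1
    exact_mod_cast h1
  · have h1 := key e
    rw [hy2 e he, mul_zero] at h1
    exact_mod_cast h1

end PZ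

end Pool.Agent.Helper56.QV
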