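import Mathlib
import Pool.Agent.Helper56.QV.Levels

/-! The quasi-variety of `Aut(Ω)` in terms of wreath powers of the integers. -/

set_option autoImplicit false

namespace Pool.Agent.Helper56.QV

universe u v

variable {Ω : Type u} [LinearOrder Ω]

/-- A scattered chain has no iterated square roots. -/
theorem not_dyadic_of_scattered (h : IsEmpty (ℚ ↪o Ω)) : ¬ HasDyadic Ω := by
  intro hd
  obtain ⟨R⟩ := exists_roots hd
  obtain ⟨F⟩ := R.toDAct.exists_rat
  exact h.false (F.trans (OrderEmbedding.subtype _))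

theorem not_dyadic_of_solvable (hsc : LocCS Ω) {n : ℕ} (hn : derivedSeries (Ω ≃o Ω) n = ⊥) :
    ¬ HasDyadic Ω := fun hd => not_solvable_of_dyadic hsc hd n hn

/-- The least `n` with trivial `n`-th derived subgroup determines the quasi-identities. -/
theorem solvable_case (hsc : LocCS Ω) {n : ℕ}
    (hn : IsLeast {i | derivedSeries (Ω ≃o Ω) i = ⊥} n) (φ : QId) :
    φ.Holds (Ω ≃o Ω) ↔ φ.Holds (WrPow n) := by
  have hbot : derivedSeries (Ω ≃o Ω) n = ⊥ := hn.1
  have hd := not_dyadic_of_solvable hsc hbot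
  have hE : ∀ C : Set Ω, ¬ EmbIn (n + 1) C := by
    intro C h
    have := h.derived hbot
    omega
  have hfull : ∀ ω : Ω, ∃ (m : ℕ) (C : Set Ω), Tow ω {ω} m C ∧ (∀ g : Ω ≃o Ω, g ω ∈ C) ∧
      m ≤ n := by
    intro ω
    obtain ⟨m, C, h1, h2⟩ := exists_full_tow hd hsc (finite_of_not_embIn hd hE (ω := ω))
    exact ⟨m, C, h1, h2, (h1.embIn (isBlk_singleton ω) (Set.mem_singleton ω)).derived hbot⟩
  constructor
  · intro hφ
    rcases Nat.eq_zero_or_pos n with h0 | h0
    · subst h0
      intro x _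
      exact Subsingleton.elim (α := Unit) _ _
    · have h1 : derivedSeries (Ω ≃o Ω) (n - 1) ≠ ⊥ := by
        intro h
        have := hn.2 h
        omega
      obtain ⟨⟨g, hg⟩, hg1'⟩ := Subgroup.ne_bot_iff_exists_ne_one.1 h1
      have hg1 : g ≠ 1 := fun h' => hg1' (Subtype.ext h')
      have h2 : ∃ ω, g ω ≠ ω := by
        by_contra hc
        push Not at hc
        exact hg1 (OrderIso.ext (funext hc))
      obtain ⟨ω, hω⟩ := h2
      obtain ⟨m, C, h3, h4, h5⟩ := hfull ω
      have h6 := h3.derived (isBlk_singleton ω) (Set.mem_singleton ω) h4 hg hω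
      have h7 : n ≤ m := by
        by_contra hc
        push Not at hc
        exact h6 (derivedSeries_anti (by omega) (derivedSeries_wrPow m))
      exact wrPow_holds h7 ((h3.embIn (isBlk_singleton ω) (Set.mem_singleton ω)).holds hφ)
  · intro hφ X hX
    apply OrderIso.ext
    funext ω
    obtain ⟨m, C, h3, h4, h5⟩ := hfull ω
    have h6 := h3.holds (isBlk_singleton ω) (Set.mem_singleton ω) (wrPow_holds h5 hφ) X
      (fun i => h4 (X i)) hX
    have h7 : ((φ.concl.2.eval X)⁻¹ * φ.concl.1.eval X) ω = ω := h6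
    rw [mul_app] at h7
    have h8 := congrArg (fun z => (φ.concl.2.eval X : Ω ≃o Ω) z) h7
    simp only [app_inv_self] at h8
    exact h8

/-! Truncation of variables. -/

/-- A strict upper bound for the variables of a term. -/
def Tm.bd : Tm → ℕ
  | .var n => n + 1
  | .one => 0
  | .mul s t => max s.bd t.bd
  | .inv t => t.bd
  | .inf s t => max s.bd t.bd
  | .sup s t => max s.bd t.bd

theorem Tm.eval_congr {G : Type u} [LGroup G] {x y : ℕ → G} (t : Tm)
    (h : ∀ n, n < t.bd → x n = y n) : t.eval x = t.eval y := by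
  induction t with
  | var n => exact h n (Nat.lt_succ_self n)
  | one => rfl
  | mul s t ihs iht =>
    simp only [Tm.eval]
    rw [ihs fun n hn => h n (lt_of_lt_of_le hn (le_max_left _ _)),
      iht fun n hn => h n (lt_of_lt_of_le hn (le_max_right _ _))]
  | inv t ih =>
    simp only [Tm.eval]
    rw [ih h]
  | inf s t ihs iht =>
    simp only [Tm.eval]
    rw [ihs fun n hn => h n (lt_of_lt_of_le hn (le_max_left _ _)),
      iht fun n hn => h n (lt_of_lt_of_le hn (le_max_right _ _))]
  | sup s t ihs iht =>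
    simp only [Tm.eval]
    rw [ihs fun n hn => h n (lt_of_lt_of_le hn (le_max_left _ _)),
      iht fun n hn => h n (lt_of_lt_of_le hn (le_max_right _ _))]

theorem exists_bd (l : List (Tm × Tm)) : ∃ b, ∀ e ∈ l, e.1.bd ≤ b ∧ e.2.bd ≤ b := by
  induction l with
  | nil => exact ⟨0, fun e he => absurd he List.not_mem_nil⟩
  | cons a l ih =>
    obtain ⟨b, hb⟩ := ih
    refine ⟨max (max a.1.bd a.2.bd) b, fun e he => ?_⟩
    rcases List.mem_cons.1 he with h | h
    · subst h
      exact ⟨(le_max_left _ _).trans (le_max_left _ _), (le_max_right _ _).trans (le_max_left _ _)⟩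
    · exact ⟨(hb e h).1.trans (le_max_right _ _), (hb e h).2.trans (le_max_right _ _)⟩

/-- Wreath powers of every exponent embed into a nonsolvable `Aut(Ω)`. -/
theorem holds_wrPow_of_nonsolvable (hd : ¬ HasDyadic Ω) (hsc : LocCS Ω)
    (hns : ∀ n, derivedSeries (Ω ≃o Ω) n ≠ ⊥) {φ : QId} (hφ : φ.Holds (Ω ≃o Ω)) (n : ℕ) :
    φ.Holds (WrPow n) := by
  by_cases hE : ∀ C : Set Ω, ¬ EmbIn n C
  · exfalso
    apply hns n
    rw [eq_bot_iff]
    intro g hg
    rw [Subgroup.mem_bot]
    apply OrderIso.ext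
    funext ω
    by_contra hω
    obtain ⟨m, C, h1, h2⟩ := exists_full_tow hd hsc (finite_of_not_embIn hd hE (ω := ω))
    have h3 := h1.derived (isBlk_singleton ω) (Set.mem_singleton ω) h2 hg hω
    have h4 : n < m := by
      by_contra hc
      push Not at hc
      exact h3 (derivedSeries_anti hc (derivedSeries_wrPow m))
    obtain ⟨F, hF, hs⟩ := h1.embIn (isBlk_singleton ω) (Set.mem_singleton ω)
    obtain ⟨E, hE'⟩ := exists_wrPow_emb h4.le
    exact hE C ⟨F.comp E, LHom.comp_injective hF hE', fun g z hz => hs _ z hz⟩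
  · push Not at hE
    obtain ⟨C, hC⟩ := hE
    exact hC.holds hφ

/-- With finitely many levels between any two, the wreath powers determine the
quasi-identities. -/
theorem locFin_case (hd : ¬ HasDyadic Ω) (hsc : LocCS Ω) (hl : LocFin Ω) {φ : QId}
    (hφ : ∀ n, φ.Holds (WrPow n)) : φ.Holds (Ω ≃o Ω) := by
  classical
  intro X hX
  obtain ⟨b, hb⟩ := exists_bd (φ.concl :: φ.prem)
  -- truncate
  let Y : ℕ → (Ω ≃o Ω) := fun n => if n < b then X n else 1
  have hev : ∀ e ∈ φ.concl :: φ.prem, e.1.eval X = e.1.eval Y ∧ e.2.eval X = e.2.eval Y := by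
    intro e he
    have h1 := hb e he
    constructor
    · apply Tm.eval_congr
      intro n hn
      have : n < b := lt_of_lt_of_le hn h1.1
      simp only [Y, if_pos this]
    · apply Tm.eval_congr
      intro n hn
      have : n < b := lt_of_lt_of_le hn h1.2
      simp only [Y, if_pos this]
  have hYp : ∀ e ∈ φ.prem, e.1.eval Y = e.2.eval Y := by
    intro e he
    obtain ⟨h1, h2⟩ := hev e (List.mem_cons_of_mem _ he)
    rw [← h1, ← h2]
    exact hX e he
  obtain ⟨hc1, hc2⟩ := hev φ.concl List.mem_cons_self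
  rw [hc1, hc2]
  apply OrderIso.ext
  funext ω
  by_contra hne
  set g := (φ.concl.2.eval Y)⁻¹ * φ.concl.1.eval Y with hg
  have hgω : g ω ≠ ω := by
    intro h
    apply hne
    have h8 := congrArg (fun z => (φ.concl.2.eval Y : Ω ≃o Ω) z) h
    simp only [hg, mul_app, app_inv_self] at h8
    exact h8
  -- the largest bump
  let T : Set (Set Ω) := insert (bump g ω) ((fun n => bump (Y n) ω) '' {n | n < b})
  have hTfin : T.Finite := ((Set.finite_lt_nat b).image _).insert _
  obtain ⟨C, hC⟩ := hTfin.exists_maximal ⟨bump g ω, Set.mem_insert _ _⟩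
  have hTb : ∀ C ∈ T, ∃ k : Ω ≃o Ω, C = bump k ω := by
    intro C hC
    rcases hC with rfl | ⟨n, _, rfl⟩
    · exact ⟨g, rfl⟩
    · exact ⟨Y n, rfl⟩
  obtain ⟨h, hh⟩ := hTb C hC.1
  have hmax : ∀ C' ∈ T, C' ⊆ C := by
    intro C' hC'
    obtain ⟨k, hk⟩ := hTb C' hC'
    rcases bump_total hd k h ω with h1 | h1
    · rw [← hh, ← hk] at h1
      exact h1
    · rw [← hh, ← hk] at h1
      exact hC.2 hC' h1
  have hYC : ∀ n, Y n ω ∈ C := by
    intro n
    by_cases hn : n < b
    · exact hmax _ (Set.mem_insert_of_mem _ ⟨n, hn, rfl⟩) (app_mem_self (Y n) ω)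
    · have : Y n = 1 := by simp only [Y, if_neg hn]
      rw [this, one_app, hh]
      exact self_mem_bump h ω
  have hgC : bump g ω ⊆ C := hmax _ (Set.mem_insert _ _)
  -- the bottom block
  have hbot : ∃ k : Ω ≃o Ω, g ω ∉ bump k ω ∧ bump k ω ⊆ C ∧
      {C' | C' ∈ bumpsAt ω ∧ bump k ω ⊆ C' ∧ C' ⊆ bump h ω}.Finite := by
    by_cases hk : ∃ k : Ω ≃o Ω, k ω ≠ ω ∧ bump k ω ⊂ bump g ω
    · obtain ⟨k, hk1, hk2⟩ := hk
      exact ⟨k, app_not_mem_of_ssub hd hk2, hk2.1.trans hgC, hl ω k h hk1⟩
    · push Not at hk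
      refine ⟨1, ?_, ?_, ?_⟩
      · rw [bump_one]
        exact hgω
      · rw [bump_one, Set.singleton_subset_iff, hh]
        exact self_mem_bump h ω
      · refine ((hl ω g h hgω).insert {ω}).subset ?_
        rintro C' ⟨⟨k, hk1⟩, hk2, hk3⟩
        by_cases hkω : k ω = ω
        · left
          rw [hk1]
          ext z
          constructor
          · intro hz
            exact bump_fix hkω hz
          · rintro rfl
            exact self_mem_bump _ _
        · right
          refine ⟨⟨k, hk1⟩, ?_, hk3⟩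
          rcases bump_total hd g k ω with h1 | h1
          · rw [hk1]; exact h1
          · rw [hk1]
            by_contra hcon
            exact hk k hkω ⟨h1, hcon⟩
  obtain ⟨k, hk1, hk2, hk3⟩ := hbot
  rw [hh] at hk2
  obtain ⟨m, hm⟩ := exists_tow hd hsc k h hk2 hk3
  rw [← hh] at hm
  exact hk1 (hm.holds (isBlk_bump hd k ω) (self_mem_bump k ω) (hφ m) Y hYC hYp)

end Pool.Agent.Helper56.QV
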