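import Mathlib
import Pool.Agent.Helper56.QV.Solv

/-! Derivations of quasi-identities and the completeness theorem. -/

set_option autoImplicit false

namespace Pool.Agent.Helper56.QV

universe u

/-- Substitution. -/
def Tm.fsub (σ : ℕ → Tm) : Tm → Tm
  | .var n => σ n
  | .one => .one
  | .mul s t => .mul (s.fsub σ) (t.fsub σ)
  | .inv t => .inv (t.fsub σ)
  | .inf s t => .inf (s.fsub σ) (t.fsub σ)
  | .sup s t => .sup (s.fsub σ) (t.fsub σ)

theorem Tm.fsub_congr {σ τ : ℕ → Tm} (t : Tm) (h : ∀ n, n < t.bd → σ n = τ n) :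
    t.fsub σ = t.fsub τ := by
  induction t with
  | var n => exact h n (Nat.lt_succ_self n)
  | one => rfl
  | mul s t ihs iht =>
    simp only [Tm.fsub]
    rw [ihs fun n hn => h n (lt_of_lt_of_le hn (le_max_left _ _)),
      iht fun n hn => h n (lt_of_lt_of_le hn (le_max_right _ _))]
  | inv t ih =>
    simp only [Tm.fsub]
    rw [ih h]
  | inf s t ihs iht =>
    simp only [Tm.fsub]
    rw [ihs fun n hn => h n (lt_of_lt_of_le hn (le_max_left _ _)),
      iht fun n hn => h n (lt_of_lt_of_le hn (le_max_right _ _))]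
  | sup s t ihs iht =>
    simp only [Tm.fsub]
    rw [ihs fun n hn => h n (lt_of_lt_of_le hn (le_max_left _ _)),
      iht fun n hn => h n (lt_of_lt_of_le hn (le_max_right _ _))]

theorem Tm.eval_fsub {G : Type u} [LGroup G] (σ : ℕ → Tm) (x : ℕ → G) (t : Tm) :
    (t.fsub σ).eval x = t.eval fun n => (σ n).eval x := by
  induction t with
  | var n => rfl
  | one => rfl
  | mul s t ihs iht => simp only [Tm.fsub, Tm.eval, ihs, iht]
  | inv t ih => simp only [Tm.fsub, Tm.eval, ih]
  | inf s t ihs iht => simp only [Tm.fsub, Tm.eval, ihs, iht]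
  | sup s t ihs iht => simp only [Tm.fsub, Tm.eval, ihs, iht]

/-- The substitution given by a list. -/
def lsub (l : List Tm) (n : ℕ) : Tm := l.getD n .one

/-- Derivations from the premises `P` with the rules `S`. -/
inductive Der (S : QId → Prop) (P : List (Tm × Tm)) : Tm → Tm → Prop
  | prem (s t : Tm) (h : (s, t) ∈ P) : Der S P s t
  | rule (ψ : QId) (hψ : S ψ) (l : List Tm)
      (h : ∀ e ∈ ψ.prem, Der S P (e.1.fsub (lsub l)) (e.2.fsub (lsub l))) :
      Der S P (ψ.concl.1.fsub (lsub l)) (ψ.concl.2.fsub (lsub l))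

theorem Der.sound {S : QId → Prop} {P : List (Tm × Tm)} {G : Type u} [LGroup G]
    (hS : ∀ ψ, S ψ → ψ.Holds G) {x : ℕ → G} (hx : ∀ e ∈ P, e.1.eval x = e.2.eval x) {s t : Tm}
    (h : Der S P s t) : s.eval x = t.eval x := by
  induction h with
  | prem s t h => exact hx _ h
  | rule ψ hψ l h ih =>
    rw [Tm.eval_fsub, Tm.eval_fsub]
    apply hS ψ hψ
    intro e he
    have := ih e he
    rwa [Tm.eval_fsub, Tm.eval_fsub] at this

/-- Rule with an arbitrary substitution. -/
theorem Der.rule' {S : QId → Prop} {P : List (Tm × Tm)} (ψ : QId) (hψ : S ψ) (σ : ℕ → Tm)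
    (h : ∀ e ∈ ψ.prem, Der S P (e.1.fsub σ) (e.2.fsub σ)) :
    Der S P (ψ.concl.1.fsub σ) (ψ.concl.2.fsub σ) := by
  obtain ⟨b, hb⟩ := exists_bd (ψ.concl :: ψ.prem)
  have hl : ∀ n, n < b → σ n = lsub ((List.range b).map σ) n := by
    intro n hn
    rw [lsub, List.getD_eq_getElem?_getD, List.getElem?_map, List.getElem?_range hn]
    rfl
  have hc : ∀ e ∈ ψ.concl :: ψ.prem, e.1.fsub σ = e.1.fsub (lsub ((List.range b).map σ)) ∧
      e.2.fsub σ = e.2.fsub (lsub ((List.range b).map σ)) := by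
    intro e he
    obtain ⟨h1, h2⟩ := hb e he
    exact ⟨Tm.fsub_congr _ fun n hn => hl n (lt_of_lt_of_le hn h1),
      Tm.fsub_congr _ fun n hn => hl n (lt_of_lt_of_le hn h2)⟩
  obtain ⟨h1, h2⟩ := hc _ List.mem_cons_self
  rw [h1, h2]
  refine Der.rule ψ hψ _ fun e he => ?_
  obtain ⟨h3, h4⟩ := hc e (List.mem_cons_of_mem _ he)
  rw [← h3, ← h4]
  exact h e he

/-! The laws of equality and of lattice-ordered groups as quasi-identities. -/


/-- The laws. -/
def base : List QId :=
  [⟨[], ((.var 0), (.var 0))⟩,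
   ⟨[((.var 0), (.var 1))], ((.var 1), (.var 0))⟩,
   ⟨[((.var 0), (.var 1)), ((.var 1), (.var 2))], ((.var 0), (.var 2))⟩,
   ⟨[((.var 0), (.var 1)), ((.var 2), (.var 3))], (.mul (.var 0) (.var 2), .mul (.var 1) (.var 3))⟩,
   ⟨[((.var 0), (.var 1))], (.inv (.var 0), .inv (.var 1))⟩,
   ⟨[((.var 0), (.var 1)), ((.var 2), (.var 3))], (.inf (.var 0) (.var 2), .inf (.var 1) (.var 3))⟩,
   ⟨[((.var 0), (.var 1)), ((.var 2), (.var 3))], (.sup (.var 0) (.var 2), .sup (.var 1) (.var 3))⟩,
   ⟨[], (.mul (.mul (.var 0) (.var 1)) (.var 2), .mul (.var 0) (.mul (.var 1) (.var 2)))⟩,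
   ⟨[], (.mul .one (.var 0), (.var 0))⟩,
   ⟨[], (.mul (.var 0) .one, (.var 0))⟩,
   ⟨[], (.mul (.inv (.var 0)) (.var 0), .one)⟩,
   ⟨[], (.sup (.var 0) (.var 1), .sup (.var 1) (.var 0))⟩,
   ⟨[], (.sup (.sup (.var 0) (.var 1)) (.var 2), .sup (.var 0) (.sup (.var 1) (.var 2)))⟩,
   ⟨[], (.inf (.var 0) (.var 1), .inf (.var 1) (.var 0))⟩,
   ⟨[], (.inf (.inf (.var 0) (.var 1)) (.var 2), .inf (.var 0) (.inf (.var 1) (.var 2)))⟩,
   ⟨[], (.sup (.var 0) (.inf (.var 0) (.var 1)), (.var 0))⟩,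
   ⟨[], (.inf (.var 0) (.sup (.var 0) (.var 1)), (.var 0))⟩,
   ⟨[], (.mul (.mul (.var 2) (.sup (.var 0) (.var 1))) (.var 3),
      .sup (.mul (.mul (.var 2) (.var 0)) (.var 3)) (.mul (.mul (.var 2) (.var 1)) (.var 3)))⟩]

theorem base_holds {G : Type u} [LGroup G] : ∀ ψ ∈ base, ψ.Holds G := by
  intro ψ hψ
  simp only [base, List.mem_cons, List.not_mem_nil, or_false] at hψ
  rcases hψ with rfl | rfl | rfl | rfl | rfl | rfl | rfl | rfl | rfl | rfl | rfl | rfl | rfl |
    rfl | rfl | rfl | rfl | rfl <;> intro x hx <;>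
    simp only [List.mem_cons, List.not_mem_nil, or_false, forall_eq_or_imp, forall_eq,
      Tm.eval] at hx ⊢
  · exact hx.symm
  · exact hx.1.trans hx.2
  · rw [hx.1, hx.2]
  · rw [hx]
  · rw [hx.1, hx.2]
  · rw [hx.1, hx.2]
  · exact mul_assoc _ _ _
  · exact one_mul _
  · exact mul_one _
  · exact inv_mul_cancel _
  · exact sup_comm _ _
  · exact sup_assoc _ _ _
  · exact inf_comm _ _
  · exact inf_assoc _ _ _
  · exact sup_inf_self
  · exact inf_sup_self
  · rw [mul_sup, sup_mul]

/-! The term model. -/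

/-- The rules together with the laws. -/
def withBase (S : QId → Prop) (ψ : QId) : Prop := S ψ ∨ ψ ∈ base

section Model

variable (S : QId → Prop) (P : List (Tm × Tm))

/-- A law applied to terms. -/
theorem der_base {ψ : QId} (h : ψ ∈ base) (σ : ℕ → Tm)
    (hp : ∀ e ∈ ψ.prem, Der (withBase S) P (e.1.fsub σ) (e.2.fsub σ)) :
    Der (withBase S) P (ψ.concl.1.fsub σ) (ψ.concl.2.fsub σ) :=
  Der.rule' ψ (Or.inr h) σ hp

/-- Substitution of four terms. -/
def s4 (a b c d : Tm) : ℕ → Tm
  | 0 => a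
  | 1 => b
  | 2 => c
  | _ => d

theorem der_refl (a : Tm) : Der (withBase S) P a a :=
  der_base S P (ψ := ⟨[], ((.var 0), (.var 0))⟩) (by simp [base]) (s4 a a a a) (by simp)

theorem der_symm {a b : Tm} (h : Der (withBase S) P a b) : Der (withBase S) P b a :=
  der_base S P (ψ := ⟨[((.var 0), (.var 1))], ((.var 1), (.var 0))⟩) (by simp [base]) (s4 a b a a)
    (by simpa [Tm.fsub, s4] using h)

theorem der_trans {a b c : Tm} (h : Der (withBase S) P a b) (h' : Der (withBase S) P b c) :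
    Der (withBase S) P a c :=
  der_base S P (ψ := ⟨[((.var 0), (.var 1)), ((.var 1), (.var 2))], ((.var 0), (.var 2))⟩) (by simp [base]) (s4 a b c c)
    (by simpa [Tm.fsub, s4] using ⟨h, h'⟩)

theorem der_mul {a b c d : Tm} (h : Der (withBase S) P a b) (h' : Der (withBase S) P c d) :
    Der (withBase S) P (.mul a c) (.mul b d) :=
  der_base S P (ψ := ⟨[((.var 0), (.var 1)), ((.var 2), (.var 3))], (.mul (.var 0) (.var 2), .mul (.var 1) (.var 3))⟩) (by simp [base])
    (s4 a b c d) (by simpa [Tm.fsub, s4] using ⟨h, h'⟩)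

theorem der_inv {a b : Tm} (h : Der (withBase S) P a b) :
    Der (withBase S) P (.inv a) (.inv b) :=
  der_base S P (ψ := ⟨[((.var 0), (.var 1))], (.inv (.var 0), .inv (.var 1))⟩) (by simp [base])
    (s4 a b a a) (by simpa [Tm.fsub, s4] using h)

theorem der_inf {a b c d : Tm} (h : Der (withBase S) P a b) (h' : Der (withBase S) P c d) :
    Der (withBase S) P (.inf a c) (.inf b d) :=
  der_base S P (ψ := ⟨[((.var 0), (.var 1)), ((.var 2), (.var 3))], (.inf (.var 0) (.var 2), .inf (.var 1) (.var 3))⟩) (by simp [base])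
    (s4 a b c d) (by simpa [Tm.fsub, s4] using ⟨h, h'⟩)

theorem der_sup {a b c d : Tm} (h : Der (withBase S) P a b) (h' : Der (withBase S) P c d) :
    Der (withBase S) P (.sup a c) (.sup b d) :=
  der_base S P (ψ := ⟨[((.var 0), (.var 1)), ((.var 2), (.var 3))], (.sup (.var 0) (.var 2), .sup (.var 1) (.var 3))⟩) (by simp [base])
    (s4 a b c d) (by simpa [Tm.fsub, s4] using ⟨h, h'⟩)

/-- Derivable equality. -/
def derSetoid : Setoid Tm where
  r a b := Der (withBase S) P a b
  iseqv := ⟨der_refl S P, der_symm S P, der_trans S P⟩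

/-- The term model. -/
def Md : Type := Quotient (derSetoid S P)

/-- The class of a term. -/
def md (t : Tm) : Md S P := Quotient.mk (derSetoid S P) t

theorem md_eq {s t : Tm} : md S P s = md S P t ↔ Der (withBase S) P s t :=
  Quotient.eq (r := derSetoid S P)

theorem md_surj (a : Md S P) : ∃ t, md S P t = a := Quotient.exists_rep a

instance : Group (Md S P) where
  mul := Quotient.map₂ Tm.mul fun _ _ h _ _ h' => der_mul S P h h'
  one := md S P .one
  inv := Quotient.map Tm.inv fun _ _ h => der_inv S P h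
  mul_assoc a b c := by
    obtain ⟨a, rfl⟩ := md_surj S P a
    obtain ⟨b, rfl⟩ := md_surj S P b
    obtain ⟨c, rfl⟩ := md_surj S P c
    exact (md_eq S P).2 (der_base S P
      (ψ := ⟨[], (.mul (.mul (.var 0) (.var 1)) (.var 2), .mul (.var 0) (.mul (.var 1) (.var 2)))⟩) (by simp [base])
      (s4 a b c c) (by simp))
  one_mul a := by
    obtain ⟨a, rfl⟩ := md_surj S P a
    exact (md_eq S P).2 (der_base S P
      (ψ := ⟨[], (.mul .one (.var 0), (.var 0))⟩) (by simp [base])
      (s4 a a a a) (by simp))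
  mul_one a := by
    obtain ⟨a, rfl⟩ := md_surj S P a
    exact (md_eq S P).2 (der_base S P
      (ψ := ⟨[], (.mul (.var 0) .one, (.var 0))⟩) (by simp [base])
      (s4 a a a a) (by simp))
  inv_mul_cancel a := by
    obtain ⟨a, rfl⟩ := md_surj S P a
    exact (md_eq S P).2 (der_base S P
      (ψ := ⟨[], (.mul (.inv (.var 0)) (.var 0), .one)⟩) (by simp [base])
      (s4 a a a a) (by simp))

instance : Lattice (Md S P) := @Lattice.mk' (Md S P)
  ⟨Quotient.map₂ Tm.sup fun _ _ h _ _ h' => der_sup S P h h'⟩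
  ⟨Quotient.map₂ Tm.inf fun _ _ h _ _ h' => der_inf S P h h'⟩
  (fun a b => by
    obtain ⟨a, rfl⟩ := md_surj S P a
    obtain ⟨b, rfl⟩ := md_surj S P b
    exact (md_eq S P).2 (der_base S P
      (ψ := ⟨[], (.sup (.var 0) (.var 1), .sup (.var 1) (.var 0))⟩) (by simp [base])
      (s4 a b b b) (by simp)))
  (fun a b c => by
    obtain ⟨a, rfl⟩ := md_surj S P a
    obtain ⟨b, rfl⟩ := md_surj S P b
    obtain ⟨c, rfl⟩ := md_surj S P c
    exact (md_eq S P).2 (der_base S P
      (ψ := ⟨[], (.sup (.sup (.var 0) (.var 1)) (.var 2), .sup (.var 0) (.sup (.var 1) (.var 2)))⟩) (by simp [base])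
      (s4 a b c c) (by simp)))
  (fun a b => by
    obtain ⟨a, rfl⟩ := md_surj S P a
    obtain ⟨b, rfl⟩ := md_surj S P b
    exact (md_eq S P).2 (der_base S P
      (ψ := ⟨[], (.inf (.var 0) (.var 1), .inf (.var 1) (.var 0))⟩) (by simp [base])
      (s4 a b b b) (by simp)))
  (fun a b c => by
    obtain ⟨a, rfl⟩ := md_surj S P a
    obtain ⟨b, rfl⟩ := md_surj S P b
    obtain ⟨c, rfl⟩ := md_surj S P c
    exact (md_eq S P).2 (der_base S P
      (ψ := ⟨[], (.inf (.inf (.var 0) (.var 1)) (.var 2), .inf (.var 0) (.inf (.var 1) (.var 2)))⟩) (by simp [base])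
      (s4 a b c c) (by simp)))
  (fun a b => by
    obtain ⟨a, rfl⟩ := md_surj S P a
    obtain ⟨b, rfl⟩ := md_surj S P b
    exact (md_eq S P).2 (der_base S P
      (ψ := ⟨[], (.sup (.var 0) (.inf (.var 0) (.var 1)), (.var 0))⟩) (by simp [base])
      (s4 a b b b) (by simp)))
  (fun a b => by
    obtain ⟨a, rfl⟩ := md_surj S P a
    obtain ⟨b, rfl⟩ := md_surj S P b
    exact (md_eq S P).2 (der_base S P
      (ψ := ⟨[], (.inf (.var 0) (.sup (.var 0) (.var 1)), (.var 0))⟩) (by simp [base])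
      (s4 a b b b) (by simp)))

theorem md_mul (s t : Tm) : md S P s * md S P t = md S P (.mul s t) := rfl
theorem md_inv (s : Tm) : (md S P s)⁻¹ = md S P (.inv s) := rfl
theorem md_one : (1 : Md S P) = md S P .one := rfl

instance : LGroup (Md S P) where
  toGroup := inferInstance
  toLattice := inferInstance
  mul_le_mul_mul a b c d h := by
    have h1 : a ⊔ b = b := sup_eq_right.2 h
    apply sup_eq_right.1
    obtain ⟨a, rfl⟩ := md_surj S P a
    obtain ⟨b, rfl⟩ := md_surj S P b
    obtain ⟨c, rfl⟩ := md_surj S P c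
    obtain ⟨d, rfl⟩ := md_surj S P d
    have h2 : md S P c * (md S P a ⊔ md S P b) * md S P d =
        (md S P c * md S P a * md S P d) ⊔ (md S P c * md S P b * md S P d) :=
      (md_eq S P).2 (der_base S P
        (ψ := ⟨[], (.mul (.mul (.var 2) (.sup (.var 0) (.var 1))) (.var 3),
          .sup (.mul (.mul (.var 2) (.var 0)) (.var 3)) (.mul (.mul (.var 2) (.var 1)) (.var 3)))⟩) (by simp [base])
        (s4 a b c d) (by simp))
    rw [← h2, h1]

theorem md_eval (σ : ℕ → Tm) (t : Tm) :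
    t.eval (fun n => md S P (σ n)) = md S P (t.fsub σ) := by
  induction t with
  | var n => rfl
  | one => rfl
  | mul s t ihs iht => simp only [Tm.eval, Tm.fsub, ihs, iht, md_mul]
  | inv t ih => simp only [Tm.eval, Tm.fsub, ih, md_inv]
  | inf s t ihs iht =>
    simp only [Tm.eval, Tm.fsub, ihs, iht]
    rfl
  | sup s t ihs iht =>
    simp only [Tm.eval, Tm.fsub, ihs, iht]
    rfl

theorem md_holds (ψ : QId) (hψ : S ψ) : ψ.Holds (Md S P) := by
  intro x hx
  choose σ hσ using fun n => md_surj S P (x n)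
  have hx' : x = fun n => md S P (σ n) := funext fun n => (hσ n).symm
  rw [hx', md_eval, md_eval, md_eq]
  refine Der.rule' ψ (Or.inl hψ) σ fun e he => ?_
  rw [← md_eq, ← md_eval, ← md_eval, ← hx']
  exact hx e he

theorem fsub_var (t : Tm) : t.fsub Tm.var = t := by
  induction t with
  | var n => rfl
  | one => rfl
  | mul s t ihs iht => simp only [Tm.fsub, ihs, iht]
  | inv t ih => simp only [Tm.fsub, ih]
  | inf s t ihs iht => simp only [Tm.fsub, ihs, iht]
  | sup s t ihs iht => simp only [Tm.fsub, ihs, iht]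

end Model

/-! Lifting to a larger universe. -/

instance {G : Type} [LGroup G] : LGroup (ULift.{u} G) where
  toGroup := inferInstance
  toLattice :=
    { le := fun a b => a.down ≤ b.down
      lt := fun a b => a.down ≤ b.down ∧ ¬ b.down ≤ a.down
      lt_iff_le_not_ge := fun _ _ => Iff.rfl
      le_refl := fun a => le_refl a.down
      le_trans := fun _ _ _ h1 h2 => le_trans (α := G) h1 h2
      le_antisymm := fun _ _ h1 h2 => ULift.down_injective (le_antisymm (α := G) h1 h2)
      sup := fun a b => ⟨a.down ⊔ b.down⟩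
      inf := fun a b => ⟨a.down ⊓ b.down⟩
      le_sup_left := fun _ _ => le_sup_left (α := G)
      le_sup_right := fun _ _ => le_sup_right (α := G)
      sup_le := fun _ _ _ h1 h2 => sup_le (α := G) h1 h2
      inf_le_left := fun _ _ => inf_le_left (α := G)
      inf_le_right := fun _ _ => inf_le_right (α := G)
      le_inf := fun _ _ _ h1 h2 => le_inf (α := G) h1 h2 }
  mul_le_mul_mul a b c d h := LGroup.mul_le_mul_mul a.down b.down c.down d.down h

/-- The isomorphism with the lift. -/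
def downHom (G : Type) [LGroup G] : LHom (ULift.{u} G) G where
  toFun a := a.down
  mul' _ _ := rfl
  sup' _ _ := rfl

/-- The isomorphism with the lift. -/
def upHom (G : Type) [LGroup G] : LHom G (ULift.{u} G) where
  toFun a := ⟨a⟩
  mul' _ _ := rfl
  sup' _ _ := rfl

theorem holds_ulift {G : Type} [LGroup G] (φ : QId) :
    φ.Holds (ULift.{u} G) ↔ φ.Holds G :=
  ⟨fun h => (upHom G).holds (fun _ _ h => ULift.up_injective h) h,
    fun h => (downHom G).holds (fun _ _ h => ULift.down_injective h) h⟩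

/-- Completeness: a quasi-identity that is true in all lattice-ordered groups satisfying `S` has a
derivation. -/
theorem complete (S : QId → Prop) (φ : QId)
    (h : ∀ (G : Type u) [LGroup G], (∀ ψ, S ψ → ψ.Holds G) → φ.Holds G) :
    Der (withBase S) φ.prem φ.concl.1 φ.concl.2 := by
  have h1 : φ.Holds (Md S φ.prem) := by
    rw [← holds_ulift.{u}]
    apply h
    intro ψ hψ
    rw [holds_ulift.{u}]
    exact md_holds S φ.prem ψ hψ
  have h2 := h1 (fun n => md S φ.prem (.var n)) (by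
    intro e he
    rw [md_eval, md_eval, fsub_var, fsub_var, md_eq]
    exact Der.prem _ _ he)
  rw [md_eval, md_eval, fsub_var, fsub_var, md_eq] at h2
  exact h2

theorem sound (S : QId → Prop) (φ : QId) (h : Der (withBase S) φ.prem φ.concl.1 φ.concl.2)
    {G : Type u} [LGroup G] (hG : ∀ ψ, S ψ → ψ.Holds G) : φ.Holds G := by
  intro x hx
  refine h.sound ?_ hx
  rintro ψ (hψ | hψ)
  · exact hG ψ hψ
  · exact base_holds ψ hψ

end Pool.Agent.Helper56.QV
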