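import Mathlib

/-! Closure properties of recursively enumerable predicates. -/

set_option autoImplicit false

namespace Pool.Agent.Helper56.QV.RE

open Nat.Partrec (Code)

variable {α β γ : Type*} [Primcodable α] [Primcodable β] [Primcodable γ]

/-- A recursively enumerable predicate is a projection of a primitive recursive one. -/
theorem stage {p : γ → Prop} (hp : REPred p) :
    ∃ q : ℕ × γ → Prop, PrimrecPred q ∧ ∀ x, p x ↔ ∃ k, q (k, x) := by
  obtain ⟨c, hc⟩ := Code.exists_code.1 hp
  refine ⟨fun y => (Code.evaln y.1 c (Encodable.encode y.2)).isSome = true, ?_, ?_⟩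
  · refine Primrec.primrecPred ?_
    have h1 : Primrec fun y : ℕ × γ => Code.evaln y.1 c (Encodable.encode y.2) :=
      Code.primrec_evaln.comp ((Primrec.fst.pair (Primrec.const c)).pair
        (Primrec.encode.comp Primrec.snd))
    have h2 := Primrec.option_isSome.comp h1
    exact h2.of_eq fun y => by simp
  · intro x
    have h1 : (Code.eval c (Encodable.encode x)).Dom ↔ p x := by
      rw [hc]
      simp [Part.dom_iff_mem]
    rw [← h1, Part.dom_iff_mem]
    constructor
    · rintro ⟨y, hy⟩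
      obtain ⟨k, hk⟩ := Code.evaln_complete.1 hy
      exact ⟨k, Option.isSome_iff_exists.2 ⟨y, hk⟩⟩
    · rintro ⟨k, hk⟩
      obtain ⟨y, hy⟩ := Option.isSome_iff_exists.1 hk
      exact ⟨y, Code.evaln_complete.2 ⟨k, hy⟩⟩

theorem exists_nat {q : ℕ × γ → Prop} (hq : PrimrecPred q) : REPred fun x => ∃ k, q (k, x) := by
  obtain ⟨hd, hq⟩ := hq
  have h1 : Partrec fun x : γ => Nat.rfind fun n => Part.some (decide (q (n, x))) := by
    apply Partrec.rfind
    have h2 : Primrec fun y : γ × ℕ => decide (q (y.2, y.1)) :=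
      hq.comp (Primrec.snd.pair Primrec.fst)
    exact h2.to_comp.partrec
  refine h1.dom_re.of_eq fun x => ?_
  rw [Nat.rfind_dom]
  simp

theorem exists_prim {q : β × γ → Prop} (hq : PrimrecPred q) : REPred fun x => ∃ b, q (b, x) := by
  classical
  have h1 : PrimrecPred fun y : ℕ × γ => ∃ b ∈ (Encodable.decode y.1 : Option β), q (b, y.2) := by
    obtain ⟨hd, hq⟩ := hq
    have h2 : Primrec fun y : ℕ × γ => (Encodable.decode y.1 : Option β) :=
      Primrec.decode.comp Primrec.fst
    have h3 : Primrec₂ fun (y : ℕ × γ) (b : β) => (decide (q (b, y.2)) : Bool) :=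
      hq.comp (Primrec.snd.pair (Primrec.snd.comp Primrec.fst))
    have h4 := Primrec.option_casesOn h2 (Primrec.const false) h3
    refine Primrec.primrecPred (h4.of_eq fun y => ?_)
    cases h5 : (Encodable.decode y.1 : Option β) with
    | none => simp
    | some b => simp
  refine (exists_nat h1).of_eq fun x => ?_
  constructor
  · rintro ⟨k, b, _, hb⟩
    exact ⟨b, hb⟩
  · rintro ⟨b, hb⟩
    exact ⟨Encodable.encode b, b, Encodable.encodek b, hb⟩

theorem exists_re {p : α × β → Prop} (hp : REPred p) : REPred fun a => ∃ b, p (a, b) := by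
  obtain ⟨q, hq, h⟩ := stage hp
  have h1 : PrimrecPred fun y : (ℕ × β) × α => q (y.1.1, (y.2, y.1.2)) := by
    apply hq.comp
    exact (Primrec.fst.comp Primrec.fst).pair (Primrec.snd.pair (Primrec.snd.comp Primrec.fst))
  refine (exists_prim h1).of_eq fun a => ?_
  constructor
  · rintro ⟨⟨k, b⟩, hb⟩
    exact ⟨b, (h _).2 ⟨k, hb⟩⟩
  · rintro ⟨b, hb⟩
    obtain ⟨k, hk⟩ := (h _).1 hb
    exact ⟨(k, b), hk⟩

theorem and_re {p q : α → Prop} (hp : REPred p) (hq : REPred q) :
    REPred fun a => p a ∧ q a := by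
  obtain ⟨p', hp', h1⟩ := stage hp
  obtain ⟨q', hq', h2⟩ := stage hq
  have h3 : PrimrecPred fun y : (ℕ × ℕ) × α => p' (y.1.1, y.2) ∧ q' (y.1.2, y.2) := by
    apply PrimrecPred.and
    · exact hp'.comp ((Primrec.fst.comp Primrec.fst).pair Primrec.snd)
    · exact hq'.comp ((Primrec.snd.comp Primrec.fst).pair Primrec.snd)
  refine (exists_prim h3).of_eq fun a => ?_
  rw [h1, h2]
  constructor
  · rintro ⟨⟨k, l⟩, h4, h5⟩
    exact ⟨⟨k, h4⟩, ⟨l, h5⟩⟩
  · rintro ⟨⟨k, h4⟩, ⟨l, h5⟩⟩
    exact ⟨(k, l), h4, h5⟩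

theorem or_re {p q : α → Prop} (hp : REPred p) (hq : REPred q) :
    REPred fun a => p a ∨ q a := by
  obtain ⟨p', hp', h1⟩ := stage hp
  obtain ⟨q', hq', h2⟩ := stage hq
  have h3 : PrimrecPred fun y : ℕ × α => p' (y.1, y.2) ∨ q' (y.1, y.2) := by
    apply PrimrecPred.or
    · exact hp'.comp (Primrec.fst.pair Primrec.snd)
    · exact hq'.comp (Primrec.fst.pair Primrec.snd)
  refine (exists_prim h3).of_eq fun a => ?_
  rw [h1, h2]
  constructor
  · rintro ⟨k, h4 | h4⟩
    · exact Or.inl ⟨k, h4⟩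
    · exact Or.inr ⟨k, h4⟩
  · rintro (⟨k, h4⟩ | ⟨k, h4⟩)
    · exact ⟨k, Or.inl h4⟩
    · exact ⟨k, Or.inr h4⟩

theorem comp_re {p : β → Prop} (hp : REPred p) {f : α → β} (hf : Computable f) :
    REPred fun a => p (f a) := Partrec.comp hp hf

theorem prim_re {p : α → Prop} (hp : PrimrecPred p) : REPred p := hp.computablePred.to_re

/-- The set generated by a family of rules. -/
inductive Cl (R : List α × α → Prop) : α → Prop
  | mk (D : List α) (c : α) (h : R (D, c)) (hD : ∀ p ∈ D, Cl R p) : Cl R c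

/-- Entries of a derivation: a stage, premises, a conclusion. -/
abbrev Ent (α : Type*) := ℕ × (List α × α)

/-- Valid derivations. -/
def V (q : Ent α → Prop) : List (Ent α) → Prop
  | [] => True
  | y :: l => q y ∧ (∀ p ∈ y.2.1, ∃ z ∈ l, z.2.2 = p) ∧ V q l

omit [Primcodable α] in
theorem V_append {q : Ent α → Prop} {l l' : List (Ent α)} (h : V q l) (h' : V q l') :
    V q (l ++ l') := by
  induction l with
  | nil => exact h'
  | cons y l ih =>
    obtain ⟨h1, h2, h3⟩ := h
    refine ⟨h1, fun p hp => ?_, ih h3⟩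
    obtain ⟨z, hz, hz'⟩ := h2 p hp
    exact ⟨z, List.mem_append_left _ hz, hz'⟩

theorem primrecPred_V {q : Ent α → Prop} (hq : PrimrecPred q) : PrimrecPred (V q) := by
  classical
  obtain ⟨_, hq'⟩ := hq
  have h0 : PrimrecRel fun (z : Ent α) (p : α) => z.2.2 = p :=
    Primrec.eq.comp (Primrec.snd.comp (Primrec.snd.comp Primrec.fst)) Primrec.snd
  have h1 : PrimrecRel fun (l : List (Ent α)) (p : α) => ∃ z ∈ l, z.2.2 = p :=
    h0.exists_mem_list
  have h2 : PrimrecRel fun (p : α) (l : List (Ent α)) => ∃ z ∈ l, z.2.2 = p :=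
    PrimrecPred.comp (p := fun y : List (Ent α) × α => ∃ z ∈ y.1, z.2.2 = y.2) h1
      (Primrec.snd.pair Primrec.fst)
  have h3 : PrimrecRel fun (D : List α) (l : List (Ent α)) => ∀ p ∈ D, ∃ z ∈ l, z.2.2 = p :=
    h2.forall_mem_list
  have h4 : PrimrecPred fun y : Ent α × List (Ent α) => ∀ p ∈ y.1.2.1, ∃ z ∈ y.2, z.2.2 = p :=
    PrimrecPred.comp (p := fun y : List α × List (Ent α) => ∀ p ∈ y.1, ∃ z ∈ y.2, z.2.2 = p) h3
      ((Primrec.fst.comp (Primrec.snd.comp Primrec.fst)).pair Primrec.snd)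
  have h5 : Primrec₂ fun (_ : List (Ent α)) (b : Ent α × List (Ent α) × Bool) =>
      (decide (q b.1) && decide (∀ p ∈ b.1.2.1, ∃ z ∈ b.2.1, z.2.2 = p)) && b.2.2 := by
    apply Primrec.and.comp
    · apply Primrec.and.comp
      · have : Primrec fun e : Ent α => decide (q e) := hq'.of_eq fun e => by congr
        exact this.comp (Primrec.fst.comp Primrec.snd)
      · have := (h4.decide).comp ((Primrec.fst.comp Primrec.snd).pair
          (Primrec.fst.comp (Primrec.snd.comp (Primrec.snd (α := List (Ent α))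
            (β := Ent α × List (Ent α) × Bool)))))
        exact this
    · exact Primrec.snd.comp (Primrec.snd.comp Primrec.snd)
  have h6 := Primrec.list_rec (f := fun l : List (Ent α) => l) Primrec.id (Primrec.const true) h5
  refine Primrec.primrecPred (h6.of_eq fun l => ?_)
  induction l with
  | nil => simp [V]
  | cons y l ih =>
    have h7 : (decide (V q (y :: l)) : Bool) = ((decide (q y) &&
        decide (∀ p ∈ y.2.1, ∃ z ∈ l, z.2.2 = p)) && decide (V q l)) := by
      simp only [V, Bool.decide_and, Bool.and_assoc]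
    rw [h7, ← ih]

/-- The set generated by a recursively enumerable family of rules is recursively enumerable. -/
theorem cl_re {R : List α × α → Prop} (hR : REPred R) : REPred (Cl R) := by
  classical
  obtain ⟨q, hq, hqR⟩ := stage hR
  have h1 : PrimrecPred fun y : List (Ent α) × α => V q y.1 ∧ ∃ z ∈ y.1, z.2.2 = y.2 := by
    apply PrimrecPred.and
    · exact (primrecPred_V hq).comp Primrec.fst
    · have h0 : PrimrecRel fun (z : Ent α) (p : α) => z.2.2 = p :=
        Primrec.eq.comp (Primrec.snd.comp (Primrec.snd.comp Primrec.fst)) Primrec.snd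
      exact h0.exists_mem_list
  refine (exists_prim h1).of_eq fun c => ?_
  constructor
  · rintro ⟨l, hl, z, hz, rfl⟩
    have key : ∀ l : List (Ent α), V q l → ∀ z ∈ l, Cl R z.2.2 := by
      intro l
      induction l with
      | nil => intro _ z hz; exact absurd hz List.not_mem_nil
      | cons y l ih =>
        rintro ⟨h2, h3, h4⟩ z hz
        rcases List.mem_cons.1 hz with h5 | h5
        · subst h5
          refine Cl.mk z.2.1 z.2.2 ((hqR _).2 ⟨z.1, h2⟩) fun p hp => ?_
          obtain ⟨w, hw, rfl⟩ := h3 p hp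
          exact ih h4 w hw
        · exact ih h4 z h5
    exact key l hl z hz
  · intro h
    induction h with
    | mk D c h hD ih =>
      obtain ⟨k, hk⟩ := (hqR _).1 h
      have key : ∀ D : List α, (∀ p ∈ D, ∃ l, V q l ∧ ∃ z ∈ l, z.2.2 = p) →
          ∃ l, V q l ∧ ∀ p ∈ D, ∃ z ∈ l, z.2.2 = p := by
        intro D
        induction D with
        | nil => intro _; exact ⟨[], trivial, fun p hp => absurd hp List.not_mem_nil⟩
        | cons a D ihD =>
          intro h
          obtain ⟨l, hl, hl'⟩ := ihD fun p hp => h p (List.mem_cons_of_mem _ hp)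
          obtain ⟨m, hm, z, hz, hz'⟩ := h a List.mem_cons_self
          refine ⟨m ++ l, V_append hm hl, fun p hp => ?_⟩
          rcases List.mem_cons.1 hp with h5 | h5
          · exact ⟨z, List.mem_append_left _ hz, hz'.trans h5.symm⟩
          · obtain ⟨w, hw, hw'⟩ := hl' p h5
            exact ⟨w, List.mem_append_right _ hw, hw'⟩
      obtain ⟨l, hl, hl'⟩ := key D ih
      exact ⟨(k, (D, c)) :: l, ⟨hk, hl', hl⟩, (k, (D, c)), List.mem_cons_self, rfl⟩

end Pool.Agent.Helper56.QV.RE
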