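import Mathlib
import Pool.Agent.Helper56.QV.Logic
import Pool.Agent.Helper56.QV.RE
import Pool.Agent.Helper56.QV.Comp

/-! Derivability from a recursively enumerable set is recursively enumerable. -/

set_option autoImplicit false

namespace Pool.Agent.Helper56.QV

universe u

open RE

/-- Facts: a tag and three numbers. -/
abbrev Fc := ℕ × ℕ × ℕ × ℕ

/-- Parameters of a rule. -/
def pv (w : List ℕ) (i : ℕ) : ℕ := w.getD i 0

/-- The rules that do not depend on the axioms. The tags are: 1 substitution, 2 equation,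
3 equations of a list, 4 term, 5 list of terms, 6 membership, 7 entry of a list. -/
def TT (w : List ℕ) : List (List Fc × Fc) :=
  [([], (4, Nat.pair 0 (pv w 7), 0, 0)),
   ([], (4, Nat.pair 1 0, 0, 0)),
   ([(4, pv w 2, 0, 0), (4, pv w 3, 0, 0)], (4, Nat.pair 2 (Nat.pair (pv w 2) (pv w 3)), 0, 0)),
   ([(4, pv w 2, 0, 0)], (4, Nat.pair 3 (pv w 2), 0, 0)),
   ([(4, pv w 2, 0, 0), (4, pv w 3, 0, 0)], (4, Nat.pair 4 (Nat.pair (pv w 2) (pv w 3)), 0, 0)),
   ([(4, pv w 2, 0, 0), (4, pv w 3, 0, 0)], (4, Nat.pair 5 (Nat.pair (pv w 2) (pv w 3)), 0, 0)),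
   ([], (5, 0, 0, 0)),
   ([(4, pv w 2, 0, 0), (5, pv w 6, 0, 0)], (5, Nat.succ (Nat.pair (pv w 2) (pv w 6)), 0, 0)),
   ([], (7, Nat.succ (Nat.pair (pv w 2) (pv w 6)), 0, pv w 2)),
   ([(7, pv w 6, pv w 7, pv w 3)],
      (7, Nat.succ (Nat.pair (pv w 2) (pv w 6)), Nat.succ (pv w 7), pv w 3)),
   ([], (7, 0, pv w 7, Nat.pair 1 0)),
   ([(7, pv w 1, pv w 7, pv w 3)], (1, pv w 1, Nat.pair 0 (pv w 7), pv w 3)),
   ([], (1, pv w 1, Nat.pair 1 0, Nat.pair 1 0)),
   ([(1, pv w 1, pv w 2, pv w 4), (1, pv w 1, pv w 3, pv w 5)],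
      (1, pv w 1, Nat.pair 2 (Nat.pair (pv w 2) (pv w 3)),
        Nat.pair 2 (Nat.pair (pv w 4) (pv w 5)))),
   ([(1, pv w 1, pv w 2, pv w 4)], (1, pv w 1, Nat.pair 3 (pv w 2), Nat.pair 3 (pv w 4))),
   ([(1, pv w 1, pv w 2, pv w 4), (1, pv w 1, pv w 3, pv w 5)],
      (1, pv w 1, Nat.pair 4 (Nat.pair (pv w 2) (pv w 3)),
        Nat.pair 4 (Nat.pair (pv w 4) (pv w 5)))),
   ([(1, pv w 1, pv w 2, pv w 4), (1, pv w 1, pv w 3, pv w 5)],
      (1, pv w 1, Nat.pair 5 (Nat.pair (pv w 2) (pv w 3)),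
        Nat.pair 5 (Nat.pair (pv w 4) (pv w 5)))),
   ([], (6, pv w 2, Nat.succ (Nat.pair (pv w 2) (pv w 6)), 0)),
   ([(6, pv w 2, pv w 6, 0)], (6, pv w 2, Nat.succ (Nat.pair (pv w 3) (pv w 6)), 0)),
   ([(6, Nat.pair (pv w 2) (pv w 3), pv w 0, 0)], (2, pv w 0, pv w 2, pv w 3)),
   ([], (3, pv w 0, pv w 1, 0)),
   ([(1, pv w 1, pv w 2, pv w 4), (1, pv w 1, pv w 3, pv w 5), (2, pv w 0, pv w 4, pv w 5),
      (3, pv w 0, pv w 1, pv w 6)],
      (3, pv w 0, pv w 1, Nat.succ (Nat.pair (Nat.pair (pv w 2) (pv w 3)) (pv w 6))))]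

/-- The rule for the axioms. -/
def TW (w : List ℕ) : List Fc × Fc :=
  ([(5, pv w 1, 0, 0), (1, pv w 1, pv w 2, pv w 4), (1, pv w 1, pv w 3, pv w 5),
    (3, pv w 0, pv w 1, pv w 6)], (2, pv w 0, pv w 4, pv w 5))

/-- All rules. -/
def RR (W : ℕ → Prop) (x : List Fc × Fc) : Prop :=
  (∃ w, x ∈ TT w) ∨ ∃ w, W (Nat.pair (pv w 6) (Nat.pair (pv w 2) (pv w 3))) ∧ x = TW w

theorem primrec_pv (i : ℕ) : Primrec fun w : List ℕ => pv w i :=
  (Primrec.list_getD 0).comp Primrec.id (Primrec.const i)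

theorem primrec_TT : Primrec TT := by
  unfold TT
  repeat (first
    | exact Primrec.const _
    | exact primrec_pv _
    | refine Primrec.pair ?_ ?_
    | refine Primrec₂.natPair.comp ?_ ?_
    | refine Primrec.succ.comp ?_
    | refine Primrec.list_cons.comp ?_ ?_)

theorem primrec_TW : Primrec TW := by
  unfold TW
  repeat (first
    | exact Primrec.const _
    | exact primrec_pv _
    | refine Primrec.pair ?_ ?_
    | refine Primrec₂.natPair.comp ?_ ?_
    | refine Primrec.succ.comp ?_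
    | refine Primrec.list_cons.comp ?_ ?_)

theorem rr_re {W : ℕ → Prop} (hW : REPred W) : REPred (RR W) := by
  apply or_re
  · apply exists_prim (q := fun y : List ℕ × (List Fc × Fc) => y.2 ∈ TT y.1)
    have h1 : PrimrecRel fun (L : List (List Fc × Fc)) (x : List Fc × Fc) => ∃ z ∈ L, z = x :=
      (Primrec.eq (α := List Fc × Fc)).exists_mem_list
    have h2 : PrimrecPred fun y : List ℕ × (List Fc × Fc) => ∃ z ∈ TT y.1, z = y.2 :=
      PrimrecPred.comp (p := fun y : List (List Fc × Fc) × (List Fc × Fc) => ∃ z ∈ y.1, z = y.2)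
        h1 ((primrec_TT.comp Primrec.fst).pair Primrec.snd)
    refine h2.of_eq fun y => ?_
    simp
  · apply exists_re (p := fun y : (List Fc × Fc) × List ℕ =>
      W (Nat.pair (pv y.2 6) (Nat.pair (pv y.2 2) (pv y.2 3))) ∧ y.1 = TW y.2)
    apply and_re
    · apply comp_re hW
      apply Primrec.to_comp
      refine Primrec₂.natPair.comp ((primrec_pv 6).comp Primrec.snd)
        (Primrec₂.natPair.comp ((primrec_pv 2).comp Primrec.snd)
          ((primrec_pv 3).comp Primrec.snd))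
    · apply prim_re
      exact PrimrecPred.comp (p := fun y : (List Fc × Fc) × (List Fc × Fc) => y.1 = y.2)
        Primrec.eq (Primrec.fst.pair (primrec_TW.comp Primrec.snd))

/-- Code of a list of numbers. -/
def lc (l : List ℕ) : ℕ := Encodable.encode l

theorem lc_nil : lc [] = 0 := rfl

theorem lc_cons (a : ℕ) (l : List ℕ) : lc (a :: l) = Nat.succ (Nat.pair a (lc l)) := rfl

theorem lc_injective : Function.Injective lc := Encodable.encode_injective

/-- Meaning of the facts. -/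
def Good (S : QId → Prop) : Fc → Prop
  | (1, σ, t, t') => ∀ L : List Tm, lc (L.map Tm.code) = σ → ∀ τ : Tm, τ.code = t →
      (τ.fsub (lsub L)).code = t'
  | (2, p, s, t) => ∀ P : List (Tm × Tm), lc (P.map eqCode) = p →
      ∃ s₀ t₀ : Tm, s₀.code = s ∧ t₀.code = t ∧ Der S P s₀ t₀
  | (3, p, σ, l) => ∀ P : List (Tm × Tm), lc (P.map eqCode) = p →
      ∀ L : List Tm, lc (L.map Tm.code) = σ → ∀ E : List (Tm × Tm), lc (E.map eqCode) = l →
      ∀ e ∈ E, Der S P (e.1.fsub (lsub L)) (e.2.fsub (lsub L))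
  | (4, t, _, _) => ∃ τ : Tm, τ.code = t
  | (5, l, _, _) => ∃ L : List Tm, lc (L.map Tm.code) = l
  | (6, e, l, _) => ∀ L : List ℕ, lc L = l → e ∈ L
  | (7, σ, n, t) => ∀ L : List Tm, lc (L.map Tm.code) = σ → (lsub L n).code = t
  | _ => True

section inv

theorem code_var_inv {τ : Tm} {n : ℕ} (h : τ.code = Nat.pair 0 n) : τ = .var n := by
  cases τ <;> simp [Tm.code, Nat.pair_eq_pair] at h
  rw [h]

theorem code_one_inv {τ : Tm} (h : τ.code = Nat.pair 1 0) : τ = .one := by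
  cases τ <;> simp [Tm.code, Nat.pair_eq_pair] at h
  rfl

theorem code_mul_inv {τ : Tm} {a b : ℕ} (h : τ.code = Nat.pair 2 (Nat.pair a b)) :
    ∃ s t, τ = .mul s t ∧ s.code = a ∧ t.code = b := by
  cases τ <;> simp [Tm.code, Nat.pair_eq_pair] at h
  exact ⟨_, _, rfl, h.1, h.2⟩

theorem code_inv_inv {τ : Tm} {a : ℕ} (h : τ.code = Nat.pair 3 a) :
    ∃ s, τ = .inv s ∧ s.code = a := by
  cases τ <;> simp [Tm.code, Nat.pair_eq_pair] at h
  exact ⟨_, rfl, h⟩

theorem code_inf_inv {τ : Tm} {a b : ℕ} (h : τ.code = Nat.pair 4 (Nat.pair a b)) :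
    ∃ s t, τ = .inf s t ∧ s.code = a ∧ t.code = b := by
  cases τ <;> simp [Tm.code, Nat.pair_eq_pair] at h
  exact ⟨_, _, rfl, h.1, h.2⟩

theorem code_sup_inv {τ : Tm} {a b : ℕ} (h : τ.code = Nat.pair 5 (Nat.pair a b)) :
    ∃ s t, τ = .sup s t ∧ s.code = a ∧ t.code = b := by
  cases τ <;> simp [Tm.code, Nat.pair_eq_pair] at h
  exact ⟨_, _, rfl, h.1, h.2⟩

theorem lc_cons_inv {α : Type} {f : α → ℕ} {L : List α} {a l : ℕ}
    (h : lc (L.map f) = Nat.succ (Nat.pair a l)) :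
    ∃ b L', L = b :: L' ∧ f b = a ∧ lc (L'.map f) = l := by
  cases L with
  | nil => exact absurd h (by rw [List.map_nil, lc_nil]; exact (Nat.succ_ne_zero _).symm)
  | cons b L' =>
    rw [List.map_cons, lc_cons] at h
    have h1 := Nat.succ_injective h
    rw [Nat.pair_eq_pair] at h1
    exact ⟨b, L', rfl, h1.1, h1.2⟩

theorem lc_zero_inv {α : Type} {f : α → ℕ} {L : List α} (h : lc (L.map f) = 0) : L = [] := by
  cases L with
  | nil => rfl
  | cons b L' =>
    rw [List.map_cons, lc_cons] at h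
    exact absurd h (Nat.succ_ne_zero _)

end inv

theorem good_TT {S : QId → Prop} {w : List ℕ} {D : List Fc} {c : Fc} (h : (D, c) ∈ TT w)
    (hD : ∀ p ∈ D, Good S p) : Good S c := by
  simp only [TT, List.mem_cons, List.not_mem_nil, or_false, Prod.mk.injEq] at h
  rcases h with h | h | h | h | h | h | h | h | h | h | h | h | h | h | h | h | h | h | h | h |
    h | h
  · obtain ⟨rfl, rfl⟩ := h
    exact ⟨.var _, rfl⟩
  · obtain ⟨rfl, rfl⟩ := h
    exact ⟨.one, rfl⟩
  · obtain ⟨rfl, rfl⟩ := h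
    obtain ⟨s, hs⟩ := hD (4, pv w 2, 0, 0) (by simp)
    obtain ⟨t, ht⟩ := hD (4, pv w 3, 0, 0) (by simp)
    exact ⟨.mul s t, by simp only [Tm.code, hs, ht]⟩
  · obtain ⟨rfl, rfl⟩ := h
    obtain ⟨s, hs⟩ := hD (4, pv w 2, 0, 0) (by simp)
    exact ⟨.inv s, by simp only [Tm.code, hs]⟩
  · obtain ⟨rfl, rfl⟩ := h
    obtain ⟨s, hs⟩ := hD (4, pv w 2, 0, 0) (by simp)
    obtain ⟨t, ht⟩ := hD (4, pv w 3, 0, 0) (by simp)
    exact ⟨.inf s t, by simp only [Tm.code, hs, ht]⟩
  · obtain ⟨rfl, rfl⟩ := h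
    obtain ⟨s, hs⟩ := hD (4, pv w 2, 0, 0) (by simp)
    obtain ⟨t, ht⟩ := hD (4, pv w 3, 0, 0) (by simp)
    exact ⟨.sup s t, by simp only [Tm.code, hs, ht]⟩
  · obtain ⟨rfl, rfl⟩ := h
    exact ⟨[], rfl⟩
  · obtain ⟨rfl, rfl⟩ := h
    obtain ⟨s, hs⟩ := hD (4, pv w 2, 0, 0) (by simp)
    obtain ⟨L, hL⟩ := hD (5, pv w 6, 0, 0) (by simp)
    refine ⟨s :: L, ?_⟩
    rw [List.map_cons, lc_cons, hs, hL]
  · obtain ⟨rfl, rfl⟩ := h
    intro L hL
    obtain ⟨b, L', rfl, hb, _⟩ := lc_cons_inv hL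
    exact hb
  · obtain ⟨rfl, rfl⟩ := h
    intro L hL
    obtain ⟨b, L', rfl, _, hL'⟩ := lc_cons_inv hL
    have h1 : Good S (7, pv w 6, pv w 7, pv w 3) := hD _ (by simp)
    exact h1 L' hL'
  · obtain ⟨rfl, rfl⟩ := h
    intro L hL
    rw [lc_zero_inv hL]
    rfl
  · obtain ⟨rfl, rfl⟩ := h
    intro L hL τ hτ
    rw [code_var_inv hτ]
    have h1 : Good S (7, pv w 1, pv w 7, pv w 3) := hD _ (by simp)
    exact h1 L hL
  · obtain ⟨rfl, rfl⟩ := h
    intro L hL τ hτ
    rw [code_one_inv hτ]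
    rfl
  · obtain ⟨rfl, rfl⟩ := h
    intro L hL τ hτ
    obtain ⟨s, t, rfl, hs, ht⟩ := code_mul_inv hτ
    have h1 : Good S (1, pv w 1, pv w 2, pv w 4) := hD _ (by simp)
    have h2 : Good S (1, pv w 1, pv w 3, pv w 5) := hD _ (by simp)
    simp only [Tm.fsub, Tm.code, h1 L hL s hs, h2 L hL t ht]
  · obtain ⟨rfl, rfl⟩ := h
    intro L hL τ hτ
    obtain ⟨s, rfl, hs⟩ := code_inv_inv hτ
    have h1 : Good S (1, pv w 1, pv w 2, pv w 4) := hD _ (by simp)
    simp only [Tm.fsub, Tm.code, h1 L hL s hs]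
  · obtain ⟨rfl, rfl⟩ := h
    intro L hL τ hτ
    obtain ⟨s, t, rfl, hs, ht⟩ := code_inf_inv hτ
    have h1 : Good S (1, pv w 1, pv w 2, pv w 4) := hD _ (by simp)
    have h2 : Good S (1, pv w 1, pv w 3, pv w 5) := hD _ (by simp)
    simp only [Tm.fsub, Tm.code, h1 L hL s hs, h2 L hL t ht]
  · obtain ⟨rfl, rfl⟩ := h
    intro L hL τ hτ
    obtain ⟨s, t, rfl, hs, ht⟩ := code_sup_inv hτ
    have h1 : Good S (1, pv w 1, pv w 2, pv w 4) := hD _ (by simp)
    have h2 : Good S (1, pv w 1, pv w 3, pv w 5) := hD _ (by simp)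
    simp only [Tm.fsub, Tm.code, h1 L hL s hs, h2 L hL t ht]
  · obtain ⟨rfl, rfl⟩ := h
    intro L hL
    have hL' : lc (L.map id) = Nat.succ (Nat.pair (pv w 2) (pv w 6)) := by rw [List.map_id]; exact hL
    obtain ⟨b, L', rfl, hb, _⟩ := lc_cons_inv hL'
    rw [← hb]
    exact List.mem_cons_self
  · obtain ⟨rfl, rfl⟩ := h
    intro L hL
    have hL' : lc (L.map id) = Nat.succ (Nat.pair (pv w 3) (pv w 6)) := by rw [List.map_id]; exact hL
    obtain ⟨b, L', rfl, hb, hL''⟩ := lc_cons_inv hL'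
    rw [List.map_id] at hL''
    have h1 : Good S (6, pv w 2, pv w 6, 0) := hD _ (by simp)
    exact List.mem_cons_of_mem _ (h1 L' hL'')
  · obtain ⟨rfl, rfl⟩ := h
    intro P hP
    have h1 : Good S (6, Nat.pair (pv w 2) (pv w 3), pv w 0, 0) := hD _ (by simp)
    obtain ⟨e, he, he'⟩ := List.mem_map.1 (h1 _ hP)
    rw [eqCode, Nat.pair_eq_pair] at he'
    exact ⟨e.1, e.2, he'.1, he'.2, Der.prem _ _ he⟩
  · obtain ⟨rfl, rfl⟩ := h
    intro P hP L hL E hE
    rw [lc_zero_inv hE]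
    intro e he
    exact absurd he List.not_mem_nil
  · obtain ⟨rfl, rfl⟩ := h
    intro P hP L hL E hE
    obtain ⟨b, E', rfl, hb, hE'⟩ := lc_cons_inv hE
    rw [eqCode, Nat.pair_eq_pair] at hb
    have h1 : Good S (1, pv w 1, pv w 2, pv w 4) := hD _ (by simp)
    have h2 : Good S (1, pv w 1, pv w 3, pv w 5) := hD _ (by simp)
    have h3 : Good S (2, pv w 0, pv w 4, pv w 5) := hD _ (by simp)
    have h4 : Good S (3, pv w 0, pv w 1, pv w 6) := hD _ (by simp)
    intro e he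
    rcases List.mem_cons.1 he with h5 | h5
    · subst h5
      obtain ⟨s₀, t₀, hs, ht, hder⟩ := h3 P hP
      have e1 := h1 L hL e.1 hb.1
      have e2 := h2 L hL e.2 hb.2
      rw [← hs] at e1
      rw [← ht] at e2
      rw [Tm.code_injective e1, Tm.code_injective e2]
      exact hder
    · exact h4 P hP L hL E' hE' e h5

theorem good_TW {S : QId → Prop} {w : List ℕ}
    (hW : ∃ ψ : QId, S ψ ∧ ψ.code = Nat.pair (pv w 6) (Nat.pair (pv w 2) (pv w 3)))
    (hD : ∀ p ∈ (TW w).1, Good S p) : Good S (TW w).2 := by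
  obtain ⟨ψ, hψ, hc⟩ := hW
  rw [QId.code, Nat.pair_eq_pair, eqCode, Nat.pair_eq_pair] at hc
  obtain ⟨hc1, hc2, hc3⟩ := hc
  intro P hP
  obtain ⟨L, hL⟩ := hD (5, pv w 1, 0, 0) (by simp [TW])
  have h1 : Good S (1, pv w 1, pv w 2, pv w 4) := hD _ (by simp [TW])
  have h2 : Good S (1, pv w 1, pv w 3, pv w 5) := hD _ (by simp [TW])
  have h3 : Good S (3, pv w 0, pv w 1, pv w 6) := hD _ (by simp [TW])
  exact ⟨_, _, h1 L hL _ hc2, h2 L hL _ hc3, Der.rule ψ hψ L (h3 P hP L hL ψ.prem hc1)⟩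

theorem good_of_cl {S : QId → Prop} {c : Fc}
    (h : Cl (RR fun n => ∃ ψ : QId, S ψ ∧ ψ.code = n) c) : Good S c := by
  induction h with
  | mk D c h hD ih =>
    rcases h with ⟨w, hw⟩ | ⟨w, hw, he⟩
    · exact good_TT hw ih
    · have h1 : D = (TW w).1 := congrArg Prod.fst he
      have h2 : c = (TW w).2 := congrArg Prod.snd he
      subst h1
      subst h2
      exact good_TW hw ih

section complete

variable {W : ℕ → Prop}

theorem cl_TT {D : List Fc} {c : Fc} (w : List ℕ) (h : (D, c) ∈ TT w)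
    (hD : ∀ p ∈ D, Cl (RR W) p) : Cl (RR W) c := Cl.mk D c (Or.inl ⟨w, h⟩) hD

theorem cl_tm (τ : Tm) : Cl (RR W) (4, τ.code, 0, 0) := by
  induction τ with
  | var n =>
    exact cl_TT (D := []) [0, 0, 0, 0, 0, 0, 0, n] (by simp [TT, pv, Tm.code]) (by simp)
  | one => exact cl_TT (D := []) [] (by simp [TT, pv, Tm.code]) (by simp)
  | mul s t ihs iht =>
    exact cl_TT (D := [(4, s.code, 0, 0), (4, t.code, 0, 0)]) [0, 0, s.code, t.code]
      (by simp [TT, pv, Tm.code]) (by simpa using ⟨ihs, iht⟩)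
  | inv t ih =>
    exact cl_TT (D := [(4, t.code, 0, 0)]) [0, 0, t.code]
      (by simp [TT, pv, Tm.code]) (by simpa using ih)
  | inf s t ihs iht =>
    exact cl_TT (D := [(4, s.code, 0, 0), (4, t.code, 0, 0)]) [0, 0, s.code, t.code]
      (by simp [TT, pv, Tm.code]) (by simpa using ⟨ihs, iht⟩)
  | sup s t ihs iht =>
    exact cl_TT (D := [(4, s.code, 0, 0), (4, t.code, 0, 0)]) [0, 0, s.code, t.code]
      (by simp [TT, pv, Tm.code]) (by simpa using ⟨ihs, iht⟩)

theorem cl_tl (L : List Tm) : Cl (RR W) (5, lc (L.map Tm.code), 0, 0) := by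
  induction L with
  | nil => exact cl_TT (D := []) [] (by simp [TT, lc_nil]) (by simp)
  | cons a L ih =>
    exact cl_TT (D := [(4, a.code, 0, 0), (5, lc (L.map Tm.code), 0, 0)])
      [0, 0, a.code, 0, 0, 0, lc (L.map Tm.code)] (by simp [TT, pv, lc_cons])
      (by simpa using ⟨cl_tm a, ih⟩)

theorem cl_get (L : List Tm) (n : ℕ) :
    Cl (RR W) (7, lc (L.map Tm.code), n, (lsub L n).code) := by
  induction L generalizing n with
  | nil =>
    exact cl_TT (D := []) [0, 0, 0, 0, 0, 0, 0, n] (by simp [TT, pv, lc_nil, lsub, Tm.code])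
      (by simp)
  | cons a L ih =>
    cases n with
    | zero =>
      exact cl_TT (D := []) [0, 0, a.code, 0, 0, 0, lc (L.map Tm.code)]
        (by simp [TT, pv, lc_cons, lsub]) (by simp)
    | succ n =>
      exact cl_TT (D := [(7, lc (L.map Tm.code), n, (lsub L n).code)])
        [0, 0, a.code, (lsub L n).code, 0, 0, lc (L.map Tm.code), n]
        (by simp [TT, pv, lc_cons, lsub]) (by simpa using ih n)

theorem cl_sub (L : List Tm) (τ : Tm) :
    Cl (RR W) (1, lc (L.map Tm.code), τ.code, (τ.fsub (lsub L)).code) := by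
  induction τ with
  | var n =>
    exact cl_TT (D := [(7, lc (L.map Tm.code), n, (lsub L n).code)])
      [0, lc (L.map Tm.code), 0, (lsub L n).code, 0, 0, 0, n]
      (by simp [TT, pv, Tm.code, Tm.fsub]) (by simpa using cl_get L n)
  | one =>
    exact cl_TT (D := []) [0, lc (L.map Tm.code)] (by simp [TT, pv, Tm.code, Tm.fsub]) (by simp)
  | mul s t ihs iht =>
    exact cl_TT (D := [(1, lc (L.map Tm.code), s.code, (s.fsub (lsub L)).code),
        (1, lc (L.map Tm.code), t.code, (t.fsub (lsub L)).code)])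
      [0, lc (L.map Tm.code), s.code, t.code, (s.fsub (lsub L)).code, (t.fsub (lsub L)).code]
      (by simp [TT, pv, Tm.code, Tm.fsub]) (by simpa using ⟨ihs, iht⟩)
  | inv s ihs =>
    exact cl_TT (D := [(1, lc (L.map Tm.code), s.code, (s.fsub (lsub L)).code)])
      [0, lc (L.map Tm.code), s.code, 0, (s.fsub (lsub L)).code]
      (by simp [TT, pv, Tm.code, Tm.fsub]) (by simpa using ihs)
  | inf s t ihs iht =>
    exact cl_TT (D := [(1, lc (L.map Tm.code), s.code, (s.fsub (lsub L)).code),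
        (1, lc (L.map Tm.code), t.code, (t.fsub (lsub L)).code)])
      [0, lc (L.map Tm.code), s.code, t.code, (s.fsub (lsub L)).code, (t.fsub (lsub L)).code]
      (by simp [TT, pv, Tm.code, Tm.fsub]) (by simpa using ⟨ihs, iht⟩)
  | sup s t ihs iht =>
    exact cl_TT (D := [(1, lc (L.map Tm.code), s.code, (s.fsub (lsub L)).code),
        (1, lc (L.map Tm.code), t.code, (t.fsub (lsub L)).code)])
      [0, lc (L.map Tm.code), s.code, t.code, (s.fsub (lsub L)).code, (t.fsub (lsub L)).code]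
      (by simp [TT, pv, Tm.code, Tm.fsub]) (by simpa using ⟨ihs, iht⟩)

theorem cl_mem (e : ℕ) (L : List ℕ) (h : e ∈ L) : Cl (RR W) (6, e, lc L, 0) := by
  induction L with
  | nil => exact absurd h List.not_mem_nil
  | cons a L ih =>
    rcases List.mem_cons.1 h with h | h
    · subst h
      exact cl_TT (D := []) [0, 0, e, 0, 0, 0, lc L] (by simp [TT, pv, lc_cons]) (by simp)
    · exact cl_TT (D := [(6, e, lc L, 0)]) [0, 0, e, a, 0, 0, lc L] (by simp [TT, pv, lc_cons])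
        (by simpa using ih h)

theorem cl_all (p : ℕ) (L : List Tm) (E : List (Tm × Tm))
    (h : ∀ e ∈ E, Cl (RR W) (2, p, (e.1.fsub (lsub L)).code, (e.2.fsub (lsub L)).code)) :
    Cl (RR W) (3, p, lc (L.map Tm.code), lc (E.map eqCode)) := by
  induction E with
  | nil =>
    exact cl_TT (D := []) [p, lc (L.map Tm.code)] (by simp [TT, pv, lc_nil]) (by simp)
  | cons e E ih =>
    refine cl_TT (D := [(1, lc (L.map Tm.code), e.1.code, (e.1.fsub (lsub L)).code),
        (1, lc (L.map Tm.code), e.2.code, (e.2.fsub (lsub L)).code),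
        (2, p, (e.1.fsub (lsub L)).code, (e.2.fsub (lsub L)).code),
        (3, p, lc (L.map Tm.code), lc (E.map eqCode))])
      [p, lc (L.map Tm.code), e.1.code, e.2.code, (e.1.fsub (lsub L)).code,
        (e.2.fsub (lsub L)).code, lc (E.map eqCode)]
      (by simp [TT, pv, lc_cons, eqCode]) ?_
    intro q hq
    simp only [List.mem_cons, List.not_mem_nil, or_false] at hq
    rcases hq with rfl | rfl | rfl | rfl
    · exact cl_sub L e.1
    · exact cl_sub L e.2
    · exact h e List.mem_cons_self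
    · exact ih fun e he => h e (List.mem_cons_of_mem _ he)

theorem cl_of_der {S : QId → Prop} {P : List (Tm × Tm)} {s t : Tm} (h : Der S P s t) :
    Cl (RR fun n => ∃ ψ : QId, S ψ ∧ ψ.code = n) (2, lc (P.map eqCode), s.code, t.code) := by
  induction h with
  | prem s t h =>
    refine cl_TT (D := [(6, Nat.pair s.code t.code, lc (P.map eqCode), 0)])
      [lc (P.map eqCode), 0, s.code, t.code] (by simp [TT, pv]) ?_
    intro q hq
    rw [List.mem_singleton.1 hq]
    exact cl_mem _ _ (List.mem_map.2 ⟨_, h, rfl⟩)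
  | rule ψ hψ l h ih =>
    refine Cl.mk (TW [lc (P.map eqCode), lc (l.map Tm.code), ψ.concl.1.code, ψ.concl.2.code,
      (ψ.concl.1.fsub (lsub l)).code, (ψ.concl.2.fsub (lsub l)).code,
      lc (ψ.prem.map eqCode)]).1 _ (Or.inr ⟨[lc (P.map eqCode), lc (l.map Tm.code),
        ψ.concl.1.code, ψ.concl.2.code, (ψ.concl.1.fsub (lsub l)).code,
        (ψ.concl.2.fsub (lsub l)).code, lc (ψ.prem.map eqCode)], ⟨ψ, hψ, rfl⟩, rfl⟩) ?_
    intro q hq
    simp only [TW, pv, List.mem_cons, List.not_mem_nil, or_false] at hq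
    rcases hq with rfl | rfl | rfl | rfl
    · exact cl_tl l
    · exact cl_sub l ψ.concl.1
    · exact cl_sub l ψ.concl.2
    · exact cl_all _ l ψ.prem ih

end complete

/-- Derivability from a recursively enumerable set of quasi-identities is recursively
enumerable. -/
theorem der_re {S : QId → Prop} (hS : REPred fun n => ∃ ψ : QId, S ψ ∧ ψ.code = n) :
    ∃ U : ℕ → Prop, REPred U ∧
      ∀ φ : QId, U φ.code ↔ Der (withBase S) φ.prem φ.concl.1 φ.concl.2 := by
  have hW : REPred fun n => ∃ ψ : QId, withBase S ψ ∧ ψ.code = n := by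
    have h1 : PrimrecPred fun n : ℕ => ∃ z ∈ base.map QId.code, z = n := by
      have h2 : PrimrecRel fun (L : List ℕ) (x : ℕ) => ∃ z ∈ L, z = x :=
        (Primrec.eq (α := ℕ)).exists_mem_list
      exact PrimrecPred.comp (p := fun y : List ℕ × ℕ => ∃ z ∈ y.1, z = y.2)
        h2 ((Primrec.const (base.map QId.code)).pair Primrec.id)
    refine (or_re hS (prim_re h1)).of_eq fun n => ?_
    constructor
    · rintro (⟨ψ, h2, h3⟩ | ⟨z, hz, rfl⟩)
      · exact ⟨ψ, Or.inl h2, h3⟩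
      · obtain ⟨ψ, h2, h3⟩ := List.mem_map.1 hz
        exact ⟨ψ, Or.inr h2, h3⟩
    · rintro ⟨ψ, h2 | h2, h3⟩
      · exact Or.inl ⟨ψ, h2, h3⟩
      · exact Or.inr ⟨_, List.mem_map.2 ⟨ψ, h2, rfl⟩, h3⟩
  refine ⟨fun n => Cl (RR fun n => ∃ ψ : QId, withBase S ψ ∧ ψ.code = n)
    (2, n.unpair.1, n.unpair.2.unpair.1, n.unpair.2.unpair.2), ?_, ?_⟩
  · apply comp_re (cl_re (rr_re hW)) (f := fun n : ℕ =>
      ((2, n.unpair.1, n.unpair.2.unpair.1, n.unpair.2.unpair.2) : Fc))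
    apply Primrec.to_comp
    refine (Primrec.const 2).pair ((Primrec.fst.comp Primrec.unpair).pair
      ((Primrec.fst.comp (Primrec.unpair.comp (Primrec.snd.comp Primrec.unpair))).pair
      (Primrec.snd.comp (Primrec.unpair.comp (Primrec.snd.comp Primrec.unpair)))))
  · intro φ
    have hcode : φ.code = Nat.pair (lc (φ.prem.map eqCode))
        (Nat.pair φ.concl.1.code φ.concl.2.code) := rfl
    simp only [hcode, Nat.unpair_pair]
    constructor
    · intro h
      obtain ⟨s, t, hs, ht, hd⟩ := good_of_cl h φ.prem rfl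
      rw [Tm.code_injective hs, Tm.code_injective ht] at hd
      exact hd
    · intro h
      exact cl_of_der h

/-- The quasi-variety generated by `Aut(Ω)` is not defined by a recursively enumerable set of
quasi-identities. -/
theorem not_axiom {Ω : Type u} [LinearOrder Ω] (hconf : HasConf Ω) (hdy : ¬ HasDyadic Ω)
    (S : QId → Prop) (hS : REPred fun n => ∃ ψ : QId, S ψ ∧ ψ.code = n) :
    ¬ ∀ (G : Type u) [LGroup G],
      (∀ φ : QId, φ.Holds (Ω ≃o Ω) → φ.Holds G) ↔ ∀ ψ, S ψ → ψ.Holds G := by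
  intro hax
  obtain ⟨U, hU, hUd⟩ := der_re hS
  have key : ∀ φ : QId, U φ.code ↔ φ.Holds (Ω ≃o Ω) := by
    intro φ
    rw [hUd]
    constructor
    · intro h
      exact sound S φ h ((hax (Ω ≃o Ω)).1 fun φ h => h)
    · intro h
      apply complete.{u} S φ
      intro G _ hG
      exact (hax G).2 hG φ h
  obtain ⟨φ, hφ, h⟩ := exists_reduction.{u}
  apply ComputablePred.halting_problem_not_re 0
  have h1 : REPred fun c : Nat.Partrec.Code => U (φ (Encodable.encode c)).code :=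
    comp_re hU (hφ.comp Computable.encode)
  refine h1.of_eq fun c => ?_
  have h2 := h Ω hconf hdy (Encodable.encode c)
  rw [Denumerable.ofNat_encode] at h2
  rw [key, ← h2]

end Pool.Agent.Helper56.QV
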