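import Mathlib
import Pool.Agent.Helper56.QV.Down

/-! `Aut(Ω)` acts on the orbit of a point as a subgroup of the wreath power. -/

set_option autoImplicit false

namespace Pool.Agent.Helper56.QV

universe u v

namespace Fr

variable {Γ : Type v} [LinearOrder Γ] {Ω : Type u} [LinearOrder Ω] (X : Fr Γ Ω)

theorem c_mem_iff {i j : Γ} (hij : j < i) (z : Ω) : X.c j z ∈ X.M i ↔ z ∈ X.M i := by
  constructor
  · intro h
    by_contra hz
    rw [X.supp i j hij z hz] at h
    exact hz h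
  · intro h
    by_contra hz
    have h1 := X.supp i j hij _ hz
    have h2 : X.c j z = z := (X.c j).injective h1
    rw [h2] at hz
    exact hz h

theorem zp_mem_M {i j : Γ} (hij : j < i) (n : ℤ) {z : Ω} : (X.c j ^ n) z ∈ X.M i ↔ z ∈ X.M i :=
  zp_mem_iff (X.c_mem_iff hij) n z

theorem M_mono {i j : Γ} (hij : j < i) {z : Ω} (hz : z ∈ X.M j) : z ∈ X.M i := by
  by_contra h
  exact absurd (X.lt j z hz z hz) (by rw [X.supp i j hij z h]; exact lt_irrefl _)

theorem M_mono' {i j : Γ} (hij : j ≤ i) {z : Ω} (hz : z ∈ X.M j) : z ∈ X.M i := by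
  rcases hij.lt_or_eq with h | rfl
  · exact X.M_mono h hz
  · exact hz

theorem cell_sub {i j : Γ} (hij : j < i) {n : ℤ} {z : Ω} (hz : (X.c j ^ (-n)) z ∈ X.M j) :
    z ∈ X.M i := (X.zp_mem_M hij (-n)).1 (X.M_mono hij hz)

variable {X}

theorem near_one (i : Γ) : (X.c i ^ (-(0 : ℤ))) ((1 : Ω ≃o Ω) X.ω) ∈ X.M i := mem0 (X.mem i)

theorem near_iff {G : FZ Γ → (Ω ≃o Ω)} (hG : X.Good 1 G) {i : Γ} {n : ℤ} {x y : FZ Γ} :
    (X.c i ^ (-n)) (((G x)⁻¹ * G y) X.ω) ∈ X.M i ↔ Dif i n x y := by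
  by_cases hxy : x = y
  · subst hxy
    rw [inv_mul_cancel]
    constructor
    · intro h
      rw [lvl_unique (X.lt i) h (near_one i)]
      exact Dif.refl i x
    · intro h
      rw [h.uniq (Dif.refl i x)]
      exact near_one i
  · obtain ⟨j, m, hm, hj⟩ := exists_dif hxy
    have hQ := (hG _ _ _ _ hm hj).near
    rw [one_mul] at hQ
    rcases lt_trichotomy i j with h | h | h
    · constructor
      · intro h1
        exact absurd (lvl_unique (X.lt j) hQ (mem0 (X.cell_sub h h1))) hm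
      · intro h1
        exact absurd (hj.uniq (h1.up h)) hm
    · subst h
      constructor
      · intro h1
        rw [lvl_unique (X.lt i) h1 hQ]
        exact hj
      · intro h1
        rw [h1.uniq hj]
        exact hQ
    · have h2 := mem0 (X.cell_sub h hQ)
      constructor
      · intro h1
        rw [lvl_unique (X.lt i) h1 h2]
        exact hj.up h
      · intro h1
        rw [h1.uniq (hj.up h)]
        exact h2

theorem G_ω_lt {G : FZ Γ → (Ω ≃o Ω)} (hG : X.Good 1 G) {x y : FZ Γ} (h : x < y) :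
    G x X.ω < G y X.ω := by
  obtain ⟨i, n, hn, h1⟩ := exists_dif_pos h
  have h2 := (near_iff hG).2 h1
  have h3 := lvl_lt (X.lt i) (mem0 (X.mem i)) h2 hn
  rw [mul_app, ← (G x).lt_iff_lt, app_inv_self] at h3
  exact h3

theorem G_ω_mono {G : FZ Γ → (Ω ≃o Ω)} (hG : X.Good 1 G) : StrictMono fun x => G x X.ω :=
  fun _ _ h => G_ω_lt hG h

section

variable {G : FZ Γ → (Ω ≃o Ω)} (hG : X.Good 1 G) (hS : ∀ u : Ω ≃o Ω, ∃ x, G x X.ω = u X.ω)

/-- The action on coordinates. -/
noncomputable def hat (s : Ω ≃o Ω) (x : FZ Γ) : FZ Γ := (hS (s * G x)).choose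

theorem hat_spec (s : Ω ≃o Ω) (x : FZ Γ) : G (hat hS s x) X.ω = s (G x X.ω) :=
  (hS (s * G x)).choose_spec

include hG in
theorem hat_eq {s : Ω ≃o Ω} {x y : FZ Γ} (h : G y X.ω = s (G x X.ω)) : hat hS s x = y :=
  G_ω_inj one_pos hG ((hat_spec hS s x).trans h.symm)

/-- The automorphism of coordinates. -/
noncomputable def hatO (s : Ω ≃o Ω) : FZ Γ ≃o FZ Γ where
  toFun := hat hS s
  invFun := hat hS s⁻¹
  left_inv x := hat_eq hG hS (by rw [hat_spec, inv_app_self])
  right_inv x := hat_eq hG hS (by rw [hat_spec, app_inv_self])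
  map_rel_iff' := by
    intro x y
    change hat hS s x ≤ hat hS s y ↔ x ≤ y
    rw [← (G_ω_mono hG).le_iff_le, ← (G_ω_mono hG).le_iff_le (a := x)]
    rw [hat_spec, hat_spec]
    exact s.le_iff_le

theorem hatO_mem (s : Ω ≃o Ω) : hatO hG hS s ∈ ZPow Γ := by
  rw [mem_zpow]
  intro x y i n h
  rw [← near_iff hG] at h ⊢
  change (X.c i ^ (-n)) (((G (hat hS s x))⁻¹ * G (hat hS s y)) X.ω) ∈ X.M i
  set t : Ω ≃o Ω := (G (hat hS s x))⁻¹ * s * G x with ht
  have h1 : t X.ω = X.ω := by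
    rw [ht, mul_app, mul_app, ← hat_spec hS s x, inv_app_self]
  have h2 : ((G (hat hS s x))⁻¹ * G (hat hS s y)) X.ω = t (((G x)⁻¹ * G y) X.ω) := by
    rw [mul_app, hat_spec, ht, mul_app, mul_app, mul_app, app_inv_self]
  rw [h2]
  have h3 := X.shift i 0 t (mem0 (by rw [h1]; exact X.mem i)) n _ h
  rwa [add_zero] at h3

/-- The homomorphism to the wreath power. -/
noncomputable def toPow : LHom (Ω ≃o Ω) (ZPow Γ) where
  toFun s := ⟨hatO hG hS s, hatO_mem hG hS s⟩
  mul' s t := by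
    apply Subtype.ext
    apply OrderIso.ext
    funext x
    exact hat_eq hG hS (by
      change G (hat hS s (hat hS t x)) X.ω = _
      rw [hat_spec, hat_spec, mul_app])
  sup' s t := by
    apply Subtype.ext
    apply OrderIso.ext
    funext x
    exact hat_eq hG hS (by
      change G (max (hat hS s x) (hat hS t x)) X.ω = max (s (G x X.ω)) (t (G x X.ω))
      rw [← hat_spec hS s x, ← hat_spec hS t x]
      exact (G_ω_mono hG).monotone.map_max)

/-- Quasi-identities of the wreath power hold in `Aut(Ω)` at the points of the orbit. -/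
theorem holds_at (hG : X.Good 1 G) (hS : ∀ u : Ω ≃o Ω, ∃ x, G x X.ω = u X.ω) {φ : QId}
    (hφ : φ.Holds (ZPow Γ)) (Y : ℕ → (Ω ≃o Ω))
    (hY : ∀ e ∈ φ.prem, e.1.eval Y = e.2.eval Y) :
    φ.concl.1.eval Y X.ω = φ.concl.2.eval Y X.ω := by
  have h1 := hφ (fun n => toPow hG hS (Y n)) (by
    intro e he
    rw [← LHom.eval, ← LHom.eval, hY e he])
  rw [← LHom.eval, ← LHom.eval] at h1
  obtain ⟨x, hx⟩ := hS 1
  rw [one_app] at hx
  have h2 : hat hS (φ.concl.1.eval Y) x = hat hS (φ.concl.2.eval Y) x :=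
    congrArg (fun F : ZPow Γ => F.1 x) h1
  have h3 := hat_spec hS (φ.concl.1.eval Y) x
  rw [h2, hat_spec, hx] at h3
  exact h3.symm

end

end Fr

end Pool.Agent.Helper56.QV
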