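import Mathlib
import Pool.Agent.Helper56.QV.Up

/-! Existence of good families. -/

set_option autoImplicit false

namespace Pool.Agent.Helper56.QV

universe u v

namespace Fr

variable {Γ : Type v} [LinearOrder Γ] {Ω : Type u} [LinearOrder Ω] (X : Fr Γ Ω)

/-- Automorphisms that are trivial outside the block. -/
def Low (i : Γ) (k : Ω ≃o Ω) : Prop := ∀ z, z ∉ X.M i → k z = z

variable {X} {d : ℤ}

theorem Low.mem_iff {i : Γ} {k : Ω ≃o Ω} (h : X.Low i k) (z : Ω) :
    k z ∈ X.M i ↔ z ∈ X.M i := by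
  constructor
  · intro h1
    by_contra hz
    rw [h z hz] at h1
    exact hz h1
  · intro h1
    by_contra hz
    have h2 := h _ hz
    rw [k.injective h2] at hz
    exact hz h1

theorem low_one (i : Γ) : X.Low i 1 := fun _ _ => rfl

theorem Low.mul {i : Γ} {k l : Ω ≃o Ω} (hk : X.Low i k) (hl : X.Low i l) : X.Low i (k * l) := by
  intro z hz
  rw [mul_app, hl z hz, hk z hz]

theorem Low.inv {i : Γ} {k : Ω ≃o Ω} (hk : X.Low i k) : X.Low i k⁻¹ := by
  intro z hz
  calc k⁻¹ z = k⁻¹ (k z) := by rw [hk z hz]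
    _ = z := inv_app_self _ _

theorem low_c {i j : Γ} (hij : j < i) : X.Low i (X.c j) := X.supp i j hij

theorem low_zp {i j : Γ} (hij : j < i) (n : ℤ) : X.Low i (X.c j ^ n) := by
  induction n using Int.induction_on with
  | zero => rw [zpow_zero]; exact low_one i
  | succ n ih => rw [zpow_add, zpow_one]; exact ih.mul (low_c hij)
  | pred n ih => rw [zpow_sub, zpow_one]; exact ih.mul (low_c hij).inv

theorem Low.mono {i j : Γ} (hij : j < i) {k : Ω ≃o Ω} (h : X.Low j k) : X.Low i k :=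
  fun z hz => h z fun h1 => hz (X.M_mono hij h1)

theorem Q.inv {i : Γ} {n : ℤ} {u : Ω ≃o Ω} (h : X.Q d i n u) : X.Q d i (-n) u⁻¹ := by
  constructor
  · set t : Ω ≃o Ω := u⁻¹ * X.c i ^ (d * n) with ht
    have h1 : t X.ω ∈ X.M i := by
      have h2 := (X.blk i).inv_mem (k := X.c i ^ (-(d * n)) * u) (X.mem i) h.near
      have h3 : (X.c i ^ (-(d * n)) * u)⁻¹ = t := by rw [ht]; group
      rwa [h3] at h2
    have h4 := X.shift i 0 t (mem0 h1) (-(d * n)) ((X.c i ^ (-(d * n))) X.ω) (by
      rw [neg_neg, zp_zp_neg]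
      exact X.mem i)
    have h5 : t ((X.c i ^ (-(d * n))) X.ω) = u⁻¹ X.ω := by
      rw [ht, mul_app, zp_zp_neg]
    rw [h5, add_zero] at h4
    rwa [mul_neg]
  · intro r hr
    rw [h.inv_out hr, mul_neg]

theorem Q.mul {i : Γ} {a b : ℤ} {w v : Ω ≃o Ω} (hw : X.Q d i a w) (hv : X.Q d i b v) :
    X.Q d i (a + b) (w * v) := by
  constructor
  · have h1 := hw.cell b hv.near
    rw [mul_app, add_comm a b]
    exact h1
  · intro r hr
    rw [mul_app, hv.out r hr, hw.out, ← zp_add, ← mul_add]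
    intro m hm
    rw [← zp_add] at hm
    apply hr (m - b)
    have : -(d * (m - b)) = -(d * m) + d * b := by ring
    rwa [this]

theorem Q.mul_low {i : Γ} {n : ℤ} {w h : Ω ≃o Ω} (hw : X.Q d i n w) (hh : X.Low i h) :
    X.Q d i n (w * h) := by
  constructor
  · exact hw.cell0 ((hh.mem_iff _).2 (X.mem i))
  · intro r hr
    have h0 := hr 0
    rw [mul_zero, neg_zero, zpow_zero, one_app] at h0
    rw [mul_app, hh r h0, hw.out r hr]

theorem Q.low {i j : Γ} (hij : j < i) {n : ℤ} {w : Ω ≃o Ω} (hw : X.Q d j n w) : X.Low i w := by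
  intro z hz
  rw [hw.out, low_zp hij _ z hz]
  intro m hm
  exact hz (X.cell_sub hij hm)

theorem not_mem_of {i : Γ} {n : ℤ} (hn : n ≠ 0) {z : Ω} (hz : z ∈ X.M i) :
    (X.c i ^ n) z ∉ X.M i := by
  intro h
  have h1 : (X.c i ^ (-n)) ((X.c i ^ n) z) ∈ X.M i := by rw [zp_neg_zp]; exact hz
  exact hn (lvl_unique (X.lt i) h1 (mem0 h))

theorem q_low (hd : 0 < d) {i : Γ} {m : ℤ} (hm : m ≠ 0) {w k : Ω ≃o Ω} (hw : X.Low i w)
    (hk : X.Low i k) : X.Q d i m (w * (X.c i ^ (d * m) * k)) := by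
  have hdm : d * m ≠ 0 := mul_ne_zero hd.ne' hm
  constructor
  · have h1 : k X.ω ∈ X.M i := (hk.mem_iff _).2 (X.mem i)
    rw [mul_app, mul_app, hw _ (not_mem_of hdm h1), zp_neg_zp]
    exact h1
  · intro r hr
    have h0 := hr 0
    rw [mul_zero, neg_zero, zpow_zero, one_app] at h0
    have h1 := hr (-m)
    rw [mul_neg, neg_neg] at h1
    rw [mul_app, mul_app, hk r h0, hw _ h1]

/-! ### The product family -/

variable (X)

/-- The product of powers of the cell shifts. -/
noncomputable def GW (x : Γ →₀ ℤ) : Ω ≃o Ω :=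
  if h : x.support.Nonempty then
    GW (x.erase (x.support.min' h)) * X.c (x.support.min' h) ^ (x (x.support.min' h))
  else 1
termination_by x.support.card
decreasing_by
  rw [Finsupp.support_erase]
  exact Finset.card_erase_lt_of_mem (Finset.min'_mem _ _)

theorem GW_eq (i : Γ) (x : Γ →₀ ℤ) :
    ∃ L, X.Low i L ∧ X.GW x = X.GW (x.filter (i < ·)) * X.c i ^ (x i) * L := by
  classical
  induction hn : x.support.card using Nat.strong_induction_on generalizing x with
  | _ n ih =>
  by_cases h : x.support.Nonempty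
  · set m := x.support.min' h with hm
    have hmem : m ∈ x.support := Finset.min'_mem _ _
    have hmin : ∀ j ∈ x.support, m ≤ j := fun j hj => Finset.min'_le _ _ hj
    have hGW : X.GW x = X.GW (x.erase m) * X.c m ^ (x m) := by
      rw [GW, dif_pos h]
    rcases lt_trichotomy m i with h1 | h1 | h1
    · obtain ⟨L, hL, h2⟩ := ih _ (by
        rw [← hn, Finsupp.support_erase]
        exact Finset.card_erase_lt_of_mem hmem) (x.erase m) rfl
      have h3 : (x.erase m).filter (i < ·) = x.filter (i < ·) := by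
        ext j
        by_cases hj : i < j
        · rw [Finsupp.filter_apply_pos _ _ hj, Finsupp.filter_apply_pos _ _ hj,
            Finsupp.erase_ne (h1.trans hj).ne']
        · rw [Finsupp.filter_apply_neg _ _ hj, Finsupp.filter_apply_neg _ _ hj]
      rw [h3, Finsupp.erase_ne h1.ne'] at h2
      refine ⟨L * X.c m ^ (x m), hL.mul (low_zp h1 _), ?_⟩
      rw [hGW, h2]
      group
    · have h3 : x.filter (i < ·) = x.erase m := by
        ext j
        by_cases hj : i < j
        · rw [Finsupp.filter_apply_pos _ _ hj, Finsupp.erase_ne]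
          rw [h1]
          exact hj.ne'
        · rw [Finsupp.filter_apply_neg _ _ hj]
          by_cases hjm : j = m
          · rw [hjm, Finsupp.erase_same]
          · rw [Finsupp.erase_ne hjm]
            by_contra hne
            have h4 := hmin j (Finsupp.mem_support_iff.2 (Ne.symm hne))
            rw [h1] at h4 hjm
            exact hj (h4.lt_of_ne (Ne.symm hjm))
      refine ⟨1, low_one i, ?_⟩
      rw [mul_one, h3, hGW, h1]
    · have h3 : x.filter (i < ·) = x := by
        rw [Finsupp.filter_eq_self_iff]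
        intro j hj
        exact h1.trans_le (hmin j (Finsupp.mem_support_iff.2 hj))
      have h4 : x i = 0 := by
        by_contra hne
        exact absurd (hmin i (Finsupp.mem_support_iff.2 hne)) (not_le.2 h1)
      refine ⟨1, low_one i, ?_⟩
      rw [mul_one, h3, h4, zpow_zero, mul_one]
  · rw [Finset.not_nonempty_iff_eq_empty, Finsupp.support_eq_empty] at h
    subst h
    refine ⟨1, low_one i, ?_⟩
    rw [Finsupp.filter_zero, Finsupp.coe_zero, Pi.zero_apply, zpow_zero, mul_one, mul_one]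

/-- The product family is good. -/
theorem good_GW : X.Good 1 (fun x => X.GW (ofColex x)) := by
  intro x y i n hn h
  have h1 : (ofColex x).filter (i < ·) = (ofColex y).filter (i < ·) := by
    ext j
    by_cases hj : i < j
    · rw [Finsupp.filter_apply_pos _ _ hj, Finsupp.filter_apply_pos _ _ hj]
      exact h.1 j hj
    · rw [Finsupp.filter_apply_neg _ _ hj, Finsupp.filter_apply_neg _ _ hj]
  obtain ⟨L, hL, hx⟩ := X.GW_eq i (ofColex x)
  obtain ⟨K, hK, hy⟩ := X.GW_eq i (ofColex y)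
  have h2 : (X.GW (ofColex x))⁻¹ * X.GW (ofColex y) = L⁻¹ * (X.c i ^ (1 * n) * K) := by
    rw [hx, hy, h1, ← h.2, one_mul]
    group
  change X.Q 1 i n ((X.GW (ofColex x))⁻¹ * X.GW (ofColex y))
  rw [h2]
  exact q_low one_pos hn hL.inv hK

variable {X}

/-- Over a well-founded chain every point becomes frozen. -/
theorem froz_wf [WellFoundedLT Γ] {G : FZ Γ → (Ω ≃o Ω)} (hG : X.Good 1 G) (z : Ω) :
    ∃ x, X.Froz 1 ((G x)⁻¹ z) := by
  by_contra hcon
  have h1 : ∀ x, ∃ i, ∃ m : ℤ, m ≠ 0 ∧ (X.c i ^ (-(1 * m))) ((G x)⁻¹ z) ∈ X.M i := by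
    intro x
    by_contra h
    push Not at h
    exact hcon ⟨x, h⟩
  choose I m hm h2 using h1
  obtain ⟨_, ⟨x, rfl⟩, hmin⟩ := (wellFounded_lt (α := Γ)).has_min (Set.range I)
    ⟨I (toColex 0), Set.mem_range_self _⟩
  obtain ⟨x', hx'⟩ := exists_move x (I x) (m x)
  have hQ := (hG _ _ _ _ (hm x) hx').inv
  have h3 := hQ.cell (m x) (h2 x)
  have h4 : ((G x)⁻¹ * G x')⁻¹ ((G x)⁻¹ z) = (G x')⁻¹ z := by
    rw [mul_inv_rev, inv_inv, mul_app, app_inv_self]
  rw [h4, add_neg_cancel, mul_zero, neg_zero, zpow_zero, one_app] at h3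
  have h5 : I x ≤ I x' := not_lt.1 (hmin _ (Set.mem_range_self x'))
  have h6 := X.M_mono' h5 h3
  have h7 := lvl_unique (X.lt _) (h2 x') (mem0 h6)
  rw [one_mul] at h7
  exact hm x' h7

/-- A frozen orbit point is the base point. -/
theorem orbit_of_froz {g u : Ω ≃o Ω} (h : X.Froz 1 (g⁻¹ (u X.ω))) : g X.ω = u X.ω := by
  by_contra hne
  obtain ⟨i, n, hn, h1⟩ := X.sep (g⁻¹ * u) (by
    intro h2
    apply hne
    have h3 : g ((g⁻¹ * u) X.ω) = g X.ω := congrArg g h2
    rw [mul_app, app_inv_self] at h3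
    exact h3.symm)
  apply h i n hn
  rw [one_mul]
  exact h1

theorem exists_wf [WellFoundedLT Γ] : ∃ G, X.Good 1 G ∧ ∀ z, ∃ x, X.Froz 1 ((G x)⁻¹ z) :=
  ⟨_, X.good_GW, froz_wf X.good_GW⟩

end Fr

end Pool.Agent.Helper56.QV
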