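import Mathlib
import Pool.Agent.Helper56.QV.GoodFam

/-! Existence of good families, countable case. -/

set_option autoImplicit false

namespace Pool.Agent.Helper56.QV

open Order

universe u v

namespace Fr

variable {Γ : Type v} [LinearOrder Γ] {Ω : Type u} [LinearOrder Ω] (X : Fr Γ Ω)

/-- Finite good families. -/
def PGood (d : ℤ) (f : Finset (FZ Γ × (Ω ≃o Ω))) : Prop :=
  ∀ p ∈ f, ∀ q ∈ f, (p.1 = q.1 → p.2 = q.2) ∧
    ∀ i n, n ≠ 0 → Dif i n p.1 q.1 → X.Q d i n (p.2⁻¹ * q.2)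

variable {X} {d : ℤ}

open Classical in
theorem PGood.insert (hd : 0 < d) {f : Finset (FZ Γ × (Ω ≃o Ω))} (hf : X.PGood d f) {x : FZ Γ}
    {g : Ω ≃o Ω} (hx : (x, g) ∈ f) {i : Γ} {m : ℤ} (hm : m ≠ 0) {x' : FZ Γ} (hxx : Dif i m x x')
    (hno : ∀ q ∈ f, ¬ Dif i 0 q.1 x') {k : Ω ≃o Ω} (hk : X.Low i k) :
    X.PGood d (insert (x', g * (X.c i ^ (d * m) * k)) f) := by
  have hne : ∀ q ∈ f, q.1 ≠ x' := by
    intro q hq h
    apply hno q hq
    rw [h]
    exact Dif.refl i x'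
  have aux : ∀ q ∈ f, ∀ j n, n ≠ 0 → Dif j n q.1 x' →
      X.Q d j n (q.2⁻¹ * (g * (X.c i ^ (d * m) * k))) := by
    intro q hq j n hn hj
    rw [← mul_assoc]
    rcases lt_trichotomy j i with h | h | h
    · exact absurd (hj.up h) (hno q hq)
    · subst h
      have h1 := hj.trans hxx.symm
      by_cases hnm : n = m
      · subst hnm
        have hlow : X.Low j (q.2⁻¹ * g) := by
          rw [add_neg_cancel] at h1
          by_cases hqx : q.1 = x
          · have h2 : q.2 = g := (hf q hq _ hx).1 hqx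
            rw [h2, inv_mul_cancel]
            exact low_one j
          · obtain ⟨l, p, hp, hl⟩ := exists_dif hqx
            have h3 : l < j := by
              by_contra hc
              push Not at hc
              rcases hc.lt_or_eq with h4 | h4
              · exact hp (hl.uniq (h1.up h4))
              · subst h4
                exact hp (hl.uniq h1)
            exact ((hf q hq _ hx).2 l p hp hl).low h3
        exact q_low hd hn hlow hk
      · have h2 : n + -m ≠ 0 := fun h => hnm (by omega)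
        have h3 := (hf q hq _ hx).2 j _ h2 h1
        have h4 := q_low hd hm (low_one j) hk (X := X)
        rw [one_mul] at h4
        have h5 := h3.mul h4
        rwa [neg_add_cancel_right] at h5
    · have h1 := hj.trans (hxx.symm.up h)
      rw [add_zero] at h1
      exact ((hf q hq _ hx).2 j n hn h1).mul_low ((low_zp h _).mul (hk.mono h))
  intro p hp q hq
  rw [Finset.mem_insert] at hp hq
  rcases hp with rfl | hp <;> rcases hq with rfl | hq
  · exact ⟨fun _ => rfl, fun j n hn hj => absurd (hj.uniq (Dif.refl j x')) hn⟩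
  · refine ⟨fun h => absurd h.symm (hne q hq), fun j n hn hj => ?_⟩
    have h1 := (aux q hq j (-n) (neg_ne_zero.2 hn) hj.symm).inv
    rwa [neg_neg, mul_inv_rev, inv_inv] at h1
  · exact ⟨fun h => absurd h (hne p hp), fun j n hn hj => aux p hp j n hn hj⟩
  · exact hf p hp q hq

variable (X d) in
/-- The order of finite good families. -/
def PG : Type _ := {f : Finset (FZ Γ × (Ω ≃o Ω)) // X.PGood d f}

instance : Preorder (X.PG d) := inferInstanceAs (Preorder {f : Finset (FZ Γ × (Ω ≃o Ω)) // X.PGood d f})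

theorem pg_le {f g : X.PG d} : f ≤ g ↔ f.1 ⊆ g.1 := Iff.rfl

/-- The empty family. -/
def pgEmpty : X.PG d := ⟨∅, fun _ h => absurd h (Finset.notMem_empty _)⟩

theorem pGood_singleton (x : FZ Γ) (g : Ω ≃o Ω) : X.PGood d {(x, g)} := by
  intro p hp q hq
  rw [Finset.mem_singleton] at hp hq
  subst hp
  subst hq
  exact ⟨fun _ => rfl, fun j n hn hj => absurd (hj.uniq (Dif.refl j x)) hn⟩

theorem exists_def (hd : 0 < d) (f : X.PG d) (x : FZ Γ) :
    ∃ f' : X.PG d, (∃ g, (x, g) ∈ f'.1) ∧ f ≤ f' := by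
  classical
  by_cases h : ∃ g, (x, g) ∈ f.1
  · exact ⟨f, h, le_rfl⟩
  push Not at h
  rcases f.1.eq_empty_or_nonempty with hf | hf
  · refine ⟨⟨{(x, 1)}, pGood_singleton x 1⟩, ⟨1, Finset.mem_singleton_self _⟩, ?_⟩
    rw [pg_le, hf]
    exact Finset.empty_subset _
  · have h1 : ∀ q : f.1, ∃ i, ∃ m : ℤ, m ≠ 0 ∧ Dif i m q.1.1 x := by
      intro q
      apply exists_dif
      intro h2
      exact h q.1.2 (by rw [← h2]; exact q.2)
    choose I m hm h2 using h1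
    have : Nonempty f.1 := hf.to_subtype
    obtain ⟨q₀, hq₀⟩ := Finite.exists_min I
    have hno : ∀ q ∈ f.1, ¬ Dif (I q₀) 0 q.1 x := by
      intro q hq h3
      have h4 := hq₀ ⟨q, hq⟩
      rcases h4.lt_or_eq with h5 | h5
      · exact hm ⟨q, hq⟩ ((h2 ⟨q, hq⟩).uniq (h3.up h5))
      · rw [h5] at h3
        exact hm ⟨q, hq⟩ ((h2 ⟨q, hq⟩).uniq h3)
    refine ⟨⟨_, f.2.insert hd (x := q₀.1.1) (g := q₀.1.2) q₀.2 (hm q₀) (h2 q₀) hno
      (low_one (I q₀))⟩, ⟨_, Finset.mem_insert_self _ _⟩, ?_⟩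
    rw [pg_le]
    exact Finset.subset_insert _ _

theorem exists_froz (hd : 0 < d) (f : X.PG d) (z : Ω)
    (hLF : ∀ (g : Ω ≃o Ω) (i : Γ), g⁻¹ z ∈ X.M i →
      ∃ k, X.Low i k ∧ X.Froz d (k⁻¹ (g⁻¹ z))) :
    ∃ f' : X.PG d, (∃ q ∈ f'.1, X.Froz d (q.2⁻¹ z)) ∧ f ≤ f' := by
  classical
  obtain ⟨f₁, ⟨g₁, hg₁⟩, hf₁⟩ := exists_def hd f (toColex 0)
  by_cases h : ∃ q ∈ f₁.1, X.Froz d (q.2⁻¹ z)
  · exact ⟨f₁, h, hf₁⟩
  push Not at h
  have h1 : ∀ q : f₁.1, ∃ i, ∃ m : ℤ, m ≠ 0 ∧ (X.c i ^ (-(d * m))) (q.1.2⁻¹ z) ∈ X.M i := by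
    intro q
    by_contra hcon
    push Not at hcon
    exact h q.1 q.2 hcon
  choose I m hm h2 using h1
  have : Nonempty f₁.1 := ⟨⟨_, hg₁⟩⟩
  obtain ⟨q₀, hq₀⟩ := Finite.exists_min I
  obtain ⟨x', hx'⟩ := exists_move q₀.1.1 (I q₀) (m q₀)
  have hno : ∀ q ∈ f₁.1, ¬ Dif (I q₀) 0 q.1 x' := by
    intro q hq h3
    have h4 := h3.trans hx'.symm
    rw [zero_add] at h4
    have hQ := (f₁.2 q hq _ q₀.2).2 _ _ (neg_ne_zero.2 (hm q₀)) h4
    have h5 := hQ.cell (m q₀) (h2 q₀)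
    rw [add_neg_cancel, mul_zero, neg_zero, zpow_zero, one_app, mul_app, app_inv_self] at h5
    have h6 := X.M_mono' (hq₀ ⟨q, hq⟩) h5
    have h7 := lvl_unique (X.lt _) (h2 ⟨q, hq⟩) (mem0 h6)
    exact hm ⟨q, hq⟩ (by
      rcases mul_eq_zero.1 h7 with h8 | h8
      · exact absurd h8 hd.ne'
      · exact h8)
  set g := q₀.1.2 * X.c (I q₀) ^ (d * m q₀) with hg
  have hgz : g⁻¹ z ∈ X.M (I q₀) := by
    rw [hg, mul_inv_rev, ← zpow_neg, mul_app]
    exact h2 q₀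
  obtain ⟨k, hk, hkz⟩ := hLF g _ hgz
  refine ⟨⟨_, f₁.2.insert hd (x := q₀.1.1) (g := q₀.1.2) q₀.2 (hm q₀) hx' hno hk⟩,
    ⟨_, Finset.mem_insert_self _ _, ?_⟩, ?_⟩
  · have h3 : (q₀.1.2 * (X.c (I q₀) ^ (d * m q₀) * k))⁻¹ z = k⁻¹ (g⁻¹ z) := by
      rw [← mul_assoc, mul_inv_rev, mul_app]
    change X.Froz d ((q₀.1.2 * (X.c (I q₀) ^ (d * m q₀) * k))⁻¹ z)
    rw [h3]
    exact hkz
  · refine hf₁.trans ?_
    rw [pg_le]
    exact Finset.subset_insert _ _

/-- Existence of good families: countable case. -/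
theorem exists_ct [Countable (FZ Γ)] (T : Set Ω) [Countable T] (hd : 0 < d)
    (hLF : ∀ z ∈ T, ∀ (g : Ω ≃o Ω) (i : Γ), g⁻¹ z ∈ X.M i →
      ∃ k, X.Low i k ∧ X.Froz d (k⁻¹ (g⁻¹ z))) :
    ∃ G, X.Good d G ∧ ∀ z ∈ T, ∃ x, X.Froz d ((G x)⁻¹ z) := by
  classical
  obtain ⟨e1⟩ := nonempty_encodable (FZ Γ)
  obtain ⟨e2⟩ := nonempty_encodable T
  let D : FZ Γ ⊕ T → Cofinal (X.PG d) := fun p => match p with
    | Sum.inl x => ⟨{f | ∃ g, (x, g) ∈ f.1}, fun f => exists_def hd f x⟩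
    | Sum.inr z => ⟨{f | ∃ q ∈ f.1, X.Froz d (q.2⁻¹ z.1)}, fun f =>
        exists_froz hd f z.1 (hLF z.1 z.2)⟩
  let J : Ideal (X.PG d) := idealOfCofinals pgEmpty D
  have hdef : ∀ x, ∃ g, ∃ f ∈ J, (x, g) ∈ f.1 := by
    intro x
    obtain ⟨f, ⟨g, hg⟩, hf⟩ := cofinal_meets_idealOfCofinals pgEmpty D (Sum.inl x)
    exact ⟨g, f, hf, hg⟩
  choose G F hF hGF using hdef
  refine ⟨G, ?_, ?_⟩
  · intro x y i n hn hxy
    obtain ⟨f, _, h1, h2⟩ := J.directed _ (hF x) _ (hF y)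
    exact (f.2 _ (h1 (hGF x)) _ (h2 (hGF y))).2 i n hn hxy
  · intro z hz
    obtain ⟨f, ⟨q, hq, hqz⟩, hf⟩ := cofinal_meets_idealOfCofinals pgEmpty D (Sum.inr ⟨z, hz⟩)
    refine ⟨q.1, ?_⟩
    obtain ⟨f', _, h1, h2⟩ := J.directed _ hf _ (hF q.1)
    have h3 : q.2 = G q.1 := (f'.2 _ (h1 hq) _ (h2 (hGF q.1))).1 rfl
    rw [← h3]
    exact hqz

/-- The orbit of the base point. -/
def orb : Set Ω := {z | ∃ u : Ω ≃o Ω, z = u X.ω}

theorem local_one {z : Ω} (hz : z ∈ X.orb) (g : Ω ≃o Ω) (i : Γ) (h : g⁻¹ z ∈ X.M i) :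
    ∃ k, X.Low i k ∧ X.Froz 1 (k⁻¹ (g⁻¹ z)) := by
  obtain ⟨u, rfl⟩ := hz
  have h1 : (g⁻¹ * u) X.ω ∈ X.M i := h
  refine ⟨loc (g⁻¹ * u) X.ω, ?_, ?_⟩
  · intro z hz
    exact loc_not_mem fun h2 => hz ((X.blk i).bump_sub (X.mem i) h1 h2)
  · have h2 : loc (g⁻¹ * u) X.ω X.ω = g⁻¹ (u X.ω) := loc_mem (self_mem_bump _ _)
    rw [← h2, inv_app_self]
    exact froz_ω one_pos

theorem local_two (z : Ω) (g : Ω ≃o Ω) (i : Γ) (h : g⁻¹ z ∈ X.M i) :
    ∃ k, X.Low i k ∧ X.Froz 2 (k⁻¹ (g⁻¹ z)) := by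
  set r := g⁻¹ z with hr
  by_cases hf : X.Froz 2 r
  · exact ⟨1, low_one i, by rw [inv_one]; exact hf⟩
  have hf' : ∃ l, ∃ m : ℤ, m ≠ 0 ∧ (X.c l ^ (-(2 * m))) r ∈ X.M l := by
    by_contra hcon
    push Not at hcon
    exact hf hcon
  obtain ⟨l, m, hm, h1⟩ := hf'
  have hli : l < i := by
    by_contra hc
    push Not at hc
    have := lvl_unique (X.lt l) h1 (mem0 (X.M_mono' hc h))
    omega
  refine ⟨X.c l, low_c hli, ?_⟩
  intro j m' hm' h2
  have h3 : (X.c l)⁻¹ r = (X.c l ^ (-(1 : ℤ))) r := by rw [zpow_neg_one]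
  rcases lt_trichotomy j l with hj | hj | hj
  · have h4 := X.cell_sub hj h2
    rw [h3] at h4
    have := lvl_unique (X.lt l) h1 h4
    omega
  · subst hj
    rw [h3, ← zp_add] at h2
    have h4 : -(2 * m') + -(1 : ℤ) = -(2 * m' + 1) := by ring
    rw [h4] at h2
    have := lvl_unique (X.lt j) h1 h2
    omega
  · have h4 := X.cell_sub hj h1
    have h5 : (X.c l)⁻¹ r ∈ X.M j := by
      rw [h3]
      exact (X.zp_mem_M hj (-1)).2 h4
    have := lvl_unique (X.lt j) h2 (mem0 h5)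
    omega

theorem countable_index [Countable Ω] (X : Fr Γ Ω) : Countable Γ := by
  have hinj : Function.Injective fun i => X.c i X.ω := by
    have key : ∀ i j, j < i → X.c j X.ω ≠ X.c i X.ω := by
      intro i j hij h
      have h1 : X.c j X.ω ∈ X.M i := (X.c_mem_iff hij _).2 (X.mem i)
      rw [h] at h1
      exact absurd (X.lt i _ h1 _ (X.mem i)) (lt_irrefl _)
    intro i j h
    rcases lt_trichotomy i j with h1 | h1 | h1
    · exact absurd h (key j i h1)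
    · exact h1
    · exact absurd h.symm (key i j h1)
  exact hinj.countable

/-- A scattered chain has well-founded frames. -/
theorem wf_of_scattered (X : Fr Γ Ω) (hΩ : IsEmpty (ℚ ↪o Ω)) : WellFoundedLT Γ := by
  by_contra hwf
  have hwf' : ¬ WellFounded ((· < ·) : Γ → Γ → Prop) := fun h => hwf ⟨h⟩
  rw [RelEmbedding.wellFounded_iff_isEmpty, not_isEmpty_iff] at hwf'
  obtain ⟨f⟩ := hwf'
  have hf : ∀ n, f (n + 1) < f n := fun n => f.map_rel_iff.2 (Nat.lt_succ_self n)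
  let S : Type v := {x : FZ Γ // ∀ i, ofColex x i ≠ 0 → i ∈ Set.range f}
  have hdense : DenselyOrdered S := by
    constructor
    rintro ⟨x, hx⟩ ⟨y, hy⟩ hxy
    have hxy' : x < y := hxy
    obtain ⟨i, n, hn, h1⟩ := exists_dif_pos hxy'
    have hi : i ∈ Set.range f := by
      by_contra hcon
      have h2 : ofColex x i = 0 := by
        by_contra h
        exact hcon (hx i h)
      have h3 : ofColex y i = 0 := by
        by_contra h
        exact hcon (hy i h)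
      have := h1.2
      omega
    obtain ⟨k, rfl⟩ := hi
    set j := f (k + 1) with hj
    have hji : j < f k := hf k
    let z : FZ Γ := toColex (ofColex x + Finsupp.single j 1)
    have hz : ∀ l, l ≠ j → ofColex z l = ofColex x l := by
      intro l hl
      change (ofColex x + Finsupp.single j 1 : Γ →₀ ℤ) l = _
      rw [Finsupp.add_apply, Finsupp.single_eq_of_ne hl, add_zero]
    have hzj : ofColex z j = ofColex x j + 1 := by
      change (ofColex x + Finsupp.single j 1 : Γ →₀ ℤ) j = _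
      rw [Finsupp.add_apply, Finsupp.single_eq_same]
    have hxz : Dif j 1 x z := ⟨fun l hl => (hz l hl.ne').symm, by rw [hzj]; ring⟩
    have hzy : Dif (f k) n z y := by
      refine ⟨fun l hl => ?_, ?_⟩
      · rw [hz l (hji.trans hl).ne']
        exact h1.1 l hl
      · rw [hz _ hji.ne']
        exact h1.2
    refine ⟨⟨z, ?_⟩, hxz.lt one_pos, hzy.lt hn⟩
    intro l hl
    by_cases hlj : l = j
    · exact ⟨k + 1, hlj.symm⟩
    · rw [hz l hlj] at hl
      exact hx l hl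
  have hnt : Nontrivial S := by
    refine ⟨⟨toColex 0, fun i hi => absurd rfl hi⟩, ⟨toColex (Finsupp.single (f 0) 1), ?_⟩, ?_⟩
    · intro i hi
      by_contra hcon
      apply hi
      change (Finsupp.single (f 0) (1 : ℤ)) i = 0
      rw [Finsupp.single_eq_of_ne]
      rintro rfl
      exact hcon ⟨0, rfl⟩
    · intro h
      have h1 : ofColex (toColex (0 : Γ →₀ ℤ)) (f 0) =
          ofColex (toColex (Finsupp.single (f 0) (1 : ℤ))) (f 0) := by
        rw [Subtype.mk.injEq] at h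
        rw [h]
      change (0 : Γ →₀ ℤ) (f 0) = (Finsupp.single (f 0) (1 : ℤ)) (f 0) at h1
      rw [Finsupp.single_eq_same] at h1
      exact absurd h1 (by norm_num)
  obtain ⟨e⟩ := Order.embedding_from_countable_to_dense ℚ S
  have hmono : StrictMono fun q : ℚ => X.GW (ofColex (e q).1) X.ω := by
    intro p q hpq
    exact G_ω_lt X.good_GW (e.lt_iff_lt.2 hpq)
  exact hΩ.false (OrderEmbedding.ofStrictMono _ hmono)

theorem exists_up (X : Fr Γ Ω) (hsc : Countable Ω ∨ IsEmpty (ℚ ↪o Ω)) :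
    ∃ G, X.Good 1 G ∧ ∀ u : Ω ≃o Ω, ∃ x, G x X.ω = u X.ω := by
  rcases hsc.symm with h | h
  · have := X.wf_of_scattered h
    obtain ⟨G, h1, h2⟩ := exists_wf (X := X)
    refine ⟨G, h1, fun u => ?_⟩
    obtain ⟨x, hx⟩ := h2 (u X.ω)
    exact ⟨x, orbit_of_froz hx⟩
  · have h0 := X.countable_index
    have h1 : Countable (FZ Γ) := inferInstanceAs (Countable (Γ →₀ ℤ))
    obtain ⟨G, h2, h3⟩ := exists_ct (X := X) (d := 1) X.orb one_pos
      (fun z hz g i h => local_one hz g i h)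
    refine ⟨G, h2, fun u => ?_⟩
    obtain ⟨x, hx⟩ := h3 (u X.ω) ⟨u, rfl⟩
    exact ⟨x, orbit_of_froz hx⟩

theorem exists_down (X : Fr Γ Ω) (hsc : Countable Ω ∨ IsEmpty (ℚ ↪o Ω)) :
    ∃ d : ℤ, 0 < d ∧ ∃ G, X.Good d G ∧ ∀ z, ∃ x, X.Froz d ((G x)⁻¹ z) := by
  rcases hsc.symm with h | h
  · have := X.wf_of_scattered h
    exact ⟨1, one_pos, exists_wf (X := X)⟩
  · have h0 := X.countable_index
    have h1 : Countable (FZ Γ) := inferInstanceAs (Countable (Γ →₀ ℤ))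
    obtain ⟨G, h2, h3⟩ := exists_ct (X := X) (d := 2) Set.univ two_pos
      (fun z _ g i h => local_two z g i h)
    exact ⟨2, two_pos, G, h2, fun z => h3 z (Set.mem_univ z)⟩

end Fr

variable {Ω : Type u} [LinearOrder Ω]

/-- The quasi-variety generated by `Aut(Ω)`: `Ω` scattered or countable, without iterated
roots. -/
theorem holds_iff_bumpPow' (hd : ¬ HasDyadic Ω) (hsc : Countable Ω ∨ IsEmpty (ℚ ↪o Ω))
    (φ : QId) : φ.Holds (Ω ≃o Ω) ↔ ∀ ω : Ω, φ.Holds (BumpPow hd ω) := by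
  have hs := locCS_of hsc
  constructor
  · intro h ω
    letI := levOrder hd ω
    obtain ⟨X, hX⟩ := exists_frame hd hs ω
    obtain ⟨d, hd0, G, hG, hF⟩ := X.exists_down hsc
    exact Fr.holds_zpow hd0 hG hF h
  · intro h Y hY
    apply OrderIso.ext
    funext ω
    letI := levOrder hd ω
    obtain ⟨X, hX⟩ := exists_frame hd hs ω
    obtain ⟨G, hG, hS⟩ := X.exists_up hsc
    have h1 := Fr.holds_at hG hS (h ω) Y hY
    rw [hX] at h1
    exact h1

end Pool.Agent.Helper56.QV
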