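import Mathlib
import Pool.Agent.Helper56.QV.Wreath
import Pool.Agent.Helper56.QV.Sound

/-! The quasi-variety is not a variety. -/

set_option autoImplicit false

namespace Pool.Agent.Helper56.QV

universe u

/-- The totally ordered group of pairs `(k, r)`, `k` an integer and `r` a real number, with
`(k, r) (l, s) = (k + l, r + 2 ^ k s)` and the lexicographic order. -/
structure Sc : Type where
  k : ℤ
  r : ℝ

namespace Sc

@[ext] theorem ext' {a b : Sc} (h1 : a.k = b.k) (h2 : a.r = b.r) : a = b := by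
  cases a; cases b; simp_all

noncomputable instance : Group Sc where
  mul a b := ⟨a.k + b.k, a.r + (2 : ℝ) ^ a.k * b.r⟩
  one := ⟨0, 0⟩
  inv a := ⟨-a.k, -((2 : ℝ) ^ (-a.k) * a.r)⟩
  mul_assoc a b c := by
    apply ext'
    · change a.k + b.k + c.k = a.k + (b.k + c.k)
      ring
    · change a.r + (2 : ℝ) ^ a.k * b.r + (2 : ℝ) ^ (a.k + b.k) * c.r =
        a.r + (2 : ℝ) ^ a.k * (b.r + (2 : ℝ) ^ b.k * c.r)
      rw [zpow_add₀ (by norm_num)]
      ring
  one_mul a := by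
    apply ext'
    · change 0 + a.k = a.k
      ring
    · change 0 + (2 : ℝ) ^ (0 : ℤ) * a.r = a.r
      simp
  mul_one a := by
    apply ext'
    · change a.k + 0 = a.k
      ring
    · change a.r + (2 : ℝ) ^ a.k * 0 = a.r
      ring
  inv_mul_cancel a := by
    apply ext'
    · change -a.k + a.k = 0
      ring
    · change -((2 : ℝ) ^ (-a.k) * a.r) + (2 : ℝ) ^ (-a.k) * a.r = 0
      ring

theorem mul_k (a b : Sc) : (a * b).k = a.k + b.k := rfl
theorem mul_r (a b : Sc) : (a * b).r = a.r + (2 : ℝ) ^ a.k * b.r := rfl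
theorem one_k : (1 : Sc).k = 0 := rfl
theorem one_r : (1 : Sc).r = 0 := rfl
theorem inv_k (a : Sc) : (a⁻¹).k = -a.k := rfl
theorem inv_r (a : Sc) : (a⁻¹).r = -((2 : ℝ) ^ (-a.k) * a.r) := rfl

noncomputable instance : LinearOrder Sc where
  le a b := a.k < b.k ∨ a.k = b.k ∧ a.r ≤ b.r
  le_refl a := Or.inr ⟨rfl, le_rfl⟩
  le_trans a b c h1 h2 := by
    rcases h1 with h1 | ⟨h1, h1'⟩ <;> rcases h2 with h2 | ⟨h2, h2'⟩
    · exact Or.inl (h1.trans h2)
    · exact Or.inl (h2 ▸ h1)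
    · exact Or.inl (h1 ▸ h2)
    · exact Or.inr ⟨h1.trans h2, h1'.trans h2'⟩
  le_antisymm a b h1 h2 := by
    rcases h1 with h1 | ⟨h1, h1'⟩ <;> rcases h2 with h2 | ⟨h2, h2'⟩
    · exact absurd h1 (not_lt.2 h2.le)
    · exact absurd h2 h1.ne'
    · exact absurd h1 h2.ne'
    · exact ext' h1 (le_antisymm h1' h2')
  le_total a b := by
    rcases lt_trichotomy a.k b.k with h | h | h
    · exact Or.inl (Or.inl h)
    · rcases le_total a.r b.r with h' | h'
      · exact Or.inl (Or.inr ⟨h, h'⟩)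
      · exact Or.inr (Or.inr ⟨h.symm, h'⟩)
    · exact Or.inr (Or.inl h)
  toDecidableLE := Classical.decRel _

theorem le_def (a b : Sc) : a ≤ b ↔ a.k < b.k ∨ a.k = b.k ∧ a.r ≤ b.r := Iff.rfl

noncomputable instance : LGroup Sc where
  toGroup := inferInstance
  toLattice := inferInstance
  mul_le_mul_mul a b c d h := by
    rw [le_def] at h ⊢
    simp only [mul_k, mul_r]
    rcases h with h | ⟨h, h'⟩
    · left; omega
    · right
      refine ⟨by omega, ?_⟩
      rw [h]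
      have : (0 : ℝ) < (2 : ℝ) ^ c.k := by positivity
      have := mul_le_mul_of_nonneg_left h' this.le
      linarith

end Sc

section

variable {Ω : Type u} [LinearOrder Ω] {y b : Ω ≃o Ω} {x : Ω}
  (hb : ∀ z ∈ bump y x, ∀ w ∈ bump y x, z < b w)

theorem wr_conj_zpow (f : ℤ → ℤ) (k : ℤ) : b ^ k * wr hb f = wr hb (fun n => f (n - k)) * b ^ k := by
  have h1 : ∀ f : ℤ → ℤ, wr hb f * b = b * wr hb (fun n => f (n + 1)) := by
    intro f
    rw [← wr_conj]
    group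
  have h2 : ∀ f : ℤ → ℤ, b * wr hb f = wr hb (fun n => f (n - 1)) * b := by
    intro f
    rw [h1]
    congr 2
    funext n
    simp
  have h3 : ∀ f : ℤ → ℤ, b⁻¹ * wr hb f = wr hb (fun n => f (n + 1)) * b⁻¹ := by
    intro f
    rw [← wr_conj]
    group
  induction k using Int.induction_on generalizing f with
  | zero => simp
  | succ k ih =>
    rw [zpow_add_one, mul_assoc, h2, ← mul_assoc, ih, mul_assoc]
    congr 2
    funext n
    congr 1
    ring
  | pred k ih =>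
    rw [zpow_sub_one, mul_assoc, h3, ← mul_assoc, ih, mul_assoc]
    congr 2
    funext n
    congr 1
    ring

/-- Normal form. -/
noncomputable def nf (f : ℤ → ℤ) (k : ℤ) : Ω ≃o Ω := wr hb f * b ^ k

theorem nf_mul (f g : ℤ → ℤ) (k l : ℤ) :
    nf hb f k * nf hb g l = nf hb (f + fun n => g (n - k)) (k + l) := by
  unfold nf
  rw [mul_assoc, ← mul_assoc (b ^ k), wr_conj_zpow, mul_assoc, ← mul_assoc, wr_mul, zpow_add]

theorem nf_one : nf hb 0 0 = 1 := by
  unfold nf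
  rw [wr_zero, zpow_zero, mul_one]

theorem nf_inv (f : ℤ → ℤ) (k : ℤ) : (nf hb f k)⁻¹ = nf hb (fun n => -f (n + k)) (-k) := by
  rw [inv_eq_iff_mul_eq_one, nf_mul, add_neg_cancel]
  have : (f + fun n => -f (n - k + k)) = 0 := by
    funext n
    simp
  rw [this, nf_one]

theorem nf_inj (hx : x < y x) {f g : ℤ → ℤ} {k l : ℤ} (h : nf hb f k = nf hb g l) :
    k = l ∧ f = g := by
  have h1 : wrF y b x f ((b ^ k) x) = wrF y b x g ((b ^ l) x) := by
    have := congrArg (fun F : Ω ≃o Ω => F x) h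
    exact this
  have hk : (b ^ (-k)) ((b ^ k) x) ∈ bump y x := by rw [zp_neg_zp]; exact self_mem_bump y x
  have hl : (b ^ (-l)) ((b ^ l) x) ∈ bump y x := by rw [zp_neg_zp]; exact self_mem_bump y x
  have h2 := wrF_lev hb f hk
  have h3 := wrF_lev hb g hl
  rw [h1] at h2
  have h4 : k = l := lev_unique hb h2 h3
  subst h4
  refine ⟨rfl, ?_⟩
  unfold nf at h
  exact wr_injective hb hx (mul_right_cancel h)

theorem nf_sup_same (hx : x < y x) (f g : ℤ → ℤ) (k : ℤ) :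
    nf hb f k ⊔ nf hb g k = nf hb (f ⊔ g) k := by
  unfold nf
  rw [← sup_mul, wr_sup hb hx]

theorem nf_inf_same (hx : x < y x) (f g : ℤ → ℤ) (k : ℤ) :
    nf hb f k ⊓ nf hb g k = nf hb (f ⊓ g) k := by
  unfold nf
  rw [← inf_mul, wr_inf hb hx]

/-- If `b` moves nothing outside its bump, normal forms are ordered by the exponent of `b`. -/
theorem nf_le (hfix : ∀ z, z ∉ bump b x → b z = z) {f g : ℤ → ℤ} {k l : ℤ} (hkl : k < l) :
    nf hb f k ≤ nf hb g l := by
  have hxb : x < b x := hb x (self_mem_bump y x) x (self_mem_bump y x)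
  intro z
  change wrF y b x f ((b ^ k) z) ≤ wrF y b x g ((b ^ l) z)
  have hlev : ∀ n : ℤ, ∀ z, (b ^ (-n)) z ∈ bump y x → z ∈ bump b x := by
    intro n z hz
    have h1 : (b ^ (-n)) z < b x := hb _ hz x (self_mem_bump y x)
    have h2 : x < b ((b ^ (-n)) z) := hb x (self_mem_bump y x) _ hz
    have h3 : (b ^ (-n)) z ∈ bump b x := by
      refine ⟨-1, 1, ?_, ?_⟩
      · rw [zpow_neg_one]
        have := (b⁻¹).lt_iff_lt.2 h2
        rw [inv_app_self] at this
        exact this.le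
      · rw [zpow_one]; exact h1.le
    exact (app_mem_bump_iff (-n)).1 h3
  by_cases hz : z ∈ bump b x
  · have h1 : (b ^ k) z < (b ^ l) z := zp_strictMono (lt_of_mem_bump hxb hz) hkl
    by_cases h : ∃ n : ℤ, (b ^ (-n)) ((b ^ k) z) ∈ bump y x
    · obtain ⟨n, hn⟩ := h
      have hm : (b ^ (-(n + (l - k)))) ((b ^ l) z) ∈ bump y x := by
        rw [← zp_add] at hn ⊢
        convert hn using 3
        ring
      exact (lev_lt' hb (wrF_lev hb f hn) (wrF_lev hb g hm) (by omega)).le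
    · push Not at h
      have h' : ∀ n : ℤ, (b ^ (-n)) ((b ^ l) z) ∉ bump y x := by
        intro n hn
        apply h (n - (l - k))
        rw [← zp_add] at hn ⊢
        convert hn using 3
        ring
      rw [wrF_not f h, wrF_not g h']
      exact h1.le
  · have hzk : ∀ m : ℤ, (b ^ m) z = z := by
      have hi : b⁻¹ z = z := by
        calc b⁻¹ z = b⁻¹ (b z) := by rw [hfix z hz]
          _ = z := inv_app_self _ _
      intro m
      induction m using Int.induction_on with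
      | zero => simp
      | succ m ih => rw [add_comm, zp_one_add, ih, hfix z hz]
      | pred m ih =>
        have h3 : (-(m : ℤ) - 1) = -1 + -(m : ℤ) := by ring
        rw [h3, zp_add, ih, zpow_neg_one, hi]
    have hno : ∀ n : ℤ, (b ^ (-n)) z ∉ bump y x := fun n hn => hz (hlev n z hn)
    rw [hzk, hzk, wrF_not f hno, wrF_not g hno]

open Filter Topology in
/-- The relation between normal forms and the scaled group. -/
def RelSc (F : Ω ≃o Ω) (a : Sc) : Prop :=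
  ∃ f : ℤ → ℤ, F = nf hb f a.k ∧ Tendsto (fun n : ℤ => (f n : ℝ) * (2 : ℝ) ^ n) atBot (𝓝 a.r)

open Filter Topology

theorem tend_shift {f : ℤ → ℤ} {r : ℝ} (k : ℤ)
    (h : Tendsto (fun n : ℤ => (f n : ℝ) * (2 : ℝ) ^ n) atBot (𝓝 r)) :
    Tendsto (fun n : ℤ => (f (n - k) : ℝ) * (2 : ℝ) ^ n) atBot (𝓝 ((2 : ℝ) ^ k * r)) := by
  have h1 : Tendsto (fun n : ℤ => n - k) atBot atBot := tendsto_atBot_add_const_right _ (-k) tendsto_id
  have h2 := (h.comp h1).const_mul ((2 : ℝ) ^ k)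
  refine h2.congr fun n => ?_
  simp only [Function.comp]
  have : (2 : ℝ) ^ n = (2 : ℝ) ^ k * (2 : ℝ) ^ (n - k) := by
    rw [← zpow_add₀ (by norm_num)]
    congr 1
    ring
  rw [this]
  ring

theorem rel_mul {F G : Ω ≃o Ω} {a c : Sc} (h1 : RelSc hb F a) (h2 : RelSc hb G c) :
    RelSc hb (F * G) (a * c) := by
  obtain ⟨f, rfl, hf⟩ := h1
  obtain ⟨g, rfl, hg⟩ := h2
  refine ⟨_, nf_mul hb f g a.k c.k, ?_⟩
  rw [Sc.mul_r]
  have h3 := hf.add (tend_shift a.k hg)
  refine h3.congr fun n => ?_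
  simp only [Pi.add_apply]
  push_cast
  ring

theorem rel_one : RelSc hb (1 : Ω ≃o Ω) 1 := by
  refine ⟨0, (nf_one hb).symm, ?_⟩
  simp [Sc.one_r]

theorem rel_inv {F : Ω ≃o Ω} {a : Sc} (h : RelSc hb F a) : RelSc hb F⁻¹ a⁻¹ := by
  obtain ⟨f, rfl, hf⟩ := h
  refine ⟨_, nf_inv hb f a.k, ?_⟩
  rw [Sc.inv_r]
  have h3 := (tend_shift (-a.k) hf).neg
  refine h3.congr fun n => ?_
  rw [sub_neg_eq_add]
  push_cast
  ring

theorem rel_sup (hx : x < y x) (hfix : ∀ z, z ∉ bump b x → b z = z) {F G : Ω ≃o Ω} {a c : Sc}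
    (h1 : RelSc hb F a) (h2 : RelSc hb G c) : RelSc hb (F ⊔ G) (a ⊔ c) := by
  rcases lt_trichotomy a.k c.k with h | h | h
  · have h3 : a ≤ c := Or.inl h
    rw [sup_eq_right.2 h3]
    obtain ⟨f, rfl, hf⟩ := h1
    obtain ⟨g, rfl, hg⟩ := h2
    rw [sup_eq_right.2 (nf_le hb hfix h)]
    exact ⟨g, rfl, hg⟩
  · obtain ⟨f, rfl, hf⟩ := h1
    obtain ⟨g, rfl, hg⟩ := h2
    have hk : (a ⊔ c).k = a.k := by
      rcases le_total a c with h3 | h3
      · rw [sup_eq_right.2 h3, h]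
      · rw [sup_eq_left.2 h3]
    have hr : (a ⊔ c).r = max a.r c.r := by
      rcases le_total a.r c.r with h3 | h3
      · have h4 : a ≤ c := Or.inr ⟨h, h3⟩
        rw [sup_eq_right.2 h4, max_eq_right h3]
      · have h4 : c ≤ a := Or.inr ⟨h.symm, h3⟩
        rw [sup_eq_left.2 h4, max_eq_left h3]
    refine ⟨f ⊔ g, ?_, ?_⟩
    · rw [hk, ← nf_sup_same hb hx, h]
    · rw [hr]
      refine (hf.max hg).congr fun n => ?_
      have hp : (0 : ℝ) < (2 : ℝ) ^ n := by positivity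
      rw [Pi.sup_apply, ← max_mul_of_nonneg _ _ hp.le]
      congr 1
      rcases le_total (f n) (g n) with h3 | h3
      · rw [sup_eq_right.2 h3, max_eq_right]
        exact_mod_cast h3
      · rw [sup_eq_left.2 h3, max_eq_left]
        exact_mod_cast h3
  · have h3 : c ≤ a := Or.inl h
    rw [sup_eq_left.2 h3]
    obtain ⟨f, rfl, hf⟩ := h1
    obtain ⟨g, rfl, hg⟩ := h2
    rw [sup_eq_left.2 (nf_le hb hfix h)]
    exact ⟨f, rfl, hf⟩

theorem rel_inf (hx : x < y x) (hfix : ∀ z, z ∉ bump b x → b z = z) {F G : Ω ≃o Ω} {a c : Sc}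
    (h1 : RelSc hb F a) (h2 : RelSc hb G c) : RelSc hb (F ⊓ G) (a ⊓ c) := by
  have h3 := rel_inv hb (rel_sup hb hx hfix (rel_inv hb h1) (rel_inv hb h2))
  rwa [inv_sup, inv_sup, inv_inv, inv_inv, inv_inv, inv_inv] at h3

theorem rel_eval (hx : x < y x) (hfix : ∀ z, z ∉ bump b x → b z = z) (X : ℕ → (Ω ≃o Ω))
    (A : ℕ → Sc) (h : ∀ n, RelSc hb (X n) (A n)) (t : Tm) : RelSc hb (t.eval X) (t.eval A) := by
  induction t with
  | var n => exact h n
  | one => exact rel_one hb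
  | mul s t ihs iht => exact rel_mul hb ihs iht
  | inv t ih => exact rel_inv hb ih
  | inf s t ihs iht => exact rel_inf hb hx hfix ihs iht
  | sup s t ihs iht => exact rel_sup hb hx hfix ihs iht

theorem rel_exists (a : Sc) : ∃ F : Ω ≃o Ω, RelSc hb F a := by
  refine ⟨nf hb (fun n => ⌊a.r * (2 : ℝ) ^ (-n)⌋) a.k, _, rfl, ?_⟩
  have h1 : Tendsto (fun n : ℤ => (2 : ℝ) ^ n) atBot (𝓝 0) := by
    have h2 : Tendsto (fun n : ℤ => -n) atBot atTop := tendsto_neg_atBot_atTop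
    have h3 : Tendsto (fun n : ℤ => ((2 : ℝ)⁻¹) ^ n) atTop (𝓝 0) := by
      have h4 : Tendsto (fun n : ℕ => ((2 : ℝ)⁻¹) ^ n) atTop (𝓝 0) :=
        tendsto_pow_atTop_nhds_zero_of_lt_one (by norm_num) (by norm_num)
      have h5 : Tendsto (fun n : ℕ => ((2 : ℝ)⁻¹) ^ (n : ℤ)) atTop (𝓝 0) := by
        simpa [zpow_natCast] using h4
      rw [← Nat.map_cast_int_atTop]
      exact h5
    refine (h3.comp h2).congr fun n => ?_
    simp only [Function.comp, inv_zpow', neg_neg]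
  have h2 : Tendsto (fun n : ℤ => a.r - (2 : ℝ) ^ n) atBot (𝓝 a.r) := by
    simpa using h1.const_sub a.r
  refine tendsto_of_tendsto_of_tendsto_of_le_of_le h2 tendsto_const_nhds ?_ ?_
  · intro n
    have hp : (0 : ℝ) < (2 : ℝ) ^ n := by positivity
    have h3 : a.r * (2 : ℝ) ^ (-n) < ⌊a.r * (2 : ℝ) ^ (-n)⌋ + 1 := Int.lt_floor_add_one _
    have h4 : (2 : ℝ) ^ (-n) * (2 : ℝ) ^ n = 1 := by
      rw [← zpow_add₀ (by norm_num)]; simp
    have h5 := mul_lt_mul_of_pos_right h3 hp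
    rw [mul_assoc, h4, mul_one, add_mul, one_mul] at h5
    simp only
    linarith
  · intro n
    have hp : (0 : ℝ) < (2 : ℝ) ^ n := by positivity
    have h3 : (⌊a.r * (2 : ℝ) ^ (-n)⌋ : ℝ) ≤ a.r * (2 : ℝ) ^ (-n) := Int.floor_le _
    have h4 : (2 : ℝ) ^ (-n) * (2 : ℝ) ^ n = 1 := by
      rw [← zpow_add₀ (by norm_num)]; simp
    have h5 := mul_le_mul_of_nonneg_right h3 hp.le
    rw [mul_assoc, h4, mul_one] at h5
    simpa only using h5

end

/-- Identities of `Aut(Ω)` hold in `Sc` if there is a configuration. -/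
theorem id_holds_Sc {Ω : Type u} [LinearOrder Ω] (hconf : HasConf Ω) {e : Tm × Tm}
    (he : IdHolds e (Ω ≃o Ω)) : IdHolds e Sc := by
  obtain ⟨y, b, x, hx, hb⟩ := hconf
  -- cut `b` down to its bump
  have hxb : x < b x := hb x (self_mem_bump y x) x (self_mem_bump y x)
  have hsub : ∀ w ∈ bump y x, w ∈ bump b x := by
    intro w hw
    refine ⟨-1, 1, ?_, ?_⟩
    · rw [zpow_neg_one]
      have := (b⁻¹).lt_iff_lt.2 (hb x (self_mem_bump y x) w hw)
      rw [inv_app_self] at this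
      exact this.le
    · rw [zpow_one]; exact (hb w hw x (self_mem_bump y x)).le
  have hb' : ∀ z ∈ bump y x, ∀ w ∈ bump y x, z < (loc b x) w := by
    intro z hz w hw
    rw [loc_mem (hsub w hw)]
    exact hb z hz w hw
  have hfix : ∀ z, z ∉ bump (loc b x) x → (loc b x) z = z := by
    intro z hz
    rw [bump_loc] at hz
    exact loc_not_mem hz
  intro A
  choose X hX using fun n => rel_exists hb' (A n)
  obtain ⟨f, hf, hf'⟩ := rel_eval hb' hx hfix X A hX e.1
  obtain ⟨g, hg, hg'⟩ := rel_eval hb' hx hfix X A hX e.2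
  rw [he X] at hf
  obtain ⟨h1, h2⟩ := nf_inj hb' hx (hf.symm.trans hg)
  subst h2
  exact Sc.ext' h1 (tendsto_nhds_unique hf' hg')

/-- The quasi-identity `(v⁻¹ u v)² = u → u = 1`. -/
def rootQ : QId where
  prem := [(.mul (.mul (.mul (.inv (.var 1)) (.var 0)) (.var 1))
    (.mul (.mul (.inv (.var 1)) (.var 0)) (.var 1)), .var 0)]
  concl := (.var 0, .one)

theorem rootQ_holds {Ω : Type u} [LinearOrder Ω] (h : ¬ HasDyadic Ω) : rootQ.Holds (Ω ≃o Ω) := by
  intro x hx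
  by_contra hne
  have h1 : ((x 1)⁻¹ * x 0 * x 1) * ((x 1)⁻¹ * x 0 * x 1) = x 0 := by
    have h0 := hx (_, _) (List.mem_singleton.2 rfl)
    exact h0
  have hne : ¬ x 0 = 1 := hne
  apply h
  refine ⟨fun n => (x 1 ^ n)⁻¹ * x 0 * x 1 ^ n, ?_, ?_⟩
  · simpa using hne
  · intro n
    have h2 : ∀ k : ℕ, x 1 ^ (k + 1) = x 1 * x 1 ^ k := fun k => pow_succ' _ _
    calc ((x 1 ^ (n + 1))⁻¹ * x 0 * x 1 ^ (n + 1)) * ((x 1 ^ (n + 1))⁻¹ * x 0 * x 1 ^ (n + 1))
        = (x 1 ^ n)⁻¹ * (((x 1)⁻¹ * x 0 * x 1) * ((x 1)⁻¹ * x 0 * x 1)) * x 1 ^ n := by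
          rw [h2]; group
      _ = (x 1 ^ n)⁻¹ * x 0 * x 1 ^ n := by rw [h1]

theorem rootQ_not : ¬ rootQ.Holds Sc := by
  intro h
  have h1 := h (fun n => if n = 0 then ⟨0, 1⟩ else ⟨1, 0⟩) (by
    intro e he
    simp only [rootQ, List.mem_singleton] at he
    subst he
    apply Sc.ext'
    · simp [Tm.eval, Sc.mul_k, Sc.inv_k]
    · simp [Tm.eval, Sc.mul_k, Sc.mul_r, Sc.inv_k, Sc.inv_r]
      norm_num)
  have h2 := congrArg Sc.r h1
  simp [rootQ, Tm.eval, Sc.one_r] at h2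

end Pool.Agent.Helper56.QV
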