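import Mathlib
import Pool.Agent.Helper56.QV.Solv
import Pool.Agent.Helper56.QV.ZPow

/-! Wreath powers over initial segments. -/

set_option autoImplicit false

namespace Pool.Agent.Helper56.QV

universe u v

section

variable {Γ : Type u} {Δ : Type v} [LinearOrder Γ] [LinearOrder Δ] (e : Γ ↪o Δ)

open Classical in
/-- Replace the coordinates in the range of `e`. -/
noncomputable def glue (w : FZ Γ) (y : FZ Δ) : FZ Δ :=
  toColex ((ofColex w).embDomain e.toEmbedding + (ofColex y).filter (· ∉ Set.range e))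

/-- The coordinates in the range of `e`. -/
noncomputable def res (y : FZ Δ) : FZ Γ :=
  toColex ((ofColex y).comapDomain e e.injective.injOn)

theorem res_apply (y : FZ Δ) (a : Γ) : ofColex (res e y) a = ofColex y (e a) := by
  unfold res
  rw [ofColex_toColex, Finsupp.comapDomain_apply]

theorem glue_in (w : FZ Γ) (y : FZ Δ) (a : Γ) : ofColex (glue e w y) (e a) = ofColex w a := by
  classical
  unfold glue
  rw [ofColex_toColex, Finsupp.add_apply, Finsupp.filter_apply_neg, add_zero]
  · exact Finsupp.embDomain_apply_self e.toEmbedding (ofColex w) a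
  · exact fun h => h ⟨a, rfl⟩

theorem glue_out (w : FZ Γ) (y : FZ Δ) {j : Δ} (hj : j ∉ Set.range e) :
    ofColex (glue e w y) j = ofColex y j := by
  classical
  unfold glue
  rw [ofColex_toColex, Finsupp.add_apply, Finsupp.filter_apply_pos (· ∉ Set.range e) _ hj,
    Finsupp.embDomain_of_notMem_range _ _ _ hj, zero_add]

theorem fz_ext {x y : FZ Δ} (h : ∀ j, ofColex x j = ofColex y j) : x = y := by
  apply ofColex.injective
  ext j
  exact h j

theorem res_glue (w : FZ Γ) (y : FZ Δ) : res e (glue e w y) = w :=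
  fz_ext fun a => by rw [res_apply, glue_in]

theorem glue_glue (w w' : FZ Γ) (y : FZ Δ) : glue e w (glue e w' y) = glue e w y := by
  apply fz_ext
  intro j
  by_cases hj : j ∈ Set.range e
  · obtain ⟨a, rfl⟩ := hj
    rw [glue_in, glue_in]
  · rw [glue_out e _ _ hj, glue_out e _ _ hj, glue_out e _ _ hj]

theorem glue_res (y : FZ Δ) : glue e (res e y) y = y := by
  apply fz_ext
  intro j
  by_cases hj : j ∈ Set.range e
  · obtain ⟨a, rfl⟩ := hj
    rw [glue_in, res_apply]
  · rw [glue_out e _ _ hj]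

theorem glue_eq {w : FZ Γ} {y z : FZ Δ} (h : ∀ j, j ∉ Set.range e → ofColex z j = ofColex y j)
    (hw : res e z = w) : glue e w y = z := by
  apply fz_ext
  intro j
  by_cases hj : j ∈ Set.range e
  · obtain ⟨a, rfl⟩ := hj
    rw [glue_in, ← hw, res_apply]
  · rw [glue_out e _ _ hj, h j hj]

theorem dif_res {a : Γ} {n : ℤ} {y z : FZ Δ} (h : Dif (e a) n y z) : Dif a n (res e y) (res e z) := by
  refine ⟨fun b hb => ?_, ?_⟩
  · rw [res_apply, res_apply]
    exact h.1 _ (e.lt_iff_lt.2 hb)
  · rw [res_apply, res_apply]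
    exact h.2

theorem dif_glue {a : Γ} {n : ℤ} {w w' : FZ Γ} {y z : FZ Δ} (h : Dif a n w w')
    (hyz : ∀ j, e a < j → j ∉ Set.range e → ofColex y j = ofColex z j) :
    Dif (e a) n (glue e w y) (glue e w' z) := by
  refine ⟨fun j hj => ?_, ?_⟩
  · by_cases hjr : j ∈ Set.range e
    · obtain ⟨b, rfl⟩ := hjr
      rw [glue_in, glue_in]
      exact h.1 b (e.lt_iff_lt.1 hj)
    · rw [glue_out e _ _ hjr, glue_out e _ _ hjr]
      exact hyz j hj hjr
  · rw [glue_in, glue_in]
    exact h.2

variable (he : ∀ a b, b < e a → b ∈ Set.range e)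

/-- Extension of an automorphism of the lower part. -/
noncomputable def up (g : FZ Γ ≃o FZ Γ) (y : FZ Δ) : FZ Δ := glue e (g (res e y)) y

theorem up_mul (g h : FZ Γ ≃o FZ Γ) (y : FZ Δ) : up e (g * h) y = up e g (up e h y) := by
  unfold up
  rw [res_glue, glue_glue]
  rfl

theorem up_one (y : FZ Δ) : up e 1 y = y := glue_res e y

include he in
theorem up_dif {g : FZ Γ ≃o FZ Γ} (hg : g ∈ ZPow Γ) {i : Δ} {n : ℤ} {y z : FZ Δ}
    (h : Dif i n y z) : Dif i n (up e g y) (up e g z) := by
  by_cases hi : i ∈ Set.range e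
  · obtain ⟨a, rfl⟩ := hi
    exact dif_glue e (mem_zpow.1 hg _ _ _ _ (dif_res e h)) fun j hj _ => h.1 j hj
  · have hlow : ∀ j, i ≤ j → j ∉ Set.range e := by
      rintro j hj ⟨a, rfl⟩
      rcases hj.lt_or_eq with h1 | h1
      · exact hi (he a i h1)
      · exact hi ⟨a, h1.symm⟩
    refine ⟨fun j hj => ?_, ?_⟩
    · unfold up
      rw [glue_out e _ _ (hlow j hj.le), glue_out e _ _ (hlow j hj.le)]
      exact h.1 j hj
    · unfold up
      rw [glue_out e _ _ hi, glue_out e _ _ hi]
      exact h.2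

include he in
theorem up_strictMono {g : FZ Γ ≃o FZ Γ} (hg : g ∈ ZPow Γ) : StrictMono (up e g) := by
  intro y z hyz
  obtain ⟨i, n, hn, h⟩ := exists_dif_pos hyz
  exact (up_dif e he hg h).lt hn

/-- The automorphism. -/
noncomputable def upO (g : ZPow Γ) : FZ Δ ≃o FZ Δ where
  toFun := up e g.1
  invFun := up e g.1⁻¹
  left_inv y := by rw [← up_mul, inv_mul_cancel, up_one]
  right_inv y := by rw [← up_mul, mul_inv_cancel, up_one]
  map_rel_iff' := (up_strictMono e he g.2).le_iff_le

theorem glue_mono {w w' : FZ Γ} (h : w ≤ w') (y : FZ Δ) : glue e w y ≤ glue e w' y := by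
  rcases h.lt_or_eq with h | rfl
  · obtain ⟨i, n, hn, h1⟩ := exists_dif_pos h
    exact ((dif_glue e h1 (y := y) (z := y) fun _ _ _ => rfl).lt hn).le
  · exact le_rfl

/-- Embedding of wreath powers. -/
noncomputable def segHom : LHom (ZPow Γ) (ZPow Δ) where
  toFun g := ⟨upO e he g, mem_zpow.2 fun _ _ _ _ h => up_dif e he g.2 h⟩
  mul' g h := by
    apply Subtype.ext
    apply OrderIso.ext
    funext y
    exact up_mul e g.1 h.1 y
  sup' g h := by
    apply Subtype.ext
    apply OrderIso.ext
    funext y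
    change glue e (max (g.1 (res e y)) (h.1 (res e y))) y =
      max (glue e (g.1 (res e y)) y) (glue e (h.1 (res e y)) y)
    rcases le_total (g.1 (res e y)) (h.1 (res e y)) with h1 | h1
    · rw [max_eq_right h1, max_eq_right (glue_mono e h1 y)]
    · rw [max_eq_left h1, max_eq_left (glue_mono e h1 y)]

theorem segHom_injective : Function.Injective (segHom e he) := by
  intro g h hgh
  apply Subtype.ext
  apply OrderIso.ext
  funext w
  have h1 : up e g.1 (glue e w (toColex 0)) = up e h.1 (glue e w (toColex 0)) :=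
    congrArg (fun F : ZPow Δ => F.1 (glue e w (toColex 0))) hgh
  have h2 := congrArg (res e) h1
  unfold up at h2
  rw [res_glue, res_glue, res_glue] at h2
  exact h2

include he in
/-- Quasi-identities pass to initial segments. -/
theorem seg_holds {φ : QId} (hφ : φ.Holds (ZPow Δ)) : φ.Holds (ZPow Γ) :=
  (segHom e he).holds (segHom_injective e he) hφ

/-! Restriction to the part below an index. -/

/-- `g` acts as `h` on the lower coordinates of the points that agree with `x` elsewhere. -/
def RG (x : FZ Δ) (g : FZ Δ ≃o FZ Δ) (h : FZ Γ ≃o FZ Γ) : Prop :=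
  ∀ w, g (glue e w x) = glue e (h w) x

theorem glue_injective (x : FZ Δ) : Function.Injective fun w => glue e w x := by
  intro w w' h
  have h1 := congrArg (res e) h
  simp only [res_glue] at h1
  exact h1

theorem RG.fn {x : FZ Δ} {g : FZ Δ ≃o FZ Δ} {h h' : FZ Γ ≃o FZ Γ} (h1 : RG e x g h)
    (h2 : RG e x g h') : h = h' := by
  apply OrderIso.ext
  funext w
  exact glue_injective e x ((h1 w).symm.trans (h2 w))

theorem RG.one (x : FZ Δ) : RG e x 1 1 := fun _ => rfl

theorem RG.mul {x : FZ Δ} {g g' : FZ Δ ≃o FZ Δ} {h h' : FZ Γ ≃o FZ Γ} (h1 : RG e x g h)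
    (h2 : RG e x g' h') : RG e x (g * g') (h * h') := by
  intro w
  change g (g' _) = _
  rw [h2, h1]
  rfl

theorem RG.inv {x : FZ Δ} {g : FZ Δ ≃o FZ Δ} {h : FZ Γ ≃o FZ Γ} (h1 : RG e x g h) :
    RG e x g⁻¹ h⁻¹ := by
  intro w
  have h2 := h1 (h⁻¹ w)
  rw [show h (h⁻¹ w) = w from h.apply_symm_apply w] at h2
  rw [← h2]
  exact g.symm_apply_apply _

theorem RG.sup {x : FZ Δ} {g g' : FZ Δ ≃o FZ Δ} {h h' : FZ Γ ≃o FZ Γ} (h1 : RG e x g h)
    (h2 : RG e x g' h') : RG e x (g ⊔ g') (h ⊔ h') := by
  intro w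
  change max (g _) (g' _) = glue e (max (h w) (h' w)) x
  rw [h1, h2]
  rcases le_total (h w) (h' w) with h3 | h3
  · rw [max_eq_right h3, max_eq_right (glue_mono e h3 x)]
  · rw [max_eq_left h3, max_eq_left (glue_mono e h3 x)]

theorem RG.inf {x : FZ Δ} {g g' : FZ Δ ≃o FZ Δ} {h h' : FZ Γ ≃o FZ Γ} (h1 : RG e x g h)
    (h2 : RG e x g' h') : RG e x (g ⊓ g') (h ⊓ h') := by
  have h3 := (((h1.inv).sup e (h2.inv)).inv)
  rwa [inv_sup, inv_sup, inv_inv, inv_inv, inv_inv, inv_inv] at h3

include he in
theorem exists_RG {x : FZ Δ} {g : FZ Δ ≃o FZ Δ} (hg : g ∈ ZPow Δ)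
    (hx : ∀ j, j ∉ Set.range e → ofColex (g x) j = ofColex x j) :
    ∃ h ∈ ZPow Γ, RG e x g h := by
  -- `g` preserves the class of `x`
  have hcls : ∀ g : FZ Δ ≃o FZ Δ, g ∈ ZPow Δ →
      (∀ j, j ∉ Set.range e → ofColex (g x) j = ofColex x j) → ∀ y : FZ Δ,
      (∀ j, j ∉ Set.range e → ofColex y j = ofColex x j) →
      ∀ j, j ∉ Set.range e → ofColex (g y) j = ofColex x j := by
    intro g hg hx y hy j hj
    have h1 : Dif j 0 x y := by
      refine ⟨fun k hk => (hy k ?_).symm, by rw [hy j hj, sub_self]⟩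
      rintro ⟨a, rfl⟩
      exact hj (he a j hk)
    have h2 := mem_zpow.1 hg _ _ _ _ h1
    have h3 := h2.2
    rw [hx j hj] at h3
    omega
  have hx' : ∀ j, j ∉ Set.range e → ofColex (g⁻¹ x) j = ofColex x j := by
    intro j hj
    have h1 : Dif j 0 x (g x) := by
      refine ⟨fun k hk => (hx k ?_).symm, by rw [hx j hj, sub_self]⟩
      rintro ⟨a, rfl⟩
      exact hj (he a j hk)
    have h2 := mem_zpow.1 ((ZPow Δ).inv_mem hg) _ _ _ _ h1
    rw [show g⁻¹ (g x) = x from g.symm_apply_apply x] at h2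
    have h3 := h2.2
    omega
  have hgl : ∀ (w : FZ Γ) (j : Δ), j ∉ Set.range e → ofColex (glue e w x) j = ofColex x j :=
    fun w j hj => glue_out e w x hj
  have hgr : ∀ g : FZ Δ ≃o FZ Δ, g ∈ ZPow Δ →
      (∀ j, j ∉ Set.range e → ofColex (g x) j = ofColex x j) → ∀ w : FZ Γ,
      glue e (res e (g (glue e w x))) x = g (glue e w x) := fun g hg hx w =>
    glue_eq e (hcls g hg hx _ (hgl w)) rfl
  have hmono : StrictMono fun w : FZ Γ => res e (g (glue e w x)) := by
    intro w w' hlt
    obtain ⟨a, n, hn, h1⟩ := exists_dif_pos hlt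
    have h2 := mem_zpow.1 hg _ _ _ _ (dif_glue e h1 (y := x) (z := x) fun _ _ _ => rfl)
    exact (dif_res e h2).lt hn
  let h : FZ Γ ≃o FZ Γ :=
    { toFun := fun w => res e (g (glue e w x))
      invFun := fun w => res e (g⁻¹ (glue e w x))
      left_inv := fun w => by
        change res e (g⁻¹ (glue e (res e (g (glue e w x))) x)) = w
        rw [hgr g hg hx]
        rw [show g⁻¹ (g (glue e w x)) = glue e w x from g.symm_apply_apply _, res_glue]
      right_inv := fun w => by
        change res e (g (glue e (res e (g⁻¹ (glue e w x))) x)) = w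
        rw [hgr g⁻¹ ((ZPow Δ).inv_mem hg) hx']
        rw [show g (g⁻¹ (glue e w x)) = glue e w x from g.apply_symm_apply _, res_glue]
      map_rel_iff' := hmono.le_iff_le }
  refine ⟨h, mem_zpow.2 ?_, fun w => (hgr g hg hx w).symm⟩
  intro w w' a n hd
  exact dif_res e (mem_zpow.1 hg _ _ _ _ (dif_glue e hd (y := x) (z := x) fun _ _ _ => rfl))

end

/-- A quasi-identity that holds in the wreath powers over all `{j | j ≤ i}` holds in the wreath
power over the whole chain. -/
theorem holds_of_le {Δ : Type v} [LinearOrder Δ] {φ : QId}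
    (hφ : ∀ i : Δ, φ.Holds (ZPow {j : Δ // j ≤ i})) : φ.Holds (ZPow Δ) := by
  classical
  intro X hX
  obtain ⟨b, hb⟩ := exists_bd (φ.concl :: φ.prem)
  let Y : ℕ → ZPow Δ := fun n => if n < b then X n else 1
  have hev : ∀ e ∈ φ.concl :: φ.prem, e.1.eval X = e.1.eval Y ∧ e.2.eval X = e.2.eval Y := by
    intro e he
    have h1 := hb e he
    constructor
    · apply Tm.eval_congr
      intro n hn
      have : n < b := lt_of_lt_of_le hn h1.1
      simp only [Y, if_pos this]
    · apply Tm.eval_congr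
      intro n hn
      have : n < b := lt_of_lt_of_le hn h1.2
      simp only [Y, if_pos this]
  have hYp : ∀ e ∈ φ.prem, e.1.eval Y = e.2.eval Y := by
    intro e he
    obtain ⟨h1, h2⟩ := hev e (List.mem_cons_of_mem _ he)
    rw [← h1, ← h2]
    exact hX e he
  obtain ⟨hc1, hc2⟩ := hev φ.concl List.mem_cons_self
  rw [hc1, hc2]
  apply Subtype.ext
  apply OrderIso.ext
  funext x
  -- coordinates moved at `x`
  let S : Finset Δ := (Finset.range b).biUnion fun n =>
    (ofColex ((Y n).1 x) - ofColex x).support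
  have hS : ∀ n j, j ∉ S → ofColex ((Y n).1 x) j = ofColex x j := by
    intro n j hj
    by_cases hn : n < b
    · by_contra hne
      apply hj
      rw [Finset.mem_biUnion]
      refine ⟨n, Finset.mem_range.2 hn, ?_⟩
      rw [Finsupp.mem_support_iff, Finsupp.sub_apply]
      exact sub_ne_zero.2 hne
    · have : Y n = 1 := by simp only [Y, if_neg hn]
      rw [this]
      rfl
  rcases S.eq_empty_or_nonempty with hSe | hSe
  · -- everything fixes `x`
    have hfix : ∀ n, (Y n).1 x = x := fun n => fz_ext fun j => hS n j (by rw [hSe]; simp)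
    have hall : ∀ t : Tm, (t.eval Y).1 x = x := by
      intro t
      induction t with
      | var n => exact hfix n
      | one => rfl
      | mul s t ihs iht =>
        change (s.eval Y).1 ((t.eval Y).1 x) = x
        rw [iht, ihs]
      | inv t ih =>
        change ((t.eval Y).1)⁻¹ x = x
        conv_lhs => rw [← ih]
        exact (t.eval Y).1.symm_apply_apply x
      | inf s t ihs iht =>
        change min ((s.eval Y).1 x) ((t.eval Y).1 x) = x
        rw [ihs, iht, min_self]
      | sup s t ihs iht =>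
        change max ((s.eval Y).1 x) ((t.eval Y).1 x) = x
        rw [ihs, iht, max_self]
    rw [hall, hall]
  · set i := S.max' hSe with hi
    let e : {j : Δ // j ≤ i} ↪o Δ := OrderEmbedding.subtype _
    have he : ∀ a b, b < e a → b ∈ Set.range e := fun a b hb =>
      ⟨⟨b, hb.le.trans a.2⟩, rfl⟩
    have hY : ∀ n, ∀ j, j ∉ Set.range e → ofColex ((Y n).1 x) j = ofColex x j := by
      intro n j hj
      apply hS
      intro hjS
      exact hj ⟨⟨j, Finset.le_max' _ _ hjS⟩, rfl⟩
    choose W hWm hW using fun n => exists_RG e he (Y n).2 (hY n)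
    let V : ℕ → ZPow {j : Δ // j ≤ i} := fun n => ⟨W n, hWm n⟩
    have hR : ∀ t : Tm, RG e x (t.eval Y).1 (t.eval V).1 := by
      intro t
      induction t with
      | var n => exact hW n
      | one => exact RG.one e x
      | mul s t ihs iht => exact ihs.mul e iht
      | inv t ih => exact ih.inv e
      | inf s t ihs iht => exact ihs.inf e iht
      | sup s t ihs iht => exact ihs.sup e iht
    have h1 := hφ i V (by
      intro p hp
      apply Subtype.ext
      have h2 := hR p.1
      rw [hYp p hp] at h2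
      exact h2.fn e (hR p.2))
    have h2 := hR φ.concl.1 (res e x)
    have h3 := hR φ.concl.2 (res e x)
    rw [glue_res] at h2 h3
    rw [h2, h3, h1]

end Pool.Agent.Helper56.QV
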