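import Mathlib
import Pool.Agent.Helper56.QV.GoodCt
import Pool.Agent.Helper56.QV.Seg

/-! Reduction to bumps. -/

set_option autoImplicit false

namespace Pool.Agent.Helper56.QV

universe u v

variable {Ω : Type u} [LinearOrder Ω]

section ext

variable {J : Set Ω} (hJ : J.OrdConnected)

open Classical in
/-- Extension by the identity. -/
noncomputable def extF (J : Set Ω) (u : J ≃o J) (z : Ω) : Ω := if h : z ∈ J then (u ⟨z, h⟩).1 else z

theorem extF_mem (u : J ≃o J) (z : J) : extF J u z.1 = (u z).1 := by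
  unfold extF
  rw [dif_pos z.2]

theorem extF_not (u : J ≃o J) {z : Ω} (hz : z ∉ J) : extF J u z = z := by
  unfold extF
  rw [dif_neg hz]

theorem extF_mul (u v : J ≃o J) (z : Ω) : extF J (u * v) z = extF J u (extF J v z) := by
  by_cases hz : z ∈ J
  · rw [extF_mem (u * v) ⟨z, hz⟩, extF_mem v ⟨z, hz⟩, extF_mem]
    rfl
  · rw [extF_not _ hz, extF_not _ hz, extF_not _ hz]

theorem extF_one (z : Ω) : extF J 1 z = z := by
  by_cases hz : z ∈ J
  · rw [extF_mem 1 ⟨z, hz⟩]
    rfl
  · rw [extF_not _ hz]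

include hJ in
theorem extF_strictMono (u : J ≃o J) : StrictMono (extF J u) := by
  intro z w hzw
  by_cases hz : z ∈ J <;> by_cases hw : w ∈ J
  · rw [extF_mem u ⟨z, hz⟩, extF_mem u ⟨w, hw⟩]
    exact u.lt_iff_lt.2 hzw
  · rw [extF_mem u ⟨z, hz⟩, extF_not u hw]
    by_contra hc
    push Not at hc
    exact hw (hJ.out hz (u ⟨z, hz⟩).2 ⟨hzw.le, hc⟩)
  · rw [extF_not u hz, extF_mem u ⟨w, hw⟩]
    by_contra hc
    push Not at hc
    exact hz (hJ.out (u ⟨w, hw⟩).2 hw ⟨hc, hzw.le⟩)
  · rw [extF_not u hz, extF_not u hw]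
    exact hzw

/-- Extension by the identity, as an automorphism. -/
noncomputable def extO (u : J ≃o J) : Ω ≃o Ω where
  toFun := extF J u
  invFun := extF J u⁻¹
  left_inv z := by rw [← extF_mul, inv_mul_cancel, extF_one]
  right_inv z := by rw [← extF_mul, mul_inv_cancel, extF_one]
  map_rel_iff' := (extF_strictMono hJ u).le_iff_le

/-- Extension by the identity is a homomorphism. -/
noncomputable def extJ : LHom (J ≃o J) (Ω ≃o Ω) where
  toFun := extO hJ
  mul' u v := by
    apply OrderIso.ext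
    funext z
    exact extF_mul u v z
  sup' u v := by
    apply OrderIso.ext
    funext z
    change extF J (u ⊔ v) z = max (extF J u z) (extF J v z)
    by_cases hz : z ∈ J
    · rw [extF_mem _ ⟨z, hz⟩, extF_mem _ ⟨z, hz⟩, extF_mem _ ⟨z, hz⟩, sup_app]
      rcases le_total (u ⟨z, hz⟩) (v ⟨z, hz⟩) with h | h
      · rw [max_eq_right h, max_eq_right]
        exact h
      · rw [max_eq_left h, max_eq_left]
        exact h
    · rw [extF_not _ hz, extF_not _ hz, extF_not _ hz, max_self]

theorem extJ_mem (u : J ≃o J) (z : J) : extJ hJ u z.1 = (u z).1 := extF_mem u z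

theorem extJ_injective : Function.Injective (extJ hJ) := by
  intro u v h
  apply OrderIso.ext
  funext z
  apply Subtype.ext
  rw [← extJ_mem hJ u, ← extJ_mem hJ v, h]

theorem extJ_zp (u : J ≃o J) (n : ℤ) (z : J) : ((extJ hJ u) ^ n) z.1 = ((u ^ n) z).1 := by
  have h1 : (extJ hJ u) ^ n = extJ hJ (u ^ n) := (map_zpow (extJ hJ).toMonoidHom u n).symm
  rw [h1, extJ_mem]

theorem bump_ext (u : J ≃o J) (x : J) : bump (extJ hJ u) x.1 = Subtype.val '' bump u x := by
  ext z
  constructor
  · rintro ⟨m, n, h1, h2⟩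
    rw [extJ_zp] at h1 h2
    have hz : z ∈ J := hJ.out ((u ^ m) x).2 ((u ^ n) x).2 ⟨h1, h2⟩
    exact ⟨⟨z, hz⟩, ⟨m, n, h1, h2⟩, rfl⟩
  · rintro ⟨w, ⟨m, n, h1, h2⟩, rfl⟩
    refine ⟨m, n, ?_, ?_⟩
    · rw [extJ_zp]
      exact h1
    · rw [extJ_zp]
      exact h2

include hJ in
theorem not_dyadic_sub (hd : ¬ HasDyadic Ω) : ¬ HasDyadic J := by
  rintro ⟨t, h0, h1⟩
  apply hd
  refine ⟨fun n => extJ hJ (t n), ?_, fun n => ?_⟩
  · intro h
    exact h0 (extJ_injective hJ (h.trans (extJ hJ).map_one.symm))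
  · rw [← (extJ hJ).map_mul, h1]

/-- Restriction of an automorphism that preserves `J`. -/
noncomputable def restJ (g : Ω ≃o Ω) (hg : ∀ z, g z ∈ J ↔ z ∈ J) : J ≃o J where
  toFun z := ⟨g z.1, (hg _).2 z.2⟩
  invFun z := ⟨g⁻¹ z.1, by rw [← hg, app_inv_self]; exact z.2⟩
  left_inv z := Subtype.ext (inv_app_self g z.1)
  right_inv z := Subtype.ext (app_inv_self g z.1)
  map_rel_iff' := g.le_iff_le

theorem restJ_app (g : Ω ≃o Ω) (hg : ∀ z, g z ∈ J ↔ z ∈ J) (z : J) :
    (restJ g hg z).1 = g z.1 := rfl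

include hJ in
theorem bump_rest (g : Ω ≃o Ω) (hg : ∀ z, g z ∈ J ↔ z ∈ J) (x : J) :
    Subtype.val '' bump (restJ g hg) x = bump g x.1 := by
  rw [← bump_ext hJ]
  have h1 : ∀ z ∈ J, g z = extJ hJ (restJ g hg) z := fun z hz =>
    (extJ_mem hJ (restJ g hg) ⟨z, hz⟩).symm
  have h2 : ∀ n : ℤ, (g ^ n) x.1 = ((extJ hJ (restJ g hg)) ^ n) x.1 := fun n =>
    iter_eq_z h1 hg n x.1 x.2
  ext z
  simp only [mem_bump, h2]

end ext

section lev

variable {J : Set Ω} (hB : IsBlk J) (hd : ¬ HasDyadic Ω) (hdJ : ¬ HasDyadic J) (x : J)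

/-- Bumps of `J` as bumps of `Ω`. -/
noncomputable def levMap (A : Lev x) : Lev x.1 :=
  ⟨Subtype.val '' A.1, by
    obtain ⟨u, hu, hA⟩ := A.2
    refine ⟨extJ hB.conv u, ?_, ?_⟩
    · rw [extJ_mem]
      exact fun h => hu (Subtype.ext h)
    · rw [bump_ext, hA]⟩

theorem levMap_sub (A : Lev x) : (levMap hB x A).1 ⊆ J := by
  rintro _ ⟨w, _, rfl⟩
  exact w.2

/-- The embedding of the chain of bumps. -/
noncomputable def levEmb :
    letI := levOrder hdJ x
    letI := levOrder hd x.1
    Lev x ↪o Lev x.1 :=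
  letI := levOrder hdJ x
  letI := levOrder hd x.1
  { toFun := levMap hB x
    inj' := by
      intro A B h
      apply Subtype.ext
      exact (Set.image_injective.2 Subtype.val_injective) (congrArg Subtype.val h)
    map_rel_iff' := by
      intro A B
      change Subtype.val '' A.1 ⊆ Subtype.val '' B.1 ↔ A.1 ⊆ B.1
      exact Set.image_subset_image_iff Subtype.val_injective }

theorem exists_levMap (C : Lev x.1) (hC : C.1 ⊆ J) : ∃ A : Lev x, levMap hB x A = C := by
  obtain ⟨g, hg, hCg⟩ := C.2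
  have h1 : g x.1 ∈ J := hC (by rw [hCg]; exact app_mem_self g x.1)
  have h2 : ∀ z, g z ∈ J ↔ z ∈ J := hB.mem_iff x.2 h1
  refine ⟨⟨bump (restJ g h2) x, restJ g h2, ?_, rfl⟩, ?_⟩
  · intro h
    exact hg (congrArg Subtype.val h)
  · apply Subtype.ext
    change Subtype.val '' bump (restJ g h2) x = C.1
    rw [bump_rest hB.conv, hCg]

include hB in
theorem lev_up {φ : QId} (hφ : φ.Holds (BumpPow hd x.1)) : φ.Holds (BumpPow hdJ x) := by
  letI := levOrder hdJ x
  letI := levOrder hd x.1
  refine seg_holds (levEmb hB hd hdJ x) ?_ hφ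
  intro a b hb
  have h1 : b.1 ⊆ (levMap hB x a).1 := hb.le
  obtain ⟨A, hA⟩ := exists_levMap hB x b (h1.trans (levMap_sub hB x a))
  exact ⟨A, hA⟩

end lev

/-- Reduction to bumps. -/
theorem holds_of_bumps (hd : ¬ HasDyadic Ω) {φ : QId}
    (h : ∀ (g : Ω ≃o Ω) (ω : Ω), g ω ≠ ω → φ.Holds (bump g ω ≃o bump g ω)) :
    φ.Holds (Ω ≃o Ω) := by
  classical
  intro X hX
  obtain ⟨b, hb⟩ := exists_bd (φ.concl :: φ.prem)
  let Y : ℕ → (Ω ≃o Ω) := fun n => if n < b then X n else 1
  have hev : ∀ e ∈ φ.concl :: φ.prem, e.1.eval X = e.1.eval Y ∧ e.2.eval X = e.2.eval Y := by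
    intro e he
    have h1 := hb e he
    constructor
    · apply Tm.eval_congr
      intro n hn
      have : n < b := lt_of_lt_of_le hn h1.1
      simp only [Y, if_pos this]
    · apply Tm.eval_congr
      intro n hn
      have : n < b := lt_of_lt_of_le hn h1.2
      simp only [Y, if_pos this]
  have hYp : ∀ e ∈ φ.prem, e.1.eval Y = e.2.eval Y := by
    intro e he
    obtain ⟨h1, h2⟩ := hev e (List.mem_cons_of_mem _ he)
    rw [← h1, ← h2]
    exact hX e he
  obtain ⟨hc1, hc2⟩ := hev φ.concl List.mem_cons_self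
  rw [hc1, hc2]
  apply OrderIso.ext
  funext ω
  let T : Set (Set Ω) := (fun n => bump (Y n) ω) '' {n | n < b ∧ Y n ω ≠ ω}
  have hTfin : T.Finite := ((Set.finite_lt_nat b).subset fun n hn => hn.1).image _
  rcases T.eq_empty_or_nonempty with hT | hT
  · have hfix : ∀ n, Y n ω = ω := by
      intro n
      by_contra hn
      have hnb : n < b := by
        by_contra hnb
        apply hn
        simp only [Y, if_neg hnb]
        rfl
      have : bump (Y n) ω ∈ T := ⟨n, ⟨hnb, hn⟩, rfl⟩
      rw [hT] at this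
      exact this
    have hall : ∀ t : Tm, (t.eval Y) ω = ω := by
      intro t
      induction t with
      | var n => exact hfix n
      | one => rfl
      | mul s t ihs iht =>
        change (s.eval Y) ((t.eval Y) ω) = ω
        rw [iht, ihs]
      | inv t ih =>
        change (t.eval Y)⁻¹ ω = ω
        conv_lhs => rw [← ih]
        exact inv_app_self _ _
      | inf s t ihs iht =>
        change min ((s.eval Y) ω) ((t.eval Y) ω) = ω
        rw [ihs, iht, min_self]
      | sup s t ihs iht =>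
        change max ((s.eval Y) ω) ((t.eval Y) ω) = ω
        rw [ihs, iht, max_self]
    rw [hall, hall]
  · obtain ⟨J, hJm⟩ := hTfin.exists_maximal hT
    obtain ⟨n₀, ⟨_, hn₀⟩, hJ⟩ := hJm.1
    have hJ' : J = bump (Y n₀) ω := hJ.symm
    have hB : IsBlk J := by rw [hJ']; exact isBlk_bump hd _ _
    have hωJ : ω ∈ J := by rw [hJ']; exact self_mem_bump _ _
    have hYJ : ∀ n, Y n ω ∈ J := by
      intro n
      by_cases hn : n < b ∧ Y n ω ≠ ω
      · have h1 : bump (Y n) ω ∈ T := ⟨n, hn, rfl⟩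
        rcases bump_total hd (Y n) (Y n₀) ω with h2 | h2
        · rw [← hJ'] at h2
          exact h2 (app_mem_self _ _)
        · rw [← hJ'] at h2
          exact hJm.2 h1 h2 (app_mem_self _ _)
      · by_cases hnb : n < b
        · have : Y n ω = ω := by
            by_contra h2
            exact hn ⟨hnb, h2⟩
          rw [this]
          exact hωJ
        · have : Y n = 1 := by simp only [Y, if_neg hnb]
          rw [this]
          exact hωJ
    let V : ℕ → (J ≃o J) := fun n => restJ (Y n) (hB.mem_iff hωJ (hYJ n))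
    have hV : ∀ (t : Tm) (z : J), ((t.eval V) z).1 = (t.eval Y) z.1 := by
      intro t
      induction t with
      | var n => intro z; rfl
      | one => intro z; rfl
      | mul s t ihs iht =>
        intro z
        change ((s.eval V) ((t.eval V) z)).1 = (s.eval Y) ((t.eval Y) z.1)
        rw [ihs, iht]
      | inv t ih =>
        intro z
        change ((t.eval V)⁻¹ z).1 = (t.eval Y)⁻¹ z.1
        have h1 := ih ((t.eval V)⁻¹ z)
        rw [app_inv_self] at h1
        rw [h1, inv_app_self]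
      | inf s t ihs iht =>
        intro z
        change (min ((s.eval V) z) ((t.eval V) z)).1 = min ((s.eval Y) z.1) ((t.eval Y) z.1)
        rw [← ihs, ← iht]
        rfl
      | sup s t ihs iht =>
        intro z
        change (max ((s.eval V) z) ((t.eval V) z)).1 = max ((s.eval Y) z.1) ((t.eval Y) z.1)
        rw [← ihs, ← iht]
        rfl
    have hJφ : φ.Holds (J ≃o J) := by
      rw [hJ']
      exact h (Y n₀) ω hn₀
    have h1 := hJφ V (by
      intro e he
      apply OrderIso.ext
      funext z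
      apply Subtype.ext
      rw [hV, hV, hYp e he])
    have h2 := hV φ.concl.1 ⟨ω, hωJ⟩
    rw [h1, hV] at h2
    exact h2.symm

/-- The quasi-variety generated by `Aut(Ω)` when `Ω` is locally countable or scattered and has no
iterated roots. -/
theorem holds_iff_bumpPow (hd : ¬ HasDyadic Ω) (hs : LocCS Ω) (φ : QId) :
    φ.Holds (Ω ≃o Ω) ↔ ∀ ω : Ω, φ.Holds (BumpPow hd ω) := by
  constructor
  · intro h ω
    letI := levOrder hd ω
    have key : φ.Holds (ZPow (Lev ω)) := by
      apply holds_of_le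
      intro i
      obtain ⟨g, hg, hi⟩ := i.2
      have hB : IsBlk i.1 := i.isBlk hd
      have hdJ : ¬ HasDyadic i.1 := not_dyadic_sub hB.conv hd
      have h1 : φ.Holds (i.1 ≃o i.1) := (extJ hB.conv).holds (extJ_injective hB.conv) h
      have hcs : Countable i.1 ∨ IsEmpty (ℚ ↪o i.1) := by
        rw [hi]
        exact (bump_cs hs g ω).imp (fun h => h.to_subtype) id
      let x : i.1 := ⟨ω, i.mem⟩
      have h2 := (holds_iff_bumpPow' hdJ hcs φ).1 h1 x
      letI := levOrder hdJ x
      have hr : ∀ j : {j : Lev ω // j ≤ i}, ∃ A : Lev x, levMap hB x A = j.1 := fun j =>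
        exists_levMap hB x j.1 j.2
      choose e he using hr
      let E : {j : Lev ω // j ≤ i} ↪o Lev x := OrderEmbedding.ofStrictMono e (by
        intro j k hjk
        rw [← (levEmb hB hd hdJ x).lt_iff_lt]
        change levMap hB x (e j) < levMap hB x (e k)
        rw [he, he]
        exact hjk)
      refine seg_holds E ?_ h2
      intro j b hb
      have h3 : levMap hB x b < levMap hB x (e j) := (levEmb hB hd hdJ x).lt_iff_lt.2 hb
      rw [he] at h3
      refine ⟨⟨levMap hB x b, h3.le.trans j.2⟩, ?_⟩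
      change e ⟨levMap hB x b, _⟩ = b
      exact (levEmb hB hd hdJ x).injective (he _)
    exact key
  · intro h
    apply holds_of_bumps hd
    intro g ω hg
    have hB := isBlk_bump hd g ω
    have hdJ : ¬ HasDyadic (bump g ω) := not_dyadic_sub hB.conv hd
    have hcs : Countable (bump g ω) ∨ IsEmpty (ℚ ↪o bump g ω) :=
      (bump_cs hs g ω).imp (fun h => h.to_subtype) id
    rw [holds_iff_bumpPow' hdJ hcs]
    intro x
    exact lev_up hB hd hdJ x (h x.1)

end Pool.Agent.Helper56.QV
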