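import Mathlib
import Pool.Agent.Helper56.QV.Red
import Pool.Agent.Helper56.QV.Seg
import Pool.Agent.Helper56.QV.AutFZ

/-! Scattered chains: the quasi-variety is that of `Aut(ℤ^(β))` for an ordinal `β`. -/

set_option autoImplicit false

namespace Pool.Agent.Helper56.QV

universe u v

variable {Ω : Type u} [LinearOrder Ω]

theorem wf_lev (hd : ¬ HasDyadic Ω) (h : IsEmpty (ℚ ↪o Ω)) (ω : Ω) :
    letI := levOrder hd ω
    WellFoundedLT (Lev ω) := by
  letI := levOrder hd ω
  obtain ⟨X, _⟩ := exists_frame hd (locCS_of (Or.inr h)) ω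
  exact X.wf_of_scattered h

/-- The order type of the chain of nontrivial bumps that contain `ω`. -/
noncomputable def levType (hd : ¬ HasDyadic Ω) (h : IsEmpty (ℚ ↪o Ω)) (ω : Ω) : Ordinal.{u} :=
  letI := levOrder hd ω
  haveI : WellFoundedLT (Lev ω) := wf_lev hd h ω
  Ordinal.type ((· < ·) : Lev ω → Lev ω → Prop)

theorem seg_holds' {Γ : Type u} {Δ : Type v} [LinearOrder Γ] [LinearOrder Δ] (f : Γ ≤i Δ)
    {φ : QId} (hφ : φ.Holds (ZPow Δ)) : φ.Holds (ZPow Γ) :=
  seg_holds f.toOrderEmbedding (fun _ _ hb => f.mem_range_of_le hb.le) hφ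

theorem scattered_case (h : IsEmpty (ℚ ↪o Ω)) : ∃ β : Ordinal.{u}, ∀ φ : QId,
    φ.Holds (Ω ≃o Ω) ↔ φ.Holds (FZ β.ToType ≃o FZ β.ToType) := by
  classical
  have hd := not_dyadic_of_scattered h
  have hsc : LocCS Ω := locCS_of (Or.inr h)
  refine ⟨⨆ ω, levType hd h ω, fun φ => ?_⟩
  set β : Ordinal.{u} := ⨆ ω, levType hd h ω with hβ
  rw [← zpow_holds_iff, holds_iff_bumpPow hd hsc]
  constructor
  · intro hφ
    apply holds_of_le
    intro i
    have h1 : Ordinal.typein ((· < ·) : β.ToType → β.ToType → Prop) i < β := by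
      have := Ordinal.typein_lt_type ((· < ·) : β.ToType → β.ToType → Prop) i
      rwa [Ordinal.type_toType] at this
    obtain ⟨ω, hω⟩ := Ordinal.lt_iSup_iff.1 (h1.trans_le hβ.le)
    letI := levOrder hd ω
    haveI : WellFoundedLT (Lev ω) := wf_lev hd h ω
    have hle : Ordinal.type ((· < ·) : Lev ω → Lev ω → Prop) ≤
        Ordinal.type ((· < ·) : β.ToType → β.ToType → Prop) := by
      rw [Ordinal.type_toType]
      exact Ordinal.le_iSup (fun ω => levType hd h ω) ω
    obtain ⟨f⟩ := Ordinal.type_le_iff.1 hle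
    obtain ⟨a, ha⟩ := Ordinal.typein_surj ((· < ·) : Lev ω → Lev ω → Prop) hω
    have hfa : f a = i := by
      apply Ordinal.typein_injective ((· < ·) : β.ToType → β.ToType → Prop)
      rw [Ordinal.typein_apply, ha]
    let f' : Lev ω ≤i β.ToType := f
    have hr : ∀ j : {j : β.ToType // j ≤ i}, ∃ b, f' b = j.1 := fun j =>
      f'.mem_range_of_le (a := a) (by change j.1 ≤ f a; rw [hfa]; exact j.2)
    choose e he using hr
    let E : {j : β.ToType // j ≤ i} ↪o Lev ω := OrderEmbedding.ofStrictMono e (by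
      intro j k hjk
      rw [← f'.lt_iff_lt, he, he]
      exact hjk)
    refine seg_holds E ?_ (hφ ω)
    intro j b hb
    have hb' : b < e j := hb
    have h2 : f' b < j.1 := by rw [← he j, f'.lt_iff_lt]; exact hb'
    refine ⟨⟨f' b, h2.le.trans j.2⟩, ?_⟩
    change e ⟨f' b, _⟩ = b
    exact f'.injective (he _)
  · intro hφ ω
    letI := levOrder hd ω
    haveI : WellFoundedLT (Lev ω) := wf_lev hd h ω
    have hle : Ordinal.type ((· < ·) : Lev ω → Lev ω → Prop) ≤
        Ordinal.type ((· < ·) : β.ToType → β.ToType → Prop) := by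
      rw [Ordinal.type_toType]
      exact Ordinal.le_iSup (fun ω => levType hd h ω) ω
    obtain ⟨f⟩ := Ordinal.type_le_iff.1 hle
    exact seg_holds' (f : Lev ω ≤i β.ToType) hφ

end Pool.Agent.Helper56.QV
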