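import Mathlib
import Pool.Agent.Helper56.QV.FM
import Pool.Agent.Helper56.QV.Holland2
import Pool.Agent.Helper56.QV.LHom
import Pool.Agent.Helper56.QV.Solv

/-! Quasi-identities of the integers hold in all abelian lattice-ordered groups. -/

set_option autoImplicit false

namespace Pool.Agent.Helper56.QV

universe u v

/-- The lattice-ordered group of the integers, written multiplicatively. -/
instance intLGroup : LGroup (Multiplicative ℤ) where
  toGroup := inferInstance
  toLattice := inferInstance
  mul_le_mul_mul a b c d h := by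
    change (Multiplicative.toAdd c + Multiplicative.toAdd a + Multiplicative.toAdd d : ℤ) ≤
      Multiplicative.toAdd c + Multiplicative.toAdd b + Multiplicative.toAdd d
    have h1 : (Multiplicative.toAdd a : ℤ) ≤ Multiplicative.toAdd b := h
    omega

section

variable {H : Type u} [LGroup H] (hcomm : ∀ a b : H, a * b = b * a)

/-- Value of a form in `H`. -/
def val (x : ℕ → H) : ℕ → (ℕ → ℤ) → H
  | 0, _ => 1
  | n + 1, a => val x n a * x n ^ (a n)

include hcomm in
theorem val_add (x : ℕ → H) (n : ℕ) (a b : ℕ → ℤ) :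
    val x n (a + b) = val x n a * val x n b := by
  induction n with
  | zero => simp [val]
  | succ n ih =>
    simp only [val, ih, Pi.add_apply, zpow_add]
    have h1 : val x n b * x n ^ a n = x n ^ a n * val x n b := hcomm _ _
    calc val x n a * val x n b * (x n ^ a n * x n ^ b n)
        = val x n a * (val x n b * x n ^ a n) * x n ^ b n := by simp only [mul_assoc]
      _ = val x n a * (x n ^ a n * val x n b) * x n ^ b n := by rw [h1]
      _ = _ := by simp only [mul_assoc]

theorem val_zero (x : ℕ → H) (n : ℕ) : val x n 0 = 1 := by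
  induction n with
  | zero => rfl
  | succ n ih => simp [val, ih]

include hcomm in
theorem val_neg (x : ℕ → H) (n : ℕ) (a : ℕ → ℤ) : val x n (-a) = (val x n a)⁻¹ := by
  rw [eq_comm, inv_eq_iff_mul_eq_one, ← val_add hcomm, add_neg_cancel, val_zero]

theorem val_single_ge (x : ℕ → H) (n i : ℕ) (h : n ≤ i) :
    val x n (Pi.single i 1) = 1 := by
  induction n with
  | zero => rfl
  | succ n ih =>
    have h1 : (Pi.single i 1 : ℕ → ℤ) n = 0 := Pi.single_eq_of_ne (by omega) _
    simp only [val, ih (by omega), h1, zpow_zero, mul_one]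

theorem val_single (x : ℕ → H) (n i : ℕ) (h : i < n) : val x n (Pi.single i 1) = x i := by
  induction n with
  | zero => omega
  | succ n ih =>
    rcases Nat.eq_or_lt_of_le (Nat.lt_succ_iff.1 h) with h1 | h1
    · subst h1
      simp [val, val_single_ge x i i le_rfl]
    · have h2 : (Pi.single i 1 : ℕ → ℤ) n = 0 := Pi.single_eq_of_ne (by omega) _
      simp only [val, ih h1, h2, zpow_zero, mul_one]

variable {P : Set H} (hP : IsCL P)

/-- Equality modulo `P`. -/
def eqP (P : Set H) (a b : H) : Prop := cle P a b ∧ cle P b a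

include hP

theorem mem_of_cle {w : H} (h1 : cle P w 1) (h2 : cle P 1 w) : w ∈ P := by
  unfold cle at h1 h2
  rw [inv_one, one_mul] at h1
  rw [mul_one] at h2
  refine hP.conv _ (hP.mul _ h1 _ h2) w ?_
  have h6 : ab ((w ⊔ 1) * (w⁻¹ ⊔ 1)) = (w ⊔ 1) * (w⁻¹ ⊔ 1) :=
    ab_of_one_le (one_le_mul le_sup_right le_sup_right)
  rw [h6]
  apply sup_le
  · calc w = w * 1 := (mul_one _).symm
      _ ≤ _ := mul_le_mul' le_sup_left le_sup_right
  · calc w⁻¹ = 1 * w⁻¹ := (one_mul _).symm
      _ ≤ _ := mul_le_mul' le_sup_right le_sup_left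

theorem cle_of_mem {w : H} (h : w ∈ P) : cle P w 1 := by
  unfold cle
  rw [inv_one, one_mul]
  refine hP.of_le (hP.ab_mem h) le_sup_right (sup_le le_sup_left (one_le_ab w))

theorem eqP_one_of_mem {w : H} (h : w ∈ P) : eqP P w 1 := by
  refine ⟨cle_of_mem hP h, ?_⟩
  have h1 := cle_of_mem hP (hP.inv _ h)
  rw [← cle_mul w, mul_inv_cancel, mul_one] at h1
  exact h1

theorem eqP_refl (a : H) : eqP P a a := ⟨cle_refl hP a, cle_refl hP a⟩

theorem eqP_trans {a b c : H} (h1 : eqP P a b) (h2 : eqP P b c) : eqP P a c :=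
  ⟨cle_trans hP h1.1 h2.1, cle_trans hP h2.2 h1.2⟩

omit hP in
theorem eqP_symm {a b : H} (h1 : eqP P a b) : eqP P b a := ⟨h1.2, h1.1⟩

omit hP in
include hcomm in
theorem cle_mul' {a b : H} (g : H) : cle P (a * g) (b * g) ↔ cle P a b := by
  rw [hcomm a g, hcomm b g]
  exact cle_mul g

include hcomm in
theorem eqP_mul {a a' b b' : H} (h1 : eqP P a a') (h2 : eqP P b b') :
    eqP P (a * b) (a' * b') := by
  constructor
  · exact cle_trans hP ((cle_mul' hcomm b).2 h1.1) ((cle_mul a').2 h2.1)
  · exact cle_trans hP ((cle_mul' hcomm b').2 h1.2) ((cle_mul a).2 h2.2)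

omit hP in
include hcomm in
theorem cle_inv {a b : H} (h : cle P a b) : cle P b⁻¹ a⁻¹ := by
  have h1 := (cle_mul (P := P) (a := a) (b := b) (a⁻¹ * b⁻¹)).2 h
  have h2 : a⁻¹ * b⁻¹ * a = b⁻¹ := by
    rw [hcomm a⁻¹ b⁻¹, mul_assoc, inv_mul_cancel, mul_one]
  have h3 : a⁻¹ * b⁻¹ * b = a⁻¹ := by rw [mul_assoc, inv_mul_cancel, mul_one]
  rwa [h2, h3] at h1

omit hP in
include hcomm in
theorem eqP_inv {a a' : H} (h1 : eqP P a a') : eqP P a⁻¹ a'⁻¹ :=
  ⟨cle_inv hcomm h1.2, cle_inv hcomm h1.1⟩

theorem sup_right {s t : H} (h : cle P s t) : eqP P (s ⊔ t) t := by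
  refine ⟨?_, cle_of_le hP le_sup_right⟩
  have := cle_sup (P := P) (g := s) (g' := t) (a := 1) (by rw [mul_one, mul_one]; exact h)
  rwa [mul_one, mul_one] at this

theorem inf_left {s t : H} (h : cle P s t) : eqP P (s ⊓ t) s := by
  refine ⟨cle_of_le hP inf_le_left, ?_⟩
  have := cle_inf (P := P) (g := s) (g' := t) (a := 1) (by rw [mul_one, mul_one]; exact h)
  rwa [mul_one, mul_one] at this

omit hP

variable (P) (x : ℕ → H)

open Classical in
/-- The linear form of a term. -/
noncomputable def lin : Tm → (ℕ → ℤ)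
  | .var n => Pi.single n 1
  | .one => 0
  | .mul s t => lin s + lin t
  | .inv t => -lin t
  | .inf s t => if cle P (s.eval x) (t.eval x) then lin s else lin t
  | .sup s t => if cle P (s.eval x) (t.eval x) then lin t else lin s

/-- The comparisons made in a term. -/
noncomputable def nodes : Tm → List (ℕ → ℤ)
  | .var _ => []
  | .one => []
  | .mul s t => nodes s ++ nodes t
  | .inv t => nodes t
  | .inf s t => (lin P x t + -lin P x s) :: (nodes s ++ nodes t)
  | .sup s t => (lin P x t + -lin P x s) :: (nodes s ++ nodes t)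

theorem lin_supp (t : Tm) (i : ℕ) (h : t.bd ≤ i) : lin P x t i = 0 := by
  induction t with
  | var n =>
    have h1 : n + 1 ≤ i := h
    exact Pi.single_eq_of_ne (by omega) _
  | one => rfl
  | mul s t ihs iht =>
    have h1 : max s.bd t.bd ≤ i := h
    simp only [lin, Pi.add_apply, ihs (le_of_max_le_left h1), iht (le_of_max_le_right h1),
      add_zero]
  | inv t ih =>
    simp only [lin, Pi.neg_apply, ih h, neg_zero]
  | inf s t ihs iht =>
    have h1 : max s.bd t.bd ≤ i := h
    simp only [lin]
    split_ifs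
    · exact ihs (le_of_max_le_left h1)
    · exact iht (le_of_max_le_right h1)
  | sup s t ihs iht =>
    have h1 : max s.bd t.bd ≤ i := h
    simp only [lin]
    split_ifs
    · exact iht (le_of_max_le_right h1)
    · exact ihs (le_of_max_le_left h1)

theorem nodes_supp (t : Tm) (d : ℕ → ℤ) (hd : d ∈ nodes P x t) (i : ℕ) (h : t.bd ≤ i) :
    d i = 0 := by
  induction t with
  | var n => exact absurd hd List.not_mem_nil
  | one => exact absurd hd List.not_mem_nil
  | mul s t ihs iht =>
    have h1 : max s.bd t.bd ≤ i := h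
    rcases List.mem_append.1 hd with h2 | h2
    · exact ihs h2 (le_of_max_le_left h1)
    · exact iht h2 (le_of_max_le_right h1)
  | inv t ih => exact ih hd h
  | inf s t ihs iht =>
    have h1 : max s.bd t.bd ≤ i := h
    rcases List.mem_cons.1 hd with h2 | h2
    · rw [h2, Pi.add_apply, Pi.neg_apply, lin_supp P x t i (le_of_max_le_right h1),
        lin_supp P x s i (le_of_max_le_left h1)]
      rfl
    · rcases List.mem_append.1 h2 with h2 | h2
      · exact ihs h2 (le_of_max_le_left h1)
      · exact iht h2 (le_of_max_le_right h1)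
  | sup s t ihs iht =>
    have h1 : max s.bd t.bd ≤ i := h
    rcases List.mem_cons.1 hd with h2 | h2
    · rw [h2, Pi.add_apply, Pi.neg_apply, lin_supp P x t i (le_of_max_le_right h1),
        lin_supp P x s i (le_of_max_le_left h1)]
      rfl
    · rcases List.mem_append.1 h2 with h2 | h2
      · exact ihs h2 (le_of_max_le_left h1)
      · exact iht h2 (le_of_max_le_right h1)

variable {P}

include hcomm hP in
theorem eval_lin (hpr : ∀ a b : H, a ⊓ b = 1 → a ∈ P ∨ b ∈ P) (n : ℕ) (t : Tm) (hn : t.bd ≤ n) :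
    eqP P (t.eval x) (val x n (lin P x t)) := by
  induction t with
  | var i =>
    have h1 : i + 1 ≤ n := hn
    simp only [lin, Tm.eval, val_single x n i (by omega)]
    exact eqP_refl hP _
  | one =>
    simp only [lin, Tm.eval, val_zero]
    exact eqP_refl hP _
  | mul s t ihs iht =>
    have h1 : max s.bd t.bd ≤ n := hn
    simp only [lin, Tm.eval, val_add hcomm]
    exact eqP_mul hcomm hP (ihs (le_of_max_le_left h1)) (iht (le_of_max_le_right h1))
  | inv t ih =>
    simp only [lin, Tm.eval, val_neg hcomm]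
    exact eqP_inv hcomm (ih hn)
  | inf s t ihs iht =>
    have h1 : max s.bd t.bd ≤ n := hn
    simp only [lin, Tm.eval]
    split_ifs with h
    · exact eqP_trans hP (inf_left hP h) (ihs (le_of_max_le_left h1))
    · have h2 := (cle_total hpr (s.eval x) (t.eval x)).resolve_left h
      rw [inf_comm]
      exact eqP_trans hP (inf_left hP h2) (iht (le_of_max_le_right h1))
  | sup s t ihs iht =>
    have h1 : max s.bd t.bd ≤ n := hn
    simp only [lin, Tm.eval]
    split_ifs with h
    · exact eqP_trans hP (sup_right hP h) (iht (le_of_max_le_right h1))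
    · have h2 := (cle_total hpr (s.eval x) (t.eval x)).resolve_left h
      rw [sup_comm]
      exact eqP_trans hP (sup_right hP h2) (ihs (le_of_max_le_left h1))

/-- Integer value of a form. -/
def idot (n : ℕ) (a z : ℕ → ℤ) : ℤ := ∑ i ∈ Finset.range n, a i * z i

theorem idot_add (n : ℕ) (a b z : ℕ → ℤ) : idot n (a + b) z = idot n a z + idot n b z := by
  unfold idot
  rw [← Finset.sum_add_distrib]
  apply Finset.sum_congr rfl
  intro i _
  rw [Pi.add_apply]
  ring

theorem idot_neg (n : ℕ) (a z : ℕ → ℤ) : idot n (-a) z = -idot n a z := by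
  unfold idot
  rw [← Finset.sum_neg_distrib]
  apply Finset.sum_congr rfl
  intro i _
  rw [Pi.neg_apply]
  ring

theorem idot_single (n i : ℕ) (z : ℕ → ℤ) (h : i < n) : idot n (Pi.single i 1) z = z i := by
  unfold idot
  rw [Finset.sum_eq_single i]
  · rw [Pi.single_eq_same, one_mul]
  · intro j _ hj
    rw [Pi.single_eq_of_ne hj, zero_mul]
  · intro h1
    exact absurd (Finset.mem_range.2 h) h1

include hcomm hP in
/-- A solution of the comparisons evaluates terms linearly. -/
theorem eval_int (hpr : ∀ a b : H, a ⊓ b = 1 → a ∈ P ∨ b ∈ P) (n : ℕ) (z : ℕ → ℤ) (t : Tm)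
    (hn : t.bd ≤ n)
    (hz : ∀ d ∈ nodes P x t, (cle P 1 (val x n d) → 0 ≤ idot n d z) ∧
      (cle P (val x n d) 1 → idot n d z ≤ 0)) :
    Multiplicative.toAdd (t.eval fun i => Multiplicative.ofAdd (z i)) =
      idot n (lin P x t) z := by
  have hdiff : ∀ s t : Tm, s.bd ≤ n → t.bd ≤ n →
      (cle P (s.eval x) (t.eval x) → cle P 1 (val x n (lin P x t + -lin P x s))) ∧
      (cle P (t.eval x) (s.eval x) → cle P (val x n (lin P x t + -lin P x s)) 1) := by
    intro s t hs ht
    have h1 := eval_lin hcomm hP x hpr n s hs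
    have h2 := eval_lin hcomm hP x hpr n t ht
    rw [val_add hcomm, val_neg hcomm]
    constructor
    · intro h
      have h3 : cle P (val x n (lin P x s)) (val x n (lin P x t)) :=
        cle_trans hP h1.2 (cle_trans hP h h2.1)
      have h4 := (cle_mul' hcomm (val x n (lin P x s))⁻¹).2 h3
      rwa [mul_inv_cancel] at h4
    · intro h
      have h3 : cle P (val x n (lin P x t)) (val x n (lin P x s)) :=
        cle_trans hP h2.2 (cle_trans hP h h1.1)
      have h4 := (cle_mul' hcomm (val x n (lin P x s))⁻¹).2 h3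
      rwa [mul_inv_cancel] at h4
  induction t with
  | var i =>
    have h1 : i + 1 ≤ n := hn
    simp only [lin, Tm.eval, idot_single n i z (by omega)]
    rfl
  | one =>
    simp only [lin, Tm.eval, toAdd_one]
    unfold idot
    simp
  | mul s t ihs iht =>
    have h1 : max s.bd t.bd ≤ n := hn
    simp only [lin, Tm.eval, toAdd_mul, idot_add]
    rw [ihs (le_of_max_le_left h1) fun d hd => hz d (List.mem_append_left _ hd),
      iht (le_of_max_le_right h1) fun d hd => hz d (List.mem_append_right _ hd)]
  | inv t ih =>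
    simp only [lin, Tm.eval, toAdd_inv, idot_neg]
    rw [ih hn hz]
  | inf s t ihs iht =>
    have h1 : max s.bd t.bd ≤ n := hn
    have hs := ihs (le_of_max_le_left h1) fun d hd =>
      hz d (List.mem_cons_of_mem _ (List.mem_append_left _ hd))
    have ht := iht (le_of_max_le_right h1) fun d hd =>
      hz d (List.mem_cons_of_mem _ (List.mem_append_right _ hd))
    obtain ⟨h2, h3⟩ := hz _ List.mem_cons_self
    obtain ⟨h4, h5⟩ := hdiff s t (le_of_max_le_left h1) (le_of_max_le_right h1)
    rw [idot_add, idot_neg] at h2 h3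
    simp only [lin, Tm.eval]
    change min (Multiplicative.toAdd (s.eval fun i => Multiplicative.ofAdd (z i)))
      (Multiplicative.toAdd (t.eval fun i => Multiplicative.ofAdd (z i))) = _
    rw [hs, ht]
    split_ifs with h
    · have := h2 (h4 h)
      rw [min_eq_left (by omega)]
    · have := h3 (h5 ((cle_total hpr (s.eval x) (t.eval x)).resolve_left h))
      rw [min_eq_right (by omega)]
  | sup s t ihs iht =>
    have h1 : max s.bd t.bd ≤ n := hn
    have hs := ihs (le_of_max_le_left h1) fun d hd =>
      hz d (List.mem_cons_of_mem _ (List.mem_append_left _ hd))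
    have ht := iht (le_of_max_le_right h1) fun d hd =>
      hz d (List.mem_cons_of_mem _ (List.mem_append_right _ hd))
    obtain ⟨h2, h3⟩ := hz _ List.mem_cons_self
    obtain ⟨h4, h5⟩ := hdiff s t (le_of_max_le_left h1) (le_of_max_le_right h1)
    rw [idot_add, idot_neg] at h2 h3
    simp only [lin, Tm.eval]
    change max (Multiplicative.toAdd (s.eval fun i => Multiplicative.ofAdd (z i)))
      (Multiplicative.toAdd (t.eval fun i => Multiplicative.ofAdd (z i))) = _
    rw [hs, ht]
    split_ifs with h
    · have := h2 (h4 h)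
      rw [max_eq_right (by omega)]
    · have := h3 (h5 ((cle_total hpr (s.eval x) (t.eval x)).resolve_left h))
      rw [max_eq_left (by omega)]

include hcomm hP in
theorem pz (n : ℕ) :
    PZ (fun a => val x n a ∉ P ∧ cle P 1 (val x n a)) (fun a => val x n a ∈ P) where
  add a b h1 h2 := by
    rw [val_add hcomm]
    have h3 : cle P (val x n a) (val x n a * val x n b) := by
      have := (cle_mul (P := P) (a := 1) (b := val x n b) (val x n a)).2 h2.2
      rwa [mul_one] at this
    refine ⟨fun h4 => ?_, cle_trans hP h1.2 h3⟩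
    apply h1.1
    exact mem_of_cle hP (cle_trans hP h3 (eqP_one_of_mem hP h4).1) h1.2
  addz a b h1 h2 := by
    rw [val_add hcomm]
    have h5 := eqP_one_of_mem hP h2
    have h3 : cle P (val x n a) (val x n a * val x n b) := by
      have := (cle_mul (P := P) (a := 1) (b := val x n b) (val x n a)).2 h5.2
      rwa [mul_one] at this
    refine ⟨fun h4 => ?_, cle_trans hP h1.2 h3⟩
    apply h1.1
    exact mem_of_cle hP (cle_trans hP h3 (eqP_one_of_mem hP h4).1) h1.2
  zz a b h1 h2 := by
    rw [val_add hcomm]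
    exact hP.mul _ h1 _ h2
  neg a h := by
    rw [val_neg hcomm]
    exact hP.inv _ h
  zero := by
    rw [val_zero]
    exact hP.one
  nz h := by
    rw [val_zero] at h
    exact h.1 hP.one

include hcomm in
/-- A quasi-identity of the integers holds in every abelian lattice-ordered group. -/
theorem weinberg {φ : QId} (hφ : φ.Holds (Multiplicative ℤ)) : φ.Holds H := by
  classical
  intro x hx
  by_contra hne
  have hw : (φ.concl.2.eval x)⁻¹ * φ.concl.1.eval x ≠ 1 := by
    intro h
    apply hne
    rw [inv_mul_eq_one] at h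
    exact h.symm
  obtain ⟨P, hP, hwP, hpr⟩ := exists_prime hw
  obtain ⟨n, hn⟩ := exists_bd (φ.concl :: φ.prem)
  -- all forms
  let F : Tm × Tm → List (ℕ → ℤ) := fun e =>
    (lin P x e.1 + -lin P x e.2) :: (nodes P x e.1 ++ nodes P x e.2)
  let A : List (ℕ → ℤ) := (φ.concl :: φ.prem).flatMap F
  have hA : ∀ e ∈ φ.concl :: φ.prem, ∀ d ∈ F e, d ∈ A := fun e he d hd =>
    List.mem_flatMap.2 ⟨e, he, hd⟩
  have hAs : ∀ d ∈ A, ∀ i, n ≤ i → d i = 0 := by
    intro d hd i hi
    obtain ⟨e, he, hd⟩ := List.mem_flatMap.1 hd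
    obtain ⟨h1, h2⟩ := hn e he
    rcases List.mem_cons.1 hd with h3 | h3
    · rw [h3, Pi.add_apply, Pi.neg_apply, lin_supp P x _ i (h1.trans hi),
        lin_supp P x _ i (h2.trans hi)]
      rfl
    · rcases List.mem_append.1 h3 with h3 | h3
      · exact nodes_supp P x _ d h3 i (h1.trans hi)
      · exact nodes_supp P x _ d h3 i (h2.trans hi)
  let S1 := A.filter fun a => decide (val x n a ∉ P ∧ cle P 1 (val x n a))
  let S2 := (A.filter fun a => decide (val x n (-a) ∉ P ∧ cle P 1 (val x n (-a)))).map
    fun a => -a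
  let E := A.filter fun a => decide (val x n a ∈ P)
  obtain ⟨z, hz1, hz2⟩ := (pz hcomm hP x n).exists_int_sol n (S1 ++ S2) E
    (by
      intro a ha
      rcases List.mem_append.1 ha with h | h
      · have h1 := List.mem_filter.1 h
        exact ⟨of_decide_eq_true h1.2, hAs a h1.1⟩
      · obtain ⟨b, hb, rfl⟩ := List.mem_map.1 h
        have h1 := List.mem_filter.1 hb
        refine ⟨of_decide_eq_true h1.2, fun i hi => ?_⟩
        rw [Pi.neg_apply, hAs b h1.1 i hi]
        rfl)
    (by
      intro a ha
      have h1 := List.mem_filter.1 ha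
      exact ⟨of_decide_eq_true h1.2, hAs a h1.1⟩)
  have hnegval : ∀ a, cle P (val x n a) 1 → cle P 1 (val x n (-a)) := by
    intro a h
    rw [val_neg hcomm]
    have := cle_inv hcomm h
    rwa [inv_one] at this
  have hsign : ∀ d ∈ A, (cle P 1 (val x n d) → 0 ≤ idot n d z) ∧
      (cle P (val x n d) 1 → idot n d z ≤ 0) := by
    intro d hd
    constructor
    · intro h
      by_cases hm : val x n d ∈ P
      · exact (hz2 d (List.mem_filter.2 ⟨hd, decide_eq_true hm⟩)).ge
      · exact (hz1 d (List.mem_append_left _ (List.mem_filter.2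
          ⟨hd, decide_eq_true ⟨hm, h⟩⟩))).le
    · intro h
      by_cases hm : val x n d ∈ P
      · exact (hz2 d (List.mem_filter.2 ⟨hd, decide_eq_true hm⟩)).le
      · have hm' : val x n (-d) ∉ P := by
          intro h1
          apply hm
          have h2 := hP.inv _ h1
          rwa [val_neg hcomm, inv_inv] at h2
        have h3 := hz1 (-d) (List.mem_append_right _ (List.mem_map.2
          ⟨d, List.mem_filter.2 ⟨hd, decide_eq_true ⟨hm', hnegval d h⟩⟩, rfl⟩))
        have h4 : 0 < idot n (-d) z := h3
        rw [idot_neg] at h4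
        omega
  have hev : ∀ e ∈ φ.concl :: φ.prem,
      Multiplicative.toAdd (e.1.eval fun i => Multiplicative.ofAdd (z i)) =
        idot n (lin P x e.1) z ∧
      Multiplicative.toAdd (e.2.eval fun i => Multiplicative.ofAdd (z i)) =
        idot n (lin P x e.2) z := by
    intro e he
    obtain ⟨h1, h2⟩ := hn e he
    exact ⟨eval_int hcomm hP x hpr n z e.1 h1 fun d hd => hsign d (hA e he d
        (List.mem_cons_of_mem _ (List.mem_append_left _ hd))),
      eval_int hcomm hP x hpr n z e.2 h2 fun d hd => hsign d (hA e he d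
        (List.mem_cons_of_mem _ (List.mem_append_right _ hd)))⟩
  have hdiffval : ∀ e ∈ φ.concl :: φ.prem,
      eqP P (val x n (lin P x e.1 + -lin P x e.2)) (e.1.eval x * (e.2.eval x)⁻¹) := by
    intro e he
    obtain ⟨h1, h2⟩ := hn e he
    rw [val_add hcomm, val_neg hcomm]
    exact eqP_mul hcomm hP (eqP_symm (eval_lin hcomm hP x hpr n e.1 h1))
      (eqP_inv hcomm (eqP_symm (eval_lin hcomm hP x hpr n e.2 h2)))
  have hcon := hφ (fun i => Multiplicative.ofAdd (z i)) (by
    intro e he
    have he' := List.mem_cons_of_mem φ.concl he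
    obtain ⟨h1, h2⟩ := hev e he'
    apply Multiplicative.toAdd.injective
    rw [h1, h2]
    have h3 := hdiffval e he'
    rw [hx e he, mul_inv_cancel] at h3
    have h4 := (hsign _ (hA e he' _ List.mem_cons_self)).1 h3.2
    have h5 := (hsign _ (hA e he' _ List.mem_cons_self)).2 h3.1
    rw [idot_add, idot_neg] at h4 h5
    omega)
  have hc := List.mem_cons_self (a := φ.concl) (l := φ.prem)
  obtain ⟨h1, h2⟩ := hev φ.concl hc
  have h3 : idot n (lin P x φ.concl.1) z = idot n (lin P x φ.concl.2) z := by
    rw [← h1, ← h2, hcon]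
  set d := lin P x φ.concl.1 + -lin P x φ.concl.2 with hd
  have hdA : d ∈ A := hA φ.concl hc _ List.mem_cons_self
  have hd0 : idot n d z = 0 := by
    rw [hd, idot_add, idot_neg, h3]
    ring
  have h5 := hdiffval φ.concl hc
  rw [← hd] at h5
  have hdP : val x n d ∉ P := by
    intro h6
    apply hwP
    have h7 := eqP_trans hP (eqP_symm h5) (eqP_one_of_mem hP h6)
    rw [hcomm]
    exact mem_of_cle hP h7.1 h7.2
  rcases cle_total hpr 1 (val x n d) with h6 | h6
  · have h7 := hz1 d (List.mem_append_left _ (List.mem_filter.2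
      ⟨hdA, decide_eq_true ⟨hdP, h6⟩⟩))
    have h8 : 0 < idot n d z := h7
    omega
  · have hm' : val x n (-d) ∉ P := by
      intro h1
      apply hdP
      have h2 := hP.inv _ h1
      rwa [val_neg hcomm, inv_inv] at h2
    have h7 := hz1 (-d) (List.mem_append_right _ (List.mem_map.2
      ⟨d, List.mem_filter.2 ⟨hdA, decide_eq_true ⟨hm', hnegval d h6⟩⟩, rfl⟩))
    have h8 : 0 < idot n (-d) z := h7
    rw [idot_neg] at h8
    omega

end

/-- The integers embed into `Aut(Ω)` as soon as it is not trivial. -/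
theorem exists_int_emb {Ω : Type u} [LinearOrder Ω] (h : ∃ g : Ω ≃o Ω, g ≠ 1) :
    ∃ F : LHom (Multiplicative ℤ) (Ω ≃o Ω), Function.Injective F := by
  obtain ⟨g, hg⟩ := h
  obtain ⟨x, hx⟩ : ∃ x, g x ≠ x := by
    by_contra hc
    push Not at hc
    exact hg (OrderIso.ext (funext hc))
  obtain ⟨f, hf, _⟩ := exists_pos (app_mem_self g x) hx
  have hp : ∀ z ∈ bump f x, StrictMono fun n : ℤ => ((loc f x) ^ n) z := by
    intro z hz
    apply zp_strictMono
    rw [loc_mem hz]
    exact lt_of_mem_bump hf hz
  refine ⟨⟨fun n => (loc f x) ^ (Multiplicative.toAdd n), ?_, ?_⟩, ?_⟩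
  · intro a b
    rw [toAdd_mul, zpow_add]
  · intro a b
    apply OrderIso.ext
    funext z
    rw [sup_app]
    by_cases hz : z ∈ bump f x
    · exact ((hp z hz).monotone.map_max (a := Multiplicative.toAdd a)
        (b := Multiplicative.toAdd b))
    · rw [loc_zp_not_mem hz, loc_zp_not_mem hz, loc_zp_not_mem hz, max_self]
  · intro a b hab
    have h1 := congrArg (fun F : Ω ≃o Ω => F x) hab
    exact Multiplicative.toAdd.injective ((hp x (self_mem_bump f x)).injective h1)

/-- Quasi-identities of a nontrivial `Aut(Ω)` hold in all abelian lattice-ordered groups. -/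
theorem abelian_holds {Ω : Type u} [LinearOrder Ω] (h : ∃ g : Ω ≃o Ω, g ≠ 1) {φ : QId}
    (hφ : φ.Holds (Ω ≃o Ω)) {H : Type v} [LGroup H] (hcomm : ∀ a b : H, a * b = b * a) :
    φ.Holds H := by
  obtain ⟨F, hF⟩ := exists_int_emb h
  exact weinberg hcomm (F.holds hF hφ)

end Pool.Agent.Helper56.QV
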